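import Pool.Agent.Lib.QE.CSt

/-!
Project QD, module A3P: local invariance under `X ↦ (Y - s)X`.
-/

namespace QE

variable {𝔽 : Type} [Field 𝔽]

namespace A3PAux

section ord
variable {M : Type} [Field M] [Algebra 𝔽 M] (Pl : Places 𝔽 M) (p : Pl.P)

theorem ord_one : Pl.ord p 1 = 0 := by
  have := Pl.con p 1 one_ne_zero
  rwa [map_one] at this

theorem ord_neg (f : M) (hf : f ≠ 0) : Pl.ord p (-f) = Pl.ord p f := by
  have h1 := Pl.con p (-1) (by norm_num)
  rw [map_neg, map_one] at h1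
  have h2 := Pl.mul p (-1) f (by norm_num) hf
  rw [neg_one_mul] at h2
  rw [h2, h1, zero_add]

theorem ord_inv (f : M) (hf : f ≠ 0) : Pl.ord p f⁻¹ = -Pl.ord p f := by
  have h2 := Pl.mul p f f⁻¹ hf (inv_ne_zero hf)
  rw [mul_inv_cancel₀ hf, ord_one] at h2
  linarith

theorem ord_pow (f : M) (hf : f ≠ 0) (n : ℕ) : Pl.ord p (f ^ n) = n * Pl.ord p f := by
  induction n with
  | zero => simp [ord_one]
  | succ n ih =>
    rw [pow_succ, Pl.mul p _ _ (pow_ne_zero n hf) hf, ih]
    push_cast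
    ring

theorem ord_zpow (f : M) (hf : f ≠ 0) (n : ℤ) : Pl.ord p (f ^ n) = n * Pl.ord p f := by
  rcases n with n | n
  · simp [ord_pow Pl p f hf]
  · rw [zpow_negSucc, ord_inv Pl p _ (pow_ne_zero _ hf), ord_pow Pl p f hf, Int.negSucc_eq]
    push_cast
    ring

/-- `f = 0` or `N ≤ ord f` -/
def GE (f : M) (N : ℤ) : Prop := f = 0 ∨ N ≤ Pl.ord p f

theorem GE.add {f g : M} {N : ℤ} (hf : GE Pl p f N) (hg : GE Pl p g N) : GE Pl p (f + g) N := by
  by_cases f0 : f = 0
  · subst f0; rwa [zero_add]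
  by_cases g0 : g = 0
  · subst g0; rwa [add_zero]
  by_cases h0 : f + g = 0
  · exact Or.inl h0
  right
  have := Pl.add p f g f0 g0 h0
  exact le_trans (le_min (hf.resolve_left f0) (hg.resolve_left g0)) this

theorem GE.mul {f g : M} {N N' : ℤ} (hf : GE Pl p f N) (hg : GE Pl p g N') : GE Pl p (f * g) (N + N') := by
  by_cases f0 : f = 0
  · subst f0; left; rw [zero_mul]
  by_cases g0 : g = 0
  · subst g0; left; rw [mul_zero]
  right
  rw [Pl.mul p f g f0 g0]
  exact add_le_add (hf.resolve_left f0) (hg.resolve_left g0)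

theorem GE.neg {f : M} {N : ℤ} (hf : GE Pl p f N) : GE Pl p (-f) N := by
  rcases hf with rfl | h
  · left; simp
  · by_cases f0 : f = 0
    · left; simp [f0]
    · right; rwa [ord_neg Pl p f f0]

/-- strict ultrametric equality -/
theorem ord_add_of_lt {f g : M} (hf : f ≠ 0) {N : ℤ} (hN : Pl.ord p f < N) (hg : GE Pl p g N) :
    f + g ≠ 0 ∧ Pl.ord p (f + g) = Pl.ord p f := by
  rcases hg with rfl | hg
  · simp [hf]
  by_cases g0 : g = 0
  · simp [hf, g0]
  have hne : f + g ≠ 0 := by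
    intro h
    have h1 : f = -g := eq_neg_of_add_eq_zero_left h
    have h2 := ord_neg Pl p g g0
    rw [← h1] at h2
    omega
  refine ⟨hne, ?_⟩
  have h1 := Pl.add p f g hf g0 hne
  have h2 := Pl.add p (f + g) (-g) hne (neg_ne_zero.2 g0) (by simpa using hf)
  rw [add_neg_cancel_right, ord_neg Pl p g g0] at h2
  rcases min_le_iff.1 h2 with h3 | h3
  · rcases min_le_iff.1 h1 with h4 | h4 <;> omega
  · omega

theorem ord_sub_const_pos {Y : M} (c : 𝔽) (hc : c ≠ 0) (h : 0 < Pl.ord p Y) :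
    Pl.ord p (Y - algebraMap 𝔽 M c) = 0 := by
  have hc' : algebraMap 𝔽 M c ≠ 0 := (map_ne_zero _).2 hc
  have h1 := (ord_add_of_lt Pl p (f := -algebraMap 𝔽 M c) (g := Y) (neg_ne_zero.2 hc') (N := Pl.ord p Y)
    (by rw [ord_neg Pl p _ hc', Pl.con p c hc]; exact h) (Or.inr le_rfl)).2
  rw [ord_neg Pl p _ hc', Pl.con p c hc] at h1
  rw [sub_eq_neg_add, h1]

theorem ord_sub_const_neg {Y : M} (hY : Y ≠ 0) (c : 𝔽) (h : Pl.ord p Y < 0) :
    Pl.ord p (Y - algebraMap 𝔽 M c) = Pl.ord p Y := by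
  by_cases hc : c = 0
  · simp [hc]
  have hc' : algebraMap 𝔽 M c ≠ 0 := (map_ne_zero _).2 hc
  rw [sub_eq_add_neg]
  exact (ord_add_of_lt Pl p (f := Y) (g := -algebraMap 𝔽 M c) hY (N := 0) h
    (Or.inr (by rw [ord_neg Pl p _ hc', Pl.con p c hc]))).2

theorem ge_const (c : 𝔽) : GE Pl p (algebraMap 𝔽 M c) 0 := by
  by_cases hc : c = 0
  · left; simp [hc]
  · right; rw [Pl.con p c hc]

theorem ord_sub_const_zero {Y : M} (c : 𝔽) (hYc : Y - algebraMap 𝔽 M c ≠ 0) (h : Pl.ord p Y = 0) :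
    0 ≤ Pl.ord p (Y - algebraMap 𝔽 M c) := by
  have h1 : GE Pl p (Y - algebraMap 𝔽 M c) 0 := by
    rw [sub_eq_add_neg]
    exact GE.add Pl p (Or.inr h.ge) (GE.neg Pl p (ge_const Pl p c))
  exact h1.resolve_left hYc

/-- `U^m - 1` for `U` close to `1` -/
theorem ge_zpow_sub_one {U : M} (hU : U ≠ 0) (hU0 : Pl.ord p U = 0) {N : ℤ} (h : GE Pl p (U - 1) N)
    (m : ℤ) : GE Pl p (U ^ m - 1) N := by
  have hnat : ∀ n : ℕ, GE Pl p (U ^ n - 1) N := by
    intro n
    induction n with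
    | zero => left; simp
    | succ n ih =>
      have e : U ^ (n + 1) - 1 = U ^ n * (U - 1) + (U ^ n - 1) := by ring
      rw [e]
      refine GE.add Pl p ?_ ih
      have h2 : GE Pl p (U ^ n) 0 := Or.inr (by rw [ord_pow Pl p U hU, hU0, mul_zero])
      simpa using GE.mul Pl p h2 h
  rcases m with n | n
  · simpa using hnat n
  · have e : U ^ (Int.negSucc n) - 1 = -(U ^ (Int.negSucc n)) * (U ^ (n + 1) - 1) := by
      have : U ^ (n + 1) ≠ 0 := pow_ne_zero _ hU
      rw [zpow_negSucc]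
      field_simp
      ring
    rw [e]
    have h2 : GE Pl p (-(U ^ (Int.negSucc n))) 0 :=
      GE.neg Pl p (Or.inr (by rw [ord_zpow Pl p U hU, hU0, mul_zero]))
    simpa using GE.mul Pl p h2 (hnat (n + 1))

/-- the truncated minimum only depends on `f` up to terms of order `N` -/
theorem min_eq {f h : M} (hf : f ≠ 0) (hfh : f + h ≠ 0) {N A g : ℤ} (hg : 1 ≤ g) (hN : 0 ≤ N) (hA : A ≤ N)
    (hh : GE Pl p h N) :
    min A (g * max 0 (Pl.ord p (f + h))) = min A (g * max 0 (Pl.ord p f)) := by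
  rcases lt_or_ge (Pl.ord p f) N with hlt | hge
  · rw [(ord_add_of_lt Pl p hf hlt hh).2]
  · have h1 : GE Pl p (f + h) N := GE.add Pl p (Or.inr hge) hh
    have h2 := h1.resolve_left hfh
    have h3 : A ≤ g * max 0 (Pl.ord p (f + h)) := by
      have : N ≤ max 0 (Pl.ord p (f + h)) := le_trans h2 (le_max_right _ _)
      nlinarith
    have h4 : A ≤ g * max 0 (Pl.ord p f) := by
      have : N ≤ max 0 (Pl.ord p f) := le_trans hge (le_max_right _ _)
      nlinarith
    rw [min_eq_left h3, min_eq_left h4]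

end ord

theorem ray_iff (b w : ℤ × ℤ) (h : 0 < b.2 * w.2) : ray b w ↔ b.1 * w.2 = b.2 * w.1 := by
  unfold ray
  refine ⟨fun h => h.1, fun h1 => ⟨h1, ?_⟩⟩
  have hw : w.2 ≠ 0 := by rintro h0; rw [h0] at h; simp at h
  have h2 : (b.1 * w.1) * w.2 ^ 2 = (b.2 * w.2) * w.1 ^ 2 := by
    calc (b.1 * w.1) * w.2 ^ 2 = (b.1 * w.2) * (w.1 * w.2) := by ring
      _ = (b.2 * w.1) * (w.1 * w.2) := by rw [h1]
      _ = (b.2 * w.2) * w.1 ^ 2 := by ring
  have h3 : 0 ≤ b.1 * w.1 := by
    by_contra hneg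
    push Not at hneg
    have h4 : 0 < w.2 ^ 2 := by positivity
    have h5 : 0 ≤ (b.2 * w.2) * w.1 ^ 2 := by positivity
    nlinarith
  linarith

theorem not_ray (b w : ℤ × ℤ) (hw : w.2 ≠ 0) (h : b.2 * w.2 ≤ 0) : ¬ ray b w := by
  rintro ⟨h1, h2⟩
  have h3 : (b.1 * w.1) * w.2 ^ 2 = (b.2 * w.2) * w.1 ^ 2 := by
    calc (b.1 * w.1) * w.2 ^ 2 = (b.1 * w.2) * (w.1 * w.2) := by ring
      _ = (b.2 * w.1) * (w.1 * w.2) := by rw [h1]
      _ = (b.2 * w.2) * w.1 ^ 2 := by ring
  have h4 : 0 < w.2 ^ 2 := by positivity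
  have h5 : (b.2 * w.2) * w.1 ^ 2 ≤ 0 := mul_nonpos_of_nonpos_of_nonneg h (by positivity)
  have h6 : b.1 * w.1 ≤ 0 := by
    by_contra hpos
    push Not at hpos
    nlinarith
  linarith

theorem gg_pos (b : ℤ × ℤ) (h : b.2 ≠ 0) : 1 ≤ gg b := by
  unfold gg
  have : 0 < Int.gcd b.1 b.2 := Int.gcd_pos_of_ne_zero_right _ h
  exact_mod_cast this

theorem gg_le (b : ℤ × ℤ) (h : b.2 ≠ 0) : gg b ≤ |b.2| := by
  unfold gg
  have h1 : Int.gcd b.1 b.2 ∣ b.2.natAbs := Int.gcd_dvd_natAbs_right _ _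
  have h2 := Nat.le_of_dvd (Int.natAbs_pos.2 h) h1
  rw [Int.abs_eq_natAbs]
  exact_mod_cast h2

theorem gg_shear (b : ℤ × ℤ) : gg (b.1 + b.2, b.2) = gg b := by
  unfold gg
  simp

theorem gg_dvd_left (b : ℤ × ℤ) : gg b ∣ b.1 := Int.gcd_dvd_left _ _
theorem gg_dvd_right (b : ℤ × ℤ) : gg b ∣ b.2 := Int.gcd_dvd_right _ _

theorem al3_snd (s : 𝔽) (b : (Blk 𝔽)) : (al3 s b).1.2 = b.1.2 := by
  unfold al3
  split_ifs with h1 h2 h3
  all_goals first | rfl | (have h4 : b.1.2 = 0 := by omega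
                           rw [h4])

section
variable {M : Type} [Field M] [Algebra 𝔽 M] (Pl : Places 𝔽 M) (p : Pl.P)

/-- away from `ord Y = 0` only blocks on the side of `w` count -/
theorem xs_zero {X Y : M} {b : (Blk 𝔽)} (hY : Pl.ord p Y ≠ 0) (h : b.1.2 * Pl.ord p Y ≤ 0) :
    xs Pl p X Y b = 0 := by
  unfold xs mm
  rw [if_neg hY, if_neg (not_lt.2 h), if_neg (not_ray b.1 (ow Pl p X Y) hY h)]
  simp

/-- comparison of two blocks -/
theorem xs_cmp {X Y X' : M} {b b' : (Blk 𝔽)} (hY0 : Pl.ord p Y ≠ 0) (hpos : 0 < b.1.2 * Pl.ord p Y)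
    (h2 : b'.1.2 = b.1.2)
    (hwed : wed b'.1 (ow Pl p X' Y) = wed b.1 (ow Pl p X Y))
    (hgb : gg b'.1 = gg b.1) (hgw : gg (ow Pl p X' Y) = gg (ow Pl p X Y))
    (htau : ∃ (c : 𝔽) (h : M), c ≠ 0 ∧ tau X' Y b'.1 - algebraMap 𝔽 M b'.2 =
      algebraMap 𝔽 M c * ((tau X Y b.1 - algebraMap 𝔽 M b.2) + h) ∧
      (b.1.1 * Pl.ord p Y = b.1.2 * Pl.ord p X → GE Pl p h |Pl.ord p Y|))
    (hf : tau X Y b.1 - algebraMap 𝔽 M b.2 ≠ 0) (hf' : tau X' Y b'.1 - algebraMap 𝔽 M b'.2 ≠ 0) :
    xs Pl p X' Y b' = xs Pl p X Y b := by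
  obtain ⟨c, h, hc, he, hh⟩ := htau
  have hpos' : 0 < b'.1.2 * Pl.ord p Y := by rw [h2]; exact hpos
  unfold xs
  rw [if_neg hY0, if_neg hY0, if_pos hpos, if_pos hpos', hwed]
  congr 1
  congr 1
  unfold mm
  have hr : ray b'.1 (ow Pl p X' Y) ↔ ray b.1 (ow Pl p X Y) := by
    rw [ray_iff b.1 _ hpos, ray_iff b'.1 _ hpos']
    unfold wed at hwed
    constructor <;> intro h <;> omega
  by_cases hray : ray b.1 (ow Pl p X Y)
  · rw [if_pos hray, if_pos (hr.2 hray), hgb, hgw]
    have hc' : algebraMap 𝔽 M c ≠ 0 := (map_ne_zero _).2 hc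
    have hne : tau X Y b.1 - algebraMap 𝔽 M b.2 + h ≠ 0 := by
      intro h0
      rw [h0, mul_zero] at he
      exact hf' he
    have hord : Pl.ord p (tau X' Y b'.1 - algebraMap 𝔽 M b'.2) =
        Pl.ord p (tau X Y b.1 - algebraMap 𝔽 M b.2 + h) := by
      rw [he, Pl.mul p _ _ hc' hne, Pl.con p c hc, zero_add]
    rw [hord]
    have hb2 : b.1.2 ≠ 0 := by rintro h0; rw [h0] at hpos; simp at hpos
    refine min_eq Pl p hf hne (N := |Pl.ord p Y|) (gg_pos _ hb2) (abs_nonneg _) ?_ (hh hray.1)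
    exact gg_le (ow Pl p X Y) hY0
  · rw [if_neg hray, if_neg (fun h => hray (hr.1 h))]

end

theorem sb_plus (s : 𝔽) : sb ((1, 0), s⁻¹) = s := by
  unfold sb
  simp

end A3PAux

open A3PAux in
theorem stA3P (hInd : StInd 𝔽) : StA3P 𝔽 := by
  intro M _ _ Pl X Y s b hs hI hb p
  obtain ⟨hYX, hXi, hX0, hP, hmon, -⟩ := hInd M X Y hI
  have hY0 : Y ≠ 0 := (hInd M Y X hYX).2.2.1
  have hYc : ∀ c : 𝔽, Y - algebraMap 𝔽 M c ≠ 0 := by
    intro c h0
    have h1 := (hP (Polynomial.X - Polynomial.C c) (Polynomial.X_sub_C_ne_zero c)).1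
    apply h1
    simpa using h0
  have hI' : Ind 𝔽 ((Y - algebraMap 𝔽 M s) * X) Y := by
    have h1 := (hP (Polynomial.X - Polynomial.C s) (Polynomial.X_sub_C_ne_zero s)).2
    simpa using h1
  have htau : ∀ (X : M), Ind 𝔽 X Y → ∀ (b : ℤ × ℤ) (t : 𝔽), b.2 ≠ 0 → tau X Y b - algebraMap 𝔽 M t ≠ 0 := by
    intro X hI b t hb h0
    have h1 := (hInd M X Y hI).2.2.2.2.1 (b.2 / gg b) (-(b.1 / gg b)) (by
      intro h2
      have h3 : b.2 / gg b = 0 := congrArg Prod.fst h2
      have h4 := Int.ediv_mul_cancel (gg_dvd_right b)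
      rw [h3, zero_mul] at h4
      exact hb h4.symm) t
    apply h1
    exact sub_eq_zero.1 h0
  set X' := (Y - algebraMap 𝔽 M s) * X with hX'
  have hordX' : Pl.ord p X' = Pl.ord p (Y - algebraMap 𝔽 M s) + Pl.ord p X :=
    Pl.mul p _ _ (hYc s) hX0
  rcases eq_or_ne (Pl.ord p Y) 0 with hw2 | hw2
  · -- `ord Y = 0`
    rw [if_pos hw2]
    set j := Pl.ord p (Y - algebraMap 𝔽 M s) with hj
    have hj0 : 0 ≤ j := ord_sub_const_zero Pl p s (hYc s) hw2
    have hplus : xs Pl p X' Y ((1, 0), s⁻¹) = 2 * (|Pl.ord p X| - |Pl.ord p X'|) := by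
      unfold xs jj
      rw [if_pos hw2, if_pos rfl, sb_plus, ← hj, max_eq_right hj0, hordX']
      simp
    by_cases hb2 : b.1.2 = 0
    · rw [hb2]
      by_cases hsb : b.1.1 ≠ 0 ∧ sb b = s
      · have h1 : al3 s b = ((b.1.1 + 1, 0), if 0 < b.1.1 + 1 then s⁻¹ else s) := by
          unfold al3
          rw [if_neg (by omega), if_neg (by omega), if_pos hsb]
        have h2 : sb (al3 s b) = s := by
          rw [h1]
          unfold sb
          simp only
          split_ifs <;> simp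
        have h3 : zz s b = -1 := by
          unfold zz
          rw [if_pos ⟨hb2, hsb⟩, hb2]
          simp
        rw [h3, hplus]
        have h4 : xs Pl p X' Y (al3 s b) = 2 * (|Pl.ord p X' - (b.1.1 + 1) * j| - |Pl.ord p X'|) := by
          unfold xs jj
          rw [if_pos hw2, if_pos (by rw [h1]), h2, ← hj, max_eq_right hj0]
          rw [h1]
          simp
        have h5 : xs Pl p X Y b = 2 * (|Pl.ord p X - b.1.1 * j| - |Pl.ord p X|) := by
          unfold xs jj
          rw [if_pos hw2, if_pos hb2, hsb.2, ← hj, max_eq_right hj0, hb2]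
          simp
        rw [h4, h5, hordX']
        have h6 : j + Pl.ord p X - (b.1.1 + 1) * j = Pl.ord p X - b.1.1 * j := by ring
        rw [h6]
        ring
      · have h1 : al3 s b = b := by
          unfold al3
          rw [if_neg (by omega), if_neg (by omega), if_neg hsb]
        have h3 : zz s b = 0 := by
          unfold zz
          rw [if_neg (fun h => hsb h.2), hb2]
          simp
        rw [h1, h3]
        have h5 : ∀ Z : M, xs Pl p Z Y b = 2 * (|Pl.ord p Z - b.1.1 * jj Pl p Y b| - |Pl.ord p Z|) := by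
          intro Z
          unfold xs
          rw [if_pos hw2, if_pos hb2, hb2]
          simp
        rw [h5, h5]
        rcases eq_or_ne b.1.1 0 with hb1 | hb1
        · rw [hb1]; simp
        · have hne : sb b ≠ s := fun h => hsb ⟨hb1, h⟩
          rcases hj0.eq_or_lt with hj00 | hjpos
          · rw [hordX', ← hj00]; simp
          · have h6 : jj Pl p Y b = 0 := by
              unfold jj
              have hc : sb b - s ≠ 0 := sub_ne_zero.2 hne
              have e : Y - algebraMap 𝔽 M (sb b) = -algebraMap 𝔽 M (sb b - s) + (Y - algebraMap 𝔽 M s) := by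
                rw [map_sub]; ring
              have hc' : algebraMap 𝔽 M (sb b - s) ≠ 0 := (map_ne_zero _).2 hc
              have h7 := (ord_add_of_lt Pl p (f := -algebraMap 𝔽 M (sb b - s))
                (g := Y - algebraMap 𝔽 M s) (neg_ne_zero.2 hc') (N := j)
                (by rw [ord_neg Pl p _ hc', Pl.con p _ hc]; exact hjpos) (Or.inr le_rfl)).2
              rw [e, h7, ord_neg Pl p _ hc', Pl.con p _ hc]
              simp
            rw [h6]
            simp
    · have h1 : (al3 s b).1.2 = b.1.2 := al3_snd s b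
      have h2 : ∀ (Z : M) (b' : (Blk 𝔽)), b'.1.2 = b.1.2 → xs Pl p Z Y b' = |b.1.2 * Pl.ord p Z| := by
        intro Z b' hb'
        unfold xs
        rw [if_pos hw2, if_neg (by rw [hb']; exact hb2), hb']
        simp
      have h3 : zz s b = max 0 b.1.2 := by
        unfold zz
        rw [if_neg (fun h => hb2 h.1)]
        simp
      rw [h2 X' _ h1, h2 X b rfl, h3, hplus, abs_mul, abs_mul]
      rcases lt_or_gt_of_ne hb2 with hneg | hpos
      · rw [max_eq_left hneg.le, abs_of_neg hneg]; ring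
      · rw [max_eq_right hpos.le, abs_of_pos hpos]; ring
  · -- `ord Y ≠ 0`
    rw [if_neg hw2]
    have hplus : xs Pl p X' Y ((1, 0), s⁻¹) = 0 := xs_zero Pl p hw2 (by simp)
    rw [hplus, mul_zero, add_zero, sub_eq_zero]
    by_cases hle : b.1.2 * Pl.ord p Y ≤ 0
    · rw [xs_zero Pl p hw2 hle, xs_zero Pl p hw2 (by rw [al3_snd]; exact hle)]
    push Not at hle
    have hb2 : b.1.2 ≠ 0 := by rintro h0; rw [h0] at hle; simp at hle
    have hord_tau : ∀ (X : M), X ≠ 0 → b.1.1 * Pl.ord p Y = b.1.2 * Pl.ord p X →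
        Pl.ord p (tau X Y b.1) = 0 := by
      intro X hX h
      unfold tau
      rw [Pl.mul p _ _ (zpow_ne_zero _ hX) (zpow_ne_zero _ hY0), ord_zpow Pl p X hX, ord_zpow Pl p Y hY0]
      have h4 := Int.ediv_mul_cancel (gg_dvd_right b.1)
      have h5 := Int.ediv_mul_cancel (gg_dvd_left b.1)
      have hg := gg_pos b.1 hb2
      have h6 : gg b.1 * (b.1.2 / gg b.1 * Pl.ord p X + -(b.1.1 / gg b.1) * Pl.ord p Y) = 0 := by
        calc gg b.1 * (b.1.2 / gg b.1 * Pl.ord p X + -(b.1.1 / gg b.1) * Pl.ord p Y)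
            = (b.1.2 / gg b.1 * gg b.1) * Pl.ord p X - (b.1.1 / gg b.1 * gg b.1) * Pl.ord p Y := by ring
          _ = 0 := by rw [h4, h5, h, sub_self]
      rcases mul_eq_zero.1 h6 with h7 | h7
      · omega
      · exact h7
    have hsM : algebraMap 𝔽 M s ≠ 0 := (map_ne_zero _).2 hs
    have hms : (-algebraMap 𝔽 M s) ≠ 0 := neg_ne_zero.2 hsM
    rcases lt_or_gt_of_ne hw2 with hneg | hpos
    · -- `ord Y < 0`, `b₂ < 0`
      have hb2n : b.1.2 < 0 := by nlinarith
      have h1 : al3 s b = ((b.1.1 + b.1.2, b.1.2), b.2) := by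
        unfold al3
        rw [if_neg (by omega), if_pos hb2n]
      have hj : Pl.ord p (Y - algebraMap 𝔽 M s) = Pl.ord p Y := ord_sub_const_neg Pl p hY0 s hneg
      rw [hj] at hordX'
      have hI2 := htau X' hI' (al3 s b).1 (al3 s b).2 (by rw [al3_snd]; exact hb2)
      apply xs_cmp Pl p hw2 hle (al3_snd s b) ?_ ?_ ?_ ?_ (htau X hI b.1 b.2 hb2) hI2
      · rw [h1]
        unfold wed ow
        simp only
        rw [hordX']
        ring
      · rw [h1]
        exact gg_shear b.1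
      · unfold ow
        rw [hordX', add_comm]
        exact gg_shear (Pl.ord p X, Pl.ord p Y)
      · set U : M := 1 - algebraMap 𝔽 M s * Y⁻¹ with hU
        have hYU : Y - algebraMap 𝔽 M s = Y * U := by
          rw [hU]; field_simp
        have hU0 : U ≠ 0 := by
          intro h0
          rw [h0, mul_zero] at hYU
          exact hYc s hYU
        have hU1 : GE Pl p (U - 1) |Pl.ord p Y| := by
          have : U - 1 = -(algebraMap 𝔽 M s * Y⁻¹) := by rw [hU]; ring
          rw [this]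
          apply GE.neg
          right
          rw [Pl.mul p _ _ hsM (inv_ne_zero hY0), Pl.con p s hs, ord_inv Pl p Y hY0, zero_add,
            abs_of_neg hneg]
        have hUord : Pl.ord p U = 0 := by
          have h5 := Pl.mul p Y U hY0 hU0
          rw [← hYU, hj] at h5
          omega
        set m := b.1.2 / gg b.1 with hm
        refine ⟨1, (U ^ m - 1) * tau X Y b.1, one_ne_zero, ?_, ?_⟩
        · rw [h1]
          simp only [map_one, one_mul]
          have e2 : tau X' Y (b.1.1 + b.1.2, b.1.2) = U ^ m * tau X Y b.1 := by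
            unfold tau
            simp only
            rw [gg_shear b.1, ← hm, Int.add_ediv_of_dvd_left (gg_dvd_left b.1), ← hm, hX', hYU, mul_zpow,
              mul_zpow, neg_add, zpow_add₀ hY0]
            have h6 : Y ^ m * Y ^ (-m) = 1 := by rw [← zpow_add₀ hY0]; simp
            calc Y ^ m * U ^ m * X ^ m * (Y ^ (-(b.1.1 / gg b.1)) * Y ^ (-m))
                = (Y ^ m * Y ^ (-m)) * (U ^ m * (X ^ m * Y ^ (-(b.1.1 / gg b.1)))) := by ring
              _ = _ := by rw [h6, one_mul]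
          rw [e2]
          ring
        · intro hcond
          have h7 := ge_zpow_sub_one Pl p hU0 hUord hU1 m
          have h8 : GE Pl p (tau X Y b.1) 0 := Or.inr (hord_tau X hX0 hcond).ge
          simpa using GE.mul Pl p h7 h8
    · -- `ord Y > 0`, `b₂ > 0`
      have hb2p : 0 < b.1.2 := by nlinarith
      have h1 : al3 s b = (b.1, b.2 * (-s) ^ (b.1.2 / gg b.1)) := by
        unfold al3
        rw [if_pos hb2p]
      have hj : Pl.ord p (Y - algebraMap 𝔽 M s) = 0 := ord_sub_const_pos Pl p s hs hpos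
      rw [hj, zero_add] at hordX'
      have how : ow Pl p X' Y = ow Pl p X Y := by unfold ow; rw [hordX']
      have hI2 := htau X' hI' (al3 s b).1 (al3 s b).2 (by rw [al3_snd]; exact hb2)
      apply xs_cmp Pl p hw2 hle (al3_snd s b) ?_ ?_ ?_ ?_ (htau X hI b.1 b.2 hb2) hI2
      · rw [h1, how]
      · rw [h1]
      · rw [how]
      · set U : M := 1 - (algebraMap 𝔽 M s)⁻¹ * Y with hU
        have hYU : Y - algebraMap 𝔽 M s = algebraMap 𝔽 M (-s) * U := by
          rw [hU, map_neg]; field_simp; ring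
        have hms' : algebraMap 𝔽 M (-s) ≠ 0 := (map_ne_zero _).2 (neg_ne_zero.2 hs)
        have hU0 : U ≠ 0 := by
          intro h0
          rw [h0, mul_zero] at hYU
          exact hYc s hYU
        have hU1 : GE Pl p (U - 1) |Pl.ord p Y| := by
          have : U - 1 = -((algebraMap 𝔽 M s)⁻¹ * Y) := by rw [hU]; ring
          rw [this]
          apply GE.neg
          right
          rw [Pl.mul p _ _ (inv_ne_zero hsM) hY0, ord_inv Pl p _ hsM, Pl.con p s hs, neg_zero, zero_add,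
            abs_of_pos hpos]
        have hUord : Pl.ord p U = 0 := by
          have h5 := Pl.mul p _ U hms' hU0
          rw [← hYU, hj, Pl.con p _ (neg_ne_zero.2 hs)] at h5
          omega
        set m := b.1.2 / gg b.1 with hm
        refine ⟨(-s) ^ m, (U ^ m - 1) * tau X Y b.1, zpow_ne_zero _ (neg_ne_zero.2 hs), ?_, ?_⟩
        · rw [h1]
          simp only
          have e2 : tau X' Y b.1 = algebraMap 𝔽 M (-s) ^ m * (U ^ m * tau X Y b.1) := by
            unfold tau
            rw [← hm, hX', hYU, mul_zpow, mul_zpow]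
            ring
          rw [e2, map_mul, map_zpow₀]
          ring
        · intro hcond
          have h7 := ge_zpow_sub_one Pl p hU0 hUord hU1 m
          have h8 : GE Pl p (tau X Y b.1) 0 := Or.inr (hord_tau X hX0 hcond).ge
          simpa using GE.mul Pl p h7 h8

end QE
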