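import Pool.Agent.Lib.QE.CSt

/-!
Project QE, module AT: the step `X ↦ ∏_{s ∈ T} (Y - s) X` as a composition of steps `act3`.
-/

namespace QE

variable (𝔽 : Type) [Field 𝔽]

namespace ATAux

variable {𝔽}

omit [Field 𝔽] in
theorem tot_add (e f : Blk 𝔽 →₀ ℤ) (g : Blk 𝔽 → ℤ) : tot (e + f) g = tot e g + tot f g := by
  classical
  unfold tot
  exact Finsupp.sum_add_index' (fun _ => by simp) (fun _ _ _ => by ring)

omit [Field 𝔽] in
theorem tot_zero (g : Blk 𝔽 → ℤ) : tot (0 : Blk 𝔽 →₀ ℤ) g = 0 := by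
  simp [tot]

omit [Field 𝔽] in
theorem tot_single (b : Blk 𝔽) (n : ℤ) (g : Blk 𝔽 → ℤ) : tot (Finsupp.single b n) g = n * g b := by
  unfold tot
  exact Finsupp.sum_single_index (by simp)

omit [Field 𝔽] in
theorem tot_map (e : Blk 𝔽 →₀ ℤ) (h : Blk 𝔽 → Blk 𝔽) (g : Blk 𝔽 → ℤ) :
    tot (e.mapDomain h) g = tot e fun b => g (h b) := by
  classical
  unfold tot
  exact Finsupp.sum_mapDomain_index (fun _ => by simp) (fun _ _ _ => by ring)

omit [Field 𝔽] in
theorem tot_sum (T : Finset 𝔽) (F : 𝔽 → Blk 𝔽 →₀ ℤ) (g : Blk 𝔽 → ℤ) :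
    tot (∑ u ∈ T, F u) g = ∑ u ∈ T, tot (F u) g := by
  classical
  induction T using Finset.induction_on with
  | empty => simp [tot_zero]
  | insert s T hs ih => rw [Finset.sum_insert hs, Finset.sum_insert hs, tot_add, ih]

theorem alT_pos (T : Finset 𝔽) (b : Blk 𝔽) (h : 0 < b.1.2) :
    alT T b = (b.1, b.2 * (∏ s ∈ T, (-s)) ^ (b.1.2 / gg b.1)) := by
  unfold alT
  rw [if_pos h]

theorem alT_neg (T : Finset 𝔽) (b : Blk 𝔽) (h : b.1.2 < 0) :
    alT T b = ((b.1.1 + T.card * b.1.2, b.1.2), b.2) := by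
  unfold alT
  rw [if_neg (by omega), if_pos h]

theorem alT_mem (T : Finset 𝔽) (b : Blk 𝔽) (h : b.1.2 = 0) (h' : b.1.1 ≠ 0 ∧ sb b ∈ T) :
    alT T b = ((b.1.1 + 1, 0), if 0 < b.1.1 + 1 then (sb b)⁻¹ else sb b) := by
  unfold alT
  rw [if_neg (by omega), if_neg (by omega), if_pos h']

theorem alT_not (T : Finset 𝔽) (b : Blk 𝔽) (h : b.1.2 = 0) (h' : ¬ (b.1.1 ≠ 0 ∧ sb b ∈ T)) :
    alT T b = b := by
  unfold alT
  rw [if_neg (by omega), if_neg (by omega), if_neg h']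

theorem al3_pos (s : 𝔽) (b : Blk 𝔽) (h : 0 < b.1.2) :
    al3 s b = (b.1, b.2 * (-s) ^ (b.1.2 / gg b.1)) := by
  unfold al3
  rw [if_pos h]

theorem al3_neg (s : 𝔽) (b : Blk 𝔽) (h : b.1.2 < 0) :
    al3 s b = ((b.1.1 + b.1.2, b.1.2), b.2) := by
  unfold al3
  rw [if_neg (by omega), if_pos h]

theorem al3_mem (s : 𝔽) (b : Blk 𝔽) (h : b.1.2 = 0) (h' : b.1.1 ≠ 0 ∧ sb b = s) :
    al3 s b = ((b.1.1 + 1, 0), if 0 < b.1.1 + 1 then s⁻¹ else s) := by
  unfold al3
  rw [if_neg (by omega), if_neg (by omega), if_pos h']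

theorem al3_not (s : 𝔽) (b : Blk 𝔽) (h : b.1.2 = 0) (h' : ¬ (b.1.1 ≠ 0 ∧ sb b = s)) :
    al3 s b = b := by
  unfold al3
  rw [if_neg (by omega), if_neg (by omega), if_neg h']

theorem alT_empty (b : Blk 𝔽) : alT (∅ : Finset 𝔽) b = b := by
  rcases lt_trichotomy b.1.2 0 with h | h | h
  · rw [alT_neg _ _ h]
    simp
  · rw [alT_not _ _ h (by simp)]
  · rw [alT_pos _ _ h]
    simp

/-- the constant of the moved block -/
theorem sb_new (n : ℤ) (t : 𝔽) : sb (((n, 0), if 0 < n then t⁻¹ else t) : Blk 𝔽) = t := by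
  unfold sb
  by_cases h : 0 < n
  · simp [h]
  · simp [h]

theorem sb_one (u : 𝔽) : sb (((1, 0), u⁻¹) : Blk 𝔽) = u := by
  simp [sb]

theorem zz_of (s : 𝔽) (b : Blk 𝔽) (h : ¬ (b.1.2 = 0 ∧ b.1.1 ≠ 0 ∧ sb b = s)) :
    zz s b = max 0 b.1.2 := by
  unfold zz
  rw [if_neg h, sub_zero]

theorem zz_alT (T : Finset 𝔽) (s : 𝔽) (hs : s ∉ T) (b : Blk 𝔽) : zz s (alT T b) = zz s b := by
  rcases lt_trichotomy b.1.2 0 with h | h | h
  · rw [alT_neg _ _ h, zz_of _ _ (fun h' => by have := h'.1; simp only at this; omega),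
      zz_of _ _ (fun h' => by have := h'.1; omega)]
  · by_cases h' : b.1.1 ≠ 0 ∧ sb b ∈ T
    · have hne : sb b ≠ s := fun h1 => hs (h1 ▸ h'.2)
      rw [alT_mem _ _ h h', zz_of, zz_of]
      · simp only [h]
      · exact fun h1 => hne h1.2.2
      · intro h1
        have h2 := h1.2.2
        rw [sb_new] at h2
        exact hne h2
    · rw [alT_not _ _ h h']
  · rw [alT_pos _ _ h, zz_of _ _ (fun h' => by have := h'.1; simp only at this; omega),
      zz_of _ _ (fun h' => by have := h'.1; omega)]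

theorem al3_one (s u : 𝔽) (h : u ≠ s) : al3 s ((1, 0), u⁻¹) = ((1, 0), u⁻¹) := by
  refine al3_not s _ rfl ?_
  rintro ⟨-, h1⟩
  rw [sb_one] at h1
  exact h h1

theorem zz_one (s u : 𝔽) (h : u ≠ s) : zz s ((1, 0), u⁻¹) = 0 := by
  rw [zz_of]
  · simp
  · rintro ⟨-, -, h1⟩
    rw [sb_one] at h1
    exact h h1

theorem al3_alT [DecidableEq 𝔽] (T : Finset 𝔽) (s : 𝔽) (hs : s ∉ T) (b : Blk 𝔽) :
    al3 s (alT T b) = alT (insert s T) b := by
  rcases lt_trichotomy b.1.2 0 with h | h | h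
  · have h0 := al3_neg s ((b.1.1 + T.card * b.1.2, b.1.2), b.2) h
    rw [alT_neg _ _ h, alT_neg _ _ h, h0, Finset.card_insert_of_notMem hs]
    simp only [Prod.mk.injEq, and_true]
    push_cast
    ring
  · by_cases h' : b.1.1 ≠ 0 ∧ sb b ∈ T
    · have hne : sb b ≠ s := fun h1 => hs (h1 ▸ h'.2)
      rw [alT_mem _ _ h h', alT_mem _ _ h ⟨h'.1, Finset.mem_insert_of_mem h'.2⟩]
      refine al3_not _ _ rfl ?_
      rintro ⟨-, h1⟩
      rw [sb_new] at h1
      exact hne h1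
    · rw [alT_not _ _ h h']
      by_cases h2 : b.1.1 ≠ 0 ∧ sb b = s
      · rw [al3_mem _ _ h h2, alT_mem _ _ h ⟨h2.1, h2.2 ▸ Finset.mem_insert_self _ _⟩, h2.2]
      · rw [al3_not _ _ h h2, alT_not _ _ h]
        rintro ⟨h3, h4⟩
        rcases Finset.mem_insert.1 h4 with h5 | h5
        · exact h2 ⟨h3, h5⟩
        · exact h' ⟨h3, h5⟩
  · have h0 := al3_pos s (b.1, b.2 * (∏ s ∈ T, (-s)) ^ (b.1.2 / gg b.1)) h
    rw [alT_pos _ _ h, alT_pos _ _ h, h0, Finset.prod_insert hs, mul_zpow]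
    simp only [Prod.mk.injEq, true_and]
    ring

end ATAux

open ATAux in
theorem stAT : StAT 𝔽 := by
  refine ⟨?_, ?_⟩
  · intro e
    have h : (alT (∅ : Finset 𝔽)) = id := by
      funext b
      exact alT_empty b
    unfold actT
    rw [h, Finsupp.mapDomain_id, Finset.sum_empty, add_zero]
  · intro T _ s e hs _ _
    have h1 : tot (actT T e) (zz s) = tot e (zz s) := by
      unfold actT
      rw [tot_add, tot_map, tot_sum]
      have h2 : ∑ u ∈ T, tot (Finsupp.single ((1, 0), u⁻¹) (tot e (zz u))) (zz s) = 0 := by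
        refine Finset.sum_eq_zero ?_
        intro u hu
        rw [tot_single, zz_one s u (fun h => hs (h ▸ hu)), mul_zero]
      rw [h2, add_zero]
      congr 1
      funext b
      exact zz_alT T s hs b
    have h3 : (fun b => al3 s (alT T b)) = alT (insert s T) := by
      funext b
      exact al3_alT T s hs b
    unfold act3
    rw [h1]
    unfold actT
    rw [Finset.sum_insert hs, Finsupp.mapDomain_add, ← Finsupp.mapDomain_comp,
      Finsupp.mapDomain_finsetSum]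
    have h4 : (al3 s ∘ alT T) = alT (insert s T) := h3
    have h5 : ∑ u ∈ T, Finsupp.mapDomain (al3 s) (Finsupp.single (((1, 0), u⁻¹) : Blk 𝔽) (tot e (zz u))) =
        ∑ u ∈ T, Finsupp.single ((1, 0), u⁻¹) (tot e (zz u)) := by
      refine Finset.sum_congr rfl ?_
      intro u hu
      rw [Finsupp.mapDomain_single, al3_one s u (fun h => hs (h ▸ hu))]
    rw [h4, h5]
    abel

end QE
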