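import Pool.Agent.Lib.QE.CSt

/-!
Project QE, module C4: going back along a reachable pair.
-/

namespace QE

variable {𝔽 : Type} [Field 𝔽]

open Polynomial

theorem stBack (h1 : StInd 𝔽) (h2 : StFac 𝔽) : StBack 𝔽 := by
  intro hac E _ _ σ S hI hc hy hs hinv hsw X0 Y0 X Y hR
  have hfac : ∀ (Y : E) (P : 𝔽[X]) (X : E), P ≠ 0 → FixP σ P → S X Y → S (aeval Y P * X) Y := by
    intro Y P X hP hF hX
    exact h2 hac E σ Y (fun X => S X Y) (fun c X => hc c X Y) (fun X => hy X Y)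
      (fun T X => hs T X Y) P X hP hF hX
  have hstep : ∀ (X Y : E) (P Q : 𝔽[X]), P ≠ 0 → Q ≠ 0 → FixP σ P → FixP σ Q →
      S (aeval Y P / aeval Y Q * X) Y → S X Y := by
    intro X Y P Q hP hQ hFP hFQ hX
    have hP0 : aeval Y P ≠ 0 := ((h1 E _ Y (hI _ _ hX)).2.2.2.1 P hP).1
    have hQ0 : aeval Y Q ≠ 0 := ((h1 E _ Y (hI _ _ hX)).2.2.2.1 Q hQ).1
    have h3 := hfac Y Q _ hQ hFQ hX
    have h4 : aeval Y Q * (aeval Y P / aeval Y Q * X) = aeval Y P * X := by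
      rw [← mul_assoc, mul_div_cancel₀ _ hQ0]
    rw [h4] at h3
    have h5 := hfac Y P _ hP hFP (hinv _ _ h3)
    have h6 : aeval Y P * (aeval Y P * X)⁻¹ = X⁻¹ := by
      rw [mul_inv, ← mul_assoc, mul_inv_cancel₀ hP0, one_mul]
    rw [h6] at h5
    have h7 := hinv _ _ h5
    rwa [inv_inv] at h7
  induction hR with
  | base => exact id
  | stepX X Y P Q hP hQ hFP hFQ _ ih => exact fun h => ih (hstep X Y P Q hP hQ hFP hFQ h)
  | stepY X Y P Q hP hQ hFP hFQ _ ih =>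
    exact fun h => ih (hsw _ _ (hstep Y X P Q hP hQ hFP hFQ (hsw _ _ h)))
  | inv X Y _ ih =>
    intro h
    have h3 := hinv _ _ h
    rw [inv_inv] at h3
    have h4 := hinv _ _ (hsw _ _ h3)
    rw [inv_inv] at h4
    exact ih (hsw _ _ h4)

end QE
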