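import Pool.Agent.Lib.QE.Q2

/-!
Project QD, module Dec: decomposition of `Q4`.
-/

namespace QE

variable {𝔽 : Type} [Field 𝔽]

namespace DecAux

open Q2Aux

theorem us_eq' (b w : ℤ × ℤ) : us b w = |b.1| * |w.2| + |b.2| * |w.1| -
    4 * (if 0 < b.1 * w.1 ∧ 0 < b.2 * w.2 then min |b.1 * w.2| |b.2 * w.1| else 0) := by
  unfold us
  split_ifs with h
  · have h3 : 0 < (b.1 * w.2) * (b.2 * w.1) := by
      calc 0 < (b.1 * w.1) * (b.2 * w.2) := mul_pos h.1 h.2
        _ = (b.1 * w.2) * (b.2 * w.1) := by ring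
    have h4 : |wed b w| = |b.1 * w.2| + |b.2 * w.1| - 2 * min |b.1 * w.2| |b.2 * w.1| := by
      unfold wed
      rcases mul_pos_iff.1 h3 with ⟨h5, h6⟩ | ⟨h5, h6⟩
      · rw [abs_of_pos h5, abs_of_pos h6]
        rcases le_total (b.1 * w.2) (b.2 * w.1) with h7 | h7
        · rw [min_eq_left h7, abs_of_nonpos (by linarith)]
          ring
        · rw [min_eq_right h7, abs_of_nonneg (by linarith)]
          ring
      · rw [abs_of_neg h5, abs_of_neg h6]
        rcases le_total (b.1 * w.2) (b.2 * w.1) with h7 | h7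
        · rw [min_eq_right (by linarith), abs_of_nonpos (by linarith)]
          ring
        · rw [min_eq_left (by linarith), abs_of_nonneg (by linarith)]
          ring
    rw [h4, abs_mul, abs_mul]
    ring
  · rw [abs_mul, abs_mul]
    ring

theorem abs_eq (x : ℤ) : |x| = 2 * max 0 x - x := by
  rcases le_total 0 x with h | h
  · rw [max_eq_right h, abs_of_nonneg h]
    ring
  · rw [max_eq_left h, abs_of_nonpos h]
    ring

theorem tot_abs {e : (Blk 𝔽) →₀ ℤ} {f : (Blk 𝔽) → ℤ} (h : tot e f = 0) :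
    tot e (fun b => |f b|) = 2 * tot e fun b => max 0 (f b) := by
  have h1 : tot e (fun b => |f b|) + tot e f = 2 * tot e fun b => max 0 (f b) := by
    rw [← tot_add, ← tot_mul_left]
    congr 1
    funext b
    rw [abs_eq]
    ring
  rw [h, add_zero] at h1
  exact h1

end DecAux

open Q2Aux DecAux in
theorem stDec : StDec 𝔽 := by
  intro e he
  have hW : tot e (fun b => |b.1.2|) = 2 * aW e := tot_abs he.2
  have hH : tot e (fun b => |b.1.1|) = 2 * aH e := tot_abs he.1
  have h1 : ∀ b : (Blk 𝔽), tot e (fun c => q4 b c) =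
      |b.1.1| * (2 * aW e) + |b.1.2| * (2 * aH e) +
      -4 * (tot e fun c => if 0 < b.1.1 * c.1.1 ∧ 0 < b.1.2 * c.1.2 then
        min |b.1.1 * c.1.2| |b.1.2 * c.1.1| else 0) + -4 * tot e (fun c => mb b c) := by
    intro b
    rw [← hW, ← hH, ← tot_mul_left, ← tot_mul_left, ← tot_mul_left, ← tot_mul_left, ← tot_add,
      ← tot_add, ← tot_add]
    congr 1
    funext c
    unfold q4
    rw [us_eq']
    ring
  have h2 : Q4 e = tot e (fun b => |b.1.1|) * (2 * aW e) + tot e (fun b => |b.1.2|) * (2 * aH e) +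
      -4 * KK e + -4 * SS e := by
    unfold Q4 KK SS
    rw [← tot_mul_right, ← tot_mul_right, ← tot_mul_left, ← tot_mul_left, ← tot_add, ← tot_add,
      ← tot_add]
    congr 1
    funext b
    exact h1 b
  rw [h2, hW, hH]
  ring

end QE
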