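import Pool.Agent.Lib.QE.CSt

/-!
Project QE: the configuration of the quintic is good.
-/

set_option autoImplicit false
set_option linter.unusedSectionVars false

namespace QE

namespace E0Aux

variable {𝔽 : Type} [Field 𝔽]

theorem tot_add (e e' : Blk 𝔽 →₀ ℤ) (f : Blk 𝔽 → ℤ) : tot (e + e') f = tot e f + tot e' f := by
  unfold tot
  exact Finsupp.sum_add_index' (fun b => by rw [zero_mul]) (fun b m n => by rw [add_mul])

theorem tot_single (b : Blk 𝔽) (f : Blk 𝔽 → ℤ) : tot (Finsupp.single b 1) f = f b := by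
  unfold tot
  rw [Finsupp.sum_single_index]
  · rw [one_mul]
  · rw [zero_mul]

theorem tot_e0 (r : 𝔽) (f : Blk 𝔽 → ℤ) : tot (e0 r) f = f ((1, 0), r) + f ((1, 0), -r) +
    f ((0, 1), r⁻¹) + f ((0, 1), -r⁻¹) + f ((-1, -1), r⁻¹) + f ((-1, -1), -r⁻¹) := by
  unfold e0
  simp only [tot_add, tot_single]

theorem ne_neg {r : 𝔽} (h2 : (2 : 𝔽) ≠ 0) (h : r ≠ 0) : r ≠ -r := by
  intro h1
  apply h
  have h3 : 2 * r = 0 := by
    rw [two_mul]
    nth_rewrite 2 [h1]
    rw [add_neg_cancel]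
  exact (mul_eq_zero.1 h3).resolve_left h2

theorem single_conj (σ : 𝔽 ≃+* 𝔽) {t t' : 𝔽} (ht : σ t' = t) (w : ℤ × ℤ) (b : Blk 𝔽) :
    (Finsupp.single ((w, t) : Blk 𝔽) (1 : ℤ)) (b.1, σ b.2) =
      (Finsupp.single ((w, t') : Blk 𝔽) (1 : ℤ)) b := by
  classical
  rw [Finsupp.single_apply, Finsupp.single_apply]
  have h : ((w, t) : Blk 𝔽) = (b.1, σ b.2) ↔ ((w, t') : Blk 𝔽) = b := by
    obtain ⟨w', s⟩ := b
    simp only [Prod.mk.injEq]
    refine and_congr_right fun _ => ?_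
    constructor
    · intro h1
      rw [← ht] at h1
      exact σ.injective h1
    · intro h1
      rw [← h1, ht]
  simp only [h]

theorem per_eq (σ : 𝔽 ≃+* 𝔽) {t : 𝔽} (h1 : σ t = -t) (h2 : t ≠ -t) : per σ t = 2 := by
  unfold per
  have h3 : Function.IsPeriodicPt σ 2 t := by
    change σ (σ t) = t
    rw [h1, map_neg, h1, neg_neg]
  have h4 : ¬ Function.IsPeriodicPt σ 1 t := by
    intro h
    have h5 : σ t = t := h
    rw [h1] at h5
    exact h2 h5.symm
  have h5 := h3.minimalPeriod_dvd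
  have h6 := h3.minimalPeriod_pos (by norm_num)
  have h7 : Function.minimalPeriod σ t ≠ 1 := by
    intro h
    apply h4
    have h8 := Function.isPeriodicPt_minimalPeriod σ t
    rw [h] at h8
    exact h8
  have h8 := Nat.le_of_dvd (by norm_num) h5
  omega

theorem single_real (σ : 𝔽 ≃+* 𝔽) {w : ℤ × ℤ} {t : 𝔽} (h1 : σ t = -t) (h2 : t ≠ -t)
    {b : Blk 𝔽} (hb : Odd (per σ b.2)) : (Finsupp.single ((w, t) : Blk 𝔽) (1 : ℤ)) b = 0 := by
  classical
  rw [Finsupp.single_apply, if_neg]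
  rintro rfl
  have h3 : Odd (per σ t) := hb
  rw [per_eq σ h1 h2] at h3
  exact absurd h3 (by decide)

theorem mb_eq (b c : Blk 𝔽) (h : ray b.1 c.1) (h2 : b.2 = c.2) : mb b c = min (gg b.1) (gg c.1) := by
  unfold mb
  exact if_pos ⟨h, h2⟩

theorem mb_ray (b c : Blk 𝔽) (h : ¬ ray b.1 c.1) : mb b c = 0 := by
  unfold mb
  exact if_neg fun h1 => h h1.1

theorem mb_ne (b c : Blk 𝔽) (h : b.2 ≠ c.2) : mb b c = 0 := by
  unfold mb
  exact if_neg fun h1 => h h1.2

end E0Aux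

open E0Aux

/-- H4. The configuration of the quintic is good. -/
theorem stE0 (𝔽 : Type) [Field 𝔽] : StE0 𝔽 := by
  intro σ r h2 hr hσ
  have hr' : r⁻¹ ≠ 0 := inv_ne_zero hr
  have hσ' : σ r⁻¹ = -r⁻¹ := by rw [map_inv₀, hσ, inv_neg]
  have hσn : σ (-r) = r := by rw [map_neg, hσ, neg_neg]
  have hσn' : σ (-r⁻¹) = r⁻¹ := by rw [map_neg, hσ', neg_neg]
  have hne : r ≠ -r := ne_neg h2 hr
  have hne' : r⁻¹ ≠ -r⁻¹ := ne_neg h2 hr'
  refine ⟨⟨?_, ?_, ⟨?_, ?_⟩, ?_⟩, ?_⟩
  · -- constants are nonzero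
    intro b hb _ h0
    rw [Finsupp.mem_support_iff] at hb
    apply hb
    have hs : ∀ (w : ℤ × ℤ) (t : 𝔽), t ≠ 0 → (Finsupp.single ((w, t) : Blk 𝔽) (1 : ℤ)) b = 0 := by
      intro w t ht
      classical
      rw [Finsupp.single_apply, if_neg]
      rintro rfl
      exact ht h0
    unfold e0
    simp only [Finsupp.add_apply]
    rw [hs _ _ hr, hs _ _ (neg_ne_zero.2 hr), hs _ _ hr', hs _ _ (neg_ne_zero.2 hr'), hs _ _ hr',
      hs _ _ (neg_ne_zero.2 hr')]
    norm_num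
  · -- balanced
    constructor
    · rw [tot_e0]
      norm_num
    · rw [tot_e0]
      norm_num
  · -- conjugation
    intro b
    unfold e0
    simp only [Finsupp.add_apply]
    rw [single_conj σ hσn, single_conj σ hσ, single_conj σ hσn', single_conj σ hσ',
      single_conj σ hσn', single_conj σ hσ']
    ring
  · -- constants of odd period
    intro b hb
    have h : e0 r b = 0 := by
      unfold e0
      simp only [Finsupp.add_apply]
      rw [single_real σ hσ hne hb,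
        single_real σ (t := -r) (by rw [hσn, neg_neg]) (by rw [neg_neg]; exact hne.symm) hb,
        single_real σ hσ' hne' hb,
        single_real σ (t := -r⁻¹) (by rw [hσn', neg_neg]) (by rw [neg_neg]; exact hne'.symm) hb,
        single_real σ hσ' hne' hb,
        single_real σ (t := -r⁻¹) (by rw [hσn', neg_neg]) (by rw [neg_neg]; exact hne'.symm) hb]
      norm_num
    rw [h]
    exact Even.zero
  · -- the quadratic form
    have r11 : ray (1, 0) (1, 0) := by decide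
    have r22 : ray (0, 1) (0, 1) := by decide
    have r33 : ray (-1, -1) (-1, -1) := by decide
    have r12 : ¬ ray (1, 0) (0, 1) := by decide
    have r13 : ¬ ray (1, 0) (-1, -1) := by decide
    have r21 : ¬ ray (0, 1) (1, 0) := by decide
    have r23 : ¬ ray (0, 1) (-1, -1) := by decide
    have r31 : ¬ ray (-1, -1) (1, 0) := by decide
    have r32 : ¬ ray (-1, -1) (0, 1) := by decide
    have u11 : us (1, 0) (1, 0) = 0 := by decide
    have u22 : us (0, 1) (0, 1) = 0 := by decide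
    have u33 : us (-1, -1) (-1, -1) = -2 := by decide
    have u12 : us (1, 0) (0, 1) = 1 := by decide
    have u13 : us (1, 0) (-1, -1) = 1 := by decide
    have u21 : us (0, 1) (1, 0) = 1 := by decide
    have u23 : us (0, 1) (-1, -1) = 1 := by decide
    have u31 : us (-1, -1) (1, 0) = 1 := by decide
    have u32 : us (-1, -1) (0, 1) = 1 := by decide
    have g1 : gg (1, 0) = 1 := by decide
    have g2 : gg (0, 1) = 1 := by decide
    have g3 : gg (-1, -1) = 1 := by decide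
    -- multiplicities
    have d1 : ∀ t : 𝔽, mb ((1, 0), t) ((1, 0), t) = 1 := fun t => by
      rw [mb_eq _ _ r11 rfl, g1, min_self]
    have d2 : ∀ t : 𝔽, mb ((0, 1), t) ((0, 1), t) = 1 := fun t => by
      rw [mb_eq _ _ r22 rfl, g2, min_self]
    have d3 : ∀ t : 𝔽, mb ((-1, -1), t) ((-1, -1), t) = 1 := fun t => by
      rw [mb_eq _ _ r33 rfl, g3, min_self]
    have m12 : ∀ t s : 𝔽, mb ((1, 0), t) ((0, 1), s) = 0 := fun t s => mb_ray _ _ r12
    have m13 : ∀ t s : 𝔽, mb ((1, 0), t) ((-1, -1), s) = 0 := fun t s => mb_ray _ _ r13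
    have m21 : ∀ t s : 𝔽, mb ((0, 1), t) ((1, 0), s) = 0 := fun t s => mb_ray _ _ r21
    have m23 : ∀ t s : 𝔽, mb ((0, 1), t) ((-1, -1), s) = 0 := fun t s => mb_ray _ _ r23
    have m31 : ∀ t s : 𝔽, mb ((-1, -1), t) ((1, 0), s) = 0 := fun t s => mb_ray _ _ r31
    have m32 : ∀ t s : 𝔽, mb ((-1, -1), t) ((0, 1), s) = 0 := fun t s => mb_ray _ _ r32
    have n1 : ∀ w w' : ℤ × ℤ, mb (w, r) (w', -r) = 0 := fun w w' => mb_ne _ _ hne
    have n2 : ∀ w w' : ℤ × ℤ, mb (w, -r) (w', r) = 0 := fun w w' => mb_ne _ _ hne.symm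
    have n3 : ∀ w w' : ℤ × ℤ, mb (w, r⁻¹) (w', -r⁻¹) = 0 := fun w w' => mb_ne _ _ hne'
    have n4 : ∀ w w' : ℤ × ℤ, mb (w, -r⁻¹) (w', r⁻¹) = 0 := fun w w' => mb_ne _ _ hne'.symm
    unfold Q4
    rw [tot_e0]
    simp only [tot_e0, q4, u11, u22, u33, u12, u13, u21, u23, u31, u32, d1, d2, d3, m12, m13, m21,
      m23, m31, m32, n1, n2, n3, n4]
    norm_num
  · unfold aW
    rw [tot_e0]
    norm_num

end QE
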