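import Pool.Agent.Lib.QE.CSt

/-!
Project QE (MP_794704_al): factorisation of polynomials with coefficients fixed by an automorphism
`σ` as an induction principle.
-/

namespace QE

open Polynomial

namespace FacAux

variable {𝔽 : Type} [Field 𝔽]

theorem fixP_iff (σ : 𝔽 ≃+* 𝔽) (P : 𝔽[X]) : FixP σ P ↔ P.map (σ : 𝔽 →+* 𝔽) = P := by
  constructor
  · intro h
    ext i
    rw [coeff_map]
    exact h i
  · intro h i
    have h1 : (P.map (σ : 𝔽 →+* 𝔽)).coeff i = P.coeff i := by rw [h]
    rw [coeff_map] at h1
    exact h1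

theorem root_map {σ : 𝔽 ≃+* 𝔽} {P : 𝔽[X]} (hP : P.map (σ : 𝔽 →+* 𝔽) = P) {s : 𝔽}
    (hs : P.IsRoot s) : P.IsRoot (σ s) := by
  have h1 : (P.map (σ : 𝔽 →+* 𝔽)).eval (σ s) = σ (P.eval s) := by
    have := eval_map_apply (p := P) (σ : 𝔽 →+* 𝔽) s
    exact this
  rw [hP, hs.eq_zero, map_zero] at h1
  exact h1

theorem image_eq {σ : 𝔽 ≃+* 𝔽} [DecidableEq 𝔽] {T : Finset 𝔽} (hT : ∀ s ∈ T, σ s ∈ T) :
    T.image σ = T := by
  apply Finset.eq_of_subset_of_card_le
  · intro x hx
    obtain ⟨s, hs, rfl⟩ := Finset.mem_image.mp hx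
    exact hT s hs
  · rw [Finset.card_image_of_injective _ σ.injective]

theorem prod_map {σ : 𝔽 ≃+* 𝔽} {T : Finset 𝔽} (hT : ∀ s ∈ T, σ s ∈ T) :
    (∏ s ∈ T, (X - C s)).map (σ : 𝔽 →+* 𝔽) = ∏ s ∈ T, (X - C s) := by
  classical
  rw [Polynomial.map_prod]
  simp only [Polynomial.map_sub, map_X, map_C]
  have h1 : ∏ s ∈ T, (X - C ((σ : 𝔽 →+* 𝔽) s)) = ∏ s ∈ T.image σ, (X - C s : 𝔽[X]) := by
    rw [Finset.prod_image (fun a _ b _ h => σ.injective h)]
    rfl
  rw [h1, image_eq hT]

end FacAux

open FacAux in
/-- C3. Factorisation of polynomials with coefficients fixed by `σ`. -/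
theorem stFac (𝔽 : Type) [Field 𝔽] : StFac 𝔽 := by
  classical
  intro hac E _ _ σ Y S hc hY hT P
  induction hn : P.natDegree using Nat.strong_induction_on generalizing P with
  | _ n ih =>
    intro x hP hfix hx
    by_cases h0 : P.natDegree = 0
    · obtain ⟨c, rfl⟩ := natDegree_eq_zero.1 h0
      have hc0 : c ≠ 0 := by
        rintro rfl
        exact hP C_0
      have hcf : σ c = c := by
        have := hfix 0
        rwa [coeff_C_zero] at this
      rw [aeval_C]
      exact hc c x hc0 hcf hx
    · have hfix' := (fixP_iff σ P).mp hfix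
      by_cases hz : P.IsRoot 0
      · obtain ⟨Q, hQ⟩ := dvd_iff_isRoot.2 hz
        rw [C_0, sub_zero] at hQ
        subst hQ
        have hQ0 : Q ≠ 0 := right_ne_zero_of_mul hP
        have hlt : Q.natDegree < n := by
          rw [← hn, natDegree_mul X_ne_zero hQ0, natDegree_X]
          omega
        have hQf : FixP σ Q := by
          rw [fixP_iff]
          rw [Polynomial.map_mul, map_X] at hfix'
          exact mul_left_cancel₀ X_ne_zero hfix'
        have h3 := ih _ hlt Q rfl x hQ0 hQf hx
        rw [map_mul, aeval_X, mul_assoc]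
        exact hY _ h3
      · have hTs : ∀ s ∈ P.roots.toFinset, σ s ∈ P.roots.toFinset := by
          intro s hs
          rw [Multiset.mem_toFinset, mem_roots hP] at hs ⊢
          exact root_map hfix' hs
        have hT0 : ∀ s ∈ P.roots.toFinset, s ≠ 0 := by
          rintro s hs rfl
          rw [Multiset.mem_toFinset, mem_roots hP] at hs
          exact hz hs
        have hdvd : (∏ s ∈ P.roots.toFinset, (X - C s)) ∣ P := by
          refine dvd_trans ?_ (prod_multiset_X_sub_C_dvd P)
          have := Multiset.prod_dvd_prod_of_le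
            (Multiset.map_le_map (f := fun a : 𝔽 => X - C a) (Multiset.dedup_le P.roots))
          exact this
        obtain ⟨Q, hQ⟩ := hdvd
        set D : 𝔽[X] := ∏ s ∈ P.roots.toFinset, (X - C s) with hD
        have hDm : D.Monic := monic_prod_of_monic _ _ (fun s _ => monic_X_sub_C s)
        have hQ0 : Q ≠ 0 := by
          rintro rfl
          rw [mul_zero] at hQ
          exact hP hQ
        have hdeg : P.degree ≠ 0 := by
          intro h
          exact h0 (natDegree_eq_zero_iff_degree_le_zero.2 (le_of_eq h))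
        obtain ⟨z, hzr⟩ := IsAlgClosed.exists_root P hdeg
        have hDd : 1 ≤ D.natDegree := by
          rw [hD, natDegree_prod_of_monic _ _ (fun s _ => monic_X_sub_C s)]
          simp only [natDegree_X_sub_C, Finset.sum_const, smul_eq_mul, mul_one]
          apply Finset.card_pos.mpr
          exact ⟨z, by rw [Multiset.mem_toFinset, mem_roots hP]; exact hzr⟩
        have hlt : Q.natDegree < n := by
          rw [← hn, hQ, natDegree_mul hDm.ne_zero hQ0]
          omega
        have hDf : D.map (σ : 𝔽 →+* 𝔽) = D := prod_map hTs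
        have hQf : FixP σ Q := by
          rw [fixP_iff]
          have h5 : (D * Q).map (σ : 𝔽 →+* 𝔽) = D * Q := by rw [← hQ]; exact hfix'
          rw [Polynomial.map_mul, hDf] at h5
          exact mul_left_cancel₀ hDm.ne_zero h5
        have h3 := ih _ hlt Q rfl x hQ0 hQf hx
        have h4 : aeval Y P * x =
            (∏ s ∈ P.roots.toFinset, (Y - algebraMap 𝔽 E s)) * (aeval Y Q * x) := by
          conv_lhs => rw [hQ]
          rw [map_mul, mul_assoc, hD, map_prod]
          congr 1
          apply Finset.prod_congr rfl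
          intro s _
          rw [map_sub, aeval_X, aeval_C]
        rw [h4]
        exact hT _ _ hT0 hTs h3

end QE
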