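import Pool.Agent.Lib.QE.CDefs

/-!
Project QD: statements of the commutative modules (to be proved in files `QD/<Name>.lean`).
-/

namespace QE

variable (𝔽 : Type) [Field 𝔽]

open Polynomial

/-- C1. Independence: closure properties and consequences. -/
def StInd : Prop := ∀ (E : Type) [Field E] [Algebra 𝔽 E] (X Y : E), Ind 𝔽 X Y →
  Ind 𝔽 Y X ∧ Ind 𝔽 X⁻¹ Y ∧ X ≠ 0 ∧
  (∀ P : 𝔽[X], P ≠ 0 → aeval Y P ≠ 0 ∧ Ind 𝔽 (aeval Y P * X) Y) ∧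
  (∀ a b : ℤ, (a, b) ≠ (0, 0) → ∀ t : 𝔽, X ^ a * Y ^ b ≠ algebraMap 𝔽 E t) ∧
  (∀ s : ℕ × ℕ →₀ 𝔽, s ≠ 0 → QD.mon (algebraMap 𝔽 E) X Y s ≠ 0)

/-- C2. Reachable pairs are independent. -/
def StReachInd : Prop := ∀ (E : Type) [Field E] [Algebra 𝔽 E] (σ : 𝔽 ≃+* 𝔽) (X0 Y0 X Y : E),
  Ind 𝔽 X0 Y0 → Reach σ X0 Y0 X Y → Ind 𝔽 X Y

/-- C3. Factorisation of polynomials with coefficients fixed by `σ`. -/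
def StFac : Prop := IsAlgClosed 𝔽 → ∀ (E : Type) [Field E] [Algebra 𝔽 E] (σ : 𝔽 ≃+* 𝔽) (Y : E)
  (S : E → Prop),
  (∀ (c : 𝔽) X, c ≠ 0 → σ c = c → S X → S (algebraMap 𝔽 E c * X)) →
  (∀ X, S X → S (Y * X)) →
  (∀ (T : Finset 𝔽) X, (∀ s ∈ T, s ≠ 0) → (∀ s ∈ T, σ s ∈ T) → S X →
    S ((∏ s ∈ T, (Y - algebraMap 𝔽 E s)) * X)) →
  ∀ (P : 𝔽[X]) X, P ≠ 0 → FixP σ P → S X → S (aeval Y P * X)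

/-- C4. Going back along a reachable pair. -/
def StBack : Prop := IsAlgClosed 𝔽 → ∀ (E : Type) [Field E] [Algebra 𝔽 E] (σ : 𝔽 ≃+* 𝔽)
  (S : E → E → Prop),
  (∀ X Y, S X Y → Ind 𝔽 X Y) →
  (∀ (c : 𝔽) X Y, c ≠ 0 → σ c = c → S X Y → S (algebraMap 𝔽 E c * X) Y) →
  (∀ X Y, S X Y → S (Y * X) Y) →
  (∀ (T : Finset 𝔽) X Y, (∀ s ∈ T, s ≠ 0) → (∀ s ∈ T, σ s ∈ T) → S X Y →
    S ((∏ s ∈ T, (Y - algebraMap 𝔽 E s)) * X) Y) →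
  (∀ X Y, S X Y → S X⁻¹ Y) →
  (∀ X Y, S X Y → S Y X) →
  ∀ X0 Y0 X Y, Reach σ X0 Y0 X Y → S X Y → S X0 Y0

/-- G1. The `x`-version of the local contribution: pointwise comparison. -/
def StGaP : Prop := ∀ (M : Type) [Field M] [Algebra 𝔽 M] (Pl : Places 𝔽 M) (X Y : M) (e : (Blk 𝔽) →₀ ℤ),
  Ind 𝔽 X Y → TOk e → Bal e → ∀ p,
    tot e (xs Pl p X Y) = tot e (us4 Pl p X Y) +
      tot e (fun b => if b.1.2 = 0 ∧ b.1.1 ≠ 0 then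
        2 * |b.1.1| * Pl.ord p (Y - algebraMap 𝔽 M (sb b)) else 0) +
      tot e (fun b => if 0 < b.1.2 then |b.1.1| else -|b.1.1|) * Pl.ord p Y

/-- G2. The two versions of the degree agree. -/
def StGa : Prop := ∀ (M : Type) [Field M] [Algebra 𝔽 M] (Pl : Places 𝔽 M) (X Y : M) (e : (Blk 𝔽) →₀ ℤ),
  Ind 𝔽 X Y → TOk e → Bal e → D4x Pl e X Y = D4 Pl e X Y

/-- G3. Invariance under `X ↦ cX`. -/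
def StA1 : Prop := ∀ (M : Type) [Field M] [Algebra 𝔽 M] (Pl : Places 𝔽 M) (X Y : M) (e : (Blk 𝔽) →₀ ℤ) (c : 𝔽),
  c ≠ 0 → Ind 𝔽 X Y → TOk e → D4x Pl (act1 c e) (algebraMap 𝔽 M c * X) Y = D4x Pl e X Y

/-- G4. Invariance under `X ↦ YX`. -/
def StA2 : Prop := ∀ (M : Type) [Field M] [Algebra 𝔽 M] (Pl : Places 𝔽 M) (X Y : M) (e : (Blk 𝔽) →₀ ℤ),
  Ind 𝔽 X Y → TOk e → D4x Pl (act2 e) (Y * X) Y = D4x Pl e X Y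

/-- G5. Invariance under `X ↦ (Y - s)X`: local statement. -/
def StA3P : Prop := ∀ (M : Type) [Field M] [Algebra 𝔽 M] (Pl : Places 𝔽 M) (X Y : M) (s : 𝔽) (b : (Blk 𝔽)),
  s ≠ 0 → Ind 𝔽 X Y → (b.1 ≠ 0 → b.2 ≠ 0) → ∀ p,
    xs Pl p ((Y - algebraMap 𝔽 M s) * X) Y (al3 s b) +
      zz s b * xs Pl p ((Y - algebraMap 𝔽 M s) * X) Y ((1, 0), s⁻¹) - xs Pl p X Y b =
    if Pl.ord p Y = 0 then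
      -b.1.2 * (|Pl.ord p ((Y - algebraMap 𝔽 M s) * X)| - |Pl.ord p X|) else 0

/-- G6. Invariance under `X ↦ (Y - s)X`. -/
def StA3 : Prop := ∀ (M : Type) [Field M] [Algebra 𝔽 M] (Pl : Places 𝔽 M) (X Y : M) (e : (Blk 𝔽) →₀ ℤ) (s : 𝔽),
  s ≠ 0 → Ind 𝔽 X Y → TOk e → Bal e →
    D4x Pl (act3 s e) ((Y - algebraMap 𝔽 M s) * X) Y = D4x Pl e X Y

/-- G7. Invariance under `X ↦ X⁻¹` and exchange. -/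
def StAIS : Prop := ∀ (M : Type) [Field M] [Algebra 𝔽 M] (Pl : Places 𝔽 M) (X Y : M) (e : (Blk 𝔽) →₀ ℤ),
  Ind 𝔽 X Y → TOk e → D4 Pl (actI e) X⁻¹ Y = D4 Pl e X Y ∧ D4 Pl (actS e) Y X = D4 Pl e X Y

/-- F0. `TOk`, `Bal` and the widths under the actions. -/
def StTB : Prop := ∀ e : (Blk 𝔽) →₀ ℤ, TOk e → Bal e →
  (∀ c : 𝔽, c ≠ 0 → TOk (act1 c e) ∧ Bal (act1 c e) ∧ aW (act1 c e) = aW e) ∧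
  (TOk (act2 e) ∧ Bal (act2 e) ∧ aW (act2 e) = aW e) ∧
  (∀ s : 𝔽, s ≠ 0 → TOk (act3 s e) ∧ Bal (act3 s e) ∧ aW (act3 s e) = aW e) ∧
  (TOk (actI e) ∧ Bal (actI e) ∧ aW (actI e) = aW e) ∧
  (TOk (actS e) ∧ Bal (actS e) ∧ aW (actS e) = aH e)

/-- F1. `Q4` under `X ↦ cX`, `X ↦ X⁻¹`, exchange. -/
def StQ1 : Prop := ∀ e : (Blk 𝔽) →₀ ℤ, TOk e →
  (∀ c : 𝔽, c ≠ 0 → Q4 (act1 c e) = Q4 e) ∧ Q4 (actI e) = Q4 e ∧ Q4 (actS e) = Q4 e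

/-- F2. `Q4` under `X ↦ YX`. -/
def StQ2 : Prop := ∀ e : (Blk 𝔽) →₀ ℤ, Bal e → Q4 (act2 e) = Q4 e

/-- F3. kernel of `Q4` under `X ↦ (Y - s)X`. -/
def StQ3K : Prop := ∀ s : 𝔽, s ≠ 0 → ∃ F : (Blk 𝔽) → ℤ, ∀ b c : (Blk 𝔽),
  (b.1 ≠ 0 → b.2 ≠ 0) → (c.1 ≠ 0 → c.2 ≠ 0) →
    q4 (al3 s b) (al3 s c) + zz s b * q4 ((1, 0), s⁻¹) (al3 s c) + zz s c * q4 (al3 s b) ((1, 0), s⁻¹)
      - 4 * (zz s b * zz s c) - q4 b c = b.1.2 * F c + c.1.2 * F b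

/-- F4. `Q4` under `X ↦ (Y - s)X`. -/
def StQ3 : Prop := ∀ (e : (Blk 𝔽) →₀ ℤ) (s : 𝔽), s ≠ 0 → TOk e → Bal e → Q4 (act3 s e) = Q4 e

/-- F4a. `actT` as a composition of steps `act3`. -/
def StAT : Prop := (∀ e : Blk 𝔽 →₀ ℤ, actT ∅ e = e) ∧
  ∀ (T : Finset 𝔽) [DecidableEq 𝔽] (s : 𝔽) (e : Blk 𝔽 →₀ ℤ), s ∉ T → s ≠ 0 → (∀ u ∈ T, u ≠ 0) →
    actT (insert s T) e = act3 s (actT T e)

/-- F4b. Everything about the step `X ↦ ∏_{s ∈ T} (Y - s) X` except reality. -/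
def StT : Prop := ∀ (T : Finset 𝔽) (e : Blk 𝔽 →₀ ℤ), (∀ u ∈ T, u ≠ 0) → TOk e → Bal e →
  TOk (actT T e) ∧ Bal (actT T e) ∧ aW (actT T e) = aW e ∧ Q4 (actT T e) = Q4 e ∧
  ∀ (M : Type) [Field M] [Algebra 𝔽 M] (Pl : Places 𝔽 M) (X Y : M), Ind 𝔽 X Y →
    Ind 𝔽 ((∏ s ∈ T, (Y - algebraMap 𝔽 M s)) * X) Y ∧
    D4x Pl (actT T e) ((∏ s ∈ T, (Y - algebraMap 𝔽 M s)) * X) Y = D4x Pl e X Y

/-- F5. Reality under the steps. -/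
def StRe : Prop := ∀ (σ : 𝔽 ≃+* 𝔽) (e : Blk 𝔽 →₀ ℤ), RealE σ e →
  (∀ c : 𝔽, c ≠ 0 → σ c = c → RealE σ (act1 c e)) ∧ RealE σ (act2 e) ∧
  RealE σ (actI e) ∧ RealE σ (actS e)

/-- F6. Reality under the step `X ↦ ∏_{s ∈ T} (Y - s) X`, `T` stable under `σ`. -/
def StReT : Prop := ∀ (σ : 𝔽 ≃+* 𝔽) (e : Blk 𝔽 →₀ ℤ), RealE σ e →
  ∀ T : Finset 𝔽, (∀ s ∈ T, s ≠ 0) → (∀ s ∈ T, σ s ∈ T) → RealE σ (actT T e)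

/-- F7. Decomposition of `Q4`. -/
def StDec : Prop := ∀ e : (Blk 𝔽) →₀ ℤ, Bal e → Q4 e = 8 * (aW e * aH e) - 4 * KK e - 4 * SS e

/-- F8. Positivity of `KK`. -/
def StKK : Prop := ∀ e : (Blk 𝔽) →₀ ℤ, 0 ≤ KK e

/-- F9. Small values of `SS`. -/
def StSS : Prop := ∀ (σ : 𝔽 ≃+* 𝔽) (e : (Blk 𝔽) →₀ ℤ), Bal e → RealE σ e → SS e ≤ 2 → ∀ b : (Blk 𝔽), b.1 ≠ 0 → e b = 0

/-- F10. Positivity. -/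
def StPos : Prop := ∀ (σ : 𝔽 ≃+* 𝔽) (e : (Blk 𝔽) →₀ ℤ), Good σ e → 0 < aW e * aH e

/-- G8. `Neg` is stable. -/
def StNeg : Prop := ∀ (σ : 𝔽 ≃+* 𝔽) (M : Type) [Field M] [Algebra 𝔽 M] (Pl : Places 𝔽 M),
  (∀ (c : 𝔽) X Y, c ≠ 0 → σ c = c → Neg σ Pl X Y → Neg σ Pl (algebraMap 𝔽 M c * X) Y) ∧
  (∀ X Y, Neg σ Pl X Y → Neg σ Pl (Y * X) Y) ∧
  (∀ (T : Finset 𝔽) X Y, (∀ s ∈ T, s ≠ 0) → (∀ s ∈ T, σ s ∈ T) → Neg σ Pl X Y →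
    Neg σ Pl ((∏ s ∈ T, (Y - algebraMap 𝔽 M s)) * X) Y) ∧
  (∀ X Y, Neg σ Pl X Y → Neg σ Pl X⁻¹ Y) ∧
  (∀ X Y, Neg σ Pl X Y → Neg σ Pl Y X)

/-- H1. The standard places of a rational function field. -/
def StPl : Prop := ∀ (Ω : Type) [Field Ω] [IsAlgClosed Ω] [Algebra 𝔽 Ω],
  ∃ (Pl : Places 𝔽 (RatFunc Ω)) (pt : Option Ω ≃ Pl.P), IsStdPl Pl pt

/-- H2. The base pair is independent. -/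
def StIndB : Prop := ∀ (Ω : Type) [Field Ω] [Algebra 𝔽 Ω] (η : Ω), Transcendental 𝔽 η →
  Ind 𝔽 (RatFunc.X : RatFunc Ω) (RatFunc.C η)

/-- H3. The degree of the base pair. -/
def StBase : Prop := ∀ (Ω : Type) [Field Ω] [IsAlgClosed Ω] [Algebra 𝔽 Ω] (η : Ω)
  (Pl : Places 𝔽 (RatFunc Ω)) (pt : Option Ω ≃ Pl.P), Transcendental 𝔽 η → IsStdPl Pl pt →
  ∀ e : (Blk 𝔽) →₀ ℤ, TOk e → Bal e → D4 Pl e (RatFunc.X : RatFunc Ω) (RatFunc.C η) = 4 * aW e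

/-- H4. The configuration of the quintic is good. -/
def StE0 : Prop := ∀ (σ : 𝔽 ≃+* 𝔽) (r : 𝔽), (2 : 𝔽) ≠ 0 → r ≠ 0 → σ r = -r → Good σ (e0 r) ∧ 0 < aW (e0 r)

/-- H5. The degree of `e0` in terms of poles and multiplicities. -/
def StU : Prop := ∀ (M : Type) [Field M] [Algebra 𝔽 M] (Pl : Places 𝔽 M) (r : 𝔽) (X Y : M),
  X ≠ 0 → Y ≠ 0 →
  D4 Pl (e0 r) X Y =
    8 * (∑ᶠ p, max 0 (max (-Pl.ord p X) (-Pl.ord p Y))) - 4 * ∑ᶠ p, tot (e0 r) (mm Pl p X Y)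

/-- the polynomial `1 + a x² + a η²` -/
noncomputable def pW {Ω : Type} [Field Ω] (a η : Ω) : Polynomial Ω := 1 + C a * X ^ 2 + C (a * η ^ 2)
/-- `N₁` -/
noncomputable def pN1 {Ω : Type} [Field Ω] (a η : Ω) : Polynomial Ω :=
  C a * pW a η ^ 2 - C (a * (1 - a) ^ 2 * η ^ 2) * X ^ 2 + C ((1 - a ^ 2) * η ^ 2) * pW a η
/-- `N₂` -/
noncomputable def pN2 {Ω : Type} [Field Ω] (a η : Ω) : Polynomial Ω :=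
  pW a η ^ 2 - C (a ^ 2 * (1 - a) ^ 2 * η ^ 2) * X ^ 2 - C (a * (1 - a ^ 2)) * pW a η * X ^ 2
/-- `N₃` -/
noncomputable def pN3 {Ω : Type} [Field Ω] (a η : Ω) : Polynomial Ω :=
  pW a η ^ 2 + C (a * (1 - a) ^ 2 * η ^ 2) * X ^ 2

/-- H6. Algebra of `N₁, N₂, N₃`. -/
def StN : Prop := ∀ (Ω : Type) [Field Ω] (a η : Ω), a ≠ 0 → a ≠ 1 → a ≠ -1 → η ≠ 0 → 1 + a * η ^ 2 ≠ 0 →
  (pN1 a η).natDegree = 4 ∧ (pN2 a η).natDegree = 4 ∧ (pN3 a η).natDegree = 4 ∧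
  IsCoprime (pN1 a η) (pN3 a η) ∧ IsCoprime (pN2 a η) (pN3 a η) ∧ (pN3 a η).eval 0 ≠ 0 ∧
  (C η * pN2 a η) ^ 2 + C a * pN3 a η ^ 2 =
    pN1 a η * (pW a η * pN2 a η - C (a ^ 2) * X ^ 2 * pN1 a η) ∧
  (C a * X * pN1 a η) ^ 2 + C a * pN3 a η ^ 2 =
    pN2 a η * (pW a η * pN1 a η - C (η ^ 2) * pN2 a η) ∧
  ∃ M3 : Polynomial Ω, (C η * pN2 a η) ^ 2 + C a * (X * pN1 a η) ^ 2 = pN3 a η * M3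

/-- H7. Poles of the quintic pair. -/
def StDeg : Prop := ∀ (Ω : Type) [Field Ω] [IsAlgClosed Ω] [Algebra 𝔽 Ω] (a : 𝔽) (η : Ω)
  (Pl : Places 𝔽 (RatFunc Ω)) (pt : Option Ω ≃ Pl.P) (X Y : RatFunc Ω), Transcendental 𝔽 η →
  IsStdPl Pl pt → a ≠ 0 → a ≠ 1 → a ≠ -1 →
  IsQuintC (algebraMap 𝔽 (RatFunc Ω) a) (RatFunc.X : RatFunc Ω) (RatFunc.C η) X Y → X ≠ 0 → Y ≠ 0 →
  ∑ᶠ p, max 0 (max (-Pl.ord p X) (-Pl.ord p Y)) ≤ 5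

/-- H8. Multiplicities of the quintic pair. -/
def StMul : Prop := ∀ (Ω : Type) [Field Ω] [IsAlgClosed Ω] [Algebra 𝔽 Ω] (r : 𝔽) (η : Ω)
  (Pl : Places 𝔽 (RatFunc Ω)) (pt : Option Ω ≃ Pl.P) (X Y : RatFunc Ω), Transcendental 𝔽 η →
  IsStdPl Pl pt → (2 : 𝔽) ≠ 0 → r ≠ 0 → -r ^ 2 ≠ 1 → -r ^ 2 ≠ -1 →
  IsQuintC (algebraMap 𝔽 (RatFunc Ω) (-r ^ 2)) (RatFunc.X : RatFunc Ω) (RatFunc.C η) X Y → Ind 𝔽 X Y →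
  12 ≤ ∑ᶠ p, tot (e0 r) (mm Pl p X Y)

/-- H9. The quintic pair is not reachable. -/
def StNR : Prop := IsAlgClosed 𝔽 → ∀ (σ : 𝔽 ≃+* 𝔽) (r : 𝔽), (2 : 𝔽) ≠ 0 → r ≠ 0 → σ r = -r →
  -r ^ 2 ≠ 1 → -r ^ 2 ≠ -1 →
  ∃ (E : Type) (_ : Field E) (_ : Algebra 𝔽 E) (X0 Y0 : E), Ind 𝔽 X0 Y0 ∧
  ∀ X Y : E, IsQuintC (algebraMap 𝔽 E (-r ^ 2)) X0 Y0 X Y → ¬ Reach σ X0 Y0 X Y

end QE
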