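import Pool.Agent.Lib.QE.Defs
import Pool.Agent.Lib.QD.St

/-!
Project QE: statements of the noncommutative modules with parameter (to be proved in `QE/<Name>.lean`).
The statements `StIndep`, `StOreHom`, `StPoly`, `StOreCond`, `StGen`, `StUP`, `StUniq`, `StEv`, `StTr`, `StElem`,
`StLead`, `StAC`, `StEvLead` of `QD/St.lean` are proved in `QD/` and may be used (import the QD modules).
-/

namespace QE

open Polynomial QD

/-- N1i. Transcendental elements. -/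
def StTr : Prop := ∀ (k D : Type) [Field k] [DivisionRing D] [Algebra k D] (q a : kˣ) (x y : D),
  x ≠ 0 → y ≠ 0 → x * y = algebraMap k D q * (y * x) → NotRoot q →
    (∀ p : k[X], p ≠ 0 → aeval (y + algebraMap k D (a ^ 2) * y⁻¹) p ≠ 0) ∧
    y ^ 2 - algebraMap k D (a ^ 2) ≠ 0 ∧ x + algebraMap k D a * x⁻¹ ≠ 0 ∧
    algebraMap k D a * y⁻¹ * x + y * x⁻¹ ≠ 0

/-- N5a. The quadratic extension: the endomorphism `j`; `L` is transcendental. -/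
def StJ : Prop := ∀ (k D : Type) [Field k] [DivisionRing D] [Algebra k D] (q a : kˣ) (x y : D),
  IsQD q x y → NotRoot q → ∃ j : D →ₐ[k] D,
    j x = y * (y ^ 2 - algebraMap k D (a ^ 2))⁻¹ * (algebraMap k D a * y⁻¹ * x + y * x⁻¹) ∧
    j y = y * (y ^ 2 - algebraMap k D (a ^ 2))⁻¹ * (x + algebraMap k D a * x⁻¹) ∧
    j (LA a x y) = y + algebraMap k D (a ^ 2) * y⁻¹ ∧ ∀ p : k[X], p ≠ 0 → aeval (LA a x y) p ≠ 0

/-- N5b. Intertwined endomorphisms: if `β(s) = μ₃(ℓ) + a⁻¹μ₂(ℓ)s`, `β(a²s⁻¹) = μ₃(ℓ) + aμ₂(ℓ)s⁻¹` with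
`ℓ = s + a²s⁻¹` and `β(a²s⁻¹)β(q⁻¹s) = 1` then there are endomorphisms `θ`, `ψ` with `jθ = ψj`,
`θx = μ₃(L)x + μ₂(L)y`, `θy = (μ₃(L) + a⁻¹μ₂(L)L)y - μ₂(L)x`, `ψx = β(y)x`, `ψy = y`. -/
def StInter : Prop := ∀ (k D : Type) [Field k] [DivisionRing D] [Algebra k D] (q a : kˣ) (x y : D),
  IsQD q x y → NotRoot q → ∀ j : D →ₐ[k] D,
    j x = y * (y ^ 2 - algebraMap k D (a ^ 2))⁻¹ * (algebraMap k D a * y⁻¹ * x + y * x⁻¹) →
    j y = y * (y ^ 2 - algebraMap k D (a ^ 2))⁻¹ * (x + algebraMap k D a * x⁻¹) →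
    j (LA a x y) = y + algebraMap k D (a ^ 2) * y⁻¹ →
    ∀ β μ₂ μ₃ : RatFunc k, β ≠ 0 →
      evR y β = evR (y + algebraMap k D (a ^ 2) * y⁻¹) μ₃ +
        algebraMap k D ((a⁻¹ : kˣ) : k) * evR (y + algebraMap k D (a ^ 2) * y⁻¹) μ₂ * y →
      evR (algebraMap k D (a ^ 2) * y⁻¹) β = evR (y + algebraMap k D (a ^ 2) * y⁻¹) μ₃ +
        algebraMap k D a * evR (y + algebraMap k D (a ^ 2) * y⁻¹) μ₂ * y⁻¹ →
      evR (algebraMap k D (a ^ 2) * y⁻¹) β * evR (algebraMap k D ((q⁻¹ : kˣ) : k) * y) β = 1 →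
      ∃ θ ψ : D →ₐ[k] D, ψ x = evR y β * x ∧ ψ y = y ∧
        θ x = evR (LA a x y) μ₃ * x + evR (LA a x y) μ₂ * y ∧
        θ y = (evR (LA a x y) μ₃ + algebraMap k D ((a⁻¹ : kˣ) : k) * evR (LA a x y) μ₂ * LA a x y) * y -
          evR (LA a x y) μ₂ * x ∧
        ∀ d, j (θ d) = ψ (j d)

/-- N5c. The quantum quintic is an automorphism of `D`. -/
def StTheta : Prop := ∀ (k D : Type) [Field k] [DivisionRing D] [Algebra k D]
  (q a : kˣ) (x y : D), IsQD q x y → NotRoot q → ∃ θ : D ≃ₐ[k] D, IsQuint q a x y (θ x) (θ y)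

/-- N5l. Leading terms of the quantum quintic. -/
def StThLead : Prop := ∀ (k : Type) [Field k] (q a : kˣ) (K : Type) [DivisionRing K] [Algebra k K]
    (S : SkewL k (RatFunc k) (sg q) K) (xK yK X Y : K), NotRoot q →
  S.cf xK = Pi.single (1 : ℤ) (1 : RatFunc k) → S.cf yK = Pi.single (0 : ℤ) (RatFunc.X : RatFunc k) →
  IsQuint q a xK yK X Y →
  HasLead S Y 0 (algebraMap k (RatFunc k) ((q * a)⁻¹ : kˣ) * RatFunc.X) ∧ ∃ r, r ≠ 0 ∧ HasLead S X 1 r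

/-- N7. Assembly: if the quantum quintic is not tame then some conjugation automorphism is not. -/
def StNC : Prop := ∀ (k D : Type) [Field k] [DivisionRing D] [Algebra k D] (q a : kˣ) (x y : D)
    (K : Type) [DivisionRing K] [Algebra k K] (S : SkewL k (RatFunc k) (sg q) K) (ι : D →ₐ[k] K),
  IsQD q x y → NotRoot q → S.cf (ι x) = Pi.single (1 : ℤ) (1 : RatFunc k) →
  S.cf (ι y) = Pi.single (0 : ℤ) (RatFunc.X : RatFunc k) →
  (∀ φ : D ≃ₐ[k] D, IsQuint q a x y (φ x) (φ y) → φ ∉ Tame x y) →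
  ∃ (z : K) (φ : D ≃ₐ[k] D), z ≠ 0 ∧ (∀ d : D, z * ι d * z⁻¹ = ι (φ d)) ∧ φ ∉ Tame x y

/-- N2. Existence of the place. -/
def StPlace : Prop := ∀ (k D 𝔽 E : Type) [Field k] [DivisionRing D] [Algebra k D] [Field 𝔽] [Field E]
  [Algebra 𝔽 E] (σ : 𝔽 ≃+* 𝔽) (q : kˣ) (x y : D) (R : SPlace k σ q) (X Y : E), IsQD q x y → NotRoot q →
    Ind 𝔽 X Y → Nonempty (QPlace R.O R.ρ x y X Y)

/-- N6. Tame automorphisms induce reachable pairs. -/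
def StTame : Prop := ∀ (k D 𝔽 E : Type) [Field k] [DivisionRing D] [Algebra k D] [Field 𝔽] [Field E]
  [Algebra 𝔽 E] (σ : 𝔽 ≃+* 𝔽) (q : kˣ) (x y : D) (R : SPlace k σ q) (X Y : E), IsQD q x y → NotRoot q →
    Ind 𝔽 X Y →
    ∀ (V : QPlace R.O R.ρ x y X Y) (φ : D ≃ₐ[k] D), φ ∈ Tame x y → ∀ X' Y' : E,
      X' ≠ 0 → Y' ≠ 0 → V.rel (φ x) X' → V.rel (φ y) Y' → Reach σ X Y X' Y'

/-- N5r. Residues of the quantum quintic. -/
def StThRes : Prop := ∀ (k D 𝔽 E : Type) [Field k] [DivisionRing D] [Algebra k D] [Field 𝔽] [Field E]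
  [Algebra 𝔽 E] (σ : 𝔽 ≃+* 𝔽) (q a : kˣ) (x y : D) (R : SPlace k σ q) (r : 𝔽) (X Y : E),
    IsQD q x y → NotRoot q → Ind 𝔽 X Y → GoodPar R a r →
    ∀ (V : QPlace R.O R.ρ x y X Y) (X₁ Y₁ : D), IsQuint q a x y X₁ Y₁ →
      ∃ X' Y' : E, X' ≠ 0 ∧ Y' ≠ 0 ∧ V.rel X₁ X' ∧ V.rel Y₁ Y' ∧
        IsQuintC (algebraMap 𝔽 E (-r ^ 2)) X Y X' Y'

end QE
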