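import Pool.Agent.Lib.QE.Defs

/-!
Project QE: the class of pairs `(k, q)` and its members.
-/

namespace QE

open Polynomial QD

/-- There is a valuation ring `O` of `k` containing `q`, with `q = 1` in the residue field `F`, such that
`2 ≠ 0` in `F` and some `d ∈ F`, `d ≠ -1`, is not a square in `F`. -/
def GoodPair (k : Type) [Field k] (q : kˣ) : Prop :=
  ∃ (O : ValuationSubring k) (hq : (q : k) ∈ O), IsLocalRing.residue O ⟨(q : k), hq⟩ = 1 ∧
    (2 : IsLocalRing.ResidueField O) ≠ 0 ∧
    ∃ d : IsLocalRing.ResidueField O, ¬ IsSquare d ∧ d ≠ -1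

/-- I0. From the class to a place with values in an algebraically closed field with an automorphism. -/
def StSig : Prop := ∀ (k : Type) [Field k] (q : kˣ), GoodPair k q →
  ∃ (𝔽 : Type) (_ : Field 𝔽) (_ : IsAlgClosed 𝔽) (σ : 𝔽 ≃+* 𝔽) (R : SPlace k σ q) (a : kˣ) (r : 𝔽),
    GoodPar R a r

/-- I1. Gauss extension: a valuation ring `O₀` of `F`, `c ∈ F` nonzero and not a unit of `O₀` (`c ∈ O₀`), then
`(F(t), t)` is in the class (`t ≡ 1`, and `u = (t-1)/c` is transcendental over the residue field of `O₀`),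
if `2` is a unit of `O₀`. -/
def StGauss : Prop := ∀ (F : Type) [Field F] (O : ValuationSubring F) (c : F), c ≠ 0 → c ∈ O →
  c⁻¹ ∉ O → (2 : F)⁻¹ ∈ O → (2 : F) ≠ 0 →
  ∀ q : (RatFunc F)ˣ, (q : RatFunc F) = RatFunc.X → GoodPair (RatFunc F) q

/-- I2. Every field of characteristic zero has a valuation ring in which `3` is not invertible and `2` is. -/
def StVal : Prop := ∀ (F : Type) [Field F] [CharZero F], ∃ O : ValuationSubring F,
  (3 : F)⁻¹ ∉ O ∧ (2 : F)⁻¹ ∈ O

/-- I3. The variable is not a root of unity. -/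
def StNRX : Prop := ∀ (F : Type) [Field F] (q : (RatFunc F)ˣ), (q : RatFunc F) = RatFunc.X → NotRoot q

/-- I4. Ordered fields with `q` infinitely close to `1`. -/
def StOrd : Prop := ∀ (k : Type) [Field k] [LinearOrder k] [IsStrictOrderedRing k] (q : kˣ),
  (∀ n : ℕ, 0 < n → |(q : k) - 1| < 1 / n) → GoodPair k q

end QE
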