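import Pool.Agent.Lib.QD.Final1
import Pool.Agent.Lib.QE.St
import Pool.Agent.Lib.QE.CSt
import Pool.Agent.Lib.QE.St2

/-!
Project QE: assembly.
-/

namespace QE

open Polynomial QD

theorem main_abs (hNC : StNC) (hPlace : StPlace) (hTame : StTame) (hRes : StThRes)
    (hNR : ∀ (𝔽 : Type) [Field 𝔽], StNR 𝔽)
    (k : Type) [Field k] (q : kˣ) (𝔽 : Type) [Field 𝔽] (hal : IsAlgClosed 𝔽) (σ : 𝔽 ≃+* 𝔽) (R : SPlace k σ q)
    (a : kˣ) (r : 𝔽) (hG : GoodPar R a r) (hq : NotRoot q)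
    (K : Type) [DivisionRing K] [Algebra k K] (S : SkewL k (RatFunc k) (sg q) K) (xK yK : K)
    (hx : S.cf xK = Pi.single (1 : ℤ) (1 : RatFunc k))
    (hy : S.cf yK = Pi.single (0 : ℤ) (RatFunc.X : RatFunc k))
    (hx0 : xK ≠ 0) (hy0 : yK ≠ 0) (hxy : xK * yK = algebraMap k K q * (yK * xK)) :
    NotConjTame k K xK yK := by
  have hQD := isQD_DK k q xK yK hx0 hy0 hxy
  obtain ⟨E, iE, iA, X0, Y0, hI, hno⟩ := hNR 𝔽 hal σ r hG.two hG.r0 hG.anti hG.ne1 hG.ne2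
  obtain ⟨V⟩ := hPlace k (DK k xK yK) 𝔽 E σ q (gX k xK yK) (gY k xK yK) R X0 Y0 hQD hq hI
  have hnt : ∀ φ : DK k xK yK ≃ₐ[k] DK k xK yK,
      IsQuint q a (gX k xK yK) (gY k xK yK) (φ (gX k xK yK)) (φ (gY k xK yK)) →
      φ ∉ Tame (gX k xK yK) (gY k xK yK) := by
    intro φ hφ hT
    obtain ⟨X', Y', hX', hY', hrX, hrY, hC⟩ :=
      hRes k (DK k xK yK) 𝔽 E σ q a _ _ R r X0 Y0 hQD hq hI hG V _ _ hφ
    exact hno X' Y' hC (hTame k (DK k xK yK) 𝔽 E σ q _ _ R X0 Y0 hQD hq hI V φ hT X' Y' hX' hY' hrX hrY)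
  obtain ⟨z, φ, hz, hzφ, hφ⟩ := hNC k (DK k xK yK) q a (gX k xK yK) (gY k xK yK) K S
    (inclDK k xK yK) hQD hq hx hy hnt
  refine ⟨z, hz, ?_, ?_, ?_⟩
  · intro hzD
    apply hφ
    apply Subgroup.subset_closure
    right
    refine ⟨⟨z, hzD⟩, fun h0 => hz (congrArg Subtype.val h0), fun d => ?_⟩
    apply Subtype.ext
    exact (hzφ d).symm
  · intro d
    constructor
    · intro hd
      have := hzφ ⟨d, hd⟩
      rw [inclDK_apply] at this
      rw [this]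
      exact (φ ⟨d, hd⟩).2
    · intro hd
      have h1 := hzφ (φ.symm ⟨z * d * z⁻¹, hd⟩)
      rw [AlgEquiv.apply_symm_apply, inclDK_apply, inclDK_apply] at h1
      have h2 : z * ((φ.symm ⟨z * d * z⁻¹, hd⟩ : DK k xK yK) : K) * z⁻¹ = z * d * z⁻¹ := h1
      have h3 : ((φ.symm ⟨z * d * z⁻¹, hd⟩ : DK k xK yK) : K) = d := by
        have h4 := congrArg (fun u => z⁻¹ * u * z) h2
        simpa [mul_assoc, hz] using h4
      rw [← h3]
      exact (φ.symm ⟨z * d * z⁻¹, hd⟩).2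
  · intro ψ hψ
    by_contra hcon
    push Not at hcon
    have : ψ = φ := by
      ext d
      have h1 := hzφ d
      rw [inclDK_apply, inclDK_apply] at h1
      rw [hcon d, h1]
    exact hφ (this ▸ hψ)

/-- The theorem from the statements of the modules. -/
theorem main_pair (hNC : StNC) (hPlace : StPlace) (hTame : StTame) (hRes : StThRes)
    (hNR : ∀ (𝔽 : Type) [Field 𝔽], StNR 𝔽) (hSig : StSig)
    (k : Type) [Field k] (q : kˣ) (hG : GoodPair k q) (hq : NotRoot q) :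
    NotConjTame k (SL (sg q)) SL.xx (SL.con RatFunc.X) := by
  obtain ⟨𝔽, i𝔽, hal, σ, R, a, r, hP⟩ := hSig k q hG
  exact main_abs hNC hPlace hTame hRes hNR k q 𝔽 hal σ R a r hP hq (SL (sg q)) SL.skewL _ _ rfl rfl
    (xx_ne q) (yy_ne q) (xx_yy q)

/-- Generic `q` over any field of characteristic zero. -/
theorem generic_pair (hGauss : StGauss) (hVal : StVal) (F : Type) [Field F] [CharZero F]
    (q : (RatFunc F)ˣ) (hq : (q : RatFunc F) = RatFunc.X) : GoodPair (RatFunc F) q := by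
  obtain ⟨O, h3, h2⟩ := hVal F
  have h3' : (3 : F) ∈ O := by
    have := natCast_mem O 3
    exact_mod_cast this
  exact hGauss F O 3 (by norm_num) h3' h3 h2 (by norm_num) q hq

end QE
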