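import Pool.Agent.Lib.QE.CSt

/-!
Project QD: module GaP, pointwise comparison of the two local kernels.
-/

set_option autoImplicit false

namespace QE

variable {𝔽 : Type} [Field 𝔽]

namespace GaPAux

lemma abs_sub_of_mul_nonpos {x y : ℤ} (h : x * y ≤ 0) : |x - y| = |x| + |y| := by
  rcases le_total 0 x with hx | hx <;> rcases le_total 0 y with hy | hy
  · rcases eq_or_lt_of_le hx with hx' | hx'
    · rw [← hx']
      simp
    · rcases eq_or_lt_of_le hy with hy' | hy'
      · rw [← hy']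
        simp
      · exact absurd (mul_pos hx' hy') (not_lt.2 h)
  · rw [abs_of_nonneg hx, abs_of_nonpos hy, abs_of_nonneg (by linarith)]
    ring
  · rw [abs_of_nonpos hx, abs_of_nonneg hy, abs_of_nonpos (by linarith)]
    ring
  · rcases eq_or_lt_of_le hx with hx' | hx'
    · rw [hx']
      simp
    · rcases eq_or_lt_of_le hy with hy' | hy'
      · rw [hy']
        simp
      · exact absurd (mul_pos_of_neg_of_neg hx' hy') (not_lt.2 h)

/-- the difference of the two kernels for `w₂ ≠ 0` -/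
lemma ker (b w : ℤ × ℤ) :
    (if 0 < b.2 * w.2 then 2 * |wed b w| else 0) - us b w =
      if 0 < b.2 * w.2 then |b.1 * w.2| + |b.2 * w.1| else -(|b.1 * w.2| + |b.2 * w.1|) := by
  unfold us
  by_cases h2 : 0 < b.2 * w.2
  · rw [if_pos h2, if_pos h2]
    by_cases h1 : 0 < b.1 * w.1
    · rw [if_pos ⟨h1, h2⟩]
      ring
    · rw [if_neg (fun h => h1 h.1)]
      have h3 : (b.1 * w.2) * (b.2 * w.1) ≤ 0 := by
        have : (b.1 * w.2) * (b.2 * w.1) = (b.1 * w.1) * (b.2 * w.2) := by ring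
        rw [this]
        exact mul_nonpos_of_nonpos_of_nonneg (not_lt.1 h1) h2.le
      have h4 := abs_sub_of_mul_nonpos h3
      unfold wed
      rw [h4]
      ring
  · rw [if_neg h2, if_neg h2, if_neg (fun h => h2 h.2)]
    ring

section
variable {M : Type} [Field M] [Algebra 𝔽 M] (Pl : Places 𝔽 M)

lemma ord_neg_const (p : Pl.P) (s : 𝔽) (hs : s ≠ 0) : Pl.ord p (algebraMap 𝔽 M (-s)) = 0 :=
  Pl.con p _ (neg_ne_zero.2 hs)

/-- the order of `Y - s` when the order of `Y` is positive -/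
lemma ord_pos (p : Pl.P) (Y : M) (hY : ∀ t : 𝔽, Y ≠ algebraMap 𝔽 M t) (s : 𝔽) (hs : s ≠ 0)
    (h : 0 < Pl.ord p Y) : Pl.ord p (Y - algebraMap 𝔽 M s) = 0 := by
  have h0 : Y ≠ 0 := by
    have := hY 0
    rwa [map_zero] at this
  have h1 : Y - algebraMap 𝔽 M s ≠ 0 := sub_ne_zero.2 (hY s)
  have hs1 : algebraMap 𝔽 M s ≠ 0 := by simpa using hs
  have hs2 : algebraMap 𝔽 M (-s) ≠ 0 := by simpa using hs
  have e1 : Y + algebraMap 𝔽 M (-s) = Y - algebraMap 𝔽 M s := by
    rw [map_neg]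
    ring
  have a1 := Pl.add p Y (algebraMap 𝔽 M (-s)) h0 hs2 (by rw [e1]; exact h1)
  rw [e1, ord_neg_const Pl p s hs] at a1
  -- the other direction
  have hn : (-1 : 𝔽) ≠ 0 := by norm_num
  have hn1 : algebraMap 𝔽 M (-1) ≠ 0 := by simp
  have e2 : algebraMap 𝔽 M (-1) * Y + (Y - algebraMap 𝔽 M s) = algebraMap 𝔽 M (-s) := by
    simp only [map_neg, map_one]
    ring
  have a2 := Pl.add p (algebraMap 𝔽 M (-1) * Y) (Y - algebraMap 𝔽 M s) (mul_ne_zero hn1 h0) h1
    (by rw [e2]; exact hs2)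
  rw [e2, ord_neg_const Pl p s hs, Pl.mul p _ _ hn1 h0, Pl.con p _ hn, zero_add] at a2
  omega

/-- the order of `Y - s` when the order of `Y` is negative -/
lemma ord_neg (p : Pl.P) (Y : M) (hY : ∀ t : 𝔽, Y ≠ algebraMap 𝔽 M t) (s : 𝔽) (hs : s ≠ 0)
    (h : Pl.ord p Y < 0) : Pl.ord p (Y - algebraMap 𝔽 M s) = Pl.ord p Y := by
  have h0 : Y ≠ 0 := by
    have := hY 0
    rwa [map_zero] at this
  have h1 : Y - algebraMap 𝔽 M s ≠ 0 := sub_ne_zero.2 (hY s)
  have hs1 : algebraMap 𝔽 M s ≠ 0 := by simpa using hs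
  have hs2 : algebraMap 𝔽 M (-s) ≠ 0 := by simpa using hs
  have e1 : Y + algebraMap 𝔽 M (-s) = Y - algebraMap 𝔽 M s := by
    rw [map_neg]
    ring
  have a1 := Pl.add p Y (algebraMap 𝔽 M (-s)) h0 hs2 (by rw [e1]; exact h1)
  rw [e1, ord_neg_const Pl p s hs] at a1
  have e2 : (Y - algebraMap 𝔽 M s) + algebraMap 𝔽 M s = Y := by ring
  have a2 := Pl.add p (Y - algebraMap 𝔽 M s) (algebraMap 𝔽 M s) h1 hs1 (by rw [e2]; exact h0)
  rw [e2, Pl.con p s hs] at a2
  omega

/-- the order of `Y - s` when the order of `Y` is zero -/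
lemma ord_zero (p : Pl.P) (Y : M) (hY : ∀ t : 𝔽, Y ≠ algebraMap 𝔽 M t) (s : 𝔽) (hs : s ≠ 0)
    (h : Pl.ord p Y = 0) : 0 ≤ Pl.ord p (Y - algebraMap 𝔽 M s) := by
  have h0 : Y ≠ 0 := by
    have := hY 0
    rwa [map_zero] at this
  have h1 : Y - algebraMap 𝔽 M s ≠ 0 := sub_ne_zero.2 (hY s)
  have hs2 : algebraMap 𝔽 M (-s) ≠ 0 := by simpa using hs
  have e1 : Y + algebraMap 𝔽 M (-s) = Y - algebraMap 𝔽 M s := by
    rw [map_neg]
    ring
  have a1 := Pl.add p Y (algebraMap 𝔽 M (-s)) h0 hs2 (by rw [e1]; exact h1)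
  rw [e1, ord_neg_const Pl p s hs, h] at a1
  simpa using a1

/-- the order of `Y⁻¹ - t` when the order of `Y` is zero -/
lemma ord_inv (p : Pl.P) (Y : M) (hY : ∀ t : 𝔽, Y ≠ algebraMap 𝔽 M t) (t : 𝔽) (ht : t ≠ 0)
    (h : Pl.ord p Y = 0) :
    Pl.ord p (Y⁻¹ - algebraMap 𝔽 M t) = Pl.ord p (Y - algebraMap 𝔽 M t⁻¹) := by
  have h0 : Y ≠ 0 := by
    have := hY 0
    rwa [map_zero] at this
  have h1 : Y - algebraMap 𝔽 M t⁻¹ ≠ 0 := sub_ne_zero.2 (hY _)
  have ht1 : algebraMap 𝔽 M t ≠ 0 := by simpa using ht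
  have ht2 : algebraMap 𝔽 M (-t) ≠ 0 := by simpa using ht
  have e1 : Y * (Y⁻¹ - algebraMap 𝔽 M t) = algebraMap 𝔽 M (-t) * (Y - algebraMap 𝔽 M t⁻¹) := by
    rw [map_neg, map_inv₀]
    field_simp
    ring
  have h2 : Y⁻¹ - algebraMap 𝔽 M t ≠ 0 := by
    intro h2
    rw [h2, mul_zero] at e1
    exact mul_ne_zero ht2 h1 e1.symm
  have e2 := congrArg (Pl.ord p) e1
  rw [Pl.mul p _ _ h0 h2, Pl.mul p _ _ ht2 h1, h, ord_neg_const Pl p t ht, zero_add, zero_add] at e2
  exact e2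

lemma gg_right (a : ℤ) : gg (a, 0) = |a| := by
  unfold gg
  simp

/-- the multiplicity of a horizontal block when the order of `Y` is zero -/
lemma mm_hor (p : Pl.P) (X Y : M) (hY : ∀ t : 𝔽, Y ≠ algebraMap 𝔽 M t) (b : (Blk 𝔽))
    (hb1 : b.1.1 ≠ 0) (hb2 : b.1.2 = 0) (ht : b.2 ≠ 0) (h : Pl.ord p Y = 0) :
    mm Pl p X Y b = if 0 < b.1.1 * Pl.ord p X then min |Pl.ord p X| (|b.1.1| * jj Pl p Y b)
      else 0 := by
  obtain ⟨⟨b1, b2⟩, t⟩ := b
  have hb2' : b2 = 0 := hb2
  subst hb2'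
  have hb1' : b1 ≠ 0 := hb1
  have ht' : t ≠ 0 := ht
  unfold mm
  have hr : ray (b1, 0) (ow Pl p X Y) ↔ 0 < b1 * Pl.ord p X := by
    unfold ray ow
    simp [h]
  simp only [hr]
  split_ifs with h1
  · have e1 : gg (ow Pl p X Y) = |Pl.ord p X| := by
      unfold ow
      rw [h, gg_right]
    rw [e1, gg_right]
    congr 2
    unfold jj
    congr 1
    -- the two orders
    rcases lt_or_gt_of_ne hb1' with hlt | hgt
    · have e2 : tau X Y (b1, 0) = Y := by
        unfold tau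
        rw [gg_right, abs_of_neg hlt]
        have : b1 / -b1 = -1 := by
          rw [Int.ediv_neg, Int.ediv_self hb1']
        simp [this]
      have e3 : sb ((b1, 0), t) = t := by
        unfold sb
        rw [if_neg (by simp; omega)]
      rw [e2, e3]
    · have e2 : tau X Y (b1, 0) = Y⁻¹ := by
        unfold tau
        rw [gg_right, abs_of_pos hgt]
        simp [Int.ediv_self hb1']
      have e3 : sb ((b1, 0), t) = t⁻¹ := by
        unfold sb
        rw [if_pos (by simpa using hgt)]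
      rw [e2, e3]
      exact ord_inv Pl p Y hY t ht' h
  · rfl

lemma arith (w b j : ℤ) (hj : 0 ≤ j) :
    2 * (|w - b * j| - |w|) = -4 * (if 0 < b * w then min |w| (|b| * j) else 0) +
      2 * |b| * j := by
  by_cases h : 0 < b * w
  · rw [if_pos h]
    rcases pos_and_pos_or_neg_and_neg_of_mul_pos h with ⟨hb, hw⟩ | ⟨hb, hw⟩
    · rw [abs_of_pos hb, abs_of_pos hw]
      rcases le_total w (b * j) with h1 | h1
      · rw [min_eq_left h1, abs_of_nonpos (by linarith)]
        ring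
      · rw [min_eq_right h1, abs_of_nonneg (by linarith)]
        ring
    · rw [abs_of_neg hb, abs_of_neg hw]
      rcases le_total (-w) (-b * j) with h1 | h1
      · rw [min_eq_left h1, abs_of_nonneg (by linarith)]
        ring
      · rw [min_eq_right h1, abs_of_nonpos (by linarith)]
        ring
  · rw [if_neg h]
    have h1 : w * (b * j) ≤ 0 := by
      have : w * (b * j) = (b * w) * j := by ring
      rw [this]
      exact mul_nonpos_of_nonpos_of_nonneg (not_lt.1 h) hj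
    rw [abs_sub_of_mul_nonpos h1, abs_mul, abs_of_nonneg hj]
    ring

/-- the pointwise comparison -/
lemma pointwise (p : Pl.P) (X Y : M) (hY : ∀ t : 𝔽, Y ≠ algebraMap 𝔽 M t) :
    ∃ κ : ℤ, ∀ b : (Blk 𝔽), (b.1 ≠ 0 → b.2 ≠ 0) →
      xs Pl p X Y b = us4 Pl p X Y b +
        (if b.1.2 = 0 ∧ b.1.1 ≠ 0 then 2 * |b.1.1| * Pl.ord p (Y - algebraMap 𝔽 M (sb b)) else 0) +
        (if 0 < b.1.2 then |b.1.1| else -|b.1.1|) * Pl.ord p Y + κ * b.1.2 := by
  have hsb : ∀ b : (Blk 𝔽), b.2 ≠ 0 → sb b ≠ 0 := by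
    intro b hb
    unfold sb
    split_ifs
    · exact inv_ne_zero hb
    · exact hb
  rcases lt_trichotomy (Pl.ord p Y) 0 with h | h | h
  · -- negative order
    refine ⟨-|Pl.ord p X|, fun b hb => ?_⟩
    have hk := ker b.1 (ow Pl p X Y)
    unfold xs us4
    rw [if_neg h.ne]
    have e1 : (0 < b.1.2 * Pl.ord p Y) ↔ b.1.2 < 0 := by
      constructor
      · intro h1
        by_contra h2
        exact absurd h1 (not_lt.2 (mul_nonpos_of_nonneg_of_nonpos (not_lt.1 h2) h.le))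
      · intro h1
        exact mul_pos_of_neg_of_neg h1 h
    have e2 : (ow Pl p X Y).2 = Pl.ord p Y := rfl
    have e3 : (ow Pl p X Y).1 = Pl.ord p X := rfl
    rw [e2, e3, abs_mul, abs_mul, abs_of_neg h] at hk
    simp only [e1] at hk ⊢
    rcases lt_trichotomy b.1.2 0 with h2 | h2 | h2
    · rw [if_pos h2, if_pos h2, abs_of_neg h2] at hk
      rw [if_pos h2, if_neg (fun h3 => h2.ne h3.1), if_neg (by omega)]
      linarith
    · rw [if_neg (by omega), if_neg (by omega), h2, abs_zero] at hk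
      rw [if_neg (by omega)]
      by_cases h1 : b.1.1 = 0
      · rw [if_neg (fun h3 => h3.2 h1), h1, h2, abs_zero]
        rw [h1, abs_zero] at hk
        simp only [lt_self_iff_false, if_false]
        linarith
      · have hb0 : b.2 ≠ 0 := hb (fun h3 => h1 (by rw [h3]; rfl))
        rw [if_pos ⟨h2, h1⟩, if_neg (by omega), h2, ord_neg Pl p Y hY _ (hsb b hb0) h]
        linarith
    · rw [if_neg (by omega), if_neg (by omega), abs_of_pos h2] at hk
      rw [if_neg (by omega), if_neg (fun h3 => h2.ne' h3.1), if_pos h2]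
      linarith
  · -- order zero
    refine ⟨0, fun b hb => ?_⟩
    unfold xs us4
    rw [if_pos h, h, mul_zero, zero_mul, add_zero, add_zero]
    have e1 : us b.1 (ow Pl p X Y) = |b.1.2 * Pl.ord p X| := by
      unfold us ow
      simp [h]
    rw [e1]
    by_cases h2 : b.1.2 = 0
    · by_cases h1 : b.1.1 = 0
      · have e2 : mm Pl p X Y b = 0 := by
          unfold mm
          rw [if_neg]
          rintro ⟨-, h3⟩
          rw [h1, h2] at h3
          simp at h3
        rw [e2, if_pos h2, if_neg (fun h3 => h3.2 h1), h1]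
        simp
      · have hb0 : b.2 ≠ 0 := hb (fun h3 => h1 (by rw [h3]; rfl))
        rw [mm_hor Pl p X Y hY b h1 h2 hb0 h, if_pos h2,
          if_pos (show b.1.2 = 0 ∧ b.1.1 ≠ 0 from ⟨h2, h1⟩)]
        have e3 : Pl.ord p (Y - algebraMap 𝔽 M (sb b)) = jj Pl p Y b := by
          unfold jj
          rw [max_eq_right (ord_zero Pl p Y hY _ (hsb b hb0) h)]
        have e4 : 0 ≤ jj Pl p Y b := by
          unfold jj
          exact le_max_left _ _
        rw [e3, arith _ _ _ e4]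
        ring
    · have e2 : mm Pl p X Y b = 0 := by
        unfold mm
        rw [if_neg]
        rintro ⟨h3, h4⟩
        have h5 : b.1.1 * Pl.ord p Y = b.1.2 * Pl.ord p X := h3
        have h6 : 0 < b.1.1 * Pl.ord p X + b.1.2 * Pl.ord p Y := h4
        rw [h, mul_zero] at h5 h6
        rcases mul_eq_zero.1 h5.symm with h7 | h7
        · exact h2 h7
        · rw [h7] at h6
          simp at h6
      rw [e2, if_neg h2, if_neg (fun h3 => h2 h3.1)]
      ring
  · -- positive order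
    refine ⟨|Pl.ord p X|, fun b hb => ?_⟩
    have hk := ker b.1 (ow Pl p X Y)
    unfold xs us4
    rw [if_neg h.ne']
    have e1 : (0 < b.1.2 * Pl.ord p Y) ↔ 0 < b.1.2 := by
      constructor
      · intro h1
        exact pos_of_mul_pos_left h1 h.le
      · intro h1
        exact mul_pos h1 h
    have e2 : (ow Pl p X Y).2 = Pl.ord p Y := rfl
    have e3 : (ow Pl p X Y).1 = Pl.ord p X := rfl
    rw [e2, e3, abs_mul, abs_mul, abs_of_pos h] at hk
    simp only [e1] at hk ⊢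
    have eA : (if b.1.2 = 0 ∧ b.1.1 ≠ 0 then
        2 * |b.1.1| * Pl.ord p (Y - algebraMap 𝔽 M (sb b)) else 0) = 0 := by
      split_ifs with h3
      · have hb0 : b.2 ≠ 0 := hb (fun h4 => h3.2 (by rw [h4]; rfl))
        rw [ord_pos Pl p Y hY _ (hsb b hb0) h, mul_zero]
      · rfl
    rw [eA]
    by_cases h2 : 0 < b.1.2
    · rw [if_pos h2, if_pos h2, abs_of_pos h2] at hk
      rw [if_pos h2, if_pos h2]
      linarith
    · rw [if_neg h2, if_neg h2, abs_of_nonpos (not_lt.1 h2)] at hk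
      rw [if_neg h2, if_neg h2]
      linarith

end

end GaPAux

open GaPAux in
/-- Module GaP. -/
theorem stGaP (hI : StInd 𝔽) : StGaP 𝔽 := by
  intro M _ _ Pl X Y e hind htok hbal p
  have hY : ∀ t : 𝔽, Y ≠ algebraMap 𝔽 M t := by
    intro t
    have h := (hI M X Y hind).2.2.2.2.1 0 1 (by simp) t
    simpa using h
  obtain ⟨κ, hκ⟩ := pointwise Pl p X Y hY
  unfold tot Finsupp.sum
  have h0 : ∑ b ∈ e.support, e b * b.1.2 = 0 := hbal.2
  have h1 : ∑ b ∈ e.support, e b * xs Pl p X Y b =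
      ∑ b ∈ e.support, (e b * us4 Pl p X Y b + e b * (if b.1.2 = 0 ∧ b.1.1 ≠ 0 then
        2 * |b.1.1| * Pl.ord p (Y - algebraMap 𝔽 M (sb b)) else 0) +
        e b * (if 0 < b.1.2 then |b.1.1| else -|b.1.1|) * Pl.ord p Y + κ * (e b * b.1.2)) := by
    refine Finset.sum_congr rfl fun b hb => ?_
    rw [hκ b (htok b hb)]
    ring
  rw [h1, Finset.sum_add_distrib, Finset.sum_add_distrib, Finset.sum_add_distrib,
    ← Finset.mul_sum, h0, ← Finset.sum_mul, mul_zero, add_zero]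

end QE
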