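import Pool.Agent.Lib.QE.St2
import Pool.Agent.Lib.QE.Tame

/-!
Project QE, module Gauss: the Gauss extension of a valuation ring to a rational function field.
-/

namespace QE

open Polynomial QD

namespace GaussAux

section ext
variable {F L κ K : Type} [Field F] [Field L] [Algebra F L] [Field κ] [Field K] [Algebra κ K]
  (O : ValuationSubring F) (ρ : O →+* κ) (u : L) (w : K)

/-- evaluation at `u` -/
noncomputable def e1 : O[X] →+* L := (aeval u).toRingHom.comp (mapRingHom O.subtype)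

/-- reduction and evaluation at `w` -/
noncomputable def e2 : O[X] →+* K := (aeval w).toRingHom.comp (mapRingHom ρ)

theorem e1_apply (p : O[X]) : e1 O u p = aeval u (p.map O.subtype) := rfl

theorem e2_apply (p : O[X]) : e2 O ρ w p = aeval w (p.map ρ) := rfl

/-- `z` is finite with value `e` -/
def rel (z : L) (e : K) : Prop :=
  ∃ f g : O[X], g.map ρ ≠ 0 ∧ z * e1 O u g = e1 O u f ∧ e * e2 O ρ w g = e2 O ρ w f

variable {O ρ u w}
variable (h1 : ∀ p : F[X], p ≠ 0 → aeval u p ≠ 0) (h2 : ∀ p : κ[X], p ≠ 0 → aeval w p ≠ 0)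

include h1 in
theorem e1_inj : Function.Injective (e1 O u) := by
  rw [injective_iff_map_eq_zero]
  intro p hp
  by_contra hne
  refine h1 _ ?_ hp
  exact (Polynomial.map_ne_zero_iff O.subtype_injective).2 hne

include h1 in
theorem e1_ne {g : O[X]} (hg : g.map ρ ≠ 0) : e1 O u g ≠ 0 := by
  intro h
  have h0 : g = 0 := e1_inj h1 (by rw [h, map_zero])
  rw [h0, Polynomial.map_zero] at hg
  exact hg rfl

include h2 in
theorem e2_ne {g : O[X]} (hg : g.map ρ ≠ 0) : e2 O ρ w g ≠ 0 := h2 _ hg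

include h1 h2 in
theorem rel_uniq {z : L} {e e' : K} (h : rel O ρ u w z e) (h' : rel O ρ u w z e') : e = e' := by
  obtain ⟨f, g, hg, a1, a2⟩ := h
  obtain ⟨f', g', hg', b1, b2⟩ := h'
  have c1 : f * g' = f' * g := by
    apply e1_inj h1
    rw [map_mul, map_mul, ← a1, ← b1]
    ring
  have c2 := congrArg (e2 O ρ w) c1
  rw [map_mul, map_mul, ← a2, ← b2] at c2
  have d1 := e2_ne h2 hg
  have d2 := e2_ne h2 hg'
  have c3 : e * (e2 O ρ w g * e2 O ρ w g') = e' * (e2 O ρ w g * e2 O ρ w g') := by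
    linear_combination c2
  exact mul_right_cancel₀ (mul_ne_zero d1 d2) c3

theorem rel_poly (p : O[X]) : rel O ρ u w (e1 O u p) (e2 O ρ w p) :=
  ⟨p, 1, by rw [Polynomial.map_one]; exact one_ne_zero, by rw [map_one, mul_one],
    by rw [map_one, mul_one]⟩

theorem rel_add {z z' : L} {e e' : K} (h : rel O ρ u w z e) (h' : rel O ρ u w z' e') :
    rel O ρ u w (z + z') (e + e') := by
  obtain ⟨f, g, hg, a1, a2⟩ := h
  obtain ⟨f', g', hg', b1, b2⟩ := h'
  refine ⟨f * g' + f' * g, g * g', by rw [Polynomial.map_mul]; exact mul_ne_zero hg hg', ?_, ?_⟩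
  · rw [map_add, map_mul, map_mul, map_mul, ← a1, ← b1]
    ring
  · rw [map_add, map_mul, map_mul, map_mul, ← a2, ← b2]
    ring

theorem rel_mul {z z' : L} {e e' : K} (h : rel O ρ u w z e) (h' : rel O ρ u w z' e') :
    rel O ρ u w (z * z') (e * e') := by
  obtain ⟨f, g, hg, a1, a2⟩ := h
  obtain ⟨f', g', hg', b1, b2⟩ := h'
  refine ⟨f * f', g * g', by rw [Polynomial.map_mul]; exact mul_ne_zero hg hg', ?_, ?_⟩
  · rw [map_mul, map_mul, ← a1, ← b1]
    ring
  · rw [map_mul, map_mul, ← a2, ← b2]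
    ring

theorem rel_one : rel O ρ u w 1 1 := by
  have h := rel_poly (O := O) (ρ := ρ) (u := u) (w := w) 1
  rwa [map_one, map_one] at h

theorem rel_zero : rel O ρ u w 0 0 := by
  have h := rel_poly (O := O) (ρ := ρ) (u := u) (w := w) 0
  rwa [map_zero, map_zero] at h

theorem rel_neg {z : L} {e : K} (h : rel O ρ u w z e) : rel O ρ u w (-z) (-e) := by
  obtain ⟨f, g, hg, a1, a2⟩ := h
  exact ⟨-f, g, hg, by rw [map_neg, ← a1]; ring, by rw [map_neg, ← a2]; ring⟩

include h1 h2 in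
theorem rel_inv {z : L} {e : K} (h : rel O ρ u w z e) (he : e ≠ 0) : rel O ρ u w z⁻¹ e⁻¹ := by
  obtain ⟨f, g, hg, a1, a2⟩ := h
  have hf : f.map ρ ≠ 0 := by
    intro h0
    rw [e2_apply O ρ w f, h0, map_zero] at a2
    exact mul_ne_zero he (e2_ne h2 hg) a2
  have hz : z ≠ 0 := by
    intro h0
    rw [h0, zero_mul] at a1
    exact e1_ne h1 hf a1.symm
  refine ⟨g, f, hf, ?_, ?_⟩
  · rw [← a1, inv_mul_cancel_left₀ hz]
  · rw [← a2, inv_mul_cancel_left₀ he]

include h1 h2 in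
theorem rel_total (h3 : ∀ z : L, ∃ p q : F[X], q ≠ 0 ∧ z * aeval u q = aeval u p) (z : L) :
    (∃ e, rel O ρ u w z e) ∨ ∃ e, rel O ρ u w z⁻¹ e := by
  obtain ⟨p, q, hq, hpq⟩ := h3 z
  by_cases hp : p = 0
  · left
    rw [hp, map_zero] at hpq
    have hz : z = 0 := (mul_eq_zero.1 hpq).resolve_right (h1 q hq)
    exact ⟨0, by rw [hz]; exact rel_zero⟩
  obtain ⟨a, P, ha, hP, eP⟩ := TameAux.scale_poly O ρ p hp
  obtain ⟨b, Q, hb, hQ, eQ⟩ := TameAux.scale_poly O ρ q hq
  have hPu := e1_ne h1 hP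
  have hQu := e1_ne h1 hQ
  have key : z * algebraMap F L b * e1 O u Q = algebraMap F L a * e1 O u P := by
    rw [eP, eQ, map_mul, map_mul, aeval_C, aeval_C] at hpq
    rw [e1_apply, e1_apply, ← hpq, mul_assoc]
  have hA : algebraMap F L a ≠ 0 := (_root_.map_ne_zero _).2 ha
  have hB : algebraMap F L b ≠ 0 := (_root_.map_ne_zero _).2 hb
  have hz : z ≠ 0 := by
    intro h0
    rw [h0, zero_mul, zero_mul] at key
    exact mul_ne_zero hA hPu key.symm
  have hC : ∀ x : O, e1 O u (C x) = algebraMap F L x := by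
    intro x
    rw [e1_apply, Polynomial.map_C, aeval_C]
    rfl
  rcases O.mem_or_inv_mem (a / b) with h | h
  · left
    refine ⟨e2 O ρ w (C ⟨a / b, h⟩ * P) * (e2 O ρ w Q)⁻¹, C ⟨a / b, h⟩ * P, Q, hQ, ?_, ?_⟩
    · rw [map_mul, hC]
      change z * e1 O u Q = algebraMap F L (a / b) * e1 O u P
      rw [map_div₀]
      field_simp
      linear_combination key
    · rw [inv_mul_cancel_right₀ (e2_ne h2 hQ)]
  · right
    refine ⟨e2 O ρ w (C ⟨(a / b)⁻¹, h⟩ * Q) * (e2 O ρ w P)⁻¹, C ⟨(a / b)⁻¹, h⟩ * Q, P, hP, ?_, ?_⟩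
    · rw [map_mul, hC]
      change z⁻¹ * e1 O u P = algebraMap F L (a / b)⁻¹ * e1 O u Q
      rw [map_inv₀, map_div₀]
      field_simp
      linear_combination -key
    · rw [inv_mul_cancel_right₀ (e2_ne h2 hP)]

/-- the Gauss extension -/
noncomputable def VR (h1 : ∀ p : F[X], p ≠ 0 → aeval u p ≠ 0)
    (h2 : ∀ p : κ[X], p ≠ 0 → aeval w p ≠ 0)
    (h3 : ∀ z : L, ∃ p q : F[X], q ≠ 0 ∧ z * aeval u q = aeval u p) : ValuationSubring L where
  carrier := {z | ∃ e, rel O ρ u w z e}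
  mul_mem' := by
    rintro z z' ⟨e, he⟩ ⟨e', he'⟩
    exact ⟨_, rel_mul he he'⟩
  one_mem' := ⟨1, rel_one⟩
  add_mem' := by
    rintro z z' ⟨e, he⟩ ⟨e', he'⟩
    exact ⟨_, rel_add he he'⟩
  zero_mem' := ⟨0, rel_zero⟩
  neg_mem' := by
    rintro z ⟨e, he⟩
    exact ⟨_, rel_neg he⟩
  mem_or_inv_mem' := fun z => rel_total h1 h2 h3 z

theorem mem_VR (h3 : ∀ z : L, ∃ p q : F[X], q ≠ 0 ∧ z * aeval u q = aeval u p) {z : L} :
    z ∈ VR (O := O) (ρ := ρ) h1 h2 h3 ↔ ∃ e, rel O ρ u w z e := Iff.rfl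

/-- the residue map -/
noncomputable def rs (h3 : ∀ z : L, ∃ p q : F[X], q ≠ 0 ∧ z * aeval u q = aeval u p) :
    VR (O := O) (ρ := ρ) h1 h2 h3 →+* K where
  toFun z := z.2.choose
  map_one' := rel_uniq h1 h2 (Exists.choose_spec _) rel_one
  map_mul' z z' := rel_uniq h1 h2 (Exists.choose_spec _)
    (rel_mul z.2.choose_spec z'.2.choose_spec)
  map_zero' := rel_uniq h1 h2 (Exists.choose_spec _) rel_zero
  map_add' z z' := rel_uniq h1 h2 (Exists.choose_spec _)
    (rel_add z.2.choose_spec z'.2.choose_spec)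

theorem rs_eq (h3 : ∀ z : L, ∃ p q : F[X], q ≠ 0 ∧ z * aeval u q = aeval u p)
    (z : VR (O := O) (ρ := ρ) h1 h2 h3) {e : K} (h : rel O ρ u w (z : L) e) :
    rs h1 h2 h3 z = e := rel_uniq h1 h2 z.2.choose_spec h

theorem rs_loc (h3 : ∀ z : L, ∃ p q : F[X], q ≠ 0 ∧ z * aeval u q = aeval u p) :
    IsLocalHom (rs (O := O) (ρ := ρ) h1 h2 h3) := by
  refine ⟨fun z hz => ?_⟩
  have hne : rs h1 h2 h3 z ≠ 0 := hz.ne_zero
  have hr : rel O ρ u w (z : L) (rs h1 h2 h3 z) := z.2.choose_spec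
  have hi := rel_inv h1 h2 hr hne
  have hz0 : (z : L) ≠ 0 := by
    intro h0
    rw [h0] at hr
    exact hne (rel_uniq h1 h2 hr rel_zero)
  refine IsUnit.of_mul_eq_one (⟨(z : L)⁻¹, ⟨_, hi⟩⟩ : VR (O := O) (ρ := ρ) h1 h2 h3) ?_
  apply Subtype.ext
  change (z : L) * (z : L)⁻¹ = 1
  exact mul_inv_cancel₀ hz0

end ext

theorem X_not_square {κ : Type} [Field κ] (s : RatFunc κ) : s * s ≠ RatFunc.X := by
  intro h
  have hs : s ≠ 0 := by
    rintro rfl
    rw [mul_zero] at h
    exact RatFunc.X_ne_zero h.symm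
  have h1 := congrArg RatFunc.intDegree h
  rw [RatFunc.intDegree_mul hs hs, RatFunc.intDegree_X] at h1
  omega

theorem aeval_X_ne {κ : Type} [Field κ] (p : κ[X]) (hp : p ≠ 0) :
    aeval (RatFunc.X : RatFunc κ) p ≠ 0 := by
  rw [RatFunc.aeval_X_left_eq_algebraMap]
  exact (map_ne_zero_iff _ (IsFractionRing.injective κ[X] (RatFunc κ))).2 hp

end GaussAux

open GaussAux

/-- **I1**: the Gauss extension. -/
theorem stGauss : StGauss := by
  intro F _ O c hc hcO hcI h2O h2F q hq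
  have hCc : (algebraMap F (RatFunc F) c) ≠ 0 := (_root_.map_ne_zero _).2 hc
  obtain ⟨u, hu⟩ : ∃ u : RatFunc F, u = (RatFunc.X - 1) * (algebraMap F (RatFunc F) c)⁻¹ :=
    ⟨_, rfl⟩
  have hXu : (RatFunc.X : RatFunc F) = 1 + algebraMap F (RatFunc F) c * u := by
    rw [hu]
    field_simp
    ring
  have hcomp : ∀ P : F[X], aeval u (P.comp (1 + C c * X)) = algebraMap F[X] (RatFunc F) P := by
    intro P
    rw [Polynomial.aeval_comp, map_add, map_one, map_mul, aeval_C, aeval_X, ← hXu,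
      RatFunc.aeval_X_left_eq_algebraMap]
  have hinj : Function.Injective (algebraMap F[X] (RatFunc F)) :=
    IsFractionRing.injective F[X] (RatFunc F)
  have hcc : ∀ P : F[X], (P.comp ((X - 1) * C c⁻¹)).comp (1 + C c * X) = P := by
    intro P
    rw [Polynomial.comp_assoc]
    have h : ((X - 1) * C c⁻¹ : F[X]).comp (1 + C c * X) = X := by
      rw [Polynomial.mul_comp, Polynomial.sub_comp, Polynomial.X_comp, Polynomial.C_comp,
        Polynomial.one_comp, add_sub_cancel_left, mul_comm (C c) X, mul_assoc, ← C_mul,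
        mul_inv_cancel₀ hc, C_1, mul_one]
    rw [h, Polynomial.comp_X]
  have hcc' : ∀ P : F[X], (P.comp (1 + C c * X)).comp ((X - 1) * C c⁻¹) = P := by
    intro P
    rw [Polynomial.comp_assoc]
    have h : (1 + C c * X : F[X]).comp ((X - 1) * C c⁻¹) = X := by
      rw [Polynomial.add_comp, Polynomial.mul_comp, Polynomial.X_comp, Polynomial.C_comp,
        Polynomial.one_comp, mul_comm (X - 1) (C c⁻¹), ← mul_assoc, ← C_mul,
        mul_inv_cancel₀ hc, C_1, one_mul, add_sub_cancel]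
    rw [h, Polynomial.comp_X]
  have h1 : ∀ p : F[X], p ≠ 0 → aeval u p ≠ 0 := by
    intro p hp h
    have h4 := hcomp (p.comp ((X - 1) * C c⁻¹))
    rw [hcc p, h] at h4
    have h5 : p.comp ((X - 1) * C c⁻¹) = 0 := hinj (by rw [← h4, map_zero])
    have h6 := hcc p
    rw [h5, Polynomial.zero_comp] at h6
    exact hp h6.symm
  have h2 : ∀ p : (IsLocalRing.ResidueField O)[X], p ≠ 0 →
      aeval (RatFunc.X : RatFunc (IsLocalRing.ResidueField O)) p ≠ 0 := aeval_X_ne
  have h3 : ∀ z : RatFunc F, ∃ p q : F[X], q ≠ 0 ∧ z * aeval u q = aeval u p := by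
    intro z
    refine ⟨z.num.comp (1 + C c * X), z.denom.comp (1 + C c * X), ?_, ?_⟩
    · intro h
      have h4 := hcc' z.denom
      rw [h, Polynomial.zero_comp] at h4
      exact z.denom_ne_zero h4.symm
    · rw [hcomp, hcomp]
      have hd : algebraMap F[X] (RatFunc F) z.denom ≠ 0 :=
        (map_ne_zero_iff _ hinj).2 z.denom_ne_zero
      have h4 := RatFunc.num_div_denom z
      rw [div_eq_iff hd] at h4
      exact h4.symm
  have hloc := rs_loc (O := O) (ρ := IsLocalRing.residue O) h1 h2 h3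
  have hρc : IsLocalRing.residue O ⟨c, hcO⟩ = 0 := by
    rw [IsLocalRing.residue_eq_zero_iff, IsLocalRing.mem_maximalIdeal, mem_nonunits_iff]
    intro hU
    obtain ⟨v, hv⟩ := hU
    apply hcI
    have h4 : ((v⁻¹ : Oˣ) : O) * ⟨c, hcO⟩ = 1 := by rw [← hv, Units.inv_mul]
    have h5 : (((v⁻¹ : Oˣ) : O) : F) * c = 1 := congrArg Subtype.val h4
    rw [← eq_inv_of_mul_eq_one_left h5]
    exact ((v⁻¹ : Oˣ) : O).2
  have hrX : rel O (IsLocalRing.residue O) u
      (RatFunc.X : RatFunc (IsLocalRing.ResidueField O)) (q : RatFunc F) 1 := by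
    have h4 := rel_poly (O := O) (ρ := IsLocalRing.residue O) (u := u)
      (w := (RatFunc.X : RatFunc (IsLocalRing.ResidueField O))) (1 + C ⟨c, hcO⟩ * X)
    have e5 : e1 O u (1 + C ⟨c, hcO⟩ * X) = (q : RatFunc F) := by
      rw [e1_apply, Polynomial.map_add, Polynomial.map_one, Polynomial.map_mul,
        Polynomial.map_C, Polynomial.map_X, map_add, map_one, map_mul, aeval_C, aeval_X, hq, hXu]
      rfl
    have e6 : e2 O (IsLocalRing.residue O) (RatFunc.X : RatFunc (IsLocalRing.ResidueField O))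
        (1 + C ⟨c, hcO⟩ * X) = 1 := by
      rw [e2_apply, Polynomial.map_add, Polynomial.map_one, Polynomial.map_mul,
        Polynomial.map_C, Polynomial.map_X, hρc, C_0, zero_mul, add_zero, map_one]
    rwa [e5, e6] at h4
  have hru : rel O (IsLocalRing.residue O) u
      (RatFunc.X : RatFunc (IsLocalRing.ResidueField O)) u RatFunc.X := by
    have h4 := rel_poly (O := O) (ρ := IsLocalRing.residue O) (u := u)
      (w := (RatFunc.X : RatFunc (IsLocalRing.ResidueField O))) X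
    rwa [e1_apply, e2_apply, Polynomial.map_X, Polynomial.map_X, aeval_X, aeval_X] at h4
  let lf : IsLocalRing.ResidueField (VR (O := O) (ρ := IsLocalRing.residue O) h1 h2 h3) →+*
    RatFunc (IsLocalRing.ResidueField O) := IsLocalRing.ResidueField.lift (rs h1 h2 h3)
  have hlf : ∀ z, lf (IsLocalRing.residue _ z) = rs h1 h2 h3 z := fun z =>
    IsLocalRing.ResidueField.lift_residue_apply _ z
  refine ⟨VR (O := O) (ρ := IsLocalRing.residue O) h1 h2 h3, ⟨1, hrX⟩, ?_, ?_,
    IsLocalRing.residue _ ⟨u, ⟨_, hru⟩⟩, ?_, ?_⟩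
  · apply lf.injective
    rw [hlf, map_one]
    exact rs_eq h1 h2 h3 _ hrX
  · intro h0
    have h4 := congrArg lf h0
    rw [map_ofNat, map_zero] at h4
    have h5 : (2 : IsLocalRing.ResidueField O) ≠ 0 := by
      intro h6
      have h7 : IsLocalRing.residue O (2 * ⟨(2 : F)⁻¹, h2O⟩) = 1 := by
        have h8 : (2 : O) * ⟨(2 : F)⁻¹, h2O⟩ = 1 := by
          apply Subtype.ext
          change (2 : F) * (2 : F)⁻¹ = 1
          exact mul_inv_cancel₀ h2F
        rw [h8, map_one]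
      rw [map_mul, map_ofNat, h6, zero_mul] at h7
      exact zero_ne_one h7
    have h6 : (algebraMap (IsLocalRing.ResidueField O) (RatFunc (IsLocalRing.ResidueField O))) 2
        ≠ 0 := (_root_.map_ne_zero _).2 h5
    rw [map_ofNat] at h6
    exact h6 h4
  · rintro ⟨s, hs⟩
    have h4 := congrArg lf hs
    rw [hlf, map_mul, rs_eq h1 h2 h3 _ hru] at h4
    exact X_not_square _ h4.symm
  · intro hs
    have h4 := congrArg lf hs
    rw [hlf, map_neg, map_one, rs_eq h1 h2 h3 _ hru] at h4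
    have h5 := aeval_X_ne (X + 1 : (IsLocalRing.ResidueField O)[X]) (X_add_C_ne_zero 1)
    rw [map_add, map_one, aeval_X, h4] at h5
    exact h5 (neg_add_cancel 1)

end QE
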