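import Pool.Agent.Lib.QE.CSt

/-!
Project QD, module IndB: the base pair is independent.
-/

set_option autoImplicit false

namespace QE

variable {𝔽 : Type} [Field 𝔽]

open Polynomial

namespace IndBAux

/-- the map `𝔽[X₀, X₁] → Ω(X)`, `X₀ ↦ X`, `X₁ ↦ η` -/
noncomputable def phi (Ω : Type) [Field Ω] [Algebra 𝔽 Ω] (η : Ω) :
    MvPolynomial (Fin 2) 𝔽 →ₐ[𝔽] RatFunc Ω :=
  (IsScalarTower.toAlgHom 𝔽 (Polynomial Ω) (RatFunc Ω)).comp
    ((Polynomial.mapAlgHom (MvPolynomial.aeval (fun _ : Fin 1 => η))).comp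
      (MvPolynomial.finSuccEquiv 𝔽 1).toAlgHom)

theorem phi_inj (Ω : Type) [Field Ω] [Algebra 𝔽 Ω] (η : Ω) (h : Transcendental 𝔽 η) :
    Function.Injective (phi (𝔽 := 𝔽) Ω η) := by
  have h1 : Function.Injective (MvPolynomial.aeval (R := 𝔽) (fun _ : Fin 1 => η)) := by
    rw [← algebraicIndependent_iff_injective_aeval]
    exact algebraicIndependent_unique_type_iff.2 h
  have h2 : Function.Injective (algebraMap (Polynomial Ω) (RatFunc Ω)) :=
    IsFractionRing.injective _ _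
  intro a b hab
  apply (MvPolynomial.finSuccEquiv 𝔽 1).injective
  apply Polynomial.map_injective _ h1
  exact h2 hab

theorem phi_eq (Ω : Type) [Field Ω] [Algebra 𝔽 Ω] (η : Ω) :
    MvPolynomial.aeval (R := 𝔽) ![(RatFunc.X : RatFunc Ω), RatFunc.C η] = phi Ω η := by
  apply MvPolynomial.algHom_ext
  intro i
  fin_cases i
  · simp [phi, MvPolynomial.finSuccEquiv_X_zero]
  · have h1 : (MvPolynomial.finSuccEquiv 𝔽 1) (MvPolynomial.X 1) =
        Polynomial.C (MvPolynomial.X (0 : Fin 1)) :=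
      MvPolynomial.finSuccEquiv_X_succ (R := 𝔽) (j := (0 : Fin 1))
    have h2 : algebraMap (Polynomial Ω) (RatFunc Ω) (Polynomial.C η) = RatFunc.C η :=
      RatFunc.algebraMap_C η
    change MvPolynomial.aeval ![(RatFunc.X : RatFunc Ω), RatFunc.C η] (MvPolynomial.X 1) =
      algebraMap (Polynomial Ω) (RatFunc Ω) (Polynomial.map
        ((MvPolynomial.aeval (R := 𝔽) (fun _ : Fin 1 => η)) : _ →+* _)
        ((MvPolynomial.finSuccEquiv 𝔽 1) (MvPolynomial.X 1)))
    rw [h1, Polynomial.map_C, MvPolynomial.aeval_X]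
    change RatFunc.C η = algebraMap (Polynomial Ω) (RatFunc Ω) (Polynomial.C
      (MvPolynomial.aeval (R := 𝔽) (fun _ : Fin 1 => η) (MvPolynomial.X 0)))
    rw [MvPolynomial.aeval_X, h2]

end IndBAux

theorem stIndB : StIndB 𝔽 := by
  intro Ω _ _ η h
  unfold Ind
  rw [algebraicIndependent_iff_injective_aeval, IndBAux.phi_eq]
  exact IndBAux.phi_inj Ω η h

end QE
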