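import Pool.Agent.Lib.QE.St

/-!
Project QE, module Inter: intertwined endomorphisms `θ`, `ψ` with parameter.
-/

set_option autoImplicit false

namespace QE

open Polynomial QD

namespace InterAux

section
variable {k D : Type} [Field k] [DivisionRing D] [Algebra k D]

/-- homomorphisms commute with evaluation of rational functions -/
theorem map_evR (f : D →ₐ[k] D) (u : D) (b : RatFunc k) : f (evR u b) = evR (f u) b := by
  unfold evR
  rw [map_mul, map_inv₀, ← Polynomial.aeval_algHom_apply, ← Polynomial.aeval_algHom_apply]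

/-- conjugation -/
noncomputable def cj (v : D) (hv : v ≠ 0) : D →ₐ[k] D where
  toFun d := v * d * v⁻¹
  map_one' := by rw [mul_one, mul_inv_cancel₀ hv]
  map_mul' a b := by
    rw [mul_assoc v a, mul_assoc v (a * b), mul_assoc v (a * v⁻¹), mul_assoc a v⁻¹]
    rw [← mul_assoc v⁻¹ (v * b), ← mul_assoc v⁻¹ v b, inv_mul_cancel₀ hv, one_mul, mul_assoc]
  map_zero' := by rw [mul_zero, zero_mul]
  map_add' a b := by rw [mul_add, add_mul]
  commutes' c := by rw [← Algebra.commutes, mul_assoc, mul_inv_cancel₀ hv, mul_one]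

theorem cj_apply (v : D) (hv : v ≠ 0) (d : D) : cj (k := k) v hv d = v * d * v⁻¹ := rfl

theorem comm_evR (u v : D) (hv : v ≠ 0) (h : v * u = u * v) (b : RatFunc k) :
    v * evR u b = evR u b * v := by
  have h1 : cj (k := k) v hv (evR u b) = evR u b := by
    rw [map_evR, cj_apply, h, mul_assoc, mul_inv_cancel₀ hv, mul_one]
  rw [cj_apply] at h1
  calc v * evR u b = v * evR u b * v⁻¹ * v := by rw [mul_assoc _ v⁻¹ v, inv_mul_cancel₀ hv, mul_one]
    _ = evR u b * v := by rw [h1]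

/-- the coefficients in the first intertwining relation -/
theorem id1 {A Ai y s M2 M3 x xi : D} (hy : y ≠ 0) (hA : Ai * A = 1)
    (cA : ∀ d : D, A * d = d * A)
    (h2 : y * M2 = M2 * y) (h3 : y * M3 = M3 * y) (hM3s : M3 * s = s * M3) (hM2s : M2 * s = s * M2) :
    M3 * (s * (A * y⁻¹ * x + y * xi)) + M2 * (s * (x + A * xi)) =
      s * (A * y⁻¹ * ((M3 + Ai * M2 * y) * x) + y * ((M3 + A * M2 * y⁻¹) * xi)) := by
  have hM2yi : y⁻¹ * M2 = M2 * y⁻¹ := by
    have : Commute y M2 := h2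
    exact (this.inv_left₀).eq
  have hM3yi : y⁻¹ * M3 = M3 * y⁻¹ := by
    have : Commute y M3 := h3
    exact (this.inv_left₀).eq
  have f1 : M3 * (s * (A * y⁻¹ * x + y * xi)) = s * (M3 * (A * y⁻¹ * x + y * xi)) := by
    rw [← mul_assoc, hM3s, mul_assoc]
  have f2 : M2 * (s * (x + A * xi)) = s * (M2 * (x + A * xi)) := by
    rw [← mul_assoc, hM2s, mul_assoc]
  rw [f1, f2, ← mul_add]
  congr 1
  have f3 : A * y⁻¹ * ((M3 + Ai * M2 * y) * x) = M3 * (A * y⁻¹ * x) + M2 * x := by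
    have g1 : A * y⁻¹ * M3 = M3 * (A * y⁻¹) := by
      rw [mul_assoc, hM3yi, ← mul_assoc, cA M3, mul_assoc]
    have g2 : A * y⁻¹ * (Ai * M2 * y) = M2 := by
      calc A * y⁻¹ * (Ai * M2 * y) = y⁻¹ * (A * Ai) * M2 * y := by
            rw [cA y⁻¹]
            simp only [mul_assoc]
        _ = y⁻¹ * M2 * y := by rw [cA Ai, hA, mul_one]
        _ = M2 := by rw [hM2yi, mul_assoc, inv_mul_cancel₀ hy, mul_one]
    rw [add_mul, mul_add, ← mul_assoc (A * y⁻¹) M3 x, g1, ← mul_assoc (A * y⁻¹) _ x, g2, mul_assoc]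
  have f4 : y * ((M3 + A * M2 * y⁻¹) * xi) = M3 * (y * xi) + M2 * (A * xi) := by
    have g2 : y * (A * M2 * y⁻¹) = M2 * A := by
      calc y * (A * M2 * y⁻¹) = A * (y * M2) * y⁻¹ := by
            rw [← mul_assoc, ← mul_assoc y, ← cA y]
            simp only [mul_assoc]
        _ = A * M2 := by rw [h2, mul_assoc, mul_assoc, mul_inv_cancel₀ hy, mul_one]
        _ = M2 * A := cA M2
    rw [add_mul, mul_add, ← mul_assoc y M3 xi, h3, ← mul_assoc y _ xi, g2, mul_assoc, mul_assoc]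
  rw [f3, f4, mul_add, mul_add]
  abel

/-- the coefficients in the second intertwining relation -/
theorem id2 {A Ai y s M2 M3 x xi l : D} (hA : Ai * A = 1)
    (cA : ∀ d : D, A * d = d * A) (cAi : ∀ d : D, Ai * d = d * Ai)
    (h3 : y * M3 = M3 * y) (hM3s : M3 * s = s * M3) (hM2s : M2 * s = s * M2)
    (hl : l = y + A * A * y⁻¹) (hls : l * s = s * l) :
    (M3 + Ai * M2 * l) * (s * (x + A * xi)) - M2 * (s * (A * y⁻¹ * x + y * xi)) =
      s * ((M3 + Ai * M2 * y) * x + A * ((M3 + A * M2 * y⁻¹) * xi)) := by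
  have f0 : (M3 + Ai * M2 * l) * s = s * (M3 + Ai * M2 * l) := by
    have g3 : Ai * M2 * l * s = s * (Ai * M2 * l) := by
      rw [mul_assoc, hls, ← mul_assoc, mul_assoc Ai, hM2s, ← mul_assoc Ai, cAi s]
      simp only [mul_assoc]
    rw [add_mul, g3, hM3s, ← mul_add]
  have f1 : (M3 + Ai * M2 * l) * (s * (x + A * xi)) = s * ((M3 + Ai * M2 * l) * (x + A * xi)) := by
    rw [← mul_assoc, f0, mul_assoc]
  have f2 : M2 * (s * (A * y⁻¹ * x + y * xi)) = s * (M2 * (A * y⁻¹ * x + y * xi)) := by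
    rw [← mul_assoc, hM2s, mul_assoc]
  rw [f1, f2, ← mul_sub]
  congr 1
  have g1 : Ai * M2 * l = Ai * M2 * y + M2 * (A * y⁻¹) := by
    rw [hl, mul_add]
    congr 1
    calc Ai * M2 * (A * A * y⁻¹) = M2 * ((Ai * A) * (A * y⁻¹)) := by
          rw [cAi M2]
          simp only [mul_assoc]
      _ = M2 * (A * y⁻¹) := by rw [hA, one_mul]
  have g2 : (M3 + Ai * M2 * l) * (A * xi) =
      A * (M3 * xi) + M2 * (y * xi) + A * (A * M2 * y⁻¹ * xi) := by
    rw [g1, add_mul, add_mul]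
    have e1 : M3 * (A * xi) = A * (M3 * xi) := by rw [← mul_assoc, ← cA M3, mul_assoc]
    have e2 : Ai * M2 * y * (A * xi) = M2 * (y * xi) := by
      calc Ai * M2 * y * (A * xi) = Ai * (M2 * y * A) * xi := by simp only [mul_assoc]
        _ = Ai * (A * (M2 * y)) * xi := by rw [cA (M2 * y)]
        _ = (Ai * A) * (M2 * y) * xi := by simp only [mul_assoc]
        _ = M2 * (y * xi) := by rw [hA, one_mul, mul_assoc]
    have e3 : M2 * (A * y⁻¹) * (A * xi) = A * (A * M2 * y⁻¹ * xi) := by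
      calc M2 * (A * y⁻¹) * (A * xi) = (M2 * A) * (y⁻¹ * A) * xi := by simp only [mul_assoc]
        _ = (A * M2) * (A * y⁻¹) * xi := by rw [cA M2, cA y⁻¹]
        _ = A * (M2 * A * y⁻¹ * xi) := by simp only [mul_assoc]
        _ = A * (A * M2 * y⁻¹ * xi) := by rw [cA M2]
    rw [e1, e2, e3]
    abel
  rw [mul_add, g2, g1]
  have e4 : M2 * (A * y⁻¹ * x + y * xi) = M2 * (A * y⁻¹) * x + M2 * (y * xi) := by
    rw [mul_add, ← mul_assoc M2 (A * y⁻¹) x]
  have e5 : A * ((M3 + A * M2 * y⁻¹) * xi) = A * (M3 * xi) + A * (A * M2 * y⁻¹ * xi) := by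
    rw [add_mul, mul_add]
  rw [e4, e5]
  simp only [add_mul]
  abel

end

end InterAux

open InterAux

theorem stInter (hUP : QD.StUP) (hUq : QD.StUniq) (hTr0 : QD.StTr) : StInter := by
  intro k D _ _ _ q a x y hD hq j hjx hjy hjL β μ₂ μ₃ hβ H1 H2 H3
  obtain ⟨-, hty, -⟩ := hTr0 k D q x y hD.x0 hD.y0 hD.comm hq
  have hx := hD.x0
  have hy := hD.y0
  obtain ⟨A, hAd⟩ : ∃ A : D, A = algebraMap k D a := ⟨_, rfl⟩
  obtain ⟨Ai, hAid⟩ : ∃ A : D, A = algebraMap k D ((a⁻¹ : kˣ) : k) := ⟨_, rfl⟩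
  have hA2 : algebraMap k D ((a : k) ^ 2) = A * A := by rw [map_pow, hAd, pow_two]
  have hAA : Ai * A = 1 := by rw [hAd, hAid, ← map_mul, Units.inv_mul, map_one]
  have cA : ∀ d : D, A * d = d * A := by
    intro d
    rw [hAd]
    exact Algebra.commutes _ _
  have cAi : ∀ d : D, Ai * d = d * Ai := by
    intro d
    rw [hAid]
    exact Algebra.commutes _ _
  rw [← hAid]
  rw [← hAd, hA2] at hjx hjy H2
  rw [← hAid, hA2] at H1
  rw [hA2] at hjL H3
  obtain ⟨l, hl⟩ : ∃ l : D, l = y + A * A * y⁻¹ := ⟨_, rfl⟩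
  rw [← hl] at hjL H1 H2
  obtain ⟨B, hB⟩ : ∃ B : D, B = evR y β := ⟨_, rfl⟩
  obtain ⟨Bt, hBt⟩ : ∃ B : D, B = evR (A * A * y⁻¹) β := ⟨_, rfl⟩
  obtain ⟨M2, hM2⟩ : ∃ M : D, M = evR l μ₂ := ⟨_, rfl⟩
  obtain ⟨M3, hM3⟩ : ∃ M : D, M = evR l μ₃ := ⟨_, rfl⟩
  rw [← hB, ← hM2, ← hM3] at H1
  rw [← hBt, ← hM2, ← hM3] at H2
  rw [← hBt] at H3
  rw [← hB]
  have hyAy : y * (A * A * y⁻¹) = A * A := by
    rw [← mul_assoc, ← mul_assoc, ← cA y, mul_assoc A y A, ← cA y, mul_assoc, mul_assoc,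
      mul_inv_cancel₀ hy, mul_one]
  have hAyy : A * A * y⁻¹ * y = A * A := by rw [mul_assoc, inv_mul_cancel₀ hy, mul_one]
  have hyl : y * l = l * y := by
    rw [hl, mul_add, add_mul, hyAy, hAyy]
  have hM2y : y * M2 = M2 * y := by rw [hM2]; exact comm_evR _ _ hy hyl μ₂
  have hM3y : y * M3 = M3 * y := by rw [hM3]; exact comm_evR _ _ hy hyl μ₃
  have hyB : y * B = B * y := by rw [hB]; exact comm_evR _ _ hy rfl β
  have hB0 : B ≠ 0 := by
    rw [hB]
    unfold evR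
    refine mul_ne_zero (hty _ (RatFunc.num_ne_zero hβ)) (inv_ne_zero (hty _ (RatFunc.denom_ne_zero β)))
  -- `x Bt x⁻¹ = B⁻¹`
  have hconj : x * Bt * x⁻¹ * B = 1 := by
    have h1 : cj (k := k) x hx (Bt * evR (algebraMap k D ((q⁻¹ : kˣ) : k) * y) β) = 1 := by
      rw [H3, map_one]
    rw [map_mul, map_evR, cj_apply, cj_apply] at h1
    have h2 : x * (algebraMap k D ((q⁻¹ : kˣ) : k) * y) * x⁻¹ = y := by
      rw [← mul_assoc x, ← Algebra.commutes, mul_assoc _ x y, hD.comm, ← mul_assoc _ _ (y * x),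
        ← map_mul, Units.inv_mul, map_one, one_mul, mul_assoc, mul_inv_cancel₀ hx, mul_one]
    rw [h2, ← hB] at h1
    exact h1
  have hxBt : x⁻¹ * B⁻¹ = Bt * x⁻¹ := by
    have h1 : x * Bt * x⁻¹ = B⁻¹ := eq_inv_of_mul_eq_one_left hconj
    rw [← h1, ← mul_assoc, ← mul_assoc, inv_mul_cancel₀ hx, one_mul]
  -- `ψ`
  obtain ⟨ψ, hψx, hψy⟩ := hUP k D D q x y (B * x) y hD hq (mul_ne_zero hB0 hx) hy (by
    rw [mul_assoc, hD.comm, ← mul_assoc y B x, hyB, ← mul_assoc B, ← Algebra.commutes,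
      mul_assoc _ B, ← mul_assoc B y x])
  have hψxi : ψ x⁻¹ = Bt * x⁻¹ := by
    rw [map_inv₀, hψx, mul_inv_rev, hxBt]
  have hψyi : ψ y⁻¹ = y⁻¹ := by rw [map_inv₀, hψy]
  have hψA : ψ A = A := by rw [hAd, AlgHom.commutes]
  have hjA : j A = A := by rw [hAd, AlgHom.commutes]
  have hjAi : j Ai = Ai := by rw [hAid, AlgHom.commutes]
  obtain ⟨s, hs⟩ : ∃ s : D, s = y * (y ^ 2 - A * A)⁻¹ := ⟨_, rfl⟩
  have hψs : ψ s = s := by rw [hs, map_mul, map_inv₀, map_sub, map_pow, map_mul, hψy, hψA]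
  rw [← hs] at hjx hjy
  -- `s` commutes with everything that commutes with `y`
  have hsc : ∀ d : D, y * d = d * y → d * s = s * d := by
    intro d hd
    have c0 : Commute y d := hd
    have c1 : Commute (y ^ 2 - A * A) d := by
      have c2 : Commute A d := cA d
      exact (c0.pow_left 2).sub_left (c2.mul_left c2)
    rw [hs]
    exact (c0.mul_left c1.inv_left₀).eq.symm
  have hM2s : M2 * s = s * M2 := hsc _ hM2y
  have hM3s : M3 * s = s * M3 := hsc _ hM3y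
  have hls : l * s = s * l := hsc _ hyl
  -- the images of `x` and `y` under `θ`
  obtain ⟨L, hL⟩ : ∃ L : D, L = LA a x y := ⟨_, rfl⟩
  rw [← hL] at hjL ⊢
  obtain ⟨thx, hthx⟩ : ∃ t : D, t = evR L μ₃ * x + evR L μ₂ * y := ⟨_, rfl⟩
  obtain ⟨thy, hthy⟩ : ∃ t : D, t = (evR L μ₃ + Ai * evR L μ₂ * L) * y - evR L μ₂ * x := ⟨_, rfl⟩
  rw [← hthx, ← hthy]
  have hjM3 : j (evR L μ₃) = M3 := by rw [map_evR, hjL, hM3]
  have hjM2 : j (evR L μ₂) = M2 := by rw [map_evR, hjL, hM2]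
  have e1 : j thx = ψ (j x) := by
    rw [hthx, map_add, map_mul, map_mul, hjM3, hjM2, hjx, hjy]
    rw [map_mul, map_add, map_mul, map_mul, map_mul, hψs, hψx, hψxi, hψyi, hψy, hψA, H1, H2]
    exact id1 hy hAA cA hM2y hM3y hM3s hM2s
  have e2 : j thy = ψ (j y) := by
    rw [hthy, map_sub, map_mul, map_mul, map_add, map_mul, map_mul, hjM3, hjM2, hjL, hjx, hjy, hjAi]
    rw [map_mul, map_add, map_mul, hψs, hψx, hψxi, hψA, H1, H2]
    exact id2 hAA cA cAi hM3y hM3s hM2s hl hls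
  have hjinj : Function.Injective j := j.toRingHom.injective
  have hjx0 : ψ (j x) ≠ 0 := by
    intro h
    have h1 : j x = 0 := ψ.toRingHom.injective (by
      show ψ (j x) = ψ 0
      rw [h, map_zero])
    exact hx (hjinj (by rw [h1, map_zero]))
  have hjy0 : ψ (j y) ≠ 0 := by
    intro h
    have h1 : j y = 0 := ψ.toRingHom.injective (by
      show ψ (j y) = ψ 0
      rw [h, map_zero])
    exact hy (hjinj (by rw [h1, map_zero]))
  have hthx0 : thx ≠ 0 := by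
    intro h
    rw [h, map_zero] at e1
    exact hjx0 e1.symm
  have hthy0 : thy ≠ 0 := by
    intro h
    rw [h, map_zero] at e2
    exact hjy0 e2.symm
  have hcomm : thx * thy = algebraMap k D q * (thy * thx) := by
    apply hjinj
    rw [map_mul, map_mul, map_mul, e1, e2, AlgHom.commutes, ← map_mul, ← map_mul, hD.comm,
      ← map_mul, ← map_mul, map_mul, map_mul, AlgHom.commutes, AlgHom.commutes]
  obtain ⟨θ, hθx, hθy⟩ := hUP k D D q x y thx thy hD hq hthx0 hthy0 hcomm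
  refine ⟨θ, ψ, hψx, hψy, hθx, hθy, ?_⟩
  intro d
  have h1 := hUq k D D q x y hD (j.comp θ) (ψ.comp j) (by
    show j (θ x) = ψ (j x)
    rw [hθx, e1]) (by
    show j (θ y) = ψ (j y)
    rw [hθy, e2])
  have h2 := congrArg (fun f : D →ₐ[k] D => f d) h1
  exact h2

end QE
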