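import Pool.Agent.Lib.QE.CSt

/-!
Project QD, statement F8 (`StKK 𝔽`): positivity of the minimum kernel `KK`.
-/

namespace QE

variable {𝔽 : Type} [Field 𝔽]
namespace KKAux

theorem psd (e : (Blk 𝔽) →₀ ℤ) (K : (Blk 𝔽) → (Blk 𝔽) → ℤ) (P : ℤ) (hP : 0 < P) {ι : Type} (I : Finset ι)
    (u : ι → (Blk 𝔽) → ℤ)
    (h : ∀ b ∈ e.support, ∀ c ∈ e.support, P * K b c = ∑ i ∈ I, u i b * u i c) :
    0 ≤ tot e fun b => tot e fun c => K b c := by
  have h1 : P * (tot e fun b => tot e fun c => K b c) = ∑ i ∈ I, (tot e (u i)) ^ 2 := by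
    have h2 : ∀ i ∈ I, (tot e (u i)) ^ 2 =
        ∑ b ∈ e.support, ∑ c ∈ e.support, (e b * u i b) * (e c * u i c) := by
      intro i _
      rw [sq, tot, Finsupp.sum, Finset.sum_mul_sum]
    rw [Finset.sum_congr rfl h2, Finset.sum_comm, tot, Finsupp.sum, Finset.mul_sum]
    refine Finset.sum_congr rfl fun b hb => ?_
    rw [Finset.sum_comm, tot, Finsupp.sum, Finset.mul_sum, Finset.mul_sum]
    refine Finset.sum_congr rfl fun c hc => ?_
    have h3 : ∑ i ∈ I, e b * u i b * (e c * u i c) = e b * e c * ∑ i ∈ I, u i b * u i c := by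
      rw [Finset.mul_sum]
      refine Finset.sum_congr rfl fun i _ => ?_
      ring
    rw [h3, ← h b hb c hc]
    ring
  have h4 : 0 ≤ P * (tot e fun b => tot e fun c => K b c) := by
    rw [h1]
    exact Finset.sum_nonneg fun i _ => sq_nonneg _
  exact nonneg_of_mul_nonneg_right h4 hP

/-- the common multiple of the first coordinates -/
def PP (e : (Blk 𝔽) →₀ ℤ) : ℕ := ∏ b ∈ e.support, if b.1.1 = 0 then 1 else b.1.1.natAbs

theorem PP_pos (e : (Blk 𝔽) →₀ ℤ) : 0 < PP e := by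
  refine Finset.prod_pos fun b _ => ?_
  split_ifs with h
  · exact one_pos
  · exact Int.natAbs_pos.2 h

/-- the integral slope -/
def nb (e : (Blk 𝔽) →₀ ℤ) (b : (Blk 𝔽)) : ℕ := PP e / b.1.1.natAbs * b.1.2.natAbs

theorem nb_mul (e : (Blk 𝔽) →₀ ℤ) (b : (Blk 𝔽)) (hb : b ∈ e.support) (h0 : b.1.1 ≠ 0) :
    b.1.1.natAbs * nb e b = PP e * b.1.2.natAbs := by
  have h : b.1.1.natAbs ∣ PP e := by
    have := Finset.dvd_prod_of_mem (fun b : (Blk 𝔽) => if b.1.1 = 0 then 1 else b.1.1.natAbs) hb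
    simpa [h0, PP] using this
  rw [nb, ← mul_assoc, Nat.mul_div_cancel' h]

theorem min_sum (N x y : ℕ) (hx : x ≤ N) :
    ((min x y : ℕ) : ℤ) = ∑ m ∈ Finset.range N, (if m < x then (1 : ℤ) else 0) * (if m < y then 1 else 0) := by
  have h1 : ∀ m ∈ Finset.range N, (if m < x then (1 : ℤ) else 0) * (if m < y then 1 else 0) =
      if m < min x y then 1 else 0 := by
    intro m _
    by_cases h1 : m < x <;> by_cases h2 : m < y <;> simp [h1, h2]
  rw [Finset.sum_congr rfl h1, Finset.sum_ite, Finset.sum_const_zero, add_zero, Finset.sum_const,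
    nsmul_eq_mul, mul_one]
  congr 1
  have h2 : (Finset.range N).filter (fun m => m < min x y) = Finset.range (min x y) := by
    ext m
    simp only [Finset.mem_filter, Finset.mem_range]
    constructor
    · intro h; exact h.2
    · intro h; exact ⟨lt_of_lt_of_le h ((min_le_left _ _).trans hx), h⟩
  rw [h2, Finset.card_range]

/-- the four quadrants -/
def qd : Finset (ℤ × ℤ) := {(1, 1), (1, -1), (-1, 1), (-1, -1)}

/-- indicator of a quadrant -/
def iq (s : ℤ × ℤ) (b : (Blk 𝔽)) : ℤ := if 0 < s.1 * b.1.1 ∧ 0 < s.2 * b.1.2 then 1 else 0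

theorem sum_iq (b c : (Blk 𝔽)) :
    ∑ s ∈ qd, iq s b * iq s c = if 0 < b.1.1 * c.1.1 ∧ 0 < b.1.2 * c.1.2 then 1 else 0 := by
  obtain ⟨⟨b1, b2⟩, tb⟩ := b
  obtain ⟨⟨c1, c2⟩, tc⟩ := c
  have e1 : ∀ x y : ℤ, 0 < x * y ↔ (0 < x ∧ 0 < y) ∨ (x < 0 ∧ y < 0) := fun x y => mul_pos_iff
  have hq : ∑ s ∈ qd, iq s ((b1, b2), tb) * iq s ((c1, c2), tc) =
      iq (1, 1) ((b1, b2), tb) * iq (1, 1) ((c1, c2), tc) +
      (iq (1, -1) ((b1, b2), tb) * iq (1, -1) ((c1, c2), tc) +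
      (iq (-1, 1) ((b1, b2), tb) * iq (-1, 1) ((c1, c2), tc) +
      iq (-1, -1) ((b1, b2), tb) * iq (-1, -1) ((c1, c2), tc))) := by
    rw [qd, Finset.sum_insert (by decide), Finset.sum_insert (by decide),
      Finset.sum_insert (by decide), Finset.sum_singleton]
  rw [hq]
  simp only [iq, one_mul, neg_mul, Left.neg_pos_iff, e1]
  rcases lt_trichotomy b1 0 with h1 | h1 | h1 <;> rcases lt_trichotomy b2 0 with h2 | h2 | h2 <;>
    rcases lt_trichotomy c1 0 with h3 | h3 | h3 <;> rcases lt_trichotomy c2 0 with h4 | h4 | h4 <;>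
    simp [h1, h2, h3, h4, h1.le, h2.le, h3.le, h4.le, not_lt_of_gt]

end KKAux

open KKAux in
/-- F8. Positivity of `KK`. -/
theorem stKK : StKK 𝔽 := by
  intro e
  set N : ℕ := ∑ b ∈ e.support, nb e b with hN
  refine psd e _ (PP e : ℤ) (by exact_mod_cast PP_pos e) (qd ×ˢ Finset.range N)
    (fun i b => iq i.1 b * |b.1.1| * (if i.2 < nb e b then 1 else 0)) ?_
  intro b hb c hc
  have hbN : nb e b ≤ N := Finset.single_le_sum (f := fun b => nb e b) (fun _ _ => Nat.zero_le _) hb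
  rw [Finset.sum_product]
  have h1 : ∀ s ∈ qd, ∑ m ∈ Finset.range N, (iq s b * |b.1.1| * (if m < nb e b then 1 else 0)) *
      (iq s c * |c.1.1| * (if m < nb e c then 1 else 0)) =
      iq s b * iq s c * (|b.1.1| * |c.1.1| * ((min (nb e b) (nb e c) : ℕ) : ℤ)) := by
    intro s _
    rw [min_sum N _ _ hbN, Finset.mul_sum, Finset.mul_sum]
    refine Finset.sum_congr rfl fun m _ => ?_
    ring
  rw [Finset.sum_congr rfl h1, ← Finset.sum_mul, sum_iq]
  split_ifs with h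
  · have hb0 : b.1.1 ≠ 0 := by rintro h0; rw [h0, zero_mul] at h; exact lt_irrefl _ h.1
    have hc0 : c.1.1 ≠ 0 := by rintro h0; rw [h0, mul_zero] at h; exact lt_irrefl _ h.1
    have e1 : |b.1.1| * (nb e b : ℤ) = PP e * |b.1.2| := by
      rw [Int.abs_eq_natAbs, Int.abs_eq_natAbs]
      exact_mod_cast nb_mul e b hb hb0
    have e2 : |c.1.1| * (nb e c : ℤ) = PP e * |c.1.2| := by
      rw [Int.abs_eq_natAbs, Int.abs_eq_natAbs]
      exact_mod_cast nb_mul e c hc hc0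
    have hP : (0 : ℤ) ≤ PP e := by exact_mod_cast Nat.zero_le _
    have hbc : (0 : ℤ) ≤ |b.1.1| * |c.1.1| := mul_nonneg (abs_nonneg _) (abs_nonneg _)
    rw [one_mul, Nat.cast_min, mul_min_of_nonneg _ _ hP, mul_min_of_nonneg _ _ hbc, min_comm]
    congr 1
    · rw [abs_mul, ← mul_assoc, ← e1]; ring
    · rw [abs_mul]
      calc (PP e : ℤ) * (|b.1.1| * |c.1.2|) = |b.1.1| * (PP e * |c.1.2|) := by ring
        _ = |b.1.1| * (|c.1.1| * (nb e c : ℤ)) := by rw [e2]
        _ = _ := by ring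
  · simp

end QE
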