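import Pool.Agent.Lib.QE.CSt

/-!
Project QE, module Mul: multiplicities of the quintic pair.
-/

set_option autoImplicit false

namespace QE

variable {𝔽 : Type} [Field 𝔽]

open Polynomial

namespace MulAux

section places

variable {M : Type} [Field M] [Algebra 𝔽 M] (Pl : Places 𝔽 M) (p : Pl.P)

theorem ord_one : Pl.ord p 1 = 0 := by
  have h := Pl.con p 1 one_ne_zero
  rwa [map_one] at h

theorem ord_inv {f : M} (hf : f ≠ 0) : Pl.ord p f⁻¹ = - Pl.ord p f := by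
  have h := Pl.mul p f f⁻¹ hf (inv_ne_zero hf)
  rw [mul_inv_cancel₀ hf, ord_one] at h
  linarith

theorem ord_neg {f : M} (hf : f ≠ 0) : Pl.ord p (-f) = Pl.ord p f := by
  have h := Pl.mul p (algebraMap 𝔽 M (-1)) f (by simp) hf
  rw [Pl.con p (-1) (neg_ne_zero.2 one_ne_zero), zero_add] at h
  rw [← h]
  congr 1
  simp

theorem ord_sq {f : M} (hf : f ≠ 0) : Pl.ord p (f ^ 2) = 2 * Pl.ord p f := by
  rw [pow_two, Pl.mul p f f hf hf]
  ring

/-- one of the two conjugate blocks takes all the contact -/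
theorem pair_le (h2' : (2 : 𝔽) ≠ 0) (Z : M) (t : 𝔽) (w μ : ℤ) (ht : t ≠ 0) (hw : μ ≤ w) (h0 : 0 ≤ μ)
    (h1 : Z - algebraMap 𝔽 M t ≠ 0) (h2 : Z - algebraMap 𝔽 M (-t) ≠ 0)
    (h : μ ≤ Pl.ord p (Z ^ 2 - algebraMap 𝔽 M (t ^ 2))) :
    μ ≤ min w (1 * max 0 (Pl.ord p (Z - algebraMap 𝔽 M t))) +
      min w (1 * max 0 (Pl.ord p (Z - algebraMap 𝔽 M (-t)))) := by
  have e1 : Z ^ 2 - algebraMap 𝔽 M (t ^ 2) =
      (Z - algebraMap 𝔽 M t) * (Z - algebraMap 𝔽 M (-t)) := by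
    rw [map_pow, map_neg]
    ring
  rw [e1, Pl.mul p _ _ h1 h2] at h
  have e2 : (Z - algebraMap 𝔽 M (-t)) + -(Z - algebraMap 𝔽 M t) = algebraMap 𝔽 M (2 * t) := by
    rw [map_neg, map_mul, map_ofNat]
    ring
  have e3 : (2 * t : 𝔽) ≠ 0 := mul_ne_zero h2' ht
  have h3 := Pl.add p (Z - algebraMap 𝔽 M (-t)) (-(Z - algebraMap 𝔽 M t)) h2 (neg_ne_zero.2 h1)
    (by
      rw [e2]
      exact fun hc => e3 ((map_eq_zero _).1 hc))
  rw [e2, Pl.con p _ e3, ord_neg Pl p h1] at h3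
  omega

theorem mm_nonneg (X Y : M) (b : (Blk 𝔽)) : 0 ≤ mm Pl p X Y b := by
  unfold mm
  split_ifs
  · refine le_min (Int.natCast_nonneg _) (mul_nonneg (Int.natCast_nonneg _) (le_max_left _ _))
  · exact le_rfl

theorem mm_eq_zero (X Y : M) (b : (Blk 𝔽)) (h1 : Pl.ord p X = 0) (h2 : Pl.ord p Y = 0) :
    mm Pl p X Y b = 0 := by
  unfold mm
  rw [if_neg]
  unfold ray ow
  rw [h1, h2]
  simp

end places

theorem tot_add (e e' : (Blk 𝔽) →₀ ℤ) (f : (Blk 𝔽) → ℤ) : tot (e + e') f = tot e f + tot e' f := by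
  unfold tot
  exact Finsupp.sum_add_index' (fun _ => zero_mul _) (fun _ _ _ => add_mul _ _ _)

theorem tot_single (b : (Blk 𝔽)) (f : (Blk 𝔽) → ℤ) : tot (Finsupp.single b 1) f = f b := by
  unfold tot
  rw [Finsupp.sum_single_index (zero_mul _), one_mul]

theorem tot_e0 (r : 𝔽) (f : (Blk 𝔽) → ℤ) : tot (e0 r) f =
    (f ((1, 0), r) + f ((1, 0), -r)) + (f ((0, 1), r⁻¹) + f ((0, 1), -r⁻¹)) +
    (f ((-1, -1), r⁻¹) + f ((-1, -1), -r⁻¹)) := by
  unfold e0
  simp only [tot_add, tot_single]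
  ring

section blocks

variable {M : Type} [Field M] [Algebra 𝔽 M] (Pl : Places 𝔽 M) (p : Pl.P) (X Y : M)

theorem mm_ray (b : ℤ × ℤ) (t : 𝔽) (hb : gg b = 1) (hr : ray b (ow Pl p X Y)) :
    mm Pl p X Y (b, t) = min (gg (ow Pl p X Y))
      (1 * max 0 (Pl.ord p (tau X Y b - algebraMap 𝔽 M t))) := by
  unfold mm
  rw [if_pos hr]
  simp only
  rw [hb]

theorem pair_mm (h2' : (2 : 𝔽) ≠ 0) (b : ℤ × ℤ) (t : 𝔽) (μ : ℤ) (hb : gg b = 1) (hr : ray b (ow Pl p X Y)) (ht : t ≠ 0)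
    (hw : μ ≤ gg (ow Pl p X Y)) (h0 : 0 ≤ μ) (hne : ∀ s : 𝔽, tau X Y b ≠ algebraMap 𝔽 M s)
    (h : μ ≤ Pl.ord p (tau X Y b ^ 2 - algebraMap 𝔽 M (t ^ 2))) :
    μ ≤ mm Pl p X Y (b, t) + mm Pl p X Y (b, -t) := by
  rw [mm_ray Pl p X Y b t hb hr, mm_ray Pl p X Y b (-t) hb hr]
  exact pair_le Pl p h2' _ t _ μ ht hw h0 (sub_ne_zero.2 (hne _)) (sub_ne_zero.2 (hne _)) h

omit [Algebra 𝔽 M] in
theorem tau1 : tau X Y (1, 0) = Y⁻¹ := by
  have h : gg (1, 0) = 1 := rfl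
  unfold tau
  rw [h]
  simp

omit [Algebra 𝔽 M] in
theorem tau2 : tau X Y (0, 1) = X := by
  have h : gg (0, 1) = 1 := rfl
  unfold tau
  rw [h]
  simp

omit [Algebra 𝔽 M] in
theorem tau3 : tau X Y (-1, -1) = X⁻¹ * Y := by
  have h : gg (-1, -1) = 1 := rfl
  unfold tau
  rw [h]
  simp

end blocks

/-- the polynomials of the quintic -/
structure Dat {Ω : Type} [Field Ω] (α η : Ω) (N1 N2 N3 R1 R2 M3 : (Polynomial Ω)) : Prop where
  h1 : N1 ≠ 0
  h2 : N2 ≠ 0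
  h3 : N3 ≠ 0
  hη : η ≠ 0
  c13 : IsCoprime N1 N3
  c23 : IsCoprime N2 N3
  ev : N3.eval 0 ≠ 0
  i1 : (C η * N2) ^ 2 + C α * N3 ^ 2 = N1 * R1
  i2 : (C α * X * N1) ^ 2 + C α * N3 ^ 2 = N2 * R2
  i3 : (C η * N2) ^ 2 + C α * (X * N1) ^ 2 = N3 * M3

theorem algC {Ω : Type} [Field Ω] [Algebra 𝔽 Ω] (s : 𝔽) :
    algebraMap (Polynomial Ω) (RatFunc Ω) (C (algebraMap 𝔽 Ω s)) = algebraMap 𝔽 (RatFunc Ω) s := by
  rw [← Polynomial.algebraMap_apply, ← IsScalarTower.algebraMap_apply]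

theorem cop {Ω : Type} [Field Ω] {P Q : (Polynomial Ω)} (h : IsCoprime P Q) {a : Ω} (ha : P.eval a = 0) :
    Q.eval a ≠ 0 := by
  obtain ⟨u, v, h⟩ := h
  intro hc
  have h1 := congrArg (Polynomial.eval a) h
  rw [eval_add, eval_mul, eval_mul, ha, hc, mul_zero, mul_zero, add_zero, eval_one] at h1
  exact zero_ne_one h1

theorem rm_pos {Ω : Type} [Field Ω] {P : (Polynomial Ω)} (hP : P ≠ 0) {a : Ω}
    (h : ¬ (P.rootMultiplicity a : ℤ) = 0) : P.eval a = 0 := by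
  have : 0 < P.rootMultiplicity a := by
    rcases Nat.eq_zero_or_pos (P.rootMultiplicity a) with h1 | h1
    · exact absurd (by rw [h1]; rfl) h
    · exact h1
  exact (Polynomial.rootMultiplicity_pos hP).1 this

theorem rm_zero {Ω : Type} [Field Ω] {P : (Polynomial Ω)} {a : Ω} (h : P.eval a ≠ 0) :
    (P.rootMultiplicity a : ℤ) = 0 := by
  rw [Polynomial.rootMultiplicity_eq_zero h]
  rfl

theorem local_bound {Ω : Type} [Field Ω] [Algebra 𝔽 Ω] (h2' : (2 : 𝔽) ≠ 0) (r : 𝔽) (hr : r ≠ 0)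
    (η : Ω) (N1 N2 N3 R1 R2 M3 : (Polynomial Ω))
    (hd : Dat (algebraMap 𝔽 Ω (-r ^ 2)) η N1 N2 N3 R1 R2 M3) (Pl : Places 𝔽 (RatFunc Ω))
    (pt : Option Ω ≃ Pl.P) (hP : IsStdPl Pl pt) (x y : RatFunc Ω) (hx0 : x ≠ 0) (hy0 : y ≠ 0)
    (hx : algebraMap (Polynomial Ω) (RatFunc Ω) N3 * x =
      algebraMap (Polynomial Ω) (RatFunc Ω) (X * N1))
    (hy : algebraMap (Polynomial Ω) (RatFunc Ω) N3 *
      (algebraMap 𝔽 (RatFunc Ω) (-r ^ 2) * y) =
      algebraMap (Polynomial Ω) (RatFunc Ω) (C η * N2))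
    (hne : ∀ u v : ℤ, (u, v) ≠ (0, 0) → ∀ t : 𝔽, x ^ u * y ^ v ≠ algebraMap 𝔽 (RatFunc Ω) t)
    (a : Ω) :
    (N1.rootMultiplicity a : ℤ) + N2.rootMultiplicity a + N3.rootMultiplicity a ≤
      tot (e0 r) (mm Pl (pt (some a)) x y) := by
  have hr2 : (-r ^ 2 : 𝔽) ≠ 0 := neg_ne_zero.2 (pow_ne_zero 2 hr)
  set A := algebraMap (Polynomial Ω) (RatFunc Ω) with hA
  have hinj : Function.Injective A := IsFractionRing.injective _ _
  have hA0 : ∀ f : (Polynomial Ω), f ≠ 0 → A f ≠ 0 := fun f hf hc => hf (by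
    apply hinj
    rw [hc, map_zero])
  set p := pt (some a) with hp
  have ho : ∀ f : (Polynomial Ω), f ≠ 0 → Pl.ord p (A f) = (f.rootMultiplicity a : ℤ) := hP.fin a
  have hC : C η ≠ 0 := by
    rw [Ne, Polynomial.C_eq_zero]
    exact hd.hη
  have hAC : A (C (algebraMap 𝔽 Ω (-r ^ 2))) = algebraMap 𝔽 (RatFunc Ω) (-r ^ 2) := algC _
  obtain ⟨α, hα⟩ : ∃ α : RatFunc Ω, α = algebraMap 𝔽 (RatFunc Ω) (-r ^ 2) := ⟨_, rfl⟩
  have hα0 : α ≠ 0 := by
    rw [hα]
    exact (_root_.map_ne_zero _).2 hr2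
  have hαr : α = -(algebraMap 𝔽 (RatFunc Ω) r) ^ 2 := by
    rw [hα, map_neg, map_pow]
  have oα : Pl.ord p α = 0 := by
    rw [hα]
    exact Pl.con p _ hr2
  rw [← hα] at hy hAC
  have hrM : algebraMap 𝔽 (RatFunc Ω) r ≠ 0 := (_root_.map_ne_zero _).2 hr
  -- orders of `x` and `y`
  have ox : Pl.ord p x = ((X : (Polynomial Ω)).rootMultiplicity a : ℤ) + N1.rootMultiplicity a -
      N3.rootMultiplicity a := by
    have h := Pl.mul p (A N3) x (hA0 _ hd.h3) hx0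
    rw [hx, ho _ hd.h3, ho _ (mul_ne_zero X_ne_zero hd.h1),
      Polynomial.rootMultiplicity_mul (mul_ne_zero X_ne_zero hd.h1)] at h
    push_cast at h
    linarith
  have oy : Pl.ord p y = (N2.rootMultiplicity a : ℤ) - N3.rootMultiplicity a := by
    have h := Pl.mul p (A N3) (α * y) (hA0 _ hd.h3) (mul_ne_zero hα0 hy0)
    rw [hy, ho _ hd.h3, Pl.mul p α y hα0 hy0, oα, ho _ (mul_ne_zero hC hd.h2),
      Polynomial.rootMultiplicity_mul (mul_ne_zero hC hd.h2), Polynomial.rootMultiplicity_C] at h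
    push_cast at h
    linarith
  -- orders of the three combinations
  have e11 : (1 + α * y ^ 2 : RatFunc Ω) ≠ 0 := by
    intro hc
    apply hne 0 2 (by simp) ((r ^ 2)⁻¹)
    rw [map_inv₀, map_pow, zpow_zero, one_mul, zpow_ofNat]
    apply eq_inv_of_mul_eq_one_left
    rw [hαr] at hc
    linear_combination -hc
  have e21 : (1 + α * x ^ 2 : RatFunc Ω) ≠ 0 := by
    intro hc
    apply hne 2 0 (by simp) ((r ^ 2)⁻¹)
    rw [map_inv₀, map_pow, zpow_zero, mul_one, zpow_ofNat]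
    apply eq_inv_of_mul_eq_one_left
    rw [hαr] at hc
    linear_combination -hc
  have e31 : (α * y ^ 2 + x ^ 2 : RatFunc Ω) ≠ 0 := by
    intro hc
    apply hne 2 (-2) (by simp) (r ^ 2)
    rw [map_pow, zpow_neg, zpow_ofNat, zpow_ofNat]
    have : y ^ 2 ≠ 0 := pow_ne_zero 2 hy0
    rw [hαr] at hc
    field_simp
    linear_combination hc
  have q1 : (N1.rootMultiplicity a : ℤ) ≤ Pl.ord p (1 + α * y ^ 2) +
      2 * N3.rootMultiplicity a := by
    have e2 : A N3 ^ 2 * (α * (1 + α * y ^ 2)) = A (N1 * R1) := by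
      rw [← hd.i1, map_add, map_pow, map_mul A (C _) (N3 ^ 2), map_pow, ← hy, hAC]
      ring
    have e3 : N1 * R1 ≠ 0 := by
      intro hc
      rw [hc, map_zero] at e2
      exact mul_ne_zero (pow_ne_zero 2 (hA0 _ hd.h3)) (mul_ne_zero hα0 e11) e2
    have h := Pl.mul p (A N3 ^ 2) (α * (1 + α * y ^ 2)) (pow_ne_zero 2 (hA0 _ hd.h3))
      (mul_ne_zero hα0 e11)
    rw [e2, ho _ e3, Polynomial.rootMultiplicity_mul e3, ord_sq Pl p (hA0 _ hd.h3),
      ho _ hd.h3, Pl.mul p α _ hα0 e11, oα] at h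
    push_cast at h
    have h4 : (0 : ℤ) ≤ R1.rootMultiplicity a := Int.natCast_nonneg _
    linarith
  have q2 : (N2.rootMultiplicity a : ℤ) ≤ Pl.ord p (1 + α * x ^ 2) +
      2 * N3.rootMultiplicity a := by
    have e2 : A N3 ^ 2 * (α * (1 + α * x ^ 2)) = A (N2 * R2) := by
      rw [← hd.i2, mul_assoc (C _) X N1, map_add, map_pow, map_mul A (C _) (N3 ^ 2), map_pow,
        map_mul A (C _) (X * N1), ← hx, hAC]
      ring
    have e3 : N2 * R2 ≠ 0 := by
      intro hc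
      rw [hc, map_zero] at e2
      exact mul_ne_zero (pow_ne_zero 2 (hA0 _ hd.h3)) (mul_ne_zero hα0 e21) e2
    have h := Pl.mul p (A N3 ^ 2) (α * (1 + α * x ^ 2)) (pow_ne_zero 2 (hA0 _ hd.h3))
      (mul_ne_zero hα0 e21)
    rw [e2, ho _ e3, Polynomial.rootMultiplicity_mul e3, ord_sq Pl p (hA0 _ hd.h3),
      ho _ hd.h3, Pl.mul p α _ hα0 e21, oα] at h
    push_cast at h
    have h4 : (0 : ℤ) ≤ R2.rootMultiplicity a := Int.natCast_nonneg _
    linarith
  have q3 : (N3.rootMultiplicity a : ℤ) ≤ Pl.ord p (α * y ^ 2 + x ^ 2) +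
      2 * N3.rootMultiplicity a := by
    have e2 : A N3 ^ 2 * (α * (α * y ^ 2 + x ^ 2)) = A (N3 * M3) := by
      rw [← hd.i3, map_add, map_pow, map_mul A (C _) ((X * N1) ^ 2), map_pow, ← hx, ← hy, hAC]
      ring
    have e3 : N3 * M3 ≠ 0 := by
      intro hc
      rw [hc, map_zero] at e2
      exact mul_ne_zero (pow_ne_zero 2 (hA0 _ hd.h3)) (mul_ne_zero hα0 e31) e2
    have h := Pl.mul p (A N3 ^ 2) (α * (α * y ^ 2 + x ^ 2)) (pow_ne_zero 2 (hA0 _ hd.h3))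
      (mul_ne_zero hα0 e31)
    rw [e2, ho _ e3, Polynomial.rootMultiplicity_mul e3, ord_sq Pl p (hA0 _ hd.h3),
      ho _ hd.h3, Pl.mul p α _ hα0 e31, oα] at h
    push_cast at h
    have h4 : (0 : ℤ) ≤ M3.rootMultiplicity a := Int.natCast_nonneg _
    linarith
  have n1 : (0 : ℤ) ≤ N1.rootMultiplicity a := Int.natCast_nonneg _
  have n2 : (0 : ℤ) ≤ N2.rootMultiplicity a := Int.natCast_nonneg _
  have n3 : (0 : ℤ) ≤ N3.rootMultiplicity a := Int.natCast_nonneg _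
  have nx : (0 : ℤ) ≤ (X : (Polynomial Ω)).rootMultiplicity a := Int.natCast_nonneg _
  rw [tot_e0]
  refine add_le_add (add_le_add ?_ ?_) ?_
  · by_cases hm : (N1.rootMultiplicity a : ℤ) = 0
    · rw [hm]
      exact add_nonneg (mm_nonneg _ _ _ _ _) (mm_nonneg _ _ _ _ _)
    have r1 := rm_pos hd.h1 hm
    have r3 := cop hd.c13 r1
    have r2 : N2.eval a ≠ 0 := by
      intro hc
      have h := congrArg (Polynomial.eval a) hd.i1
      simp only [eval_add, eval_mul, eval_pow, eval_C, r1, hc, mul_zero, zero_mul] at h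
      apply r3
      have h5 : algebraMap 𝔽 Ω (-r ^ 2) ≠ 0 := (_root_.map_ne_zero _).2 hr2
      rw [zero_pow two_ne_zero, zero_add] at h
      exact pow_eq_zero_iff two_ne_zero |>.1 ((mul_eq_zero.1 h).resolve_left h5)
    rw [rm_zero r3] at ox oy q1
    rw [rm_zero r2] at oy
    apply pair_mm Pl p x y h2' (1, 0) r _ rfl _ hr _ n1
    · intro s
      rw [tau1]
      have := hne 0 (-1) (by simp) s
      simpa using this
    · rw [tau1]
      have e1 : y⁻¹ ^ 2 - algebraMap 𝔽 (RatFunc Ω) (r ^ 2) = (1 + α * y ^ 2) * (y⁻¹) ^ 2 := by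
        rw [hαr, map_pow]
        field_simp
        ring
      rw [e1, Pl.mul p _ _ e11 (pow_ne_zero 2 (inv_ne_zero hy0)),
        ord_sq Pl p (inv_ne_zero hy0), ord_inv Pl p hy0, oy]
      linarith
    · unfold ray ow
      rw [ox, oy]
      constructor
      · ring
      · have : (0 : ℤ) < N1.rootMultiplicity a := lt_of_le_of_ne n1 (Ne.symm hm)
        simp only
        linarith
    · unfold ow gg
      rw [ox, oy]
      simp only [sub_zero, Int.gcd_zero_right]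
      rw [Int.natCast_natAbs, abs_of_nonneg (by linarith)]
      linarith
  · by_cases hm : (N2.rootMultiplicity a : ℤ) = 0
    · rw [hm]
      exact add_nonneg (mm_nonneg _ _ _ _ _) (mm_nonneg _ _ _ _ _)
    have r2 := rm_pos hd.h2 hm
    have r3 := cop hd.c23 r2
    have r1 : (X * N1).eval a ≠ 0 := by
      intro hc
      have h := congrArg (Polynomial.eval a) hd.i2
      rw [mul_assoc, eval_add, eval_pow, eval_mul, hc, eval_mul, eval_pow, eval_mul, r2, zero_mul,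
        mul_zero, zero_pow two_ne_zero, zero_add, eval_C] at h
      have h5 : algebraMap 𝔽 Ω (-r ^ 2) ≠ 0 := (_root_.map_ne_zero _).2 hr2
      apply r3
      exact pow_eq_zero_iff two_ne_zero |>.1 ((mul_eq_zero.1 h).resolve_left h5)
    have r1x : (X : (Polynomial Ω)).eval a ≠ 0 := fun hc => r1 (by rw [eval_mul, hc, zero_mul])
    have r1n : N1.eval a ≠ 0 := fun hc => r1 (by rw [eval_mul, hc, mul_zero])
    rw [rm_zero r3] at ox oy q2
    rw [rm_zero r1x, rm_zero r1n] at ox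
    apply pair_mm Pl p x y h2' (0, 1) r⁻¹ _ rfl _ (inv_ne_zero hr) _ n2
    · intro s
      rw [tau2]
      have := hne 1 0 (by simp) s
      simpa using this
    · rw [tau2]
      have e1 : x ^ 2 - algebraMap 𝔽 (RatFunc Ω) (r⁻¹ ^ 2) = (1 + α * x ^ 2) * α⁻¹ := by
        rw [hαr, map_pow, map_inv₀]
        field_simp
        ring
      have oi : Pl.ord p α⁻¹ = 0 := by
        rw [ord_inv Pl p hα0, oα, neg_zero]
      rw [e1, Pl.mul p _ _ e21 (inv_ne_zero hα0), oi]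
      linarith
    · unfold ray ow
      rw [ox, oy]
      constructor
      · ring
      · have : (0 : ℤ) < N2.rootMultiplicity a := lt_of_le_of_ne n2 (Ne.symm hm)
        simp only
        linarith
    · unfold ow gg
      rw [ox, oy]
      simp only [sub_zero, add_zero, Int.gcd_zero_left]
      rw [Int.natCast_natAbs, abs_of_nonneg (by linarith)]
  · by_cases hm : (N3.rootMultiplicity a : ℤ) = 0
    · rw [hm]
      exact add_nonneg (mm_nonneg _ _ _ _ _) (mm_nonneg _ _ _ _ _)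
    have r3 := rm_pos hd.h3 hm
    have r1 : N1.eval a ≠ 0 := cop hd.c13.symm r3
    have r2 : N2.eval a ≠ 0 := cop hd.c23.symm r3
    have rx : (X : (Polynomial Ω)).eval a ≠ 0 := by
      intro hc
      rw [eval_X] at hc
      rw [hc] at r3
      exact hd.ev r3
    rw [rm_zero r1, rm_zero rx] at ox
    rw [rm_zero r2] at oy
    apply pair_mm Pl p x y h2' (-1, -1) r⁻¹ _ rfl _ (inv_ne_zero hr) _ n3
    · intro s
      rw [tau3]
      have := hne (-1) 1 (by simp) s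
      simpa using this
    · rw [tau3]
      have e1 : (x⁻¹ * y) ^ 2 - algebraMap 𝔽 (RatFunc Ω) (r⁻¹ ^ 2) =
          ((α * y ^ 2 + x ^ 2) * (x⁻¹) ^ 2) * α⁻¹ := by
        rw [hαr, map_pow, map_inv₀]
        field_simp
        ring
      have oi : Pl.ord p α⁻¹ = 0 := by
        rw [ord_inv Pl p hα0, oα, neg_zero]
      rw [e1, Pl.mul p _ _ (mul_ne_zero e31 (pow_ne_zero 2 (inv_ne_zero hx0))) (inv_ne_zero hα0),
        Pl.mul p _ _ e31 (pow_ne_zero 2 (inv_ne_zero hx0)), oi,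
        ord_sq Pl p (inv_ne_zero hx0), ord_inv Pl p hx0, ox]
      linarith
    · unfold ray ow
      rw [ox, oy]
      constructor
      · ring
      · have : (0 : ℤ) < N3.rootMultiplicity a := lt_of_le_of_ne n3 (Ne.symm hm)
        simp only
        linarith
    · unfold ow gg
      rw [ox, oy]
      simp only [zero_add, zero_sub, Int.gcd_self]
      rw [Int.natCast_natAbs, abs_neg, abs_of_nonneg n3]

theorem sum_rm {Ω : Type} [Field Ω] [IsAlgClosed Ω] (P : Polynomial Ω) (R : Finset Ω)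
    (hR : ∀ a ∈ P.roots, a ∈ R) (hP : P.natDegree = 4) :
    ∑ a ∈ R, (P.rootMultiplicity a : ℤ) = 4 := by
  classical
  have h1 : ∑ a ∈ R, P.roots.count a = Multiset.card P.roots := Multiset.sum_count_eq_card hR
  have h2 : Multiset.card P.roots = P.natDegree :=
    (IsAlgClosed.splits P).natDegree_eq_card_roots.symm
  rw [h2, hP] at h1
  have h3 : ∀ a ∈ R, (P.rootMultiplicity a : ℤ) = ((P.roots.count a : ℕ) : ℤ) := by
    intro a _
    rw [Polynomial.count_roots]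
  rw [Finset.sum_congr rfl h3]
  exact_mod_cast h1

end MulAux

open MulAux in
/-- Module Mul. -/
theorem stMul (hN : StN) (hI : StInd 𝔽) : StMul 𝔽 := by
  classical
  intro Ω _ _ _ r η Pl pt x y hη hP h2' hr hr1 hr2 hQ hxy
  have hr0 : (-r ^ 2 : 𝔽) ≠ 0 := neg_ne_zero.2 (pow_ne_zero 2 hr)
  have hη0 : η ≠ 0 := by
    intro h
    apply hη
    rw [h]
    exact isAlgebraic_zero
  have hinj : Function.Injective (algebraMap 𝔽 Ω) := (algebraMap 𝔽 Ω).injective
  have ha0 : algebraMap 𝔽 Ω (-r ^ 2) ≠ 0 := (_root_.map_ne_zero _).2 hr0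
  have ha1 : algebraMap 𝔽 Ω (-r ^ 2) ≠ 1 := by
    intro h
    apply hr1
    apply hinj
    rw [h, map_one]
  have ha2 : algebraMap 𝔽 Ω (-r ^ 2) ≠ -1 := by
    intro h
    apply hr2
    apply hinj
    rw [h, map_neg, map_one]
  have ha3 : 1 + algebraMap 𝔽 Ω (-r ^ 2) * η ^ 2 ≠ 0 := by
    intro h
    apply hη
    refine ⟨1 + C (-r ^ 2) * X ^ 2, ?_, ?_⟩
    · intro h0
      have h1 := congrArg (fun P => Polynomial.coeff P 2) h0
      simp only [coeff_add, coeff_C_mul, coeff_X_pow, coeff_one, coeff_zero] at h1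
      norm_num at h1
      exact hr h1
    · simp only [map_add, map_mul, map_pow, aeval_X, aeval_C, map_one]
      exact h
  obtain ⟨d1, d2, d3, c13, c23, ev, i1, i2, M3, i3⟩ := hN Ω (algebraMap 𝔽 Ω (-r ^ 2)) η ha0 ha1 ha2
    hη0 ha3
  obtain ⟨hyx, -, hx0, -, hne, -⟩ := hI _ x y hxy
  obtain ⟨-, -, hy0, -, -, -⟩ := hI _ y x hyx
  have hd : Dat (algebraMap 𝔽 Ω (-r ^ 2)) η (pN1 (algebraMap 𝔽 Ω (-r ^ 2)) η)
      (pN2 (algebraMap 𝔽 Ω (-r ^ 2)) η) (pN3 (algebraMap 𝔽 Ω (-r ^ 2)) η)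
      (pW (algebraMap 𝔽 Ω (-r ^ 2)) η * pN2 (algebraMap 𝔽 Ω (-r ^ 2)) η -
        C (algebraMap 𝔽 Ω (-r ^ 2) ^ 2) * X ^ 2 * pN1 (algebraMap 𝔽 Ω (-r ^ 2)) η)
      (pW (algebraMap 𝔽 Ω (-r ^ 2)) η * pN1 (algebraMap 𝔽 Ω (-r ^ 2)) η -
        C (η ^ 2) * pN2 (algebraMap 𝔽 Ω (-r ^ 2)) η) M3 := by
    refine ⟨?_, ?_, ?_, hη0, c13, c23, ev, i1, i2, i3⟩
    · intro h
      rw [h, natDegree_zero] at d1
      exact absurd d1 (by norm_num)
    · intro h
      rw [h, natDegree_zero] at d2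
      exact absurd d2 (by norm_num)
    · intro h
      rw [h, natDegree_zero] at d3
      exact absurd d3 (by norm_num)
  obtain ⟨W, hW, -, q1, q2⟩ := hQ
  have eC : ∀ t : Ω, algebraMap (Polynomial Ω) (RatFunc Ω) (C t) = RatFunc.C t :=
    fun t => RatFunc.algebraMap_C t
  have eX : algebraMap (Polynomial Ω) (RatFunc Ω) X = RatFunc.X := RatFunc.algebraMap_X
  have eα : algebraMap 𝔽 (RatFunc Ω) (-r ^ 2) = RatFunc.C (algebraMap 𝔽 Ω (-r ^ 2)) := by
    rw [← algC, eC]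
  have eW : algebraMap (Polynomial Ω) (RatFunc Ω) (pW (algebraMap 𝔽 Ω (-r ^ 2)) η) = W := by
    unfold pW
    rw [map_add, map_add, map_one, map_mul, map_pow, eC, eC, eX, hW, map_mul RatFunc.C, map_pow,
      eα]
  have hx : algebraMap (Polynomial Ω) (RatFunc Ω) (pN3 (algebraMap 𝔽 Ω (-r ^ 2)) η) * x =
      algebraMap (Polynomial Ω) (RatFunc Ω) (X * pN1 (algebraMap 𝔽 Ω (-r ^ 2)) η) := by
    have e1 : algebraMap (Polynomial Ω) (RatFunc Ω) (pN3 (algebraMap 𝔽 Ω (-r ^ 2)) η) =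
        W ^ 2 + algebraMap 𝔽 (RatFunc Ω) (-r ^ 2) * (1 - algebraMap 𝔽 (RatFunc Ω) (-r ^ 2)) ^ 2 *
          RatFunc.X ^ 2 * RatFunc.C η ^ 2 := by
      unfold pN3
      rw [map_add, map_pow, map_mul, map_pow, eC, eX, eW, eα]
      simp only [map_mul, map_pow, map_sub, map_one]
      ring
    rw [e1, q1]
    unfold pN1
    simp only [map_add, map_sub, map_mul, map_pow, eC, eX, eW, eα, map_one]
    ring
  have hy : algebraMap (Polynomial Ω) (RatFunc Ω) (pN3 (algebraMap 𝔽 Ω (-r ^ 2)) η) *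
      (algebraMap 𝔽 (RatFunc Ω) (-r ^ 2) * y) =
      algebraMap (Polynomial Ω) (RatFunc Ω) (C η * pN2 (algebraMap 𝔽 Ω (-r ^ 2)) η) := by
    have e1 : algebraMap (Polynomial Ω) (RatFunc Ω) (pN3 (algebraMap 𝔽 Ω (-r ^ 2)) η) =
        W ^ 2 + algebraMap 𝔽 (RatFunc Ω) (-r ^ 2) * (1 - algebraMap 𝔽 (RatFunc Ω) (-r ^ 2)) ^ 2 *
          RatFunc.X ^ 2 * RatFunc.C η ^ 2 := by
      unfold pN3
      rw [map_add, map_pow, map_mul, map_pow, eC, eX, eW, eα]
      simp only [map_mul, map_pow, map_sub, map_one]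
      ring
    rw [e1, q2]
    unfold pN2
    simp only [map_add, map_sub, map_mul, map_pow, eC, eX, eW, eα, map_one]
    ring
  have hloc := local_bound h2' r hr η _ _ _ _ _ _ hd Pl pt hP x y hx0 hy0 hx hy hne
  set F : Pl.P → ℤ := fun p => tot (e0 r) (mm Pl p x y) with hF
  have hFn : ∀ p, 0 ≤ F p := by
    intro p
    rw [hF]
    simp only
    rw [tot_e0]
    have h := mm_nonneg Pl p x y
    have h1 := h ((1, 0), r)
    have h2 := h ((1, 0), -r)
    have h3 := h ((0, 1), r⁻¹)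
    have h4 := h ((0, 1), -r⁻¹)
    have h5 := h ((-1, -1), r⁻¹)
    have h6 := h ((-1, -1), -r⁻¹)
    linarith
  set S1 : Finset Pl.P := (Pl.fin x hx0).toFinset ∪ (Pl.fin y hy0).toFinset with hS1
  set R : Finset Ω := ((pN1 (algebraMap 𝔽 Ω (-r ^ 2)) η).roots +
    (pN2 (algebraMap 𝔽 Ω (-r ^ 2)) η).roots +
    (pN3 (algebraMap 𝔽 Ω (-r ^ 2)) η).roots).toFinset with hR
  set S2 : Finset Pl.P := R.image fun a => pt (some a) with hS2
  have hsupp : Function.support F ⊆ ((S1 ∪ S2 : Finset Pl.P) : Set Pl.P) := by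
    intro p hp
    rw [Function.mem_support] at hp
    rw [Finset.coe_union, Set.mem_union]
    left
    by_contra hc
    apply hp
    rw [hS1, Finset.mem_coe, Finset.mem_union, not_or, Set.Finite.mem_toFinset,
      Set.Finite.mem_toFinset] at hc
    have h1 : Pl.ord p x = 0 := by
      by_contra h
      exact hc.1 h
    have h2 : Pl.ord p y = 0 := by
      by_contra h
      exact hc.2 h
    rw [hF]
    simp only
    rw [tot_e0]
    simp only [mm_eq_zero Pl p x y _ h1 h2, add_zero]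
  rw [finsum_eq_sum_of_support_subset F hsupp]
  have h1 : ∑ p ∈ S2, F p ≤ ∑ p ∈ S1 ∪ S2, F p :=
    Finset.sum_le_sum_of_subset_of_nonneg Finset.subset_union_right fun p _ _ => hFn p
  refine le_trans ?_ h1
  rw [hS2, Finset.sum_image (by
    intro a _ b _ hab
    exact Option.some_injective _ (pt.injective hab))]
  refine le_trans ?_ (Finset.sum_le_sum fun a _ => hloc a)
  rw [Finset.sum_add_distrib, Finset.sum_add_distrib,
    sum_rm _ R (fun a ha => by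
      rw [hR, Multiset.mem_toFinset, Multiset.mem_add, Multiset.mem_add]
      exact Or.inl (Or.inl ha)) d1,
    sum_rm _ R (fun a ha => by
      rw [hR, Multiset.mem_toFinset, Multiset.mem_add, Multiset.mem_add]
      exact Or.inl (Or.inr ha)) d2,
    sum_rm _ R (fun a ha => by
      rw [hR, Multiset.mem_toFinset, Multiset.mem_add, Multiset.mem_add]
      exact Or.inr ha) d3]
  norm_num

end QE
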