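import Pool.Agent.Lib.QE.CSt

/-!
Project QE, module N: algebra of the polynomials `N₁`, `N₂`, `N₃` with the parameter `a`.
-/

open Polynomial

namespace QE

namespace NAux

variable {Ω : Type} [Field Ω]

theorem unit_cop {c : Ω} (hc : c ≠ 0) {N : Polynomial Ω} : IsCoprime (C c) N := by
  refine ⟨C c⁻¹, 0, ?_⟩
  rw [zero_mul, add_zero, ← C_mul, inv_mul_cancel₀ hc, C_1]

theorem cop_of {c : Ω} (hc : c ≠ 0) {L N A B : Polynomial Ω} (h : A * L + B * N = C c) :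
    IsCoprime L N := by
  refine ⟨C c⁻¹ * A, C c⁻¹ * B, ?_⟩
  calc C c⁻¹ * A * L + C c⁻¹ * B * N = C c⁻¹ * (A * L + B * N) := by ring
    _ = C c⁻¹ * C c := by rw [h]
    _ = 1 := by rw [← C_mul, inv_mul_cancel₀ hc, C_1]

variable (a η : Ω)

theorem copL (ha : a ≠ 1) (hc : (1 : Ω) + a * η ^ 2 ≠ 0) :
    IsCoprime (1 + C a ^ 2 * X ^ 2 + C a * C η ^ 2 : Polynomial Ω) (pN3 a η) := by
  have h1 : (1 - a) ^ 2 * (1 + a * η ^ 2) ≠ 0 :=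
    mul_ne_zero (pow_ne_zero 2 (sub_ne_zero.2 (Ne.symm ha))) hc
  refine cop_of h1 (A := -(C a ^ 2 * (1 + C a ^ 2 * X ^ 2 + C a * C η ^ 2) +
    2 * C a ^ 3 * (1 - C a) * X ^ 2 + (1 - C a) ^ 2 * ((1 + C a ^ 2 * X ^ 2 + C a * C η ^ 2) -
      2 * (1 + C a * C η ^ 2) + C a * C η ^ 2))) (B := C a ^ 2) ?_
  unfold pN3 pW
  simp only [C_mul, C_pow, C_add, C_sub, C_1]
  ring

theorem copL2 (ha : a ≠ 1) (hc : η ≠ 0) :
    IsCoprime (1 + C a * X ^ 2 + C η ^ 2 : Polynomial Ω) (pN3 a η) := by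
  have h1 : -((1 - a) ^ 2 * η ^ 2) ≠ 0 :=
    neg_ne_zero.2 (mul_ne_zero (pow_ne_zero 2 (sub_ne_zero.2 (Ne.symm ha))) (pow_ne_zero 2 hc))
  refine cop_of h1 (A := -((1 + C a * X ^ 2 + C η ^ 2) + 2 * (C a - 1) * C η ^ 2 +
    (1 - C a) ^ 2 * C η ^ 2)) (B := 1) ?_
  unfold pN3 pW
  simp only [C_mul, C_pow, C_add, C_sub, C_1, C_neg]
  ring

theorem copX (hc : (1 : Ω) + a * η ^ 2 ≠ 0) : IsCoprime (X ^ 2 : Polynomial Ω) (pN3 a η) := by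
  have h1 : (1 + a * η ^ 2) ^ 2 ≠ 0 := pow_ne_zero 2 hc
  refine cop_of h1 (A := -(2 * C a * (1 + C a * C η ^ 2) + C a ^ 2 * X ^ 2 +
    C a * (1 - C a) ^ 2 * C η ^ 2)) (B := 1) ?_
  unfold pN3 pW
  simp only [C_mul, C_pow, C_add, C_sub, C_1]
  ring

theorem ne_sq (ha : a ≠ 1) (ha' : a ≠ -1) : 1 - a ^ 2 ≠ 0 := by
  intro h
  have h2 : (1 - a) * (1 + a) = 0 := by linear_combination h
  rcases mul_eq_zero.1 h2 with h3 | h3
  · exact ha (sub_eq_zero.1 h3).symm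
  · exact ha' (by linear_combination h3)

theorem cop13 (ha : a ≠ 1) (ha' : a ≠ -1) (h0 : η ≠ 0) (h1 : (1 : Ω) + a * η ^ 2 ≠ 0) :
    IsCoprime (pN1 a η) (pN3 a η) := by
  have h3 : (1 - a ^ 2) * η ^ 2 ≠ 0 := mul_ne_zero (ne_sq a ha ha') (pow_ne_zero 2 h0)
  have h4 : IsCoprime (C ((1 - a ^ 2) * η ^ 2) * (1 + C a ^ 2 * X ^ 2 + C a * C η ^ 2) :
      Polynomial Ω) (pN3 a η) :=
    IsCoprime.mul_left (unit_cop h3) (copL a η ha h1)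
  have h5 : pN1 a η = C ((1 - a ^ 2) * η ^ 2) * (1 + C a ^ 2 * X ^ 2 + C a * C η ^ 2) +
      C a * pN3 a η := by
    unfold pN1 pN3 pW
    simp only [C_mul, C_pow, C_add, C_sub, C_1]
    ring
  rw [h5]
  exact IsCoprime.add_mul_right_left h4 (C a)

theorem cop23 (ha0 : a ≠ 0) (ha : a ≠ 1) (ha' : a ≠ -1) (h0 : η ≠ 0)
    (h1 : (1 : Ω) + a * η ^ 2 ≠ 0) : IsCoprime (pN2 a η) (pN3 a η) := by
  have h3 : -(a * (1 - a ^ 2)) ≠ 0 := neg_ne_zero.2 (mul_ne_zero ha0 (ne_sq a ha ha'))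
  have h4 : IsCoprime (C (-(a * (1 - a ^ 2))) * X ^ 2 * (1 + C a * X ^ 2 + C η ^ 2) :
      Polynomial Ω) (pN3 a η) :=
    IsCoprime.mul_left (IsCoprime.mul_left (unit_cop h3) (copX a η h1)) (copL2 a η ha h0)
  have h5 : pN2 a η = C (-(a * (1 - a ^ 2))) * X ^ 2 * (1 + C a * X ^ 2 + C η ^ 2) +
      1 * pN3 a η := by
    unfold pN2 pN3 pW
    simp only [C_mul, C_pow, C_add, C_sub, C_1, C_neg]
    ring
  rw [h5]
  exact IsCoprime.add_mul_right_left h4 1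

theorem nd (p : Polynomial Ω) (a b c : Ω) (ha : a ≠ 0)
    (h : p = C a * X ^ 4 + (C b * X ^ 2 + C c)) : p.natDegree = 4 := by
  rw [h]
  compute_degree!

end NAux

open NAux

theorem stN : StN := by
  intro Ω _ a η ha0 ha ha' h0 h1
  refine ⟨?_, ?_, ?_, cop13 a η ha ha' h0 h1, cop23 a η ha0 ha ha' h0 h1, ?_, ?_, ?_, ?_⟩
  · refine nd _ (a ^ 3) (2 * a ^ 2 * (1 + a * η ^ 2) - a * (1 - a) ^ 2 * η ^ 2 +
      (1 - a ^ 2) * η ^ 2 * a) (a * (1 + a * η ^ 2) ^ 2 + (1 - a ^ 2) * η ^ 2 * (1 + a * η ^ 2))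
      (pow_ne_zero 3 ha0) ?_
    unfold pN1 pW
    simp only [C_mul, C_pow, C_add, C_sub, C_1]
    simp only [map_ofNat]
    ring
  · refine nd _ (a ^ 4) (2 * a * (1 + a * η ^ 2) - a ^ 2 * (1 - a) ^ 2 * η ^ 2 -
      a * (1 - a ^ 2) * (1 + a * η ^ 2)) ((1 + a * η ^ 2) ^ 2)
      (pow_ne_zero 4 ha0) ?_
    unfold pN2 pW
    simp only [C_mul, C_pow, C_add, C_sub, C_1]
    simp only [map_ofNat]
    ring
  · refine nd _ (a ^ 2) (2 * a * (1 + a * η ^ 2) + a * (1 - a) ^ 2 * η ^ 2)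
      ((1 + a * η ^ 2) ^ 2) (pow_ne_zero 2 ha0) ?_
    unfold pN3 pW
    simp only [C_mul, C_pow, C_add, C_sub, C_1]
    simp only [map_ofNat]
    ring
  · unfold pN3 pW
    simp only [eval_add, eval_mul, eval_pow, eval_X, eval_C, eval_one]
    intro h2
    have h3 : (1 + a * η ^ 2) ^ 2 = 0 := by linear_combination h2
    exact h1 (pow_eq_zero_iff (two_ne_zero) |>.1 h3)
  · unfold pN1 pN2 pN3 pW
    simp only [C_mul, C_pow, C_add, C_sub, C_1]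
    ring
  · unfold pN1 pN2 pN3 pW
    simp only [C_mul, C_pow, C_add, C_sub, C_1]
    ring
  · refine ⟨C η ^ 2 + 2 * C a * C η ^ 4 + C a ^ 2 * C η ^ 6 + C a ^ 3 * X ^ 2 +
      2 * (C a ^ 2 + C a ^ 3) * X ^ 2 * C η ^ 2 + 3 * C a ^ 3 * X ^ 2 * C η ^ 4 +
      2 * C a ^ 4 * X ^ 4 + 3 * C a ^ 4 * X ^ 4 * C η ^ 2 + C a ^ 5 * X ^ 6, ?_⟩
    unfold pN1 pN2 pN3 pW
    simp only [C_mul, C_pow, C_add, C_sub, C_1]
    ring

end QE
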