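import Pool.Agent.Lib.QE.St
import Pool.Agent.Lib.QD.NC

/-!
Project QE (MP_794704_al, version 2): assembly of the noncommutative part.
-/

namespace QE

open Polynomial QD

namespace NCAux

open QD.NCAux (map_evR cj)

section
variable {k D D' : Type} [Field k] [DivisionRing D] [Algebra k D] [DivisionRing D'] [Algebra k D']
  (f : D →ₐ[k] D') (q a : kˣ) (x y : D)

theorem map_LA : f (LA a x y) = LA a (f x) (f y) := by
  unfold LA
  simp only [map_add, map_mul, map_inv₀, AlgHom.commutes]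

theorem map_qn : f (qn q a x y) = qn q a (f x) (f y) := by
  unfold qn
  rw [map_add, map_mul f, map_pow f, AlgHom.commutes, AlgHom.commutes, map_LA]

theorem map_qa1 : f (qa1 q a x y) = qa1 q a (f x) (f y) := by
  unfold qa1
  rw [map_mul, map_sub, map_pow, AlgHom.commutes, AlgHom.commutes, map_LA]

theorem map_qa2 : f (qa2 q a x y) = qa2 q a (f x) (f y) := by
  unfold qa2
  rw [map_mul, AlgHom.commutes, map_LA]

theorem map_qa3 : f (qa3 q a x y) = qa3 q a (f x) (f y) := by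
  unfold qa3
  rw [map_mul f, map_sub, map_mul f, map_pow f, AlgHom.commutes, AlgHom.commutes, AlgHom.commutes,
    map_LA]

theorem map_IsQuint (X Y : D) (h : IsQuint q a x y X Y) :
    IsQuint q a (f x) (f y) (f X) (f Y) := by
  obtain ⟨h0, h1, h2⟩ := h
  refine ⟨?_, ?_, ?_⟩
  · rw [← map_qn]
    exact (map_ne_zero f).2 h0
  · rw [← map_qn, ← map_qa3, ← map_qa2, ← map_mul, h1, map_add, map_mul, map_mul]
  · rw [← map_qn, ← map_qa1, ← map_qa2, ← map_mul, h2, map_sub, map_mul, map_mul]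

end

end NCAux

open NCAux in
open QD.NCAux (map_evR cj) in
/-- N7. Assembly: if the quantum quintic is not tame then some conjugation automorphism is not. -/
theorem stNC (hTheta : StTheta) (hElem : StElem) (hLead : StLead) (hThLead : StThLead)
    (hEvLead : StEvLead) (hAC : StAC) (hUniq : StUniq) (hEv : StEv) (hTr : QD.StTr) : StNC := by
  intro k D _ _ _ q a x y K _ _ S ι hD hq hx hy hnt
  obtain ⟨θ, hθ⟩ := hTheta k D q a x y hD hq
  have hθn : θ ∉ Tame x y := hnt θ hθ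
  have hQ : IsQuint q a (ι x) (ι y) (ι (θ x)) (ι (θ y)) := map_IsQuint ι q a x y _ _ hθ
  obtain ⟨hly, r, hr0, hlx⟩ := hThLead k q a K S (ι x) (ι y) _ _ hq hx hy hQ
  obtain ⟨l1, -, -, -, -, -, l7⟩ := hLead k (RatFunc k) (sg q) K S
  -- the constant
  set κ : kˣ := (q * a)⁻¹ with hκ
  -- the elementary automorphisms
  set u : RatFunc k := (sg κ).symm r⁻¹ with hu
  have hu1 : sg κ u = r⁻¹ := by rw [hu, AlgEquiv.apply_symm_apply]
  have hu0 : u ≠ 0 := by
    intro h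
    rw [h, map_zero] at hu1
    exact inv_ne_zero hr0 hu1.symm
  obtain ⟨e1, e1x, e1y⟩ := (hElem k D q x y hD hq).1 u hu0
  have ha0 : algebraMap k (RatFunc k) ((κ⁻¹ : kˣ) : k) ≠ 0 :=
    (map_ne_zero (algebraMap k (RatFunc k))).2 (κ⁻¹).ne_zero
  obtain ⟨e2, e2x, e2y⟩ := (hElem k D q x y hD hq).2 _ ha0
  have hev : evR x (algebraMap k (RatFunc k) ((κ⁻¹ : kˣ) : k)) =
      algebraMap k D ((κ⁻¹ : kˣ) : k) := by
    obtain ⟨⟨f, hf⟩, -⟩ := hEv k D x (hTr k D q x y hD.x0 hD.y0 hD.comm hq).1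
    rw [← hf, AlgHom.commutes]
  -- the composition
  have hφx : (θ * e1 * e2) x = evR (θ y) u * θ x := by
    change θ (e1 (e2 x)) = _
    rw [e2x, e1x, map_mul]
    congr 1
    exact map_evR (θ : D →ₐ[k] D) y u
  have hφy : (θ * e1 * e2) y = algebraMap k D ((κ⁻¹ : kˣ) : k) * θ y := by
    change θ (e1 (e2 y)) = _
    rw [e2y, hev, map_mul, AlgEquiv.commutes, e1y, map_mul, AlgEquiv.commutes]
  have m1 : HasLead S (ι ((θ * e1 * e2) x)) 1 1 := by
    have h1 := hEvLead k q K S κ (ι (θ y)) u hly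
    have h2 := l1 _ _ _ _ _ _ h1 hlx
    rw [hφx, map_mul, map_evR]
    rw [hu1, zero_add, zpow_zero] at h2
    change HasLead S _ 1 (r⁻¹ * r) at h2
    rwa [inv_mul_cancel₀ hr0] at h2
  have m2 : HasLead S (ι ((θ * e1 * e2) y)) 0 RatFunc.X := by
    have h2 := l1 _ _ _ _ _ _ (l7 ((κ⁻¹ : kˣ) : k)) hly
    rw [hφy, map_mul, AlgHom.commutes]
    rw [add_zero, zpow_zero] at h2
    change HasLead S _ 0 (algebraMap k (RatFunc k) ((κ⁻¹ : kˣ) : k) *
      (algebraMap k (RatFunc k) (κ : k) * RatFunc.X)) at h2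
    rwa [← mul_assoc, ← map_mul, Units.inv_mul, map_one, one_mul] at h2
  have m3 : ι ((θ * e1 * e2) x) * ι ((θ * e1 * e2) y) =
      algebraMap k K q * (ι ((θ * e1 * e2) y) * ι ((θ * e1 * e2) x)) := by
    rw [← map_mul, ← map_mul, hD.comm, map_mul, map_mul, AlgEquiv.commutes, AlgHom.commutes,
      map_mul, map_mul]
  obtain ⟨z, hz0, hz1, hz2⟩ := hAC k q K S (ι x) (ι y) _ _ hq hx hy m3 m1 m2
  refine ⟨z, θ * e1 * e2, hz0, ?_, ?_⟩
  · have h := hUniq k D K q x y hD (cj ι z hz0)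
      (ι.comp ((θ * e1 * e2 : D ≃ₐ[k] D) : D →ₐ[k] D)) ?_ ?_
    · intro d
      exact congrArg (fun F : D →ₐ[k] K => F d) h
    · change z * ι x * z⁻¹ = ι ((θ * e1 * e2) x)
      rw [hz1, mul_assoc, mul_inv_cancel₀ hz0, mul_one]
    · change z * ι y * z⁻¹ = ι ((θ * e1 * e2) y)
      rw [hz2, mul_assoc, mul_inv_cancel₀ hz0, mul_one]
  · intro h
    apply hθn
    have t1 : e1 ∈ Tame x y := Subgroup.subset_closure (Or.inl (Or.inr (Or.inl ⟨u, hu0, e1x, e1y⟩)))
    have t2 : e2 ∈ Tame x y :=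
      Subgroup.subset_closure (Or.inl (Or.inr (Or.inr ⟨_, ha0, e2x, e2y⟩)))
    have h3 := (Tame x y).mul_mem ((Tame x y).mul_mem h ((Tame x y).inv_mem t2))
      ((Tame x y).inv_mem t1)
    rwa [mul_inv_cancel_right, mul_inv_cancel_right] at h3

end QE
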