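import Pool.Agent.Lib.QE.CSt

/-!
Project QE, module NR: the quintic pair is not reachable.
-/

namespace QE

variable {𝔽 : Type} [Field 𝔽]

namespace NRAux

variable (𝔽) in
theorem trans_eta : Transcendental 𝔽
    (algebraMap (RatFunc 𝔽) (AlgebraicClosure (RatFunc 𝔽)) RatFunc.X) := by
  have h1 : Transcendental 𝔽 (RatFunc.X : RatFunc 𝔽) := by
    rw [← RatFunc.algebraMap_X]
    exact (transcendental_algebraMap_iff (RatFunc.algebraMap_injective 𝔽)).2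
      (Polynomial.transcendental_X 𝔽)
  exact (transcendental_algebraMap_iff
    (FaithfulSMul.algebraMap_injective (RatFunc 𝔽) (AlgebraicClosure (RatFunc 𝔽)))).2 h1

end NRAux

theorem stNR (h1 : StInd 𝔽) (h2 : StReachInd 𝔽) (h3 : StBack 𝔽) (h4 : StNeg 𝔽) (h5 : StPl 𝔽)
    (h6 : StIndB 𝔽) (h7 : StBase 𝔽) (h8 : StE0 𝔽) (h9 : StU 𝔽) (h10 : StDeg 𝔽)
    (h11 : StMul 𝔽) : StNR 𝔽 := by
  intro hac σ r htwo hr hσ hne1 hne2
  set η := algebraMap (RatFunc 𝔽) (AlgebraicClosure (RatFunc 𝔽)) RatFunc.X with hη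
  have ht : Transcendental 𝔽 η := NRAux.trans_eta 𝔽
  obtain ⟨Pl, pt, hstd⟩ := h5 (AlgebraicClosure (RatFunc 𝔽))
  have hind := h6 (AlgebraicClosure (RatFunc 𝔽)) η ht
  refine ⟨RatFunc (AlgebraicClosure (RatFunc 𝔽)), inferInstance, inferInstance, RatFunc.X,
    RatFunc.C η, hind, fun X Y hQ hR => ?_⟩
  have hXY := h2 _ _ _ _ _ _ hind hR
  have hX : X ≠ 0 := (h1 _ X Y hXY).2.2.1
  have hY : Y ≠ 0 := (h1 _ Y X (h1 _ X Y hXY).1).2.2.1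
  have ha : -r ^ 2 ≠ 0 := neg_ne_zero.2 (pow_ne_zero 2 hr)
  have hD : D4 Pl (e0 r) X Y ≤ 0 := by
    rw [h9 _ Pl r X Y hX hY]
    have e1 := h10 _ (-r ^ 2) η Pl pt X Y ht hstd ha hne1 hne2 hQ hX hY
    have e2 := h11 _ r η Pl pt X Y ht hstd htwo hr hne1 hne2 hQ hXY
    linarith
  obtain ⟨n1, n2, n3, n4, n5⟩ := h4 σ _ Pl
  obtain ⟨hg, hw⟩ := h8 σ r htwo hr hσ
  have hN : Neg σ Pl X Y := ⟨hXY, e0 r, hg, hw, hD⟩
  obtain ⟨-, e, he, hea, hed⟩ :=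
    h3 hac _ σ (Neg σ Pl) (fun _ _ h => h.1) n1 n2 n3 n4 n5 _ _ X Y hR hN
  have := h7 _ η Pl pt ht hstd e he.tok he.bal
  linarith

end QE
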