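import Pool.Agent.Lib.QE.St2

/-!
Project QE, module NRX: the variable of a rational function field is not a root of unity.
-/

namespace QE

open Polynomial QD

theorem stNRX : StNRX := by
  intro F _ q hq n hn h
  rw [hq, ← RatFunc.algebraMap_X, ← map_pow, ← map_one (algebraMap F[X] (RatFunc F))] at h
  have h1 := RatFunc.algebraMap_injective F h
  have h2 := congrArg Polynomial.natDegree h1
  rw [Polynomial.natDegree_X_pow, Polynomial.natDegree_one] at h2
  omega

end QE
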