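import Pool.Agent.Lib.QE.CSt

/-!
Project QE, module Neg: the predicate `Neg` is stable.
-/

set_option autoImplicit false

namespace QE

variable {𝔽 : Type} [Field 𝔽]

open Polynomial

theorem stNeg (hInd : StInd 𝔽) (hGa : StGa 𝔽) (hA1 : StA1 𝔽) (hA2 : StA2 𝔽) (hAIS : StAIS 𝔽)
    (hTB : StTB 𝔽) (hQ1 : StQ1 𝔽) (hQ2 : StQ2 𝔽) (hT : StT 𝔽) (hRe : StRe 𝔽) (hReT : StReT 𝔽)
    (hPos : StPos 𝔽) : StNeg 𝔽 := by
  intro σ M _ _ Pl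
  refine ⟨?_, ?_, ?_, ?_, ?_⟩
  · rintro c X Y hc hσ ⟨hI, e, hG, hW, hD⟩
    have hI' : Ind 𝔽 (algebraMap 𝔽 M c * X) Y := by
      have h := ((hInd M X Y hI).2.2.2.1 (C c) (C_ne_zero.2 hc)).2
      rwa [aeval_C] at h
    obtain ⟨h1, h2, h3⟩ := (hTB e hG.tok hG.bal).1 c hc
    refine ⟨hI', act1 c e, ⟨h1, h2, (hRe σ e hG.real).1 c hc hσ, ?_⟩, ?_, ?_⟩
    · rw [(hQ1 e hG.tok).1 c hc, hG.q4]
    · rw [h3]
      exact hW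
    · rw [← hGa M Pl _ _ _ hI' h1 h2, hA1 M Pl X Y e c hc hI hG.tok,
        hGa M Pl X Y e hI hG.tok hG.bal]
      exact hD
  · rintro X Y ⟨hI, e, hG, hW, hD⟩
    have hI' : Ind 𝔽 (Y * X) Y := by
      have h := ((hInd M X Y hI).2.2.2.1 (Polynomial.X : 𝔽[X]) X_ne_zero).2
      rwa [aeval_X] at h
    obtain ⟨h1, h2, h3⟩ := (hTB e hG.tok hG.bal).2.1
    refine ⟨hI', act2 e, ⟨h1, h2, (hRe σ e hG.real).2.1, ?_⟩, ?_, ?_⟩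
    · rw [hQ2 e hG.bal, hG.q4]
    · rw [h3]
      exact hW
    · rw [← hGa M Pl _ _ _ hI' h1 h2, hA2 M Pl X Y e hI hG.tok,
        hGa M Pl X Y e hI hG.tok hG.bal]
      exact hD
  · rintro T X Y hT0 hTσ ⟨hI, e, hG, hW, hD⟩
    obtain ⟨h1, h2, h3, h4, h5⟩ := hT T e hT0 hG.tok hG.bal
    obtain ⟨hI', h6⟩ := h5 M Pl X Y hI
    refine ⟨hI', actT T e, ⟨h1, h2, hReT σ e hG.real T hT0 hTσ, ?_⟩, ?_, ?_⟩
    · rw [h4, hG.q4]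
    · rw [h3]
      exact hW
    · rw [← hGa M Pl _ _ _ hI' h1 h2, h6, hGa M Pl X Y e hI hG.tok hG.bal]
      exact hD
  · rintro X Y ⟨hI, e, hG, hW, hD⟩
    obtain ⟨h1, h2, h3⟩ := (hTB e hG.tok hG.bal).2.2.2.1
    refine ⟨(hInd M X Y hI).2.1, actI e,
      ⟨h1, h2, (hRe σ e hG.real).2.2.1, ?_⟩, ?_, ?_⟩
    · rw [(hQ1 e hG.tok).2.1, hG.q4]
    · rw [h3]
      exact hW
    · rw [(hAIS M Pl X Y e hI hG.tok).1]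
      exact hD
  · rintro X Y ⟨hI, e, hG, hW, hD⟩
    obtain ⟨h1, h2, h3⟩ := (hTB e hG.tok hG.bal).2.2.2.2
    refine ⟨(hInd M X Y hI).1, actS e,
      ⟨h1, h2, (hRe σ e hG.real).2.2.2, ?_⟩, ?_, ?_⟩
    · rw [(hQ1 e hG.tok).2.2, hG.q4]
    · rw [h3]
      exact (mul_pos_iff_of_pos_left hW).1 (hPos σ e hG)
    · rw [(hAIS M Pl X Y e hI hG.tok).2]
      exact hD

end QE
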