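import Pool.Agent.Lib.QE.St2
import Pool.Agent.Lib.QD.PlaceO

/-!
Project QE, module Ord: ordered fields with `q` infinitely close to one.
-/

set_option autoImplicit false

namespace QE

open ArchimedeanClass QD.PlaceOAux

namespace OrdAux

variable {k : Type} [Field k] [LinearOrder k] [IsStrictOrderedRing k]

theorem isLocalHom_st : IsLocalHom (st k) where
  map_nonunit x hx := unit_of x hx.ne_zero

theorem residue_eq_one (x : fo k) (h : st k x = 1) : IsLocalRing.residue (fo k) x = 1 := by
  have h1 : IsLocalRing.residue (fo k) (x - 1) = 0 := by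
    rw [IsLocalRing.residue_eq_zero_iff, IsLocalRing.mem_maximalIdeal, mem_nonunits_iff]
    intro hu
    have h2 := (hu.map (st k)).ne_zero
    rw [map_sub, map_one, h, sub_self] at h2
    exact h2 rfl
  rwa [map_sub, map_one, sub_eq_zero] at h1

end OrdAux

open OrdAux in
theorem stOrd : StOrd := by
  intro k _ _ _ q hq
  have h1 : 0 < mk ((q : k) - 1) := by
    have h2 : mk (1 : k) < mk ((q : k) - 1) := by
      rw [mk_lt_mk]
      intro n
      rw [abs_one, nsmul_eq_mul]
      rcases Nat.eq_zero_or_pos n with hn | hn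
      · rw [hn, Nat.cast_zero, zero_mul]
        exact zero_lt_one
      · have h3 := hq n hn
        rwa [lt_div_iff₀ (by exact_mod_cast hn : (0 : k) < n), mul_comm] at h3
    rwa [mk_one] at h2
  have h2 : stdPart (q : k) = 1 := by
    have h3 := stdPart_add_eq_right (y := (1 : k)) h1
    rwa [sub_add_cancel, stdPart_one] at h3
  have h3 : (q : k) ∈ fo k := by
    rw [mem_fo]
    by_contra hc
    rw [stdPart_of_mk_ne_zero (fun h => hc h.ge)] at h2
    exact zero_ne_one h2
  haveI := isLocalHom_st (k := k)
  let L : IsLocalRing.ResidueField (fo k) →+* ℝ := IsLocalRing.ResidueField.lift (st k)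
  refine ⟨fo k, h3, residue_eq_one ⟨(q : k), h3⟩ h2, ?_, -2, ?_, ?_⟩
  · intro h
    have h4 := congrArg L h
    rw [map_ofNat, map_zero] at h4
    norm_num at h4
  · rintro ⟨s, hs⟩
    have h4 := congrArg L hs
    rw [map_neg, map_ofNat, map_mul] at h4
    nlinarith [mul_self_nonneg (L s)]
  · intro h
    have h4 := congrArg L h
    rw [map_neg, map_ofNat, map_neg, map_one] at h4
    norm_num at h4

end QE
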