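import Pool.Agent.Lib.QE.CSt

/-!
Project QD, module Pl: the standard places of a rational function field and the product formula.
-/

set_option autoImplicit false

namespace QE

variable {𝔽 : Type} [Field 𝔽]

open Polynomial

namespace PlAux

section val

variable {Ω : Type} [Field Ω]

/-- a discrete valuation on polynomials, trivial on constants -/
structure Val (w : Polynomial Ω → ℤ) : Prop where
  mul : ∀ P Q : Polynomial Ω, P ≠ 0 → Q ≠ 0 → w (P * Q) = w P + w Q
  add : ∀ P Q : Polynomial Ω, P ≠ 0 → Q ≠ 0 → P + Q ≠ 0 → min (w P) (w Q) ≤ w (P + Q)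
  con : ∀ c : Ω, c ≠ 0 → w (C c) = 0

/-- the extension to rational functions -/
noncomputable def ext (w : Polynomial Ω → ℤ) (f : RatFunc Ω) : ℤ := w f.num - w f.denom

theorem ext_div {w : Polynomial Ω → ℤ} (hw : Val w) (P Q : Polynomial Ω) (hP : P ≠ 0) (hQ : Q ≠ 0)
    (f : RatFunc Ω) (h : f = algebraMap (Polynomial Ω) (RatFunc Ω) P /
      algebraMap (Polynomial Ω) (RatFunc Ω) Q) : ext w f = w P - w Q := by
  have hinj : Function.Injective (algebraMap (Polynomial Ω) (RatFunc Ω)) :=
    IsFractionRing.injective _ _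
  have hA0 : ∀ g : Polynomial Ω, g ≠ 0 → algebraMap (Polynomial Ω) (RatFunc Ω) g ≠ 0 :=
    fun g hg hc => hg (by
      apply hinj
      rw [hc, map_zero])
  have h1 := RatFunc.num_div_denom f
  have hf : f ≠ 0 := by
    rw [h]
    exact div_ne_zero (hA0 P hP) (hA0 Q hQ)
  have hn : f.num ≠ 0 := RatFunc.num_ne_zero hf
  have hd : f.denom ≠ 0 := RatFunc.denom_ne_zero f
  have h2 : f.num * Q = P * f.denom := by
    apply hinj
    rw [map_mul, map_mul]
    have h3 := h1.trans h
    rwa [div_eq_div_iff (hA0 _ hd) (hA0 _ hQ)] at h3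
  have h3 := congrArg w h2
  rw [hw.mul _ _ hn hQ, hw.mul _ _ hP hd] at h3
  unfold ext
  linarith

theorem ext_alg {w : Polynomial Ω → ℤ} (hw : Val w) (P : Polynomial Ω) (hP : P ≠ 0) :
    ext w (algebraMap (Polynomial Ω) (RatFunc Ω) P) = w P := by
  have h1 : w 1 = 0 := by
    have := hw.con 1 one_ne_zero
    rwa [map_one] at this
  rw [ext_div hw P 1 hP one_ne_zero _ (by rw [map_one, div_one]), h1, sub_zero]

theorem ext_mul {w : Polynomial Ω → ℤ} (hw : Val w) (f g : RatFunc Ω) (hf : f ≠ 0) (hg : g ≠ 0) :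
    ext w (f * g) = ext w f + ext w g := by
  have hfn := RatFunc.num_ne_zero hf
  have hgn := RatFunc.num_ne_zero hg
  have hfd := RatFunc.denom_ne_zero f
  have hgd := RatFunc.denom_ne_zero g
  rw [ext_div hw (f.num * g.num) (f.denom * g.denom) (mul_ne_zero hfn hgn) (mul_ne_zero hfd hgd) _
    (by
      conv_lhs => rw [← RatFunc.num_div_denom f, ← RatFunc.num_div_denom g]
      rw [map_mul, map_mul, div_mul_div_comm])]
  rw [hw.mul _ _ hfn hgn, hw.mul _ _ hfd hgd]
  unfold ext
  ring

theorem ext_add {w : Polynomial Ω → ℤ} (hw : Val w) (f g : RatFunc Ω) (hf : f ≠ 0) (hg : g ≠ 0)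
    (hfg : f + g ≠ 0) : min (ext w f) (ext w g) ≤ ext w (f + g) := by
  have hfn := RatFunc.num_ne_zero hf
  have hgn := RatFunc.num_ne_zero hg
  have hfd := RatFunc.denom_ne_zero f
  have hgd := RatFunc.denom_ne_zero g
  have hinj : Function.Injective (algebraMap (Polynomial Ω) (RatFunc Ω)) :=
    IsFractionRing.injective _ _
  have hA0 : ∀ g : Polynomial Ω, g ≠ 0 → algebraMap (Polynomial Ω) (RatFunc Ω) g ≠ 0 :=
    fun g hg hc => hg (by
      apply hinj
      rw [hc, map_zero])
  have e1 : f + g = algebraMap (Polynomial Ω) (RatFunc Ω) (f.num * g.denom + f.denom * g.num) /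
      algebraMap (Polynomial Ω) (RatFunc Ω) (f.denom * g.denom) := by
    conv_lhs => rw [← RatFunc.num_div_denom f, ← RatFunc.num_div_denom g]
    rw [div_add_div _ _ (hA0 _ hfd) (hA0 _ hgd), map_add, map_mul, map_mul, map_mul]
  have h0 : f.num * g.denom + f.denom * g.num ≠ 0 := by
    intro h
    rw [h, map_zero, zero_div] at e1
    exact hfg e1
  rw [ext_div hw _ _ h0 (mul_ne_zero hfd hgd) _ e1]
  have h1 := hw.add _ _ (mul_ne_zero hfn hgd) (mul_ne_zero hfd hgn) h0
  rw [hw.mul _ _ hfn hgd, hw.mul _ _ hfd hgn] at h1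
  rw [hw.mul _ _ hfd hgd]
  unfold ext
  omega

theorem ext_con {w : Polynomial Ω → ℤ} (hw : Val w) [Algebra 𝔽 Ω] (c : 𝔽) (hc : c ≠ 0) :
    ext w (algebraMap 𝔽 (RatFunc Ω) c) = 0 := by
  have h1 : algebraMap 𝔽 (RatFunc Ω) c =
      algebraMap (Polynomial Ω) (RatFunc Ω) (C (algebraMap 𝔽 Ω c)) := by
    rw [IsScalarTower.algebraMap_apply 𝔽 (Polynomial Ω) (RatFunc Ω)]
    rfl
  have h2 : algebraMap 𝔽 Ω c ≠ 0 := (_root_.map_ne_zero _).2 hc
  rw [h1, ext_alg hw _ (Polynomial.C_ne_zero.2 h2), hw.con _ h2]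

theorem val_rm (a : Ω) : Val fun P : Polynomial Ω => (P.rootMultiplicity a : ℤ) := by
  refine ⟨fun P Q hP hQ => ?_, fun P Q hP hQ h => ?_, fun c _ => ?_⟩
  · rw [Polynomial.rootMultiplicity_mul (mul_ne_zero hP hQ)]
    push_cast
    rfl
  · have := Polynomial.rootMultiplicity_add a h
    omega
  · rw [Polynomial.rootMultiplicity_C]
    rfl

theorem val_deg : Val fun P : Polynomial Ω => -(P.natDegree : ℤ) := by
  refine ⟨fun P Q hP hQ => ?_, fun P Q hP hQ h => ?_, fun c _ => ?_⟩
  · rw [Polynomial.natDegree_mul hP hQ]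
    push_cast
    ring
  · have := Polynomial.natDegree_add_le P Q
    omega
  · rw [Polynomial.natDegree_C]
    rfl

/-- the valuation of a place -/
noncomputable def wv : Option Ω → Polynomial Ω → ℤ
  | some a => fun P => (P.rootMultiplicity a : ℤ)
  | none => fun P => -(P.natDegree : ℤ)

theorem val_wv (p : Option Ω) : Val (wv p) := by
  cases p with
  | none => exact val_deg
  | some a => exact val_rm a

open Classical in
theorem sum_rm [IsAlgClosed Ω] (P : Polynomial Ω) (R : Finset Ω) (hR : ∀ a ∈ P.roots, a ∈ R) :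
    ∑ a ∈ R, (P.rootMultiplicity a : ℤ) = P.natDegree := by
  have h1 : ∑ a ∈ R, P.roots.count a = Multiset.card P.roots := Multiset.sum_count_eq_card hR
  have h2 : Multiset.card P.roots = P.natDegree :=
    (IsAlgClosed.splits P).natDegree_eq_card_roots.symm
  rw [h2] at h1
  have h3 : ∀ a ∈ R, (P.rootMultiplicity a : ℤ) = ((P.roots.count a : ℕ) : ℤ) := by
    intro a _
    rw [Polynomial.count_roots]
  rw [Finset.sum_congr rfl h3]
  exact_mod_cast h1

open Classical in
/-- the places where `f` has a zero or a pole -/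
noncomputable def bad (f : RatFunc Ω) : Finset Ω := (f.num.roots + f.denom.roots).toFinset

open Classical in
theorem mem_bad (f : RatFunc Ω) (a : Ω) : a ∈ bad f ↔ a ∈ f.num.roots ∨ a ∈ f.denom.roots := by
  unfold bad
  rw [Multiset.mem_toFinset, Multiset.mem_add]

theorem supp_bad (f : RatFunc Ω) (hf : f ≠ 0) (p : Option Ω) (h : ext (wv p) f ≠ 0) :
    p ∈ Finset.insertNone (bad f) := by
  rw [Finset.mem_insertNone]
  intro a ha
  rw [Option.mem_def] at ha
  subst ha
  rw [mem_bad]
  by_contra hc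
  rw [not_or] at hc
  apply h
  unfold ext wv
  simp only
  have h1 : f.num.rootMultiplicity a = 0 := Polynomial.rootMultiplicity_eq_zero fun hr =>
    hc.1 ((Polynomial.mem_roots (RatFunc.num_ne_zero hf)).2 hr)
  have h2 : f.denom.rootMultiplicity a = 0 := Polynomial.rootMultiplicity_eq_zero fun hr =>
    hc.2 ((Polynomial.mem_roots (RatFunc.denom_ne_zero f)).2 hr)
  rw [h1, h2]
  rfl

/-- the standard places -/
noncomputable def pl (Ω : Type) [Field Ω] [IsAlgClosed Ω] [Algebra 𝔽 Ω] : Places 𝔽 (RatFunc Ω) where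
  P := Option Ω
  ord p f := ext (wv p) f
  mul p f g hf hg := ext_mul (val_wv p) f g hf hg
  add p f g hf hg hfg := ext_add (val_wv p) f g hf hg hfg
  con p c hc := ext_con (val_wv p) c hc
  fin f hf := (Finset.finite_toSet (Finset.insertNone (bad f))).subset fun p hp =>
    supp_bad f hf p hp
  sum f hf := by
    rw [finsum_eq_sum_of_support_subset (s := Finset.insertNone (bad f)) _ fun p hp =>
      supp_bad f hf p hp]
    rw [Finset.sum_insertNone]
    have h1 : ∀ a ∈ bad f, ext (wv (some a)) f =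
        (f.num.rootMultiplicity a : ℤ) - f.denom.rootMultiplicity a := fun a _ => rfl
    rw [Finset.sum_congr rfl h1, Finset.sum_sub_distrib,
      sum_rm f.num (bad f) (fun a ha => (mem_bad f a).2 (Or.inl ha)),
      sum_rm f.denom (bad f) (fun a ha => (mem_bad f a).2 (Or.inr ha))]
    change (-(f.num.natDegree : ℤ) - -(f.denom.natDegree : ℤ)) + _ = 0
    ring

end val

end PlAux

open PlAux in
/-- Module Pl. -/
theorem stPl : StPl 𝔽 := by
  intro Ω _ _ _
  refine ⟨pl Ω, Equiv.refl _, ?_, ?_⟩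
  · intro a f hf
    exact ext_alg (val_wv (some a)) f hf
  · intro f hf
    exact ext_alg (val_wv (none : Option Ω)) f hf

end QE
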