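import Pool.Agent.Lib.QE.Tame

/-!
Project QE, module Place: existence of the place.
-/

namespace QE

open QD

namespace PlaceAux

theorem mon_comp {A B R : Type} [Semiring A] [Semiring B] [Semiring R] (f : B →+* R) (g : A →+* B)
    (x y : R) (s : ℕ × ℕ →₀ A) : mon (f.comp g) x y s = mon f x y (s.mapRange g (map_zero g)) := by
  unfold mon
  rw [Finsupp.sum_mapRange_index]
  · rfl
  · intro i
    simp

theorem mon_single {A R : Type} [Semiring A] [Semiring R] (f : A →+* R) (x y : R) (ij : ℕ × ℕ) (a : A) :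
    mon f x y (Finsupp.single ij a) = f a * (y ^ ij.1 * x ^ ij.2) := by
  unfold mon
  rw [Finsupp.sum_single_index]
  simp

theorem mon_smul {A R : Type} [CommSemiring A] [Semiring R] (f : A →+* R) (x y : R) (c : A)
    (s : ℕ × ℕ →₀ A) : mon f x y (c • s) = f c * mon f x y s := by
  unfold mon
  rw [Finsupp.sum_smul_index (by intro i; simp), Finsupp.mul_sum]
  apply Finsupp.sum_congr
  intro i _
  rw [map_mul, mul_assoc]

/-- dividing a finitely supported function by a constant, with values in the valuation ring -/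
noncomputable def divF {k : Type} [Field k] (O : ValuationSubring k) (s : ℕ × ℕ →₀ k) (c : k)
    (h : ∀ i, s i / c ∈ O) : ℕ × ℕ →₀ O.toSubring :=
  Finsupp.onFinset s.support (fun i => ⟨s i / c, h i⟩) (by
    intro i hi
    rw [Finsupp.mem_support_iff]
    intro h0
    apply hi
    apply Subtype.ext
    simp [h0])

theorem divF_apply {k : Type} [Field k] (O : ValuationSubring k) (s : ℕ × ℕ →₀ k) (c : k)
    (h : ∀ i, s i / c ∈ O) (i : ℕ × ℕ) : ((divF O s c h i : O.toSubring) : k) = s i / c := rfl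

theorem mon_divF {k D : Type} [Field k] [DivisionRing D] [Algebra k D] (O : ValuationSubring k)
    (s : ℕ × ℕ →₀ k) (c : k) (hc : c ≠ 0) (h : ∀ i, s i / c ∈ O) (x y : D) :
    mon (algebraMap k D) x y s =
      algebraMap k D c * mon ((algebraMap k D).comp O.toSubring.subtype) x y (divF O s c h) := by
  rw [mon_comp, ← mon_smul]
  congr 1
  ext i
  rw [Finsupp.smul_apply, Finsupp.mapRange_apply]
  change s i = c • (s i / c)
  rw [smul_eq_mul]
  field_simp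

theorem scaleF {k : Type} [Field k] (O : ValuationSubring k) (s : ℕ × ℕ →₀ k) (hs : s ≠ 0) :
    ∃ j, s j ≠ 0 ∧ ∀ i, s i / s j ∈ O := by
  obtain ⟨i0, hi0⟩ := Finsupp.support_nonempty_iff.2 hs
  obtain ⟨j, hj, hj0, hO⟩ := TameAux.scale_fin O s.support (fun i => s i) ⟨i0, hi0, Finsupp.mem_support_iff.1 hi0⟩
  refine ⟨j, hj0, fun i => ?_⟩
  by_cases hi : i ∈ s.support
  · exact hO i hi
  · rw [Finsupp.notMem_support_iff.1 hi, zero_div]
    exact O.zero_mem

theorem scaleF2 {k : Type} [Field k] (O : ValuationSubring k) (s t : ℕ × ℕ →₀ k) (hs : s ≠ 0) :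
    ∃ c : k, c ≠ 0 ∧ (∀ i, s i / c ∈ O) ∧ (∀ i, t i / c ∈ O) ∧ ((∃ j, s j = c) ∨ ∃ j, t j = c) := by
  obtain ⟨i0, hi0⟩ := Finsupp.support_nonempty_iff.2 hs
  obtain ⟨j, hj, hj0, hO⟩ := TameAux.scale_fin O (s.support.disjSum t.support) (Sum.elim s t)
    ⟨Sum.inl i0, Finset.inl_mem_disjSum.2 hi0, Finsupp.mem_support_iff.1 hi0⟩
  refine ⟨Sum.elim s t j, hj0, fun i => ?_, fun i => ?_, ?_⟩
  · by_cases hi : i ∈ s.support
    · exact hO (Sum.inl i) (Finset.inl_mem_disjSum.2 hi)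
    · rw [Finsupp.notMem_support_iff.1 hi, zero_div]
      exact O.zero_mem
  · by_cases hi : i ∈ t.support
    · exact hO (Sum.inr i) (Finset.inr_mem_disjSum.2 hi)
    · rw [Finsupp.notMem_support_iff.1 hi, zero_div]
      exact O.zero_mem
  · rcases j with j | j
    · exact Or.inl ⟨j, rfl⟩
    · exact Or.inr ⟨j, rfl⟩

end PlaceAux

open PlaceAux in
theorem stPlace (hIndep : StIndep) (hPoly : StPoly) (hOC : StOreCond) (hOH : StOreHom) (hGen : StGen)
    (hInd : ∀ (𝔽 : Type) [Field 𝔽], StInd 𝔽) : StPlace := by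
  intro k D 𝔽 E _ _ _ _ _ _ σ q x y R X0 Y0 hQD hq hI
  let A : Subring k := R.O.toSubring
  let ρ' : A →+* 𝔽 :=
    { toFun := fun a => R.ρ ⟨a.1, a.2⟩
      map_one' := R.ρ.map_one
      map_mul' := fun a b => R.ρ.map_mul ⟨a.1, a.2⟩ ⟨b.1, b.2⟩
      map_zero' := R.ρ.map_zero
      map_add' := fun a b => R.ρ.map_add ⟨a.1, a.2⟩ ⟨b.1, b.2⟩ }
  let κ : 𝔽 →+* E := algebraMap 𝔽 E
  have hρq : ρ' ⟨(q : k), R.hq⟩ = 1 := R.one
  obtain ⟨P, h, hP, hh⟩ := hPoly k D E q x y hQD.x0 hQD.y0 hQD.comm hq A R.hq (κ.comp ρ') X0 Y0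
    (fun a => mul_comm _ _) (fun a => mul_comm _ _) (by
      rw [RingHom.comp_apply, hρq, map_one, one_mul, mul_comm])
  let ι : A →+* D := (algebraMap k D).comp A.subtype
  have hmem : ∀ s : ℕ × ℕ →₀ A, mon ι x y s ∈ P := fun s => (hP _).2 ⟨s, rfl⟩
  -- nonvanishing of `h`
  have hne : ∀ (s : ℕ × ℕ →₀ A) (j : ℕ × ℕ), ((s j : A) : k) = 1 → h ⟨mon ι x y s, hmem s⟩ ≠ 0 := by
    intro s j hj
    rw [hh s (hmem s), mon_comp]
    apply (hInd 𝔽 E X0 Y0 hI).2.2.2.2.2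
    intro h0
    have h1 := DFunLike.congr_fun h0 j
    rw [Finsupp.mapRange_apply, Finsupp.zero_apply] at h1
    have h2 : s j = 1 := Subtype.ext hj
    rw [h2, map_one] at h1
    exact one_ne_zero h1
  have hkmon : ∀ s : ℕ × ℕ →₀ A, mon ι x y s = mon (algebraMap k D) x y (s.mapRange A.subtype (map_zero _)) :=
    fun s => mon_comp _ _ _ _ _
  have hcen : ∀ (a : k) (d : D), d * algebraMap k D a = algebraMap k D a * d :=
    fun a d => (Algebra.commutes a d).symm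
  have hore : ∀ p s : P, h s ≠ 0 → ∃ p' s' : P, h s' ≠ 0 ∧ p * s' = s * p' := by
    rintro ⟨p, hp⟩ ⟨s, hs⟩ hsne
    obtain ⟨p1, rfl⟩ := (hP p).1 hp
    obtain ⟨s1, rfl⟩ := (hP s).1 hs
    have hs1 : s1.mapRange A.subtype (map_zero _) ≠ 0 := by
      intro h0
      apply hsne
      have h1 : s1 = 0 := by
        ext i
        have := DFunLike.congr_fun h0 i
        rw [Finsupp.mapRange_apply] at this
        exact this
      subst h1
      rw [hh]
      simp [mon]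
    obtain ⟨p', s', hs', he⟩ := hOC k D q x y hQD.x0 hQD.y0 hQD.comm hq
      (p1.mapRange A.subtype (map_zero _)) (s1.mapRange A.subtype (map_zero _)) hs1
    obtain ⟨c, hc, hcs, hcp, hj⟩ := scaleF2 R.O s' p' hs'
    have e1 := mon_divF R.O s' c hc hcs x y
    have e2 := mon_divF R.O p' c hc hcp x y
    rw [e1, e2, ← hkmon, ← hkmon, ← mul_assoc, ← mul_assoc, hcen, hcen, mul_assoc, mul_assoc] at he
    have hc' : algebraMap k D c ≠ 0 := (map_ne_zero _).2 hc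
    have he2 := mul_left_cancel₀ hc' he
    have he3 : (⟨mon ι x y p1, hp⟩ : P) * ⟨mon ι x y (divF R.O s' c hcs), hmem _⟩ =
        ⟨mon ι x y s1, hs⟩ * ⟨mon ι x y (divF R.O p' c hcp), hmem _⟩ := Subtype.ext he2
    refine ⟨⟨mon ι x y (divF R.O p' c hcp), hmem _⟩, ⟨mon ι x y (divF R.O s' c hcs), hmem _⟩, ?_, he3⟩
    intro h0
    have h1 := congrArg h he3
    rw [map_mul, map_mul, h0, mul_zero] at h1
    have h2 := (mul_eq_zero.1 h1.symm).resolve_left hsne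
    rcases hj with ⟨j, hj⟩ | ⟨j, hj⟩
    · exact hne _ j (by rw [divF_apply, hj, div_self hc]) h0
    · exact hne _ j (by rw [divF_apply, hj, div_self hc]) h2
  obtain ⟨S, H, hS, hHP, hSinv⟩ := hOH D E P h hore
  have hPS : ∀ d, d ∈ P → d ∈ S := by
    intro d hd
    rw [hS]
    refine ⟨⟨d, hd⟩, 1, ?_, ?_⟩
    · rw [map_one]; exact one_ne_zero
    · simp
  have hmonS : ∀ s : ℕ × ℕ →₀ A, ∃ hd : mon ι x y s ∈ S, H ⟨_, hd⟩ = mon (κ.comp ρ') X0 Y0 s := by
    intro s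
    refine ⟨hPS _ (hmem s), ?_⟩
    have h1 := hHP ⟨mon ι x y s, hmem s⟩ (hPS _ (hmem s))
    rw [h1, hh]
  refine ⟨{ rel := fun d e => ∃ hd : d ∈ S, H ⟨d, hd⟩ = e
            uniq := ?_, add := ?_, mul := ?_, inv := ?_, con := ?_, relx := ?_, rely := ?_, scale := ?_ }⟩
  · rintro d e e' ⟨h1, rfl⟩ ⟨_, rfl⟩
    rfl
  · rintro d d' e e' ⟨h1, rfl⟩ ⟨h2, rfl⟩
    exact ⟨S.add_mem h1 h2, map_add H ⟨d, h1⟩ ⟨d', h2⟩⟩
  · rintro d d' e e' ⟨h1, rfl⟩ ⟨h2, rfl⟩
    exact ⟨S.mul_mem h1 h2, map_mul H ⟨d, h1⟩ ⟨d', h2⟩⟩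
  · rintro d e ⟨h1, rfl⟩ hne
    have h2 := hSinv ⟨d, h1⟩ hne
    have hd : d ≠ 0 := by
      rintro rfl
      exact hne (map_zero H)
    refine ⟨h2, ?_⟩
    have h3 : H ⟨d, h1⟩ * H ⟨d⁻¹, h2⟩ = 1 := by
      rw [← map_mul]
      have : (⟨d, h1⟩ * ⟨d⁻¹, h2⟩ : S) = 1 := Subtype.ext (mul_inv_cancel₀ hd)
      rw [this, map_one]
    exact eq_inv_of_mul_eq_one_right h3
  · intro a
    obtain ⟨hd, he⟩ := hmonS (Finsupp.single (0, 0) ⟨a.1, a.2⟩)
    have e1 : mon ι x y (Finsupp.single (0, 0) ⟨a.1, a.2⟩) = algebraMap k D (a : k) := by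
      rw [mon_single]
      simp [ι]
    rw [mon_single (κ.comp ρ')] at he
    simp only [pow_zero, mul_one] at he
    refine ⟨e1 ▸ hd, ?_⟩
    have : (⟨algebraMap k D (a : k), e1 ▸ hd⟩ : S) = ⟨_, hd⟩ := Subtype.ext e1.symm
    rw [this, he]
    rfl
  · obtain ⟨hd, he⟩ := hmonS (Finsupp.single (0, 1) 1)
    have e1 : mon ι x y (Finsupp.single (0, 1) 1) = x := by
      rw [mon_single]
      simp
    rw [mon_single (κ.comp ρ')] at he
    refine ⟨e1 ▸ hd, ?_⟩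
    have : (⟨x, e1 ▸ hd⟩ : S) = ⟨_, hd⟩ := Subtype.ext e1.symm
    rw [this, he]
    simp
  · obtain ⟨hd, he⟩ := hmonS (Finsupp.single (1, 0) 1)
    have e1 : mon ι x y (Finsupp.single (1, 0) 1) = y := by
      rw [mon_single]
      simp
    rw [mon_single (κ.comp ρ')] at he
    refine ⟨e1 ▸ hd, ?_⟩
    have : (⟨y, e1 ▸ hd⟩ : S) = ⟨_, hd⟩ := Subtype.ext e1.symm
    rw [this, he]
    simp
  · intro d hd
    obtain ⟨p, s, hs, he⟩ := hGen k D q x y hQD hq d
    have hms : mon (algebraMap k D) x y s ≠ 0 := fun h0 =>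
      hs (hIndep k D q x y hQD.x0 hQD.y0 hQD.comm hq s h0)
    have hp : p ≠ 0 := by
      rintro rfl
      apply mul_ne_zero hd hms
      rw [he]
      simp [mon]
    obtain ⟨i, hi, hiO⟩ := scaleF R.O p hp
    obtain ⟨j, hj, hjO⟩ := scaleF R.O s hs
    have e1 := mon_divF R.O p (p i) hi hiO x y
    have e2 := mon_divF R.O s (s j) hj hjO x y
    set p0 := divF R.O p (p i) hiO with hp0
    set s0 := divF R.O s (s j) hjO with hs0
    rw [e1, e2] at he
    have hhp := hne p0 i (by rw [hp0, divF_apply, div_self hi])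
    have hhs := hne s0 j (by rw [hs0, divF_apply, div_self hj])
    have he2 : (algebraMap k D ((p i)⁻¹ * s j) * d) * mon ι x y s0 = mon ι x y p0 := by
      have h1 : algebraMap k D (p i)⁻¹ * (d * (algebraMap k D (s j) * mon ι x y s0)) =
          algebraMap k D (p i)⁻¹ * (algebraMap k D (p i) * mon ι x y p0) := by
        rw [he]
      rw [← mul_assoc (algebraMap k D (p i)⁻¹) (algebraMap k D (p i)), ← map_mul, inv_mul_cancel₀ hi,
        map_one, one_mul, ← mul_assoc d, hcen (s j) d, ← mul_assoc, ← mul_assoc, ← map_mul] at h1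
      exact h1
    have hdS : algebraMap k D ((p i)⁻¹ * s j) * d ∈ S :=
      (hS _).2 ⟨⟨_, hmem p0⟩, ⟨_, hmem s0⟩, hhs, he2⟩
    refine ⟨(p i)⁻¹ * s j, mul_ne_zero (inv_ne_zero hi) hj, _, ?_, hdS, rfl⟩
    intro h0
    have h1 : H ⟨_, hdS⟩ * H ⟨_, hPS _ (hmem s0)⟩ = H ⟨_, hPS _ (hmem p0)⟩ := by
      rw [← map_mul]
      congr 1
      exact Subtype.ext he2
    rw [h0, zero_mul, hHP ⟨_, hmem p0⟩] at h1
    exact hhp h1.symm

end QE
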