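import Pool.Agent.Lib.QE.CSt

/-!
Project QE, module Re: reality under the steps.
-/

namespace QE

variable {𝔽 : Type} [Field 𝔽]

namespace ReAux

/-- the action of `σ` on the constant of a block -/
def cj (σ : 𝔽 ≃+* 𝔽) : Blk 𝔽 ≃ Blk 𝔽 where
  toFun b := (b.1, σ b.2)
  invFun b := (b.1, σ.symm b.2)
  left_inv b := by
    refine Prod.ext rfl ?_
    exact σ.symm_apply_apply b.2
  right_inv b := by
    refine Prod.ext rfl ?_
    exact σ.apply_symm_apply b.2

theorem cj_apply (σ : 𝔽 ≃+* 𝔽) (b : Blk 𝔽) : cj σ b = (b.1, σ b.2) := rfl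

theorem mapDomain_cj {σ : 𝔽 ≃+* 𝔽} {e : Blk 𝔽 →₀ ℤ} (h : ∀ b : Blk 𝔽, e (b.1, σ b.2) = e b) :
    e.mapDomain (cj σ) = e := by
  ext b
  have e1 := Finsupp.mapDomain_equiv_apply (f := cj σ) e b
  rw [e1]
  have e2 := h ((cj σ).symm b)
  have e3 : (((cj σ).symm b).1, σ ((cj σ).symm b).2) = b := (cj σ).apply_symm_apply b
  rw [e3] at e2
  exact e2.symm

theorem inv_of_mapDomain {σ : 𝔽 ≃+* 𝔽} {e : Blk 𝔽 →₀ ℤ} (he : e.mapDomain (cj σ) = e)
    (b : Blk 𝔽) : e (b.1, σ b.2) = e b := by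
  have e1 := Finsupp.mapDomain_equiv_apply (f := cj σ) e (cj σ b)
  rw [Equiv.symm_apply_apply, he] at e1
  exact e1

omit [Field 𝔽] in
theorem mapDomain_apply' (f : Blk 𝔽 → Blk 𝔽) (e : Blk 𝔽 →₀ ℤ) (c : Blk 𝔽) :
    (e.mapDomain f) c = e.sum fun b n => by
      classical exact if f b = c then n else 0 := by
  classical
  unfold Finsupp.mapDomain
  rw [Finsupp.sum_apply]
  refine Finsupp.sum_congr fun b _ => ?_
  rw [Finsupp.single_apply]

/-- Maps which commute with `σ` and preserve the periods preserve reality. -/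
theorem real_mapDomain {σ : 𝔽 ≃+* 𝔽} {e : Blk 𝔽 →₀ ℤ} (he : RealE σ e) (f : Blk 𝔽 → Blk 𝔽)
    (hf : ∀ b, f (cj σ b) = cj σ (f b)) (hp : ∀ b, per σ (f b).2 = per σ b.2) :
    RealE σ (e.mapDomain f) := by
  classical
  refine ⟨inv_of_mapDomain ?_, ?_⟩
  · have e1 : (cj σ : Blk 𝔽 → Blk 𝔽) ∘ f = f ∘ (cj σ : Blk 𝔽 → Blk 𝔽) := by
      funext b
      exact (hf b).symm
    rw [← Finsupp.mapDomain_comp, e1, Finsupp.mapDomain_comp, mapDomain_cj he.1]
  · intro c hc
    rw [mapDomain_apply']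
    refine Finset.even_sum _ fun b _ => ?_
    by_cases h : f b = c
    · simp only [h, if_true]
      refine he.2 b ?_
      rw [← hp b, h]
      exact hc
    · simp only [h, if_false]
      exact ⟨0, rfl⟩

theorem iterate_mul_fix (σ : 𝔽 ≃+* 𝔽) {c : 𝔽} (hc : σ c = c) (t : 𝔽) (n : ℕ) :
    σ^[n] (t * c) = σ^[n] t * c := by
  induction n with
  | zero => rfl
  | succ n ih => rw [Function.iterate_succ_apply', Function.iterate_succ_apply', ih, map_mul, hc]

theorem iterate_inv (σ : 𝔽 ≃+* 𝔽) (t : 𝔽) (n : ℕ) : σ^[n] t⁻¹ = (σ^[n] t)⁻¹ := by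
  induction n with
  | zero => rfl
  | succ n ih => rw [Function.iterate_succ_apply', Function.iterate_succ_apply', ih, map_inv₀]

theorem per_mul (σ : 𝔽 ≃+* 𝔽) {c : 𝔽} (h0 : c ≠ 0) (hc : σ c = c) (t : 𝔽) :
    per σ (t * c) = per σ t := by
  unfold per
  rw [Function.minimalPeriod_eq_minimalPeriod_iff]
  intro n
  unfold Function.IsPeriodicPt Function.IsFixedPt
  rw [iterate_mul_fix σ hc]
  exact mul_left_inj' h0

theorem per_inv (σ : 𝔽 ≃+* 𝔽) (t : 𝔽) : per σ t⁻¹ = per σ t := by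
  unfold per
  rw [Function.minimalPeriod_eq_minimalPeriod_iff]
  intro n
  unfold Function.IsPeriodicPt Function.IsFixedPt
  rw [iterate_inv]
  exact inv_inj

theorem fix_zpow (σ : 𝔽 ≃+* 𝔽) {c : 𝔽} (hc : σ c = c) (n : ℤ) : σ (c ^ n) = c ^ n := by
  rw [map_zpow₀, hc]

theorem real_add {σ : 𝔽 ≃+* 𝔽} {e e' : Blk 𝔽 →₀ ℤ} (he : RealE σ e) (he' : RealE σ e') :
    RealE σ (e + e') := by
  refine ⟨fun b => ?_, fun b hb => ?_⟩
  · rw [Finsupp.add_apply, Finsupp.add_apply, he.1, he'.1]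
  · rw [Finsupp.add_apply]
    exact (he.2 b hb).add (he'.2 b hb)

end ReAux

open ReAux

variable (𝔽)

/-- Module Re: reality under the steps. -/
theorem stRe : StRe 𝔽 := by
  intro σ e he
  refine ⟨fun c h0 hc => ?_, ?_, ?_, ?_⟩
  · refine real_mapDomain he _ (fun b => ?_) fun b => ?_
    · unfold al1
      refine Prod.ext rfl ?_
      change σ b.2 * c ^ (b.1.2 / gg b.1) = σ (b.2 * c ^ (b.1.2 / gg b.1))
      rw [map_mul, fix_zpow σ hc]
    · exact per_mul σ (zpow_ne_zero _ h0) (fix_zpow σ hc _) b.2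
  · exact real_mapDomain he _ (fun b => rfl) fun b => rfl
  · refine real_mapDomain he _ (fun b => ?_) fun b => per_inv σ b.2
    unfold alI
    refine Prod.ext rfl ?_
    exact (map_inv₀ σ b.2).symm
  · refine real_mapDomain he _ (fun b => ?_) fun b => per_inv σ b.2
    unfold alS
    refine Prod.ext rfl ?_
    exact (map_inv₀ σ b.2).symm

end QE
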