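import Pool.Agent.Lib.QE.Re

/-!
Project QE, module ReT: reality under the step `X ↦ ∏_{s ∈ T} (Y - s) X`.
-/

namespace QE

variable {𝔽 : Type} [Field 𝔽]

namespace ReTAux

open ReAux

/-! ### Sums over a configuration -/

omit [Field 𝔽] in
theorem tot_map (e : Blk 𝔽 →₀ ℤ) (F : Blk 𝔽 → Blk 𝔽) (f : Blk 𝔽 → ℤ) :
    tot (e.mapDomain F) f = tot e (fun b => f (F b)) := by
  unfold tot
  exact Finsupp.sum_mapDomain_index (fun _ => zero_mul _) (fun _ _ _ => add_mul _ _ _)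

theorem tot_cj {σ : 𝔽 ≃+* 𝔽} {e : Blk 𝔽 →₀ ℤ} (h : RealE σ e) (f : Blk 𝔽 → ℤ) :
    tot e (fun b => f (cj σ b)) = tot e f := by
  rw [← tot_map e (fun b => cj σ b) f]
  have h1 : e.mapDomain (fun b => cj σ b) = e := mapDomain_cj h.1
  rw [h1]

theorem sb_cj (σ : 𝔽 ≃+* 𝔽) (b : Blk 𝔽) : sb (cj σ b) = σ (sb b) := by
  unfold sb
  rw [cj_apply]
  split_ifs
  · exact (map_inv₀ σ b.2).symm
  · rfl

theorem per_sb (σ : 𝔽 ≃+* 𝔽) (b : Blk 𝔽) : per σ (sb b) = per σ b.2 := by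
  unfold sb
  split_ifs
  · exact per_inv σ b.2
  · rfl

theorem zz_cj (σ : 𝔽 ≃+* 𝔽) (s : 𝔽) (b : Blk 𝔽) : zz (σ s) (cj σ b) = zz s b := by
  have h2 : (sb (cj σ b) = σ s) ↔ sb b = s := by
    rw [sb_cj]
    exact σ.injective.eq_iff
  have h3 : ((cj σ b).1.2 = 0 ∧ (cj σ b).1.1 ≠ 0 ∧ sb (cj σ b) = σ s) ↔
      (b.1.2 = 0 ∧ b.1.1 ≠ 0 ∧ sb b = s) := by
    rw [h2]
    exact Iff.rfl
  unfold zz
  by_cases h4 : b.1.2 = 0 ∧ b.1.1 ≠ 0 ∧ sb b = s
  · rw [if_pos h4, if_pos (h3.2 h4)]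
    rfl
  · rw [if_neg h4, if_neg (fun h5 => h4 (h3.1 h5))]
    rfl

theorem tot_zz {σ : 𝔽 ≃+* 𝔽} {e : Blk 𝔽 →₀ ℤ} (h : RealE σ e) (s : 𝔽) :
    tot e (zz (σ s)) = tot e (zz s) := by
  rw [← tot_cj h (zz (σ s))]
  congr 1
  funext b
  exact zz_cj σ s b

/-! ### Periods -/

theorem iter_mem {σ : 𝔽 ≃+* 𝔽} {e : Blk 𝔽 →₀ ℤ} (h : RealE σ e) (b : Blk 𝔽) (n : ℕ) :
    e (b.1, σ^[n] b.2) = e b := by
  induction n with
  | zero => rfl
  | succ n ih =>
    rw [Function.iterate_succ_apply']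
    have h1 := h.1 (b.1, σ^[n] b.2)
    exact h1.trans ih

theorem per_pos {σ : 𝔽 ≃+* 𝔽} {e : Blk 𝔽 →₀ ℤ} (h : RealE σ e) {b : Blk 𝔽} (hb : e b ≠ 0) :
    0 < per σ b.2 := by
  have h1 : ¬ Function.Injective (fun n : ℕ => ((b.1, σ^[n] b.2) : Blk 𝔽)) := by
    intro hi
    have h2 : Set.Infinite (Set.range (fun n : ℕ => ((b.1, σ^[n] b.2) : Blk 𝔽))) :=
      Set.infinite_range_of_injective hi
    refine h2 (Set.Finite.subset e.support.finite_toSet ?_)
    rintro _ ⟨n, rfl⟩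
    rw [Finset.mem_coe, Finsupp.mem_support_iff]
    change e (b.1, σ^[n] b.2) ≠ 0
    rw [iter_mem h b n]
    exact hb
  have h3 : ∃ m n : ℕ, m < n ∧ σ^[m] b.2 = σ^[n] b.2 := by
    unfold Function.Injective at h1
    push Not at h1
    obtain ⟨m, n, h4, h5⟩ := h1
    have h6 : σ^[m] b.2 = σ^[n] b.2 := congrArg Prod.snd h4
    rcases lt_or_gt_of_ne h5 with h7 | h7
    · exact ⟨m, n, h7, h6⟩
    · exact ⟨n, m, h7, h6.symm⟩
  obtain ⟨m, n, h4, h5⟩ := h3
  have h6 : Function.IsPeriodicPt σ (n - m) b.2 := by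
    unfold Function.IsPeriodicPt Function.IsFixedPt
    have h7 : n = m + (n - m) := by omega
    rw [h7, Function.iterate_add_apply] at h5
    exact ((σ.injective.iterate m) h5).symm
  exact h6.minimalPeriod_pos (by omega)

/-- the half turn on the orbit of a block -/
noncomputable def half (σ : 𝔽 ≃+* 𝔽) (b : Blk 𝔽) : Blk 𝔽 := (b.1, σ^[per σ b.2 / 2] b.2)

theorem per_iter {σ : 𝔽 ≃+* 𝔽} {t : 𝔽} (ht : 0 < per σ t) (n : ℕ) :
    per σ (σ^[n] t) = per σ t :=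
  Function.minimalPeriod_apply_iterate (Function.minimalPeriod_pos_iff_mem_periodicPts.1 ht) n

theorem half_half {σ : 𝔽 ≃+* 𝔽} {b : Blk 𝔽} (hb : 0 < per σ b.2) (h2 : Even (per σ b.2)) :
    half σ (half σ b) = b := by
  unfold half
  refine Prod.ext rfl ?_
  change σ^[per σ (σ^[per σ b.2 / 2] b.2) / 2] (σ^[per σ b.2 / 2] b.2) = b.2
  rw [per_iter hb, ← Function.iterate_add_apply]
  obtain ⟨m, hm⟩ := h2
  have h3 : per σ b.2 / 2 + per σ b.2 / 2 = per σ b.2 := by omega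
  rw [h3]
  exact Function.iterate_minimalPeriod

theorem half_ne {σ : 𝔽 ≃+* 𝔽} {b : Blk 𝔽} (hb : 0 < per σ b.2) (h2 : Even (per σ b.2)) :
    half σ b ≠ b := by
  intro h
  have h3 : σ^[per σ b.2 / 2] b.2 = b.2 := congrArg Prod.snd h
  obtain ⟨m, hm⟩ := h2
  exact Function.not_isPeriodicPt_of_pos_of_lt_minimalPeriod (f := σ) (x := b.2)
    (n := per σ b.2 / 2) (by omega) (show per σ b.2 / 2 < per σ b.2 by omega) h3

/-- A sum of a `σ`-invariant weight over a real configuration is even. -/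
theorem even_tot {σ : 𝔽 ≃+* 𝔽} {e : Blk 𝔽 →₀ ℤ} (h : RealE σ e) (f : Blk 𝔽 → ℤ)
    (hf : ∀ (b : Blk 𝔽) (t : 𝔽), f (b.1, t) = f b) : Even (tot e f) := by
  classical
  have h2 : ((tot e f : ℤ) : ZMod 2) = 0 := by
    unfold tot
    rw [Finsupp.sum, Int.cast_sum]
    refine Finset.sum_involution
      (fun b _ => if Even (per σ b.2) then half σ b else b) ?_ ?_ ?_ ?_
    · intro b _
      by_cases hb : Even (per σ b.2)
      · simp only [hb, if_true]
        have h3 : e (half σ b) = e b := iter_mem h b _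
        have h4 : f (half σ b) = f b := hf b _
        rw [h3, h4]
        have h5 : ∀ x : ZMod 2, x + x = 0 := by decide
        exact h5 _
      · simp only [hb, if_false]
        have h5 : ∀ x : ZMod 2, x + x = 0 := by decide
        exact h5 _
    · intro b hbs hne
      have hpos := per_pos h (Finsupp.mem_support_iff.1 hbs)
      by_cases hb : Even (per σ b.2)
      · simp only [hb, if_true]
        exact half_ne hpos hb
      · exfalso
        apply hne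
        rw [Nat.not_even_iff_odd] at hb
        obtain ⟨m, hm⟩ := h.2 b hb
        rw [hm]
        push_cast
        have h5 : ∀ x y : ZMod 2, (x + x) * y = 0 := by decide
        exact h5 _ _
    · intro b hbs
      rw [Finsupp.mem_support_iff] at hbs ⊢
      by_cases hb : Even (per σ b.2)
      · simp only [hb, if_true]
        have h3 : e (half σ b) = e b := iter_mem h b _
        rw [h3]
        exact hbs
      · simp only [hb, if_false]
        exact hbs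
    · intro b hbs
      have hpos := per_pos h (Finsupp.mem_support_iff.1 hbs)
      by_cases hb : Even (per σ b.2)
      · simp only [hb, if_true]
        have h6 : Even (per σ (half σ b).2) := by
          have h7 : per σ (half σ b).2 = per σ b.2 := per_iter hpos _
          rw [h7]
          exact hb
        simp only [h6, if_true]
        exact half_half hpos hb
      · simp only [hb, if_false]
  rw [ZMod.intCast_zmod_eq_zero_iff_dvd] at h2
  exact (even_iff_two_dvd).2 (by exact_mod_cast h2)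

/-- the new coefficient is even for constants of odd period -/
theorem even_zz {σ : 𝔽 ≃+* 𝔽} {e : Blk 𝔽 →₀ ℤ} (h : RealE σ e) {s : 𝔽} (hs : Odd (per σ s)) :
    Even (tot e (zz s)) := by
  classical
  have h1 : tot e (zz s) = tot e (fun b => max 0 b.1.2) -
      tot e (fun b => if b.1.2 = 0 ∧ b.1.1 ≠ 0 ∧ sb b = s then 1 else 0) := by
    unfold tot Finsupp.sum
    rw [← Finset.sum_sub_distrib]
    refine Finset.sum_congr rfl fun b _ => ?_
    unfold zz
    rw [← mul_sub]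
  rw [h1]
  refine (even_tot h _ fun b t => rfl).sub ?_
  unfold tot Finsupp.sum
  refine Finset.even_sum _ fun b _ => ?_
  change Even (e b * (if b.1.2 = 0 ∧ b.1.1 ≠ 0 ∧ sb b = s then 1 else 0))
  split_ifs with h2
  · rw [mul_one]
    refine h.2 b ?_
    rw [← per_sb σ b, h2.2.2]
    exact hs
  · rw [mul_zero]
    exact ⟨0, rfl⟩

/-! ### Stable finite sets -/

theorem image_eq {σ : 𝔽 ≃+* 𝔽} {T : Finset 𝔽} (hT : ∀ s ∈ T, σ s ∈ T) :
    T.map σ.toEquiv.toEmbedding = T := by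
  refine Finset.eq_of_subset_of_card_le ?_ (by rw [Finset.card_map])
  intro t ht
  rw [Finset.mem_map] at ht
  obtain ⟨s, hs, rfl⟩ := ht
  exact hT s hs

theorem mem_iff {σ : 𝔽 ≃+* 𝔽} {T : Finset 𝔽} (hT : ∀ s ∈ T, σ s ∈ T) (s : 𝔽) :
    σ s ∈ T ↔ s ∈ T := by
  constructor
  · intro h
    rw [← image_eq hT, Finset.mem_map] at h
    obtain ⟨t, ht, h1⟩ := h
    have h2 : t = s := σ.injective h1
    rw [← h2]
    exact ht
  · exact hT s

theorem prod_fix {σ : 𝔽 ≃+* 𝔽} {T : Finset 𝔽} (hT : ∀ s ∈ T, σ s ∈ T) :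
    σ (∏ s ∈ T, (-s)) = ∏ s ∈ T, (-s) := by
  rw [map_prod]
  conv_rhs => rw [← image_eq hT]
  rw [Finset.prod_map]
  refine Finset.prod_congr rfl fun s _ => ?_
  exact map_neg σ s

theorem alT_cj {σ : 𝔽 ≃+* 𝔽} {T : Finset 𝔽} (hT : ∀ s ∈ T, σ s ∈ T) (b : Blk 𝔽) :
    alT T (cj σ b) = cj σ (alT T b) := by
  have h2 : (sb (cj σ b) ∈ T) ↔ sb b ∈ T := by
    rw [sb_cj]
    exact mem_iff hT _
  have h3 : ((cj σ b).1.1 ≠ 0 ∧ sb (cj σ b) ∈ T) ↔ (b.1.1 ≠ 0 ∧ sb b ∈ T) := by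
    rw [h2]
    exact Iff.rfl
  by_cases c1 : 0 < b.1.2
  · have c1' : 0 < (cj σ b).1.2 := c1
    unfold alT
    rw [if_pos c1, if_pos c1']
    refine Prod.ext rfl ?_
    change σ b.2 * (∏ s ∈ T, (-s)) ^ (b.1.2 / gg b.1) =
      σ (b.2 * (∏ s ∈ T, (-s)) ^ (b.1.2 / gg b.1))
    rw [map_mul, fix_zpow σ (prod_fix hT)]
  have c1' : ¬ 0 < (cj σ b).1.2 := c1
  by_cases c2 : b.1.2 < 0
  · have c2' : (cj σ b).1.2 < 0 := c2
    unfold alT
    rw [if_neg c1, if_neg c1', if_pos c2, if_pos c2']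
    rfl
  have c2' : ¬ (cj σ b).1.2 < 0 := c2
  by_cases c3 : b.1.1 ≠ 0 ∧ sb b ∈ T
  · unfold alT
    rw [if_neg c1, if_neg c1', if_neg c2, if_neg c2', if_pos c3, if_pos (h3.2 c3)]
    by_cases c4 : 0 < b.1.1 + 1
    · have c4' : 0 < (cj σ b).1.1 + 1 := c4
      rw [if_pos c4, if_pos c4', sb_cj, ← map_inv₀]
      rfl
    · have c4' : ¬ 0 < (cj σ b).1.1 + 1 := c4
      rw [if_neg c4, if_neg c4', sb_cj]
      rfl
  · unfold alT
    rw [if_neg c1, if_neg c1', if_neg c2, if_neg c2', if_neg c3,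
      if_neg (fun h5 => c3 (h3.1 h5))]

theorem per_alT {σ : 𝔽 ≃+* 𝔽} {T : Finset 𝔽} (h0 : ∀ s ∈ T, s ≠ 0) (hT : ∀ s ∈ T, σ s ∈ T)
    (b : Blk 𝔽) : per σ (alT T b).2 = per σ b.2 := by
  unfold alT
  split_ifs
  · refine per_mul σ (zpow_ne_zero _ ?_) (fix_zpow σ (prod_fix hT) _) b.2
    exact Finset.prod_ne_zero_iff.2 fun s hs => neg_ne_zero.2 (h0 s hs)
  · rfl
  · change per σ (sb b)⁻¹ = per σ b.2
    rw [per_inv, per_sb]
  · exact per_sb σ b
  · rfl

/-- the new blocks are real -/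
theorem real_new {σ : 𝔽 ≃+* 𝔽} {e : Blk 𝔽 →₀ ℤ} (h : RealE σ e) {T : Finset 𝔽}
    (hT : ∀ s ∈ T, σ s ∈ T) :
    RealE σ (∑ s ∈ T, Finsupp.single (((1, 0), s⁻¹) : Blk 𝔽) (tot e (zz s))) := by
  classical
  refine ⟨inv_of_mapDomain ?_, fun b hb => ?_⟩
  · rw [Finsupp.mapDomain_finsetSum]
    conv_rhs => rw [← image_eq hT]
    rw [Finset.sum_map]
    refine Finset.sum_congr rfl fun s _ => ?_
    rw [Finsupp.mapDomain_single]
    have h1 : cj σ ((1, 0), s⁻¹) = ((1, 0), (σ s)⁻¹) := by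
      rw [cj_apply]
      refine Prod.ext rfl ?_
      exact map_inv₀ σ s
    rw [h1]
    change Finsupp.single (((1, 0), (σ s)⁻¹) : Blk 𝔽) (tot e (zz s)) =
      Finsupp.single (((1, 0), (σ s)⁻¹) : Blk 𝔽) (tot e (zz (σ s)))
    rw [tot_zz h]
  · rw [Finsupp.finsetSum_apply]
    refine Finset.even_sum _ fun s _ => ?_
    rw [Finsupp.single_apply]
    split_ifs with h1
    · refine even_zz h ?_
      rw [← per_inv σ s]
      have h2 : s⁻¹ = b.2 := congrArg Prod.snd h1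
      rw [h2]
      exact hb
    · exact ⟨0, rfl⟩

end ReTAux

open ReTAux ReAux

variable (𝔽)

/-- Module ReT: reality under the step `X ↦ ∏_{s ∈ T} (Y - s) X`. -/
theorem stReT : StReT 𝔽 := by
  intro σ e he T h0 hT
  exact real_add (real_mapDomain he _ (alT_cj hT) (per_alT h0 hT)) (real_new he hT)

end QE
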