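import Pool.Agent.Lib.QE.CSt

set_option autoImplicit false

/-!
Project QE, module ReachInd: reachable pairs are independent.
-/

open Polynomial

namespace QE

variable {𝔽 : Type} [Field 𝔽]

namespace ReachIndAux

variable {E : Type} [Field E] [Algebra 𝔽 E]

theorem step (H : StInd 𝔽) {X Y : E} {P Q : 𝔽[X]} (hP : P ≠ 0) (hQ : Q ≠ 0) (h : Ind 𝔽 X Y) :
    Ind 𝔽 (aeval Y P / aeval Y Q * X) Y := by
  have h1 := (H E X Y h).2.1
  obtain ⟨-, h2⟩ := (H E X⁻¹ Y h1).2.2.2.1 _ hQ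
  have h3 := (H E _ Y h2).2.1
  obtain ⟨-, h4⟩ := (H E _ Y h3).2.2.2.1 _ hP
  rw [mul_inv, inv_inv, ← mul_assoc, ← div_eq_mul_inv] at h4
  exact h4

end ReachIndAux

open ReachIndAux

theorem stReachInd (H : StInd 𝔽) : StReachInd 𝔽 := by
  intro E _ _ σ X0 Y0 X Y h0 h
  induction h with
  | base => exact h0
  | stepX X Y P Q hP hQ _ _ _ ih => exact step H hP hQ ih
  | stepY X Y P Q hP hQ _ _ _ ih =>
    exact (H E _ _ (step H hP hQ (H E _ _ ih).1)).1
  | inv X Y _ ih =>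
    have h1 := (H E _ _ ih).2.1
    have h2 := (H E _ _ h1).1
    have h3 := (H E _ _ h2).2.1
    exact (H E _ _ h3).1

end QE
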