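import Pool.Agent.Lib.QE.St2

/-!
Project QE: from the class of pairs `(k, q)` to a place with values in an algebraically closed field
with an automorphism.
-/

set_option autoImplicit false

namespace QE

open Polynomial QD

theorem stSig : StSig := by
  intro k _ q hkq
  obtain ⟨O, hq, hres, h2, d, hd, hd1⟩ := hkq
  let F := IsLocalRing.ResidueField O
  let E := AlgebraicClosure F
  -- the square root
  obtain ⟨r, hr⟩ : ∃ r : E, r ^ 2 = algebraMap F E d := by
    obtain ⟨r, hr⟩ := IsAlgClosed.exists_pow_nat_eq (algebraMap F E d) (n := 2) (by norm_num)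
    exact ⟨r, hr⟩
  have hinj : Function.Injective (algebraMap F E) := (algebraMap F E).injective
  have hd0 : d ≠ 0 := by
    rintro rfl
    exact hd ⟨0, by simp⟩
  have hrF : ∀ s : F, algebraMap F E s ≠ r := by
    intro s hs
    apply hd
    refine ⟨s, hinj ?_⟩
    rw [map_mul, hs, ← hr, sq]
  have hmon : (X ^ 2 - C d : F[X]).Monic := monic_X_pow_sub_C d (by norm_num)
  have hdeg : (X ^ 2 - C d : F[X]).natDegree = 2 := natDegree_X_pow_sub_C
  have hirr : Irreducible (X ^ 2 - C d : F[X]) := by
    rw [hmon.irreducible_iff_roots_eq_zero_of_degree_le_three (by rw [hdeg]) (by rw [hdeg]; norm_num)]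
    rw [Multiset.eq_zero_iff_forall_notMem]
    intro s hs
    rw [mem_roots hmon.ne_zero] at hs
    simp only [IsRoot.def, eval_sub, eval_pow, eval_X, eval_C] at hs
    exact hd ⟨s, by rw [← sq]; linear_combination -hs⟩
  have hm1 : minpoly F r = X ^ 2 - C d := by
    symm
    refine minpoly.eq_of_irreducible_of_monic hirr ?_ hmon
    simp [hr]
  have hm2 : minpoly F (-r) = X ^ 2 - C d := by
    symm
    refine minpoly.eq_of_irreducible_of_monic hirr ?_ hmon
    simp [hr]
  have hconj : IsConjRoot F r (-r) := by
    rw [isConjRoot_def, hm1, hm2]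
  obtain ⟨σ, hσ'⟩ := isConjRoot_iff_exists_algEquiv.1 hconj
  have hσ : σ r = -r := by
    rw [map_neg] at hσ'
    linear_combination -hσ'
  -- the parameter
  obtain ⟨a0, ha0⟩ := IsLocalRing.residue_surjective (R := O) (-d)
  have hau : IsUnit a0 := by
    rw [← IsLocalRing.residue_ne_zero_iff_isUnit, ha0]
    simpa using hd0
  have ha0k : (a0 : k) ≠ 0 := by
    intro h
    have : a0 = 0 := Subtype.ext h
    exact hau.ne_zero this
  let R : SPlace k σ.toRingEquiv q :=
    { O := O
      ρ := (algebraMap F E).comp (IsLocalRing.residue O)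
      fix := fun a => σ.commutes _
      loc := fun a ha => by
        rw [← IsLocalRing.residue_ne_zero_iff_isUnit]
        intro h
        apply ha
        rw [RingHom.comp_apply, h, map_zero]
      hq := hq
      one := by rw [RingHom.comp_apply, hres, map_one] }
  refine ⟨E, inferInstance, inferInstance, σ.toRingEquiv, R, Units.mk0 (a0 : k) ha0k, r, ?_⟩
  refine ⟨?_, ?_, hσ, ⟨a0.2, ?_⟩, ?_, ?_⟩
  · intro h
    apply h2
    apply hinj
    rw [map_zero, map_ofNat]
    exact h
  · rintro rfl
    exact hrF 0 (map_zero _)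
  · show (algebraMap F E) (IsLocalRing.residue O a0) = -r ^ 2
    rw [ha0, map_neg, hr]
  · intro h
    rw [hr] at h
    apply hd1
    apply hinj
    rw [map_neg, map_one]
    linear_combination -h
  · intro h
    rw [hr] at h
    apply hd
    refine ⟨1, hinj ?_⟩
    rw [mul_one, map_one]
    linear_combination -h

end QE
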