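import Pool.Agent.Lib.QE.CSt

/-!
Project QE, module T: the step `X ↦ ∏_{s ∈ T} (Y - s) X`.
-/

namespace QE

variable (𝔽 : Type) [Field 𝔽]

open Polynomial

namespace TAux

variable {𝔽}

theorem ind_sub (hInd : StInd 𝔽) {M : Type} [Field M] [Algebra 𝔽 M] {X Y : M} (h : Ind 𝔽 X Y)
    (s : 𝔽) : Ind 𝔽 ((Y - algebraMap 𝔽 M s) * X) Y := by
  have h1 := (hInd M X Y h).2.2.2.1 (Polynomial.X - C s) (X_sub_C_ne_zero s)
  have h2 : aeval Y (Polynomial.X - C s : 𝔽[X]) = Y - algebraMap 𝔽 M s := by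
    simp
  rw [h2] at h1
  exact h1.2

end TAux

theorem stT (hAT : StAT 𝔽) (hA3 : StA3 𝔽) (hTB : StTB 𝔽) (hQ3 : StQ3 𝔽) (hInd : StInd 𝔽) :
    StT 𝔽 := by
  classical
  intro T e hT htok hbal
  induction T using Finset.induction_on with
  | empty =>
    rw [hAT.1 e]
    refine ⟨htok, hbal, rfl, rfl, ?_⟩
    intro M _ _ Pl X Y h
    rw [Finset.prod_empty, one_mul]
    exact ⟨h, rfl⟩
  | insert s T hs ih =>
    have hs0 : s ≠ 0 := hT s (Finset.mem_insert_self s T)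
    have hT' : ∀ u ∈ T, u ≠ 0 := fun u hu => hT u (Finset.mem_insert_of_mem hu)
    obtain ⟨h1, h2, h3, h4, h5⟩ := ih hT'
    have hact := hAT.2 T s e hs hs0 hT'
    rw [hact]
    obtain ⟨t1, t2, t3⟩ := (hTB (actT T e) h1 h2).2.2.1 s hs0
    refine ⟨t1, t2, t3.trans h3, (hQ3 (actT T e) s hs0 h1 h2).trans h4, ?_⟩
    intro M _ _ Pl X Y h
    obtain ⟨h6, h7⟩ := h5 M Pl X Y h
    rw [Finset.prod_insert hs, mul_assoc]
    refine ⟨TAux.ind_sub hInd h6 s, ?_⟩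
    rw [hA3 M Pl _ Y (actT T e) s hs0 h6 h1 h2]
    exact h7

end QE
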