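import Pool.Agent.Lib.QE.CSt

/-!
Project QD: module TB, `TOk`, `Bal` and the widths under the actions.
-/

set_option autoImplicit false

namespace QE

variable {𝔽 : Type} [Field 𝔽]

namespace TBAux

lemma tot_mapDomain (φ : (Blk 𝔽) → (Blk 𝔽)) (e : (Blk 𝔽) →₀ ℤ) (f : (Blk 𝔽) → ℤ) :
    tot (e.mapDomain φ) f = tot e fun b => f (φ b) := by
  unfold tot
  exact Finsupp.sum_mapDomain_index (fun _ => zero_mul _) (fun _ _ _ => add_mul _ _ _)

lemma tot_add (e e' : (Blk 𝔽) →₀ ℤ) (f : (Blk 𝔽) → ℤ) : tot (e + e') f = tot e f + tot e' f := by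
  unfold tot
  exact Finsupp.sum_add_index' (fun _ => zero_mul _) (fun _ _ _ => add_mul _ _ _)

lemma tot_single (b : (Blk 𝔽)) (n : ℤ) (f : (Blk 𝔽) → ℤ) : tot (Finsupp.single b n) f = n * f b := by
  unfold tot
  exact Finsupp.sum_single_index (zero_mul _)

lemma tot_fadd (e : (Blk 𝔽) →₀ ℤ) (f g : (Blk 𝔽) → ℤ) :
    tot e (fun b => f b + g b) = tot e f + tot e g := by
  unfold tot
  rw [← Finsupp.sum_add]
  exact Finsupp.sum_congr fun b _ => mul_add _ _ _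

lemma tot_fneg (e : (Blk 𝔽) →₀ ℤ) (f : (Blk 𝔽) → ℤ) : tot e (fun b => -f b) = -tot e f := by
  unfold tot
  rw [Finsupp.sum, Finsupp.sum, ← Finset.sum_neg_distrib]
  exact Finset.sum_congr rfl fun b _ => mul_neg _ _

lemma tot_zero (e : (Blk 𝔽) →₀ ℤ) : tot e (fun _ => 0) = 0 := by
  unfold tot
  rw [Finsupp.sum]
  exact Finset.sum_eq_zero fun b _ => mul_zero _

lemma tok_mapDomain (φ : (Blk 𝔽) → (Blk 𝔽)) (e : (Blk 𝔽) →₀ ℤ) (he : TOk e)
    (h : ∀ b : (Blk 𝔽), (b.1 ≠ 0 → b.2 ≠ 0) → (φ b).1 ≠ 0 → (φ b).2 ≠ 0) : TOk (e.mapDomain φ) := by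
  classical
  intro b hb
  have h1 := Finsupp.mapDomain_support hb
  rw [Finset.mem_image] at h1
  obtain ⟨c, hc, rfl⟩ := h1
  exact h c (he c hc)

lemma tok_add (e e' : (Blk 𝔽) →₀ ℤ) (he : TOk e) (he' : TOk e') : TOk (e + e') := by
  classical
  intro b hb
  rcases Finset.mem_union.1 (Finsupp.support_add hb) with h | h
  · exact he b h
  · exact he' b h

lemma tok_single (b : (Blk 𝔽)) (n : ℤ) (h : b.1 ≠ 0 → b.2 ≠ 0) : TOk (Finsupp.single b n) := by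
  intro c hc
  have h1 := Finsupp.support_single_subset hc
  rw [Finset.mem_singleton] at h1
  rw [h1]
  exact h

lemma ne_of_snd {b : ℤ × ℤ} (h : b.2 ≠ 0) : b ≠ 0 := by
  rintro rfl
  exact h rfl

lemma al3_snd (s : 𝔽) (b : (Blk 𝔽)) : (al3 s b).1.2 = b.1.2 := by
  unfold al3
  split_ifs with h1 h2 h3
  · rfl
  · rfl
  · exact (le_antisymm (not_lt.1 h1) (not_lt.1 h2)).symm
  · exact (le_antisymm (not_lt.1 h1) (not_lt.1 h2)).symm
  · rfl

lemma al3_fst (s : 𝔽) (b : (Blk 𝔽)) : (al3 s b).1.1 + zz s b = b.1.1 + b.1.2 := by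
  unfold al3 zz
  by_cases h1 : 0 < b.1.2
  · rw [if_pos h1, if_neg (fun h => h1.ne' h.1), max_eq_right h1.le, sub_zero]
  · rw [if_neg h1, max_eq_left (not_lt.1 h1)]
    by_cases h2 : b.1.2 < 0
    · rw [if_pos h2, if_neg (fun h => h2.ne h.1)]
      simp
    · have h0 : b.1.2 = 0 := le_antisymm (not_lt.1 h1) (not_lt.1 h2)
      rw [if_neg h2]
      by_cases h3 : b.1.1 ≠ 0 ∧ sb b = s
      · rw [if_pos h3, if_pos (show b.1.2 = 0 ∧ b.1.1 ≠ 0 ∧ sb b = s from ⟨h0, h3⟩), h0]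
        simp
      · rw [if_neg h3, if_neg (fun h => h3 h.2), h0]
        simp

lemma al3_tok (s : 𝔽) (hs : s ≠ 0) (b : (Blk 𝔽)) (hb : b.1 ≠ 0 → b.2 ≠ 0) (h : (al3 s b).1 ≠ 0) :
    (al3 s b).2 ≠ 0 := by
  unfold al3 at h ⊢
  split_ifs at h ⊢ with h1 h2 h3 h4
  · exact mul_ne_zero (hb (ne_of_snd h1.ne')) (zpow_ne_zero _ (neg_ne_zero.2 hs))
  · exact hb (ne_of_snd h2.ne)
  · exact inv_ne_zero hs
  · exact hs
  · exact hb h

end TBAux

open TBAux in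
/-- F0. -/
theorem stTB : StTB 𝔽 := by
  intro e ht hb
  obtain ⟨b1, b2⟩ := hb
  refine ⟨fun c hc => ⟨?_, ⟨?_, ?_⟩, ?_⟩, ⟨?_, ⟨?_, ?_⟩, ?_⟩, fun s hs => ⟨?_, ⟨?_, ?_⟩, ?_⟩,
    ⟨?_, ⟨?_, ?_⟩, ?_⟩, ⟨?_, ⟨?_, ?_⟩, ?_⟩⟩
  · exact tok_mapDomain _ _ ht fun b h h1 => mul_ne_zero (h h1) (zpow_ne_zero _ hc)
  · rw [act1, tot_mapDomain]
    exact b1
  · rw [act1, tot_mapDomain]
    exact b2
  · rw [aW, act1, tot_mapDomain]
    rfl
  · refine tok_mapDomain _ _ ht fun b h h1 => h ?_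
    rintro h2
    apply h1
    have e1 : b.1.1 = 0 := congrArg Prod.fst h2
    have e2 : b.1.2 = 0 := congrArg Prod.snd h2
    change (b.1.1 + b.1.2, b.1.2) = 0
    rw [e1, e2]
    rfl
  · rw [act2, tot_mapDomain]
    change tot e (fun b => b.1.1 + b.1.2) = 0
    rw [tot_fadd, b1, b2, add_zero]
  · rw [act2, tot_mapDomain]
    exact b2
  · rw [aW, act2, tot_mapDomain]
    rfl
  · exact tok_add _ _ (tok_mapDomain _ _ ht (al3_tok s hs)) (tok_single _ _ fun _ => inv_ne_zero hs)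
  · rw [act3, tot_add, tot_mapDomain, tot_single]
    change tot e (fun b => (al3 s b).1.1) + tot e (zz s) * 1 = 0
    rw [mul_one, ← tot_fadd]
    simp only [al3_fst]
    rw [tot_fadd, b1, b2, add_zero]
  · rw [act3, tot_add, tot_mapDomain, tot_single]
    simp only [al3_snd]
    rw [b2]
    simp
  · rw [aW, act3, tot_add, tot_mapDomain, tot_single]
    simp only [al3_snd]
    rw [aW]
    simp
  · refine tok_mapDomain _ _ ht fun b h h1 => inv_ne_zero (h ?_)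
    rintro h2
    apply h1
    have e1 : b.1.1 = 0 := congrArg Prod.fst h2
    have e2 : b.1.2 = 0 := congrArg Prod.snd h2
    change (-b.1.1, b.1.2) = 0
    rw [e1, e2]
    rfl
  · rw [actI, tot_mapDomain]
    change tot e (fun b => -b.1.1) = 0
    rw [tot_fneg, b1, neg_zero]
  · rw [actI, tot_mapDomain]
    exact b2
  · rw [aW, actI, tot_mapDomain]
    rfl
  · refine tok_mapDomain _ _ ht fun b h h1 => inv_ne_zero (h ?_)
    rintro h2
    apply h1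
    have e1 : b.1.1 = 0 := congrArg Prod.fst h2
    have e2 : b.1.2 = 0 := congrArg Prod.snd h2
    change (b.1.2, b.1.1) = 0
    rw [e1, e2]
    rfl
  · rw [actS, tot_mapDomain]
    exact b2
  · rw [actS, tot_mapDomain]
    exact b1
  · rw [aW, actS, tot_mapDomain]
    rfl

end QE
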