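import Pool.Agent.Lib.QE.Defs
import Pool.Agent.Lib.QE.St
import Pool.Agent.Lib.QD.ThLead

/-!
Project QE, module ThLead: leading terms of the quantum quintic with parameter.
-/

namespace QE

open Polynomial QD

namespace ThLeadAux

open QD.ThLeadAux

variable {k : Type} [Field k]

theorem lin_ne2 (a b : k) (ha : a ≠ 0) :
    algebraMap k (RatFunc k) a * (RatFunc.X : RatFunc k) + algebraMap k (RatFunc k) b * RatFunc.X⁻¹ ≠ 0 := by
  have hca : algebraMap k (RatFunc k) a ≠ 0 :=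
    (map_ne_zero_iff _ (FaithfulSMul.algebraMap_injective k (RatFunc k))).mpr ha
  have e : algebraMap k (RatFunc k) a * (RatFunc.X : RatFunc k) + algebraMap k (RatFunc k) b * RatFunc.X⁻¹ =
      algebraMap k (RatFunc k) a * (RatFunc.X + algebraMap k (RatFunc k) (b * a⁻¹) * RatFunc.X⁻¹) := by
    rw [map_mul, map_inv₀]
    field_simp
  rw [e]
  exact mul_ne_zero hca (lin_ne _)

end ThLeadAux

open ThLeadAux QD.ThLeadAux

/-- Module ThLead. -/
theorem stThLead (h : QD.StLead) : StThLead := by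
  intro k _ q a K _ _ S xK yK X Y hq hcx hcy hQ
  obtain ⟨hn0, hX, hY⟩ := hQ
  obtain ⟨hmul, hadd, hneg, hinv, hex, hlt, hcon⟩ := h k (RatFunc k) (sg q) K S
  have hq0 : (q : k) ≠ 0 := q.ne_zero
  have ha0 : (a : k) ≠ 0 := a.ne_zero
  have hXne : (RatFunc.X : RatFunc k) ≠ 0 := RatFunc.X_ne_zero
  set c : k →+* RatFunc k := algebraMap k (RatFunc k) with hc
  have cne : ∀ a : k, a ≠ 0 → c a ≠ 0 := fun a ha => by
    rw [hc]
    exact (map_ne_zero_iff _ (FaithfulSMul.algebraMap_injective k (RatFunc k))).mpr ha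
  have hx : HasLead S xK 1 1 := by
    refine ⟨fun i hi => ?_, ?_⟩
    · rw [hcx, Pi.single_eq_of_ne (ne_of_lt hi)]
    · rw [hcx, Pi.single_eq_same]
  have hy : HasLead S yK 0 RatFunc.X := by
    refine ⟨fun i hi => ?_, ?_⟩
    · rw [hcy, Pi.single_eq_of_ne (ne_of_lt hi)]
    · rw [hcy, Pi.single_eq_same]
  have hxi : HasLead S xK⁻¹ (-1) 1 := by
    have e := (hinv xK 1 1 hx one_ne_zero).2
    rwa [inv_one, map_one] at e
  have hyi : HasLead S yK⁻¹ 0 RatFunc.X⁻¹ := by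
    have e := (hinv yK 0 RatFunc.X hy hXne).2
    rwa [neg_zero, zpow_zero, AlgEquiv.one_apply] at e
  have hcm : ∀ (a : k) (f : K) (n : ℤ) (b : RatFunc k), HasLead S f n b →
      HasLead S (algebraMap k K a * f) n (c a * b) := by
    intro a f n b hf
    have t := hmul _ _ _ _ _ _ (hcon a) hf
    rw [zero_add, zpow_zero, AlgEquiv.one_apply] at t
    exact t
  -- `L`
  set l : RatFunc k := c a * RatFunc.X + c q * RatFunc.X⁻¹ with hl
  have hlne : l ≠ 0 := lin_ne2 (a : k) (q : k) ha0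
  have hL : HasLead S (LA a xK yK) (-1) l := by
    have t1 := hmul _ _ _ _ _ _ hxi hyi
    have t2 := hlt _ _ (-1) _ (hmul _ _ _ _ _ _ hx hyi) (by norm_num)
    have t3 := hmul _ _ _ _ _ _ hy hxi
    have e1 : (sg q ^ (-1 : ℤ)) (RatFunc.X : RatFunc k)⁻¹ = c q * RatFunc.X⁻¹ := by
      rw [map_inv₀, sgz_X, mul_inv, ← map_inv₀, zpow_neg_one, inv_inv]
    rw [e1, one_mul, add_zero] at t1
    rw [zero_add, zpow_zero, AlgEquiv.one_apply, mul_one] at t3
    have t := hadd _ _ _ _ _ t1 (hcm (a : k) _ _ _ (hadd _ _ _ _ _ t2 t3))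
    rw [zero_add, add_comm (c q * RatFunc.X⁻¹)] at t
    exact t
  set l' : RatFunc k := (sg q ^ (-1 : ℤ)) l with hl'
  have hl'ne : l' ≠ 0 := by
    rw [hl']
    exact (map_ne_zero_iff _ (sg q ^ (-1 : ℤ)).injective).mpr hlne
  have hl'e : l' = c ((a : k) * (q : k)⁻¹) * RatFunc.X + c ((q : k) ^ 2) * RatFunc.X⁻¹ := by
    rw [hl', hl, map_add, map_mul, map_mul, map_inv₀, sgz_X, AlgEquiv.commutes, AlgEquiv.commutes,
      zpow_neg_one, mul_inv, ← map_inv₀, inv_inv, ← mul_assoc, ← mul_assoc, ← map_mul, ← map_mul,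
      pow_two]
  have hLL : HasLead S (LA a xK yK ^ 2) (-2) (l * l') := by
    have t := hmul _ _ _ _ _ _ hL hL
    rw [pow_two]
    have e : (-1 : ℤ) + -1 = -2 := by norm_num
    rw [e] at t
    exact t
  have hK : ∀ a : k, HasLead S (algebraMap k K a) (-2) 0 := fun a =>
    hlt _ _ _ _ (hcon a) (by norm_num)
  -- `n`
  have hn : HasLead S (qn q a xK yK) (-2) (c ((q : k) ^ 2) * (l * l')) := by
    have t := hadd _ _ _ _ _ (hcm ((q : k) ^ 2) _ _ _ hLL) (hK ((a : k) * (1 - (q : k) ^ 2 * a) ^ 2))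
    rw [add_zero] at t
    exact t
  have hNne : c ((q : k) ^ 2) * (l * l') ≠ 0 :=
    mul_ne_zero (cne _ (pow_ne_zero 2 hq0)) (mul_ne_zero hlne hl'ne)
  have hsub : ∀ (f : K) (n : ℤ) (b : RatFunc k) (z : k), HasLead S f n b → n < 0 →
      HasLead S (f - algebraMap k K z) n b := by
    intro f n b z hf hn'
    have t := hadd _ _ _ _ _ hf (hneg _ _ _ (hlt _ _ n _ (hcon z) hn'))
    rw [neg_zero, add_zero, ← sub_eq_add_neg] at t
    exact t
  have h1 : HasLead S (qa1 q a xK yK) (-2) (c ((q : k) * ((a⁻¹ : kˣ) : k)) * (l * l')) :=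
    hcm _ _ _ _ (hsub _ _ _ _ hLL (by norm_num))
  have h2 : HasLead S (qa2 q a xK yK) (-1) (c ((q : k) * (1 - (q : k) ^ 2 * (a : k) ^ 2)) * l) :=
    hcm _ _ _ _ hL
  have h3 : HasLead S (qa3 q a xK yK) (-2) (c ((q : k) * a) * (c ((q : k) ^ 2) * (l * l'))) :=
    hcm _ _ _ _ (hsub _ _ _ _ (hcm ((q : k) ^ 2) _ _ _ hLL) (by norm_num))
  have hni := (hinv _ _ _ hn hNne).2
  have hX' : X = (qn q a xK yK)⁻¹ * (qa3 q a xK yK * xK + qa2 q a xK yK * yK) := by
    rw [← hX, ← mul_assoc, inv_mul_cancel₀ hn0, one_mul]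
  have hY' : Y = (qn q a xK yK)⁻¹ * (qa1 q a xK yK * yK - qa2 q a xK yK * xK) := by
    rw [← hY, ← mul_assoc, inv_mul_cancel₀ hn0, one_mul]
  refine ⟨?_, ?_⟩
  · have t1 := hmul _ _ _ _ _ _ h1 hy
    have t2 := hneg _ _ _ (hlt _ _ (-2) _ (hmul _ _ _ _ _ _ h2 hx) (by norm_num))
    rw [add_zero] at t1
    have t3 := hadd _ _ _ _ _ t1 t2
    rw [← sub_eq_add_neg, neg_zero, add_zero] at t3
    have t4 := hmul _ _ _ _ _ _ hni t3
    rw [← hY', neg_add_cancel, ← map_mul] at t4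
    have e : (sg q ^ (- -2 : ℤ)) ((c ((q : k) ^ 2) * (l * l'))⁻¹ *
        (c ((q : k) * ((a⁻¹ : kˣ) : k)) * (l * l') * (sg q ^ (-2 : ℤ)) RatFunc.X)) =
          c (((q * a)⁻¹ : kˣ) : k) * RatFunc.X := by
      have e1 : (c ((q : k) ^ 2) * (l * l'))⁻¹ *
        (c ((q : k) * ((a⁻¹ : kˣ) : k)) * (l * l') * (sg q ^ (-2 : ℤ)) RatFunc.X) =
          c (((q * a)⁻¹ : kˣ) : k) * (sg q ^ (-2 : ℤ)) RatFunc.X := by
        have hc3 := cne _ hq0
        have hc4 := cne _ ha0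
        rw [Units.val_inv_eq_inv_val, Units.val_inv_eq_inv_val, Units.val_mul]
        simp only [map_mul, map_pow, map_inv₀]
        field_simp
      rw [e1, map_mul, AlgEquiv.commutes]
      congr 1
      rw [← AlgEquiv.mul_apply, ← zpow_add]
      norm_num
    rw [e] at t4
    exact t4
  · have t1 := hmul _ _ _ _ _ _ h3 hx
    have t2 := hmul _ _ _ _ _ _ h2 hy
    rw [map_one, mul_one] at t1
    have e0 : (-2 : ℤ) + 1 = -1 := by norm_num
    rw [e0] at t1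
    rw [add_zero] at t2
    have t3 := hadd _ _ _ _ _ t1 t2
    have e : c ((q : k) * a) * (c ((q : k) ^ 2) * (l * l')) +
        c ((q : k) * (1 - (q : k) ^ 2 * (a : k) ^ 2)) * l * (sg q ^ (-1 : ℤ)) RatFunc.X =
        l * (RatFunc.X + c ((a : k) * (q : k) ^ 5) * RatFunc.X⁻¹) := by
      have hcq := cne _ hq0
      rw [hl'e, sgz_X, zpow_neg_one]
      change _ + c _ * l * (c _ * _) = _
      simp only [map_mul, map_pow, map_sub, map_one, map_inv₀]
      field_simp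
      ring
    rw [e] at t3
    have hne : l * (RatFunc.X + c ((a : k) * (q : k) ^ 5) * RatFunc.X⁻¹) ≠ 0 :=
      mul_ne_zero hlne (lin_ne _)
    have t4 := hmul _ _ _ _ _ _ hni t3
    rw [← hX'] at t4
    have e2 : - -2 + -1 = (1 : ℤ) := by norm_num
    rw [e2] at t4
    refine ⟨_, ?_, t4⟩
    refine mul_ne_zero ?_ ?_
    · exact (map_ne_zero_iff _ (sg q ^ (- -2 : ℤ)).injective).mpr (inv_ne_zero hNne)
    · exact (map_ne_zero_iff _ (sg q ^ (- -2 : ℤ)).injective).mpr hne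

end QE
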