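import Pool.Agent.Lib.QE.St
import Pool.Agent.Lib.QE.CSt

/-!
Project QE, module ThRes: residues of the quantum quintic with parameter `a`.
-/

namespace QE

open Polynomial QD

namespace ThResAux

section nonzero

variable {𝔽 E : Type} [Field 𝔽] [Field E]

theorem mon_add (ρ : 𝔽 →+* E) (x y : E) (s t : ℕ × ℕ →₀ 𝔽) :
    mon ρ x y (s + t) = mon ρ x y s + mon ρ x y t := by
  unfold mon
  rw [Finsupp.sum_add_index']
  · intro a
    rw [map_zero, zero_mul]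
  · intro a b c
    rw [map_add, add_mul]

theorem mon_single (ρ : 𝔽 →+* E) (x y : E) (i j : ℕ) (a : 𝔽) :
    mon ρ x y (Finsupp.single (i, j) a) = ρ a * (y ^ i * x ^ j) := by
  unfold mon
  rw [Finsupp.sum_single_index]
  rw [map_zero, zero_mul]

/-- A polynomial with a nonzero constant term does not vanish at an independent pair. -/
theorem ne_zero (ρ : 𝔽 →+* E) (X Y : E) (h : ∀ s : ℕ × ℕ →₀ 𝔽, s ≠ 0 →
    mon ρ X Y s ≠ 0) (c0 c1 c2 c3 c4 c5 : 𝔽) (hc : c0 ≠ 0) :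
    ρ c0 + ρ c1 * X ^ 2 + ρ c2 * Y ^ 2 + ρ c3 * X ^ 4 + ρ c4 * (X ^ 2 * Y ^ 2) +
      ρ c5 * Y ^ 4 ≠ 0 := by
  have h1 := h (Finsupp.single (0, 0) c0 + Finsupp.single (0, 2) c1 +
    Finsupp.single (2, 0) c2 + Finsupp.single (0, 4) c3 +
    Finsupp.single (2, 2) c4 + Finsupp.single (4, 0) c5) (by
      intro h0
      have h1 := DFunLike.congr_fun h0 (0, 0)
      simp only [Finsupp.add_apply, Finsupp.single_apply, Finsupp.zero_apply] at h1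
      norm_num at h1
      exact hc h1)
  simp only [mon_add, mon_single] at h1
  intro h2
  apply h1
  rw [← h2]
  ring

end nonzero

section place

variable {k D 𝔽 E : Type} [Field k] [DivisionRing D] [Algebra k D] [Field 𝔽] [Field E]
  [Algebra 𝔽 E] {O : ValuationSubring k} {ρ : O →+* 𝔽} {x y : D} {X Y : E}
  (V : QPlace O ρ x y X Y)

include V

theorem con' (a : O) (c : k) (s : 𝔽) (h : (a : k) = c) (hr : ρ a = s) :
    V.rel (algebraMap k D c) (algebraMap 𝔽 E s) := by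
  have h1 := V.con a
  rw [h, hr] at h1
  exact h1

theorem neg' {d : D} {e : E} (h : V.rel d e) : V.rel (-d) (-e) := by
  have h1 := con' V (-1) (-1) (-1) (by simp) (by simp)
  have h2 := V.mul _ _ _ _ h1 h
  simpa using h2

theorem sub' {d d' : D} {e e' : E} (h : V.rel d e) (h' : V.rel d' e') :
    V.rel (d - d') (e - e') := by
  rw [sub_eq_add_neg, sub_eq_add_neg]
  exact V.add _ _ _ _ h (neg' V h')

theorem sq' {d : D} {e : E} (h : V.rel d e) : V.rel (d ^ 2) (e ^ 2) := by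
  rw [sq, sq]
  exact V.mul _ _ _ _ h h

end place

end ThResAux

open ThResAux in
/-- Module ThRes. -/
theorem stThRes (hInd : ∀ (𝔽 : Type) [Field 𝔽], StInd 𝔽) : StThRes := by
  intro k D 𝔽 E _ _ _ _ _ _ σ q a x y R r X Y hQD hq hXY hG V X₁ Y₁ ⟨hn, hX₁, hY₁⟩
  obtain ⟨hYX, _, hX0, _, _, hmon⟩ := hInd 𝔽 E X Y hXY
  obtain ⟨_, _, hY0, _⟩ := hInd 𝔽 E Y X hYX
  obtain ⟨ha, hρa⟩ := hG.mem
  have hs0 : (-r ^ 2 : 𝔽) ≠ 0 := neg_ne_zero.mpr (pow_ne_zero 2 hG.r0)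
  have hs1 := hG.ne1
  generalize -r ^ 2 = s at hρa hs0 hs1 ⊢
  -- constants
  set Q : R.O := ⟨(q : k), R.hq⟩ with hQ
  have hQk : (Q : k) = (q : k) := rfl
  have hQ1 : R.ρ Q = 1 := R.one
  set A : R.O := ⟨(a : k), ha⟩ with hA
  have hAk : (A : k) = (a : k) := rfl
  have hAu : IsUnit A := R.loc A (by rw [hρa]; exact hs0)
  obtain ⟨B, hAB⟩ := hAu.exists_right_inv
  have hBk : (B : k) = ((a⁻¹ : kˣ) : k) := by
    have h1 : (A : k) * (B : k) = 1 := by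
      have h2 := congrArg (fun z : R.O => (z : k)) hAB
      simpa using h2
    rw [hAk] at h1
    rw [Units.val_inv_eq_inv_val]
    exact eq_inv_of_mul_eq_one_right h1
  have hBρ : R.ρ B = s⁻¹ := by
    have h1 : R.ρ A * R.ρ B = 1 := by rw [← map_mul, hAB, map_one]
    rw [hρa] at h1
    exact eq_inv_of_mul_eq_one_right h1
  have c0 : V.rel (algebraMap k D (a : k)) (algebraMap 𝔽 E s) := con' V A _ _ hAk hρa
  have c1 : V.rel (algebraMap k D (q ^ 2)) (algebraMap 𝔽 E 1) :=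
    con' V (Q ^ 2) _ _ (by push_cast; rw [hQk]) (by rw [map_pow, hQ1]; ring)
  have c2 : V.rel (algebraMap k D (a * (1 - q ^ 2 * a) ^ 2)) (algebraMap 𝔽 E (s * (1 - s) ^ 2)) :=
    con' V (A * (1 - Q ^ 2 * A) ^ 2) _ _ (by push_cast; rw [hQk, hAk]) (by
      rw [map_mul, map_pow, map_sub, map_mul, map_pow, hQ1, hρa, map_one]; ring)
  have c3 : V.rel (algebraMap k D (q * ((a⁻¹ : kˣ) : k))) (algebraMap 𝔽 E s⁻¹) :=
    con' V (Q * B) _ _ (by push_cast; rw [hQk, hBk, Units.val_inv_eq_inv_val]) (by rw [map_mul, hQ1, hBρ]; ring)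
  have c4 : V.rel (algebraMap k D (a ^ 2 * (1 - a) * (1 - q ^ 2 * a)))
      (algebraMap 𝔽 E (s ^ 2 * (1 - s) ^ 2)) :=
    con' V (A ^ 2 * (1 - A) * (1 - Q ^ 2 * A)) _ _ (by push_cast; rw [hQk, hAk]) (by
      rw [map_mul, map_mul, map_pow, map_sub, map_sub, map_mul, map_pow, hQ1, hρa, map_one]; ring)
  have c5 : V.rel (algebraMap k D (q * (1 - q ^ 2 * a ^ 2))) (algebraMap 𝔽 E (1 - s ^ 2)) :=
    con' V (Q * (1 - Q ^ 2 * A ^ 2)) _ _ (by push_cast; rw [hQk, hAk]) (by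
      rw [map_mul, map_sub, map_mul, map_pow, map_pow, hQ1, hρa, map_one]
      ring)
  have c6 : V.rel (algebraMap k D (q * a)) (algebraMap 𝔽 E s) :=
    con' V (Q * A) _ _ (by push_cast; rw [hQk, hAk]) (by rw [map_mul, hQ1, hρa]; ring)
  have c7 : V.rel (algebraMap k D ((1 - a) * (1 - q ^ 2 * a))) (algebraMap 𝔽 E ((1 - s) ^ 2)) :=
    con' V ((1 - A) * (1 - Q ^ 2 * A)) _ _ (by push_cast; rw [hQk, hAk]) (by
      rw [map_mul, map_sub, map_sub, map_mul, map_pow, hQ1, hρa, map_one]; ring)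
  set u : E := algebraMap 𝔽 E s with hu
  have hu0 : u ≠ 0 := by
    rw [hu]
    exact (_root_.map_ne_zero _).mpr hs0
  -- the element L
  set l : E := X⁻¹ * Y⁻¹ + u * (X * Y⁻¹ + Y * X⁻¹) with hl
  have hxi := V.inv _ _ V.relx hX0
  have hyi := V.inv _ _ V.rely hY0
  have hL : V.rel (LA a x y) l :=
    V.add _ _ _ _ (V.mul _ _ _ _ hxi hyi) (V.mul _ _ _ _ c0
      (V.add _ _ _ _ (V.mul _ _ _ _ V.relx hyi) (V.mul _ _ _ _ V.rely hxi)))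
  have hL2 := sq' V hL
  have hlW : l * (X * Y) = 1 + u * X ^ 2 + u * Y ^ 2 := by
    rw [hl]
    field_simp
    ring
  -- the coefficients
  have hrn : V.rel (qn q a x y) (algebraMap 𝔽 E 1 * l ^ 2 + algebraMap 𝔽 E (s * (1 - s) ^ 2)) :=
    V.add _ _ _ _ (V.mul _ _ _ _ c1 hL2) c2
  have hr1 : V.rel (qa1 q a x y)
      (algebraMap 𝔽 E s⁻¹ * (l ^ 2 - algebraMap 𝔽 E (s ^ 2 * (1 - s) ^ 2))) :=
    V.mul _ _ _ _ c3 (sub' V hL2 c4)
  have hr2 : V.rel (qa2 q a x y) (algebraMap 𝔽 E (1 - s ^ 2) * l) := V.mul _ _ _ _ c5 hL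
  have hr3 : V.rel (qa3 q a x y)
      (algebraMap 𝔽 E s * (algebraMap 𝔽 E 1 * l ^ 2 - algebraMap 𝔽 E ((1 - s) ^ 2))) :=
    V.mul _ _ _ _ c6 (sub' V (V.mul _ _ _ _ c1 hL2) c7)
  simp only [map_mul, map_pow, map_sub, map_one, map_inv₀, one_mul, ← hu] at hrn hr1 hr2 hr3
  -- nonvanishing
  have hN3 : (1 + u * X ^ 2 + u * Y ^ 2) ^ 2 + u * (1 - u) ^ 2 * X ^ 2 * Y ^ 2 ≠ 0 := by
    have h := ne_zero (algebraMap 𝔽 E) X Y hmon 1 (2 * s) (2 * s) (s ^ 2)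
      (2 * s ^ 2 + s * (1 - s) ^ 2) (s ^ 2) one_ne_zero
    intro h0
    apply h
    simp only [map_add, map_mul, map_pow, map_sub, map_one, map_ofNat, ← hu]
    rw [← h0]
    ring
  have hN1 : u * (1 + u * X ^ 2 + u * Y ^ 2) ^ 2 - u * (1 - u) ^ 2 * X ^ 2 * Y ^ 2 +
      (1 - u ^ 2) * (1 + u * X ^ 2 + u * Y ^ 2) * Y ^ 2 ≠ 0 := by
    have h := ne_zero (algebraMap 𝔽 E) X Y hmon s (2 * s ^ 2) (2 * s ^ 2 + (1 - s ^ 2)) (s ^ 3)
      (2 * s ^ 3 - s * (1 - s) ^ 2 + (1 - s ^ 2) * s) (s ^ 3 + (1 - s ^ 2) * s) hs0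
    intro h0
    apply h
    simp only [map_add, map_mul, map_pow, map_sub, map_one, map_ofNat, ← hu]
    rw [← h0]
    ring
  have hN2 : (1 + u * X ^ 2 + u * Y ^ 2) ^ 2 - u ^ 2 * (1 - u) ^ 2 * X ^ 2 * Y ^ 2 -
      u * (1 - u ^ 2) * (1 + u * X ^ 2 + u * Y ^ 2) * X ^ 2 ≠ 0 := by
    have h := ne_zero (algebraMap 𝔽 E) X Y hmon 1 (2 * s - s * (1 - s ^ 2)) (2 * s)
      (s ^ 2 - s ^ 2 * (1 - s ^ 2))
      (2 * s ^ 2 - s ^ 2 * (1 - s) ^ 2 - s ^ 2 * (1 - s ^ 2)) (s ^ 2) one_ne_zero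
    intro h0
    apply h
    simp only [map_mul, map_pow, map_sub, map_one, map_ofNat, ← hu]
    rw [← h0]
    ring
  have hνe : (l ^ 2 + u * (1 - u) ^ 2) * (X * Y) ^ 2 =
      (1 + u * X ^ 2 + u * Y ^ 2) ^ 2 + u * (1 - u) ^ 2 * X ^ 2 * Y ^ 2 := by
    rw [← hlW]
    ring
  have hν : l ^ 2 + u * (1 - u) ^ 2 ≠ 0 := by
    intro h0
    apply hN3
    rw [← hνe, h0, zero_mul]
  have hni := V.inv _ _ hrn hν
  have hXe : X₁ = (qn q a x y)⁻¹ * (qa3 q a x y * x + qa2 q a x y * y) := by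
    rw [← hX₁, inv_mul_cancel_left₀ hn]
  have hYe : Y₁ = (qn q a x y)⁻¹ * (qa1 q a x y * y - qa2 q a x y * x) := by
    rw [← hY₁, inv_mul_cancel_left₀ hn]
  set X' : E := (l ^ 2 + u * (1 - u) ^ 2)⁻¹ *
    (u * (l ^ 2 - (1 - u) ^ 2) * X + (1 - u ^ 2) * l * Y) with hX'
  set Y' : E := (l ^ 2 + u * (1 - u) ^ 2)⁻¹ *
    (u⁻¹ * (l ^ 2 - u ^ 2 * (1 - u) ^ 2) * Y - (1 - u ^ 2) * l * X) with hY'
  have hrX : V.rel X₁ X' := by
    rw [hXe]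
    exact V.mul _ _ _ _ hni (V.add _ _ _ _ (V.mul _ _ _ _ hr3 V.relx)
      (V.mul _ _ _ _ hr2 V.rely))
  have hrY : V.rel Y₁ Y' := by
    rw [hYe]
    exact V.mul _ _ _ _ hni (sub' V (V.mul _ _ _ _ hr1 V.rely) (V.mul _ _ _ _ hr2 V.relx))
  have hXc : (l ^ 2 + u * (1 - u) ^ 2) * X' =
      u * (l ^ 2 - (1 - u) ^ 2) * X + (1 - u ^ 2) * l * Y := by
    rw [hX', mul_inv_cancel_left₀ hν]
  have hYc : (l ^ 2 + u * (1 - u) ^ 2) * (u * Y') =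
      (l ^ 2 - u ^ 2 * (1 - u) ^ 2) * Y - u * (1 - u ^ 2) * l * X := by
    rw [hY', mul_left_comm, mul_inv_cancel_left₀ hν, mul_sub, ← mul_assoc, ← mul_assoc,
      mul_inv_cancel₀ hu0]
    ring
  have hXq : ((1 + u * X ^ 2 + u * Y ^ 2) ^ 2 + u * (1 - u) ^ 2 * X ^ 2 * Y ^ 2) * X' =
      X * (u * (1 + u * X ^ 2 + u * Y ^ 2) ^ 2 - u * (1 - u) ^ 2 * X ^ 2 * Y ^ 2 +
        (1 - u ^ 2) * (1 + u * X ^ 2 + u * Y ^ 2) * Y ^ 2) := by
    rw [← hνe, mul_right_comm, hXc, ← hlW]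
    ring
  have hYq : ((1 + u * X ^ 2 + u * Y ^ 2) ^ 2 + u * (1 - u) ^ 2 * X ^ 2 * Y ^ 2) * (u * Y') =
      Y * ((1 + u * X ^ 2 + u * Y ^ 2) ^ 2 - u ^ 2 * (1 - u) ^ 2 * X ^ 2 * Y ^ 2 -
        u * (1 - u ^ 2) * (1 + u * X ^ 2 + u * Y ^ 2) * X ^ 2) := by
    rw [← hνe, mul_right_comm, hYc, ← hlW]
    ring
  refine ⟨X', Y', ?_, ?_, hrX, hrY, 1 + u * X ^ 2 + u * Y ^ 2, rfl, hN3, hXq, hYq⟩
  · intro h0
    rw [h0, mul_zero] at hXq
    exact mul_ne_zero hX0 hN1 hXq.symm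
  · intro h0
    rw [h0, mul_zero, mul_zero] at hYq
    exact mul_ne_zero hY0 hN2 hYq.symm

end QE
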