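import Pool.Agent.Lib.QE.St

/-!
Project QE: the quantum quintic with parameter is an automorphism.
-/

set_option autoImplicit false

namespace QE

open Polynomial QD

namespace ThetaAux

section gen
variable {k R : Type} [Field k] [DivisionRing R] [Algebra k R]

/-- `β = (q/a)(t² + a³)/(a + q²t²)` -/
noncomputable def eb (q a : kˣ) (t : R) : R :=
  (algebraMap k R a + algebraMap k R (q ^ 2) * t ^ 2)⁻¹ *
    (algebraMap k R (q * ((a⁻¹ : kˣ) : k)) * (t ^ 2 + algebraMap k R (a ^ 3)))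

/-- `n = q²t² + a(1 - q²a)²` -/
noncomputable def nn (q a : kˣ) (t : R) : R :=
  algebraMap k R (q ^ 2) * t ^ 2 + algebraMap k R (a * (1 - q ^ 2 * a) ^ 2)

/-- `μ₃` -/
noncomputable def e3 (q a : kˣ) (t : R) : R :=
  (nn q a t)⁻¹ * (algebraMap k R (q * a) * (algebraMap k R (q ^ 2) * t ^ 2 -
    algebraMap k R ((1 - a) * (1 - q ^ 2 * a))))

/-- `μ₂` -/
noncomputable def e2 (q a : kˣ) (t : R) : R :=
  (nn q a t)⁻¹ * (algebraMap k R (q * (1 - q ^ 2 * a ^ 2)) * t)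

/-- `β⁻¹` -/
noncomputable def fb (q a : kˣ) (t : R) : R :=
  (algebraMap k R (q * ((a⁻¹ : kˣ) : k)) * (t ^ 2 + algebraMap k R (a ^ 3)))⁻¹ *
    (algebraMap k R a + algebraMap k R (q ^ 2) * t ^ 2)

/-- `μ₃'` -/
noncomputable def f3 (q a : kˣ) (t : R) : R :=
  (algebraMap k R (q * a) * (t ^ 2 + algebraMap k R (a * (1 - a) ^ 2)))⁻¹ *
    (t ^ 2 - algebraMap k R (a ^ 2 * (1 - a) * (1 - q ^ 2 * a)))

/-- `μ₂'` -/
noncomputable def f2 (q a : kˣ) (t : R) : R :=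
  (algebraMap k R q * (t ^ 2 + algebraMap k R (a * (1 - a) ^ 2)))⁻¹ *
    (algebraMap k R (q ^ 2 * a ^ 2 - 1) * t)

variable {R' : Type} [DivisionRing R'] [Algebra k R'] (f : R →ₐ[k] R') (q a : kˣ) (t : R)

theorem map_eb : f (eb q a t) = eb q a (f t) := by
  unfold eb
  simp only [map_mul, map_inv₀, map_add, map_pow, AlgHom.commutes]

theorem map_nn : f (nn q a t) = nn q a (f t) := by
  unfold nn
  simp only [map_mul, map_add, map_one, map_pow, map_sub, AlgHom.commutes]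

theorem map_e3 : f (e3 q a t) = e3 q a (f t) := by
  unfold e3
  simp only [map_mul, map_inv₀, map_one, map_pow, map_sub, AlgHom.commutes, map_nn]

theorem map_e2 : f (e2 q a t) = e2 q a (f t) := by
  unfold e2
  simp only [map_mul, map_inv₀, map_one, map_pow, map_sub, AlgHom.commutes, map_nn]

theorem map_fb : f (fb q a t) = fb q a (f t) := by
  unfold fb
  simp only [map_mul, map_inv₀, map_add, map_pow, AlgHom.commutes]

theorem map_f3 : f (f3 q a t) = f3 q a (f t) := by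
  unfold f3
  simp only [map_mul, map_inv₀, map_add, map_one, map_pow, map_sub, AlgHom.commutes]

theorem map_f2 : f (f2 q a t) = f2 q a (f t) := by
  unfold f2
  simp only [map_mul, map_inv₀, map_add, map_one, map_pow, map_sub, AlgHom.commutes]

end gen

section fld
variable {k F : Type} [Field k] [Field F] [Algebra k F] (q a : kˣ)

theorem cne (q : kˣ) : algebraMap k F (q : k) ≠ 0 := by
  rw [Ne, map_eq_zero]
  exact q.ne_zero

theorem cne_sq (q : kˣ) : algebraMap k F ((q : k) ^ 2) ≠ 0 := by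
  rw [map_pow]
  exact pow_ne_zero 2 (cne q)

theorem id1 (t : F) (ht : t ≠ 0) (h1 : algebraMap k F a + algebraMap k F (q ^ 2) * t ^ 2 ≠ 0)
    (h2 : t ^ 2 + algebraMap k F (q ^ 2 * a ^ 3) ≠ 0) :
    eb q a t = e3 q a (t + algebraMap k F (a ^ 2) * t⁻¹) +
      algebraMap k F ((a⁻¹ : kˣ) : k) * e2 q a (t + algebraMap k F (a ^ 2) * t⁻¹) * t := by
  have hc := cne (F := F) q
  have hA := cne (F := F) a
  unfold eb e3 e2 nn
  simp only [map_mul, map_sub, map_one, map_pow, Units.val_inv_eq_inv_val, map_inv₀] at h1 h2 ⊢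
  generalize algebraMap k F q = c at *
  generalize algebraMap k F a = A at *
  have hn : c ^ 2 * (t + A ^ 2 * t⁻¹) ^ 2 + A * (1 - c ^ 2 * A) ^ 2 =
      (A + c ^ 2 * t ^ 2) * (t ^ 2 + c ^ 2 * A ^ 3) / t ^ 2 := by
    field_simp
    ring
  rw [hn]
  obtain ⟨P, hP⟩ : ∃ P, P = A + c ^ 2 * t ^ 2 := ⟨_, rfl⟩
  obtain ⟨B, hB⟩ : ∃ B, B = t ^ 2 + c ^ 2 * A ^ 3 := ⟨_, rfl⟩
  rw [← hP, ← hB]
  rw [← hP] at h1
  rw [← hB] at h2
  have key : c * (t ^ 2 + A ^ 3) * B = A * (c * A * (c ^ 2 * (t ^ 2 + A ^ 2) ^ 2 -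
      (1 - A) * (1 - c ^ 2 * A) * t ^ 2)) + c * (1 - c ^ 2 * A ^ 2) * (t ^ 2 + A ^ 2) * t ^ 2 := by
    rw [hB]
    ring
  have e1 : P⁻¹ * (c * A⁻¹ * (t ^ 2 + A ^ 3)) = c * (t ^ 2 + A ^ 3) * B / (A * P * B) := by
    field_simp
  rw [e1, key]
  field_simp

theorem id1' (t : F) (ht : t ≠ 0) (h1 : t ^ 2 + algebraMap k F a ≠ 0)
    (h2 : t ^ 2 + algebraMap k F (a ^ 3) ≠ 0) :
    fb q a t = f3 q a (t + algebraMap k F (a ^ 2) * t⁻¹) +
      algebraMap k F ((a⁻¹ : kˣ) : k) * f2 q a (t + algebraMap k F (a ^ 2) * t⁻¹) * t := by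
  have hc := cne (F := F) q
  have hA := cne (F := F) a
  unfold fb f3 f2
  simp only [map_mul, map_sub, map_one, map_pow, Units.val_inv_eq_inv_val, map_inv₀] at h1 h2 ⊢
  generalize algebraMap k F q = c at *
  generalize algebraMap k F a = A at *
  have hn : (t + A ^ 2 * t⁻¹) ^ 2 + A * (1 - A) ^ 2 =
      (t ^ 2 + A) * (t ^ 2 + A ^ 3) / t ^ 2 := by
    field_simp
    ring
  rw [hn]
  field_simp
  ring

theorem inv_l (t : F) : algebraMap k F (a ^ 2) * t⁻¹ +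
      algebraMap k F (a ^ 2) * (algebraMap k F (a ^ 2) * t⁻¹)⁻¹ =
    t + algebraMap k F (a ^ 2) * t⁻¹ := by
  have hA := cne (F := F) a
  rw [map_pow]
  rw [mul_inv, inv_inv, ← mul_assoc, mul_inv_cancel₀ (pow_ne_zero 2 hA), one_mul, add_comm]

theorem inv_m (t E : F) : algebraMap k F ((a⁻¹ : kˣ) : k) * E * (algebraMap k F (a ^ 2) * t⁻¹) =
    algebraMap k F a * E * t⁻¹ := by
  have hA := cne (F := F) a
  rw [map_pow, Units.val_inv_eq_inv_val, map_inv₀]
  field_simp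

theorem id2 (t : F) (ht : t ≠ 0) (h1 : algebraMap k F a + t ^ 2 ≠ 0)
    (h2 : t ^ 2 + algebraMap k F (q ^ 2 * a ^ 3) ≠ 0) :
    eb q a (algebraMap k F (a ^ 2) * t⁻¹) * eb q a (algebraMap k F ((q⁻¹ : kˣ) : k) * t) = 1 := by
  have hc := cne (F := F) q
  have hA := cne (F := F) a
  unfold eb
  simp only [map_mul, map_pow, Units.val_inv_eq_inv_val, map_inv₀] at h1 h2 ⊢
  generalize algebraMap k F q = c at *
  generalize algebraMap k F a = A at *
  have e1 : A + c ^ 2 * (A ^ 2 * t⁻¹) ^ 2 = A * (t ^ 2 + c ^ 2 * A ^ 3) / t ^ 2 := by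
    field_simp
  have e2 : A + c ^ 2 * (c⁻¹ * t) ^ 2 = A + t ^ 2 := by
    field_simp
  have e3 : c * A⁻¹ * ((A ^ 2 * t⁻¹) ^ 2 + A ^ 3) = c * A ^ 2 * (A + t ^ 2) / t ^ 2 := by
    field_simp
  have e4 : c * A⁻¹ * ((c⁻¹ * t) ^ 2 + A ^ 3) = (t ^ 2 + c ^ 2 * A ^ 3) / (c * A) := by
    field_simp
  rw [e1, e2, e3, e4]
  generalize A + t ^ 2 = P at *
  generalize t ^ 2 + c ^ 2 * A ^ 3 = B at *
  field_simp

theorem id3 (t : F) (h1 : algebraMap k F a + algebraMap k F (q ^ 2) * t ^ 2 ≠ 0)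
    (h2 : t ^ 2 + algebraMap k F (a ^ 3) ≠ 0) : eb q a t * fb q a t = 1 := by
  have hc := cne (F := F) q
  have hA := cne (F := F) a
  unfold eb fb
  simp only [map_mul, map_pow, Units.val_inv_eq_inv_val, map_inv₀] at h1 h2 ⊢
  generalize algebraMap k F q = c at *
  generalize algebraMap k F a = A at *
  generalize A + c ^ 2 * t ^ 2 = P at *
  generalize t ^ 2 + A ^ 3 = B at *
  field_simp

theorem id2' (t : F) (ht : t ≠ 0) (h1 : algebraMap k F a + t ^ 2 ≠ 0)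
    (h2 : t ^ 2 + algebraMap k F (q ^ 2 * a ^ 3) ≠ 0) :
    fb q a (algebraMap k F (a ^ 2) * t⁻¹) * fb q a (algebraMap k F ((q⁻¹ : kˣ) : k) * t) = 1 := by
  have h := id2 q a t ht h1 h2
  have e : ∀ s : F, fb q a s = (eb q a s)⁻¹ := by
    intro s
    unfold fb eb
    rw [mul_inv (_⁻¹ : F), inv_inv, mul_comm]
  rw [e, e, ← mul_inv, h, inv_one]

end fld

section rat
variable {k : Type} [Field k]

theorem rne (p : k[X]) (hp : p ≠ 0) : algebraMap k[X] (RatFunc k) p ≠ 0 :=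
  RatFunc.algebraMap_ne_zero hp

theorem rX (c d : k) (hd : d ≠ 0) : algebraMap k (RatFunc k) c +
    algebraMap k (RatFunc k) d * RatFunc.X ^ 2 ≠ 0 := by
  have h : algebraMap k[X] (RatFunc k) (C c + C d * X ^ 2) ≠ 0 := by
    apply rne
    intro h0
    have h1 := congrArg (fun p => Polynomial.coeff p 2) h0
    simp only [Polynomial.coeff_add, Polynomial.coeff_C_mul, Polynomial.coeff_X_pow,
      Polynomial.coeff_C, Polynomial.coeff_zero, if_true, mul_one] at h1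
    simp at h1
    exact hd h1
  rw [map_add, map_mul, map_pow, RatFunc.algebraMap_X, RatFunc.algebraMap_C,
    RatFunc.algebraMap_C] at h
  rw [RatFunc.algebraMap_eq_C]
  exact h

theorem rX1 (c : k) : (RatFunc.X : RatFunc k) ^ 2 + algebraMap k (RatFunc k) c ≠ 0 := by
  have h := rX c 1 one_ne_zero
  rw [map_one, one_mul, add_comm] at h
  exact h

theorem Xne : (RatFunc.X : RatFunc k) ≠ 0 := RatFunc.X_ne_zero

theorem rXi (c d : k) (a : kˣ) (hc : c ≠ 0) : algebraMap k (RatFunc k) c +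
    algebraMap k (RatFunc k) d * (algebraMap k (RatFunc k) (a ^ 2) * RatFunc.X⁻¹) ^ 2 ≠ 0 := by
  have h := rX (d * (a : k) ^ 4) c hc
  have hX := Xne (k := k)
  have e : algebraMap k (RatFunc k) c +
      algebraMap k (RatFunc k) d * (algebraMap k (RatFunc k) (a ^ 2) * RatFunc.X⁻¹) ^ 2 =
      (algebraMap k (RatFunc k) (d * (a : k) ^ 4) +
        algebraMap k (RatFunc k) c * RatFunc.X ^ 2) / RatFunc.X ^ 2 := by
    rw [map_mul, map_pow, map_pow]
    field_simp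
    ring
  rw [e]
  exact div_ne_zero h (pow_ne_zero 2 hX)

theorem rXi1 (c : k) (a : kˣ) :
    (algebraMap k (RatFunc k) (a ^ 2) * (RatFunc.X : RatFunc k)⁻¹) ^ 2 +
      algebraMap k (RatFunc k) c ≠ 0 := by
  by_cases hc : c = 0
  · rw [hc, map_zero, add_zero, map_pow]
    exact pow_ne_zero 2 (mul_ne_zero (pow_ne_zero 2 (cne a)) (inv_ne_zero Xne))
  · have h := rXi c 1 a hc
    rw [map_one, one_mul, add_comm] at h
    exact h

end rat

section main
variable {k D : Type} [Field k] [DivisionRing D] [Algebra k D]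

/-- `u` is transcendental over `k` -/
def Trc (k : Type) {D : Type} [Field k] [DivisionRing D] [Algebra k D] (u : D) : Prop :=
  ∀ p : k[X], p ≠ 0 → aeval u p ≠ 0

theorem exF (hE : QD.StEv) (u : D) (hu : Trc k u) :
    ∃ F : RatFunc k →ₐ[k] D, (∀ b, F b = evR u b) ∧ F RatFunc.X = u := by
  obtain ⟨⟨F, hF⟩, hX, -, -⟩ := hE k D u hu
  exact ⟨F, hF, by rw [hF]; exact hX⟩

theorem ev_eb (hE : QD.StEv) (q a : kˣ) (u : D) (hu : Trc k u) :
    evR u (eb q a (RatFunc.X : RatFunc k)) = eb q a u := by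
  obtain ⟨F, hF, hX⟩ := exF hE u hu
  rw [← hF, map_eb, hX]

theorem ev_e3 (hE : QD.StEv) (q a : kˣ) (u : D) (hu : Trc k u) :
    evR u (e3 q a (RatFunc.X : RatFunc k)) = e3 q a u := by
  obtain ⟨F, hF, hX⟩ := exF hE u hu
  rw [← hF, map_e3, hX]

theorem ev_e2 (hE : QD.StEv) (q a : kˣ) (u : D) (hu : Trc k u) :
    evR u (e2 q a (RatFunc.X : RatFunc k)) = e2 q a u := by
  obtain ⟨F, hF, hX⟩ := exF hE u hu
  rw [← hF, map_e2, hX]

theorem ev_fb (hE : QD.StEv) (q a : kˣ) (u : D) (hu : Trc k u) :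
    evR u (fb q a (RatFunc.X : RatFunc k)) = fb q a u := by
  obtain ⟨F, hF, hX⟩ := exF hE u hu
  rw [← hF, map_fb, hX]

theorem ev_f3 (hE : QD.StEv) (q a : kˣ) (u : D) (hu : Trc k u) :
    evR u (f3 q a (RatFunc.X : RatFunc k)) = f3 q a u := by
  obtain ⟨F, hF, hX⟩ := exF hE u hu
  rw [← hF, map_f3, hX]

theorem ev_f2 (hE : QD.StEv) (q a : kˣ) (u : D) (hu : Trc k u) :
    evR u (f2 q a (RatFunc.X : RatFunc k)) = f2 q a u := by
  obtain ⟨F, hF, hX⟩ := exF hE u hu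
  rw [← hF, map_f2, hX]

/-- the three conditions for `β` -/
theorem condE (hE : QD.StEv) (q a : kˣ) (y : D) (hy : Trc k y)
    (hyi : Trc k (algebraMap k D (a ^ 2) * y⁻¹))
    (hyy : Trc k (y + algebraMap k D (a ^ 2) * y⁻¹))
    (hqy : Trc k (algebraMap k D ((q⁻¹ : kˣ) : k) * y)) :
    (eb q a (RatFunc.X : RatFunc k) ≠ 0) ∧
    (evR y (eb q a (RatFunc.X : RatFunc k)) =
      evR (y + algebraMap k D (a ^ 2) * y⁻¹) (e3 q a (RatFunc.X : RatFunc k)) +
      algebraMap k D ((a⁻¹ : kˣ) : k) *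
        evR (y + algebraMap k D (a ^ 2) * y⁻¹) (e2 q a (RatFunc.X : RatFunc k)) * y) ∧
    (evR (algebraMap k D (a ^ 2) * y⁻¹) (eb q a (RatFunc.X : RatFunc k)) =
      evR (y + algebraMap k D (a ^ 2) * y⁻¹) (e3 q a (RatFunc.X : RatFunc k)) +
      algebraMap k D a *
        evR (y + algebraMap k D (a ^ 2) * y⁻¹) (e2 q a (RatFunc.X : RatFunc k)) * y⁻¹) ∧
    (evR (algebraMap k D (a ^ 2) * y⁻¹) (eb q a (RatFunc.X : RatFunc k)) *
      evR (algebraMap k D ((q⁻¹ : kˣ) : k) * y) (eb q a (RatFunc.X : RatFunc k)) = 1) := by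
  rw [ev_eb hE q a y hy, ev_eb hE q a _ hyi, ev_eb hE q a _ hqy, ev_e3 hE q a _ hyy,
    ev_e2 hE q a _ hyy]
  obtain ⟨F, hF, hX⟩ := exF hE y hy
  have hq0 := q.ne_zero
  have ha0 := a.ne_zero
  refine ⟨?_, ?_, ?_, ?_⟩
  · intro h0
    have h := id3 q a (RatFunc.X : RatFunc k) (rX _ _ (pow_ne_zero 2 hq0)) (rX1 _)
    rw [h0, zero_mul] at h
    exact zero_ne_one h
  · have h := congrArg F (id1 q a (RatFunc.X : RatFunc k) Xne (rX _ _ (pow_ne_zero 2 hq0)) (rX1 _))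
    rw [map_add, map_mul, map_mul, map_eb, map_e3, map_e2, map_add, map_mul, map_inv₀, hX] at h
    simpa only [AlgHom.commutes] using h
  · have h := congrArg F (id1 q a (algebraMap k (RatFunc k) (a ^ 2) * RatFunc.X⁻¹ : RatFunc k)
      (mul_ne_zero (cne_sq a) (inv_ne_zero Xne)) (rXi _ _ _ ha0) (rXi1 _ _))
    rw [inv_l, inv_m] at h
    rw [map_add, map_mul, map_mul, map_eb, map_e3, map_e2, map_add, map_mul, map_inv₀, hX] at h
    simpa only [AlgHom.commutes] using h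
  · have h := congrArg F (id2 q a (RatFunc.X : RatFunc k) Xne
      (by rw [add_comm]; exact rX1 _) (rX1 _))
    rw [map_mul, map_eb, map_eb, map_mul, map_mul, map_inv₀, hX, map_one] at h
    simpa only [AlgHom.commutes] using h

theorem condF (hE : QD.StEv) (q a : kˣ) (y : D) (hy : Trc k y)
    (hyi : Trc k (algebraMap k D (a ^ 2) * y⁻¹))
    (hyy : Trc k (y + algebraMap k D (a ^ 2) * y⁻¹))
    (hqy : Trc k (algebraMap k D ((q⁻¹ : kˣ) : k) * y)) :
    (fb q a (RatFunc.X : RatFunc k) ≠ 0) ∧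
    (evR y (fb q a (RatFunc.X : RatFunc k)) =
      evR (y + algebraMap k D (a ^ 2) * y⁻¹) (f3 q a (RatFunc.X : RatFunc k)) +
      algebraMap k D ((a⁻¹ : kˣ) : k) *
        evR (y + algebraMap k D (a ^ 2) * y⁻¹) (f2 q a (RatFunc.X : RatFunc k)) * y) ∧
    (evR (algebraMap k D (a ^ 2) * y⁻¹) (fb q a (RatFunc.X : RatFunc k)) =
      evR (y + algebraMap k D (a ^ 2) * y⁻¹) (f3 q a (RatFunc.X : RatFunc k)) +
      algebraMap k D a *
        evR (y + algebraMap k D (a ^ 2) * y⁻¹) (f2 q a (RatFunc.X : RatFunc k)) * y⁻¹) ∧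
    (evR (algebraMap k D (a ^ 2) * y⁻¹) (fb q a (RatFunc.X : RatFunc k)) *
      evR (algebraMap k D ((q⁻¹ : kˣ) : k) * y) (fb q a (RatFunc.X : RatFunc k)) = 1) := by
  rw [ev_fb hE q a y hy, ev_fb hE q a _ hyi, ev_fb hE q a _ hqy, ev_f3 hE q a _ hyy,
    ev_f2 hE q a _ hyy]
  obtain ⟨F, hF, hX⟩ := exF hE y hy
  have hq0 := q.ne_zero
  refine ⟨?_, ?_, ?_, ?_⟩
  · intro h0
    have h := id3 q a (RatFunc.X : RatFunc k) (rX _ _ (pow_ne_zero 2 hq0)) (rX1 _)
    rw [h0, mul_zero] at h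
    exact zero_ne_one h
  · have h := congrArg F (id1' q a (RatFunc.X : RatFunc k) Xne (rX1 _) (rX1 _))
    rw [map_add, map_mul, map_mul, map_fb, map_f3, map_f2, map_add, map_mul, map_inv₀, hX] at h
    simpa only [AlgHom.commutes] using h
  · have h := congrArg F (id1' q a (algebraMap k (RatFunc k) (a ^ 2) * RatFunc.X⁻¹ : RatFunc k)
      (mul_ne_zero (cne_sq a) (inv_ne_zero Xne)) (rXi1 _ _) (rXi1 _ _))
    rw [inv_l, inv_m] at h
    rw [map_add, map_mul, map_mul, map_fb, map_f3, map_f2, map_add, map_mul, map_inv₀, hX] at h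
    simpa only [AlgHom.commutes] using h
  · have h := congrArg F (id2' q a (RatFunc.X : RatFunc k) Xne
      (by rw [add_comm]; exact rX1 _) (rX1 _))
    rw [map_mul, map_fb, map_fb, map_mul, map_mul, map_inv₀, hX, map_one] at h
    simpa only [AlgHom.commutes] using h

theorem ef (hE : QD.StEv) (q a : kˣ) (y : D) (hy : Trc k y) :
    eb q a y * fb q a y = 1 ∧ fb q a y * eb q a y = 1 := by
  obtain ⟨F, hF, hX⟩ := exF hE y hy
  have h := id3 q a (RatFunc.X : RatFunc k) (rX _ _ (pow_ne_zero 2 q.ne_zero)) (rX1 _)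
  have h1 := congrArg F h
  rw [mul_comm] at h
  have h2 := congrArg F h
  simp only [map_fb, map_eb, map_mul, hX, map_one] at h1 h2
  exact ⟨h1, h2⟩

theorem nn_ne (q a : kˣ) (L : D) (hL : Trc k L) : nn q a L ≠ 0 := by
  have h := hL (C ((q : k) ^ 2) * X ^ 2 + C ((a : k) * (1 - (q : k) ^ 2 * a) ^ 2)) (by
    intro h0
    have h1 := congrArg (fun p => Polynomial.coeff p 2) h0
    simp only [Polynomial.coeff_add, Polynomial.coeff_C_mul, Polynomial.coeff_X_pow,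
      Polynomial.coeff_C, Polynomial.coeff_zero, if_true, mul_one] at h1
    simp at h1)
  rw [map_add, map_mul, aeval_C, aeval_C, aeval_X_pow] at h
  exact h

theorem quint_id (hE : QD.StEv) (q a : kˣ) (L : D) (hL : Trc k L) :
    nn q a L * (e3 q a L + algebraMap k D ((a⁻¹ : kˣ) : k) * e2 q a L * L) =
      algebraMap k D (q * ((a⁻¹ : kˣ) : k)) *
        (L ^ 2 - algebraMap k D (a ^ 2 * (1 - a) * (1 - q ^ 2 * a))) := by
  obtain ⟨F, hF, hX⟩ := exF hE L hL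
  have hn : nn q a (RatFunc.X : RatFunc k) ≠ 0 := by
    intro h
    have h1 := congrArg F h
    rw [map_nn, hX, map_zero] at h1
    exact nn_ne q a L hL h1
  have h : nn q a (RatFunc.X : RatFunc k) * (e3 q a RatFunc.X +
      algebraMap k (RatFunc k) ((a⁻¹ : kˣ) : k) * e2 q a RatFunc.X * RatFunc.X) =
      algebraMap k (RatFunc k) (q * ((a⁻¹ : kˣ) : k)) *
        (RatFunc.X ^ 2 - algebraMap k (RatFunc k) (a ^ 2 * (1 - a) * (1 - q ^ 2 * a))) := by
    have hA := cne (F := RatFunc k) a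
    unfold e3 e2
    generalize nn q a (RatFunc.X : RatFunc k) = N at *
    simp only [map_mul, map_sub, map_one, map_pow, Units.val_inv_eq_inv_val, map_inv₀]
    generalize algebraMap k (RatFunc k) q = c at *
    generalize algebraMap k (RatFunc k) a = A at *
    have e1 : N * (N⁻¹ * (c * A * (c ^ 2 * RatFunc.X ^ 2 - (1 - A) * (1 - c ^ 2 * A))) +
        A⁻¹ * (N⁻¹ * (c * (1 - c ^ 2 * A ^ 2) * RatFunc.X)) * RatFunc.X) =
        c * A * (c ^ 2 * RatFunc.X ^ 2 - (1 - A) * (1 - c ^ 2 * A)) +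
        A⁻¹ * (c * (1 - c ^ 2 * A ^ 2) * RatFunc.X) * RatFunc.X := by
      rw [mul_add, ← mul_assoc, mul_inv_cancel₀ hn, one_mul]
      congr 1
      calc N * (A⁻¹ * (N⁻¹ * (c * (1 - c ^ 2 * A ^ 2) * RatFunc.X)) * RatFunc.X) =
          (N * N⁻¹) * (A⁻¹ * (c * (1 - c ^ 2 * A ^ 2) * RatFunc.X) * RatFunc.X) := by ring
        _ = _ := by rw [mul_inv_cancel₀ hn, one_mul]
    rw [e1]
    have e2 : A * A⁻¹ = 1 := mul_inv_cancel₀ hA
    linear_combination (-(c * A * (c ^ 2 * RatFunc.X ^ 2) + c * (1 - A) * (1 - c ^ 2 * A) * (-A))) * e2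
  have h1 := congrArg F h
  rw [map_mul, map_add, map_mul, map_mul, map_mul, map_sub, map_nn, map_e3, map_e2, map_pow, hX]
    at h1
  simpa only [AlgHom.commutes] using h1

theorem comm_inv (q : kˣ) (x y : D) (hcomm : x * y = algebraMap k D q * (y * x)) :
    x⁻¹ * y⁻¹ = algebraMap k D q * (y⁻¹ * x⁻¹) := by
  have h3 : algebraMap k D (q : k) ≠ 0 := by
    rw [Ne, map_eq_zero]
    exact q.ne_zero
  rw [← mul_inv_rev, ← mul_inv_rev, hcomm,
    mul_inv_rev (algebraMap k D (q : k)) (y * x),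
    Algebra.commutes (q : k) ((y * x)⁻¹ * (algebraMap k D (q : k))⁻¹), mul_assoc,
    inv_mul_cancel₀ h3, mul_one]

theorem trc_mul (hT : QD.StTr) (q : kˣ) (x y : D) (hx0 : x ≠ 0) (hy0 : y ≠ 0)
    (hcomm : x * y = algebraMap k D q * (y * x)) (hroot : NotRoot q) (c : k) (hc : c ≠ 0) :
    Trc k (algebraMap k D c * y) := by
  have h3 : algebraMap k D c ≠ 0 := by
    rw [Ne, map_eq_zero]
    exact hc
  have hc' : x * (algebraMap k D c * y) = algebraMap k D q * ((algebraMap k D c * y) * x) := by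
    rw [← mul_assoc, ← Algebra.commutes, mul_assoc, hcomm, mul_assoc, ← mul_assoc,
      ← Algebra.commutes (q : k), mul_assoc]
  exact (hT k D q x _ hx0 (mul_ne_zero h3 hy0) hc' hroot).2.1

end main

end ThetaAux

open ThetaAux in
/-- The quantum quintic is an automorphism. -/
theorem stTheta (hJ : StJ) (hI : StInter) (hU : QD.StUniq) (hE : QD.StEv) (hT0 : QD.StTr)
    (hT : StTr) : StTheta := by
  intro k D _ _ _ q a x y hq hroot
  obtain ⟨j, hjx, hjy, hjL, hL⟩ := hJ k D q a x y hq hroot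
  have hL' : Trc k (LA a x y) := hL
  have hx0 := hq.x0
  have hy0 := hq.y0
  have hcomm := hq.comm
  obtain ⟨-, hy, -⟩ := hT0 k D q x y hx0 hy0 hcomm hroot
  obtain ⟨hyy, -⟩ := hT k D q a x y hx0 hy0 hcomm hroot
  have hyi : Trc k (algebraMap k D (a ^ 2) * y⁻¹) :=
    trc_mul hT0 q x⁻¹ y⁻¹ (inv_ne_zero hx0) (inv_ne_zero hy0) (comm_inv q x y hcomm)
      hroot _ (pow_ne_zero 2 a.ne_zero)
  have hqy : Trc k (algebraMap k D ((q⁻¹ : kˣ) : k) * y) :=
    trc_mul hT0 q x y hx0 hy0 hcomm hroot _ (q⁻¹).ne_zero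
  obtain ⟨b0, b1, b2, b3⟩ := condE hE q a y hy hyi hyy hqy
  obtain ⟨c0, c1, c2, c3⟩ := condF hE q a y hy hyi hyy hqy
  obtain ⟨θ, ψ, p1, p2, p3, p4, p5⟩ := hI k D q a x y hq hroot j hjx hjy hjL _ _ _ b0 b1 b2 b3
  obtain ⟨θ', ψ', r1, r2, r3, r4, r5⟩ := hI k D q a x y hq hroot j hjx hjy hjL _ _ _ c0 c1 c2 c3
  rw [ev_eb hE q a y hy] at p1
  rw [ev_fb hE q a y hy] at r1
  obtain ⟨e1, e2'⟩ := ef hE q a y hy
  have hA : ψ.comp ψ' = AlgHom.id k D := by
    apply hU k D D q x y hq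
    · show ψ (ψ' x) = x
      rw [r1, map_mul, map_fb, p2, p1, ← mul_assoc, e2', one_mul]
    · show ψ (ψ' y) = y
      rw [r2, p2]
  have hB : ψ'.comp ψ = AlgHom.id k D := by
    apply hU k D D q x y hq
    · show ψ' (ψ x) = x
      rw [p1, map_mul, map_eb, r2, r1, ← mul_assoc, e1, one_mul]
    · show ψ' (ψ y) = y
      rw [p2, r2]
  have hjinj : Function.Injective j := (j : D →+* D).injective
  have hC : θ.comp θ' = AlgHom.id k D := by
    apply AlgHom.ext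
    intro d
    apply hjinj
    show j (θ (θ' d)) = j d
    rw [p5, r5]
    exact DFunLike.congr_fun hA (j d)
  have hD : θ'.comp θ = AlgHom.id k D := by
    apply AlgHom.ext
    intro d
    apply hjinj
    show j (θ' (θ d)) = j d
    rw [r5, p5]
    exact DFunLike.congr_fun hB (j d)
  have hn : nn q a (LA a x y) ≠ 0 := nn_ne q a _ hL'
  have hnm : ∀ b : D, nn q a (LA a x y) * ((nn q a (LA a x y))⁻¹ * b) = b := by
    intro b
    rw [← mul_assoc, mul_inv_cancel₀ hn, one_mul]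
  have hqi := quint_id hE q a _ hL'
  rw [ev_e3 hE q a _ hL', ev_e2 hE q a _ hL'] at p3 p4
  refine ⟨AlgEquiv.ofAlgHom θ θ' hC hD, hn, ?_, ?_⟩
  · show nn q a (LA a x y) * θ x = _
    rw [p3, mul_add]
    unfold e3 e2
    rw [mul_assoc (nn q a (LA a x y))⁻¹, hnm, mul_assoc (nn q a (LA a x y))⁻¹, hnm]
    rfl
  · show nn q a (LA a x y) * θ y = _
    rw [p4, mul_sub, ← mul_assoc, hqi]
    unfold e2
    rw [mul_assoc (nn q a (LA a x y))⁻¹, hnm]
    rfl

end QE
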