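import Pool.Agent.Lib.QE.St
import Pool.Agent.Lib.QD.Tr
import Pool.Agent.Lib.QD.Indep

/-!
Project QE, module Tr: `y + a² y⁻¹` is transcendental over `k`, and some elements are not zero.
-/

set_option autoImplicit false

namespace QE

open Polynomial QD

namespace TrAux

variable {k D : Type} [Field k] [DivisionRing D] [Algebra k D]

/-- The polynomial `X ^ d * p (X + c X⁻¹)`. -/
noncomputable def hp (c : k) (p : k[X]) : k[X] :=
  ∑ n ∈ Finset.range (p.natDegree + 1),
    C (p.coeff n) * ((X ^ 2 + C c) ^ n * X ^ (p.natDegree - n))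

theorem natDegree_X2 (c : k) : (X ^ 2 + C c : k[X]).natDegree = 2 := natDegree_X_pow_add_C

theorem monic_X2 (c : k) : (X ^ 2 + C c : k[X]).Monic := monic_X_pow_add_C c (by norm_num)

theorem hp_ne (c : k) (p : k[X]) (h0 : p ≠ 0) : hp c p ≠ 0 := by
  intro h
  refine h0 (leadingCoeff_eq_zero.1 ?_)
  have h2 := congrArg (fun r : k[X] => r.coeff (2 * p.natDegree)) h
  simp only [hp, finsetSum_coeff, coeff_zero, coeff_C_mul] at h2
  rw [Finset.sum_eq_single_of_mem p.natDegree (Finset.self_mem_range_succ _)] at h2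
  · have h3 : ((X ^ 2 + C c : k[X]) ^ p.natDegree).coeff (2 * p.natDegree) = 1 := by
      have h4 := (monic_X2 c).pow p.natDegree
      have h5 : ((X ^ 2 + C c : k[X]) ^ p.natDegree).natDegree = 2 * p.natDegree := by
        rw [(monic_X2 c).natDegree_pow, natDegree_X2, mul_comm]
      rw [← h5]
      exact h4.coeff_natDegree
    rw [Nat.sub_self, pow_zero, mul_one, h3, mul_one] at h2
    exact h2
  · intro n hn hne
    have hn1 : n < p.natDegree := by
      have := Finset.mem_range.1 hn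
      omega
    have h5 : ((X ^ 2 + C c : k[X]) ^ n).natDegree = n * 2 := by
      rw [(monic_X2 c).natDegree_pow, natDegree_X2]
    have h6 : (X ^ (p.natDegree - n) : k[X]).natDegree = p.natDegree - n := natDegree_X_pow _
    have h7 := natDegree_mul_le (p := (X ^ 2 + C c : k[X]) ^ n) (q := X ^ (p.natDegree - n))
    have h8 : ((X ^ 2 + C c : k[X]) ^ n * X ^ (p.natDegree - n)).coeff (2 * p.natDegree) = 0 :=
      coeff_eq_zero_of_natDegree_lt (by omega)
    rw [h8, mul_zero]

theorem mul_el (c : k) (y : D) (hy : y ≠ 0) :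
    y * (y + algebraMap k D c * y⁻¹) = y ^ 2 + algebraMap k D c := by
  rw [mul_add, ← mul_assoc, ← Algebra.commutes, mul_assoc, mul_inv_cancel₀ hy, mul_one, pow_two]

theorem el_mul (c : k) (y : D) (hy : y ≠ 0) :
    (y + algebraMap k D c * y⁻¹) * y = y ^ 2 + algebraMap k D c := by
  rw [add_mul, mul_assoc, inv_mul_cancel₀ hy, mul_one, pow_two]

theorem aeval_hp (c : k) (p : k[X]) (y : D) (hy : y ≠ 0) :
    aeval y (hp c p) = y ^ p.natDegree * aeval (y + algebraMap k D c * y⁻¹) p := by
  have hc : Commute y (y + algebraMap k D c * y⁻¹) := by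
    change y * (y + algebraMap k D c * y⁻¹) = (y + algebraMap k D c * y⁻¹) * y
    rw [mul_el c y hy, el_mul c y hy]
  have h1 : aeval y (X ^ 2 + C c : k[X]) = y * (y + algebraMap k D c * y⁻¹) := by
    rw [map_add, map_pow, aeval_X, aeval_C, mul_el c y hy]
  rw [hp, map_sum, aeval_eq_sum_range (p := p) (y + algebraMap k D c * y⁻¹), Finset.mul_sum]
  refine Finset.sum_congr rfl fun n hn => ?_
  have hn1 : n ≤ p.natDegree := by
    have := Finset.mem_range.1 hn
    omega
  have h2 : (y ^ n * (y + algebraMap k D c * y⁻¹) ^ n) * y ^ (p.natDegree - n) =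
      y ^ p.natDegree * (y + algebraMap k D c * y⁻¹) ^ n := by
    rw [mul_assoc, ((hc.pow_pow (p.natDegree - n) n).symm).eq, ← mul_assoc, ← pow_add]
    congr 2
    omega
  rw [map_mul, map_mul, map_pow, h1, aeval_C, hc.mul_pow, map_pow, aeval_X, Algebra.smul_def, h2,
    ← mul_assoc (y ^ p.natDegree), ← Algebra.commutes (p.coeff n) (y ^ p.natDegree), mul_assoc]

end TrAux

theorem stTr : StTr := by
  classical
  intro k D _ _ _ q a x y hx hy hxy hq
  have hI := QD.stIndep k D q x y hx hy hxy hq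
  obtain ⟨h1, h2, -, -, -, -⟩ := QD.stTr QD.stIndep k D q x y hx hy hxy hq
  refine ⟨?_, ?_, ?_, ?_⟩
  · intro p hp0 h3
    refine h2 (TrAux.hp ((a : k) ^ 2) p) (TrAux.hp_ne _ p hp0) ?_
    rw [TrAux.aeval_hp ((a : k) ^ 2) p y hy, h3, mul_zero]
  · intro h3
    refine h2 (X ^ 2 - C ((a : k) ^ 2)) (X_pow_sub_C_ne_zero (by norm_num) _) ?_
    rw [map_sub, map_pow, aeval_X, aeval_C]
    exact h3
  · intro h3
    refine h1 (X ^ 2 + C (a : k)) (TrAux.monic_X2 _).ne_zero ?_
    rw [map_add, map_pow, aeval_X, aeval_C, ← TrAux.mul_el (a : k) x hx, h3, mul_zero]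
  · intro h3
    have h4 : y * (algebraMap k D a * y⁻¹ * x + y * x⁻¹) * x =
        algebraMap k D a * x ^ 2 + y ^ 2 := by
      rw [mul_add, add_mul, ← mul_assoc y y x⁻¹, mul_assoc (y * y), inv_mul_cancel₀ hx, mul_one,
        ← mul_assoc y, ← mul_assoc y, ← Algebra.commutes (a : k) y, mul_assoc (algebraMap k D a) y,
        mul_inv_cancel₀ hy, mul_one, mul_assoc (algebraMap k D a), ← pow_two, ← pow_two]
    rw [h3, mul_zero, zero_mul] at h4
    have h5 := hI (Finsupp.single (0, 2) (a : k) + Finsupp.single (2, 0) 1) (by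
      rw [QD.TrAux.mon_add, QD.TrAux.mon_single, QD.TrAux.mon_single, map_one, one_mul, pow_zero,
        one_mul, pow_zero, mul_one, ← h4])
    have h6 := congrArg (fun s : ℕ × ℕ →₀ k => s (0, 2)) h5
    simp at h6

end QE
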