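import Pool.Agent.Lib.QE.CSt

/-!
Project QE, module U: the degree of `e0 r` in terms of poles and multiplicities.
-/

namespace QE

variable {𝔽 : Type} [Field 𝔽]

namespace UAux

theorem tot_add (e e' : Blk 𝔽 →₀ ℤ) (f : Blk 𝔽 → ℤ) : tot (e + e') f = tot e f + tot e' f :=
  Finsupp.sum_add_index' (fun b => zero_mul _) (fun b m n => add_mul m n _)

theorem tot_single (b : Blk 𝔽) (n : ℤ) (f : Blk 𝔽 → ℤ) : tot (Finsupp.single b n) f = n * f b :=
  Finsupp.sum_single_index (zero_mul _)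

theorem tot_e0 (r : 𝔽) (f : Blk 𝔽 → ℤ) : tot (e0 r) f = f ((1, 0), r) + f ((1, 0), -r) +
    f ((0, 1), r⁻¹) + f ((0, 1), -r⁻¹) +
    f ((-1, -1), r⁻¹) + f ((-1, -1), -r⁻¹) := by
  rw [e0]
  simp only [tot_add, tot_single, one_mul]

theorem us_sum (w : ℤ × ℤ) : 2 * (us (1, 0) w + us (0, 1) w + us (-1, -1) w) =
    8 * max 0 (max (-w.1) (-w.2)) + 4 * w.1 + 4 * w.2 := by
  obtain ⟨a, b⟩ := w
  have h1 : us (1, 0) (a, b) = |b| := by
    simp [us]
  have h2 : us (0, 1) (a, b) = |a| := by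
    simp [us]
  rw [h1, h2]
  by_cases h : a < 0 ∧ b < 0
  · have h3 : us (-1, -1) (a, b) = 2 * |a - b| - (|b| + |a|) := by
      have : (0 : ℤ) < -1 * a ∧ (0 : ℤ) < -1 * b := ⟨by omega, by omega⟩
      simp only [us, wed]
      rw [if_pos this]
      have e1 : (-1 * b - -1 * a : ℤ) = a - b := by ring
      rw [e1, neg_one_mul, neg_one_mul, abs_neg, abs_neg]
    rw [h3]
    rw [abs_of_neg h.1, abs_of_neg h.2]
    rcases le_total a b with hab | hab
    · rw [abs_of_nonpos (by omega : a - b ≤ 0), max_eq_left (by omega : -b ≤ -a),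
        max_eq_right (by omega : (0 : ℤ) ≤ -a)]
      ring
    · rw [abs_of_nonneg (by omega : 0 ≤ a - b), max_eq_right (by omega : -a ≤ -b),
        max_eq_right (by omega : (0 : ℤ) ≤ -b)]
      ring
  · have h3 : us (-1, -1) (a, b) = |b| + |a| := by
      have : ¬ ((0 : ℤ) < -1 * a ∧ (0 : ℤ) < -1 * b) := fun h' => h ⟨by omega, by omega⟩
      simp only [us, wed]
      rw [if_neg this, neg_one_mul, neg_one_mul, abs_neg, abs_neg]
    rw [h3]
    rcases le_or_gt 0 a with ha | ha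
    · rcases le_or_gt 0 b with hb | hb
      · rw [abs_of_nonneg ha, abs_of_nonneg hb, max_eq_left (by omega : max (-a) (-b) ≤ 0)]
        ring
      · rw [abs_of_nonneg ha, abs_of_neg hb, max_eq_right (by omega : -a ≤ -b),
          max_eq_right (by omega : (0 : ℤ) ≤ -b)]
        ring
    · have hb : 0 ≤ b := by
        by_contra hb
        exact h ⟨ha, by omega⟩
      rw [abs_of_neg ha, abs_of_nonneg hb, max_eq_left (by omega : -b ≤ -a),
        max_eq_right (by omega : (0 : ℤ) ≤ -a)]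
      ring

theorem tot_us4 {M : Type} [Field M] [Algebra 𝔽 M] (Pl : Places 𝔽 M) (r : 𝔽) (X Y : M) (p : Pl.P) :
    tot (e0 r) (us4 Pl p X Y) = 8 * max 0 (max (-Pl.ord p X) (-Pl.ord p Y)) + 4 * Pl.ord p X +
      4 * Pl.ord p Y - 4 * tot (e0 r) (mm Pl p X Y) := by
  have h := us_sum (ow Pl p X Y)
  rw [tot_e0, tot_e0]
  simp only [us4]
  have e1 : (ow Pl p X Y).1 = Pl.ord p X := rfl
  have e2 : (ow Pl p X Y).2 = Pl.ord p Y := rfl
  rw [e1, e2] at h
  linarith

theorem mm_zero {M : Type} [Field M] [Algebra 𝔽 M] (Pl : Places 𝔽 M) (X Y : M) (p : Pl.P)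
    (hX : Pl.ord p X = 0) (hY : Pl.ord p Y = 0) (b : Blk 𝔽) : mm Pl p X Y b = 0 := by
  have h : ¬ ray b.1 (ow Pl p X Y) := by
    intro h
    have h2 := h.2
    simp only [ow, hX, hY, mul_zero, add_zero, lt_self_iff_false] at h2
  rw [mm, if_neg h]

end UAux

open UAux

theorem stU : StU 𝔽 := by
  intro M _ _ Pl r X Y hX hY
  classical
  have fX := Pl.fin X hX
  have fY := Pl.fin Y hY
  set s : Finset Pl.P := fX.toFinset ∪ fY.toFinset with hs
  have hout : ∀ p, p ∉ s → Pl.ord p X = 0 ∧ Pl.ord p Y = 0 := by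
    intro p hp
    rw [hs, Finset.mem_union, not_or, Set.Finite.mem_toFinset, Set.Finite.mem_toFinset,
      Set.mem_setOf_eq, Set.mem_setOf_eq, not_not, not_not] at hp
    exact hp
  have key : ∀ g : Pl.P → ℤ, (∀ p, Pl.ord p X = 0 → Pl.ord p Y = 0 → g p = 0) →
      ∑ᶠ p, g p = ∑ p ∈ s, g p := by
    intro g hg
    refine finsum_eq_sum_of_support_subset _ ?_
    intro p hp
    by_contra h
    have := hout p (by simpa using h)
    exact hp (hg p this.1 this.2)
  have hm : ∀ p, Pl.ord p X = 0 → Pl.ord p Y = 0 → tot (e0 r) (mm Pl p X Y) = 0 := by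
    intro p h1 h2
    rw [tot_e0]
    simp only [mm_zero Pl X Y p h1 h2, add_zero]
  have k1 := key (fun p => tot (e0 r) (us4 Pl p X Y)) (by
    intro p h1 h2
    change tot (e0 r) (us4 Pl p X Y) = 0
    rw [tot_us4, h1, h2, hm p h1 h2]
    simp)
  have k2 := key (fun p => max 0 (max (-Pl.ord p X) (-Pl.ord p Y))) (by
    intro p h1 h2
    change max 0 (max (-Pl.ord p X) (-Pl.ord p Y)) = 0
    rw [h1, h2]
    simp)
  have k3 := key (fun p => tot (e0 r) (mm Pl p X Y)) hm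
  have k4 := key (fun p => Pl.ord p X) (fun p h1 _ => h1)
  have k5 := key (fun p => Pl.ord p Y) (fun p _ h2 => h2)
  rw [Pl.sum X hX] at k4
  rw [Pl.sum Y hY] at k5
  rw [D4, k1, k2, k3]
  simp only [tot_us4, Finset.sum_sub_distrib, Finset.sum_add_distrib, ← Finset.mul_sum]
  rw [← k4, ← k5]
  ring

end QE
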