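import Pool.Agent.Lib.QE.St2

/-!
Project QE, item Val: a valuation ring with residue characteristic three in every field of
characteristic zero.
-/

namespace QE

open Polynomial QD

namespace ValAux

/-- the ideal generated by three in the ring of integers inside a field of characteristic zero is
proper -/
theorem span_three_ne_top (F : Type) [Field F] [CharZero F] :
    (Ideal.span {(3 : (Int.castRingHom F).range)}) ≠ ⊤ := by
  intro h
  rw [Ideal.span_singleton_eq_top] at h
  obtain ⟨u, hu⟩ := h
  obtain ⟨n, hn⟩ := (u⁻¹ : ((Int.castRingHom F).range)ˣ).val.2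
  have h1 : (3 : (Int.castRingHom F).range) * (u⁻¹ : ((Int.castRingHom F).range)ˣ).val = 1 := by
    rw [← hu]
    exact u.mul_inv
  have h2 : (3 : F) * (n : F) = 1 := by
    have h3 := congrArg (Subtype.val) h1
    have h4 : ((Int.castRingHom F) n) = (n : F) := rfl
    rw [← h4, hn]
    exact h3
  have h5 : (3 * n : ℤ) = 1 := by exact_mod_cast h2
  omega

end ValAux

theorem stVal : StVal := by
  intro F _ _
  obtain ⟨B, -, hB⟩ := Ideal.image_subset_nonunits_valuationSubring
    (A := (Int.castRingHom F).range) _ (ValAux.span_three_ne_top F)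
  have h3 : (3 : F) ∈ B.nonunits :=
    hB ⟨(3 : (Int.castRingHom F).range), Ideal.subset_span rfl, rfl⟩
  have h30 : (3 : F) ≠ 0 := by norm_num
  refine ⟨B, (B.mem_nonunits_iff_or.1 h3).resolve_left h30, ?_⟩
  by_contra h
  have h2 : (2 : F) ∈ B.nonunits := B.mem_nonunits_iff_or.2 (Or.inr h)
  rw [ValuationSubring.mem_nonunits_iff] at h2 h3
  have h1 : B.valuation (3 - 2 : F) < 1 :=
    lt_of_le_of_lt (B.valuation.map_sub 3 2) (max_lt h3 h2)
  have h4 : (3 - 2 : F) = 1 := by norm_num
  rw [h4, map_one] at h1
  exact lt_irrefl _ h1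

end QE
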