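import Pool.Agent.Lib.QD.All
import Pool.Agent.Lib.QE.Final
import Pool.Agent.Lib.QE.Tr
import Pool.Agent.Lib.QE.J
import Pool.Agent.Lib.QE.Inter
import Pool.Agent.Lib.QE.Theta
import Pool.Agent.Lib.QE.ThLead
import Pool.Agent.Lib.QE.NC
import Pool.Agent.Lib.QE.Place
import Pool.Agent.Lib.QE.Tame
import Pool.Agent.Lib.QE.ThRes
import Pool.Agent.Lib.QE.Ind
import Pool.Agent.Lib.QE.ReachInd
import Pool.Agent.Lib.QE.Fac
import Pool.Agent.Lib.QE.Back
import Pool.Agent.Lib.QE.GaP
import Pool.Agent.Lib.QE.Ga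
import Pool.Agent.Lib.QE.A1
import Pool.Agent.Lib.QE.A2
import Pool.Agent.Lib.QE.A3P
import Pool.Agent.Lib.QE.A3
import Pool.Agent.Lib.QE.AIS
import Pool.Agent.Lib.QE.TB
import Pool.Agent.Lib.QE.Q1
import Pool.Agent.Lib.QE.Q2
import Pool.Agent.Lib.QE.Q3K
import Pool.Agent.Lib.QE.Q3
import Pool.Agent.Lib.QE.AT
import Pool.Agent.Lib.QE.T
import Pool.Agent.Lib.QE.Re
import Pool.Agent.Lib.QE.ReT
import Pool.Agent.Lib.QE.Dec
import Pool.Agent.Lib.QE.KK
import Pool.Agent.Lib.QE.SS
import Pool.Agent.Lib.QE.Pos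
import Pool.Agent.Lib.QE.Neg
import Pool.Agent.Lib.QE.Pl
import Pool.Agent.Lib.QE.IndB
import Pool.Agent.Lib.QE.Base
import Pool.Agent.Lib.QE.E0
import Pool.Agent.Lib.QE.U
import Pool.Agent.Lib.QE.N
import Pool.Agent.Lib.QE.Deg
import Pool.Agent.Lib.QE.Mul
import Pool.Agent.Lib.QE.NR
import Pool.Agent.Lib.QE.Sig
import Pool.Agent.Lib.QE.Gauss
import Pool.Agent.Lib.QE.Val
import Pool.Agent.Lib.QE.NRX
import Pool.Agent.Lib.QE.Ord

/-!
Project QE: the theorems without hypotheses.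
-/

namespace QE

open Polynomial QD

theorem allTheta : StTheta :=
  have hI := stIndep
  have hP := stPoly hI
  have hOC := stOreCond hI
  have hG := stGen hI hOC
  have hUP := stUP hI hP hOC stOreHom hG
  have hTr0 := QD.stTr hI
  stTheta (stJ hUP hTr0 stTr stEv) (stInter hUP stUniq hTr0) stUniq stEv hTr0 stTr

theorem allNC : StNC :=
  have hI := stIndep
  have hP := stPoly hI
  have hOC := stOreCond hI
  have hG := stGen hI hOC
  have hUP := stUP hI hP hOC stOreHom hG
  have hTr0 := QD.stTr hI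
  stNC allTheta (stElem hUP stUniq stEv hTr0) stLead (stThLead stLead) (stEvLead stLead) (stAC stLead)
    stUniq stEv hTr0

theorem allPlace : StPlace :=
  have hI := stIndep
  have hOC := stOreCond hI
  stPlace hI (stPoly hI) hOC stOreHom (stGen hI hOC) fun _ _ => stInd

theorem allTame : StTame :=
  stTame (fun _ _ => stInd) (fun _ _ => stReachInd stInd) stEv (QD.stTr stIndep)

theorem allNR (𝔽 : Type) [Field 𝔽] : StNR 𝔽 :=
  have hPos := stPos stDec stKK stSS
  have hA3 := stA3 (stA3P stInd)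
  have hT := stT 𝔽 (stAT 𝔽) hA3 stTB (stQ3 stQ3K) stInd
  have hNeg := stNeg stInd (stGa (stGaP stInd) stInd) stA1 (stA2 stInd) (stAIS stInd) stTB
    stQ1 stQ2 hT (stRe 𝔽) (stReT 𝔽) hPos
  stNR stInd (stReachInd stInd) (stBack stInd (stFac 𝔽)) hNeg stPl stIndB stBase (stE0 𝔽) stU stDeg
    (stMul stN stInd)

/-- The theorem for good pairs. -/
theorem main (k : Type) [Field k] (q : kˣ) (hG : GoodPair k q) (hq : NotRoot q) :
    NotConjTame k (SL (sg q)) SL.xx (SL.con RatFunc.X) :=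
  main_pair allNC allPlace allTame (stThRes fun _ _ => stInd) allNR stSig k q hG hq

/-- The theorem for generic `q`. -/
theorem main_generic (F : Type) [Field F] [CharZero F] (q : (RatFunc F)ˣ)
    (hq : (q : RatFunc F) = RatFunc.X) :
    NotConjTame (RatFunc F) (SL (sg q)) SL.xx (SL.con RatFunc.X) :=
  main (RatFunc F) q (generic_pair stGauss stVal F q hq) (stNRX F q hq)

/-- The theorem for ordered fields and `q` infinitely close to `1`. -/
theorem main_ordered (k : Type) [Field k] [LinearOrder k] [IsStrictOrderedRing k] (q : kˣ)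
    (h1 : (q : k) ≠ 1) (hq : ∀ n : ℕ, 0 < n → |(q : k) - 1| < 1 / n) :
    NotConjTame k (SL (sg q)) SL.xx (SL.con RatFunc.X) := by
  refine main k q (stOrd k q hq) fun n hn he => h1 ?_
  have h := hq 1 Nat.one_pos
  have h0 : (0 : k) ≤ (q : k) := by
    rw [Nat.cast_one, div_one] at h
    have := (abs_lt.mp h).1
    linarith
  exact (pow_eq_one_iff_of_nonneg h0 hn.ne').mp he

end QE
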