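import Pool.Agent.Lib.QD.Defs

/-!
Project QE (MP_794704_al, version 2), definitions, noncommutative part with a parameter `a`.

The general notions (`IsQD`, `Tame`, `SkewL`, ...) are those of `QD/Defs.lean`.
-/

namespace QE

open Polynomial QD

/-- The element `L = x⁻¹y⁻¹ + a(xy⁻¹ + yx⁻¹)`. -/
noncomputable def LA {k D : Type} [Field k] [DivisionRing D] [Algebra k D] (a : kˣ) (x y : D) : D :=
  x⁻¹ * y⁻¹ + algebraMap k D a * (x * y⁻¹ + y * x⁻¹)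

section quintic
variable {k D : Type} [Field k] [DivisionRing D] [Algebra k D]

/-- `n = q²L² + a(1 - q²a)²` -/
noncomputable def qn (q a : kˣ) (x y : D) : D :=
  algebraMap k D (q ^ 2) * LA a x y ^ 2 + algebraMap k D (a * (1 - q ^ 2 * a) ^ 2)

/-- `a₁ = q a⁻¹ (L² - a²(1 - a)(1 - q²a))` -/
noncomputable def qa1 (q a : kˣ) (x y : D) : D :=
  algebraMap k D (q * ((a⁻¹ : kˣ) : k)) *
    (LA a x y ^ 2 - algebraMap k D (a ^ 2 * (1 - a) * (1 - q ^ 2 * a)))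

/-- `a₂ = q(1 - q²a²)L` -/
noncomputable def qa2 (q a : kˣ) (x y : D) : D :=
  algebraMap k D (q * (1 - q ^ 2 * a ^ 2)) * LA a x y

/-- `a₃ = q a (q²L² - (1 - a)(1 - q²a))` -/
noncomputable def qa3 (q a : kˣ) (x y : D) : D :=
  algebraMap k D (q * a) *
    (algebraMap k D (q ^ 2) * LA a x y ^ 2 - algebraMap k D ((1 - a) * (1 - q ^ 2 * a)))

/-- `(X, Y)` is the image of `(x, y)` under the quantum quintic with parameter `a`:
`n X = a₃ x + a₂ y` and `n Y = a₁ y - a₂ x`. -/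
def IsQuint (q a : kˣ) (x y X Y : D) : Prop :=
  qn q a x y ≠ 0 ∧ qn q a x y * X = qa3 q a x y * x + qa2 q a x y * y ∧
    qn q a x y * Y = qa1 q a x y * y - qa2 q a x y * x

end quintic

/-- A place of `D` with values in the commutative field `E`, above the place `ρ : O → 𝔽` of `k`, as a
relation: `rel d e` says that `d` is finite at the place, with residue `e`. -/
structure QPlace {k D 𝔽 E : Type} [Field k] [DivisionRing D] [Algebra k D] [Field 𝔽] [Field E]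
    [Algebra 𝔽 E] (O : ValuationSubring k) (ρ : O →+* 𝔽) (x y : D) (X Y : E) where
  rel : D → E → Prop
  uniq : ∀ d e e', rel d e → rel d e' → e = e'
  add : ∀ d d' e e', rel d e → rel d' e' → rel (d + d') (e + e')
  mul : ∀ d d' e e', rel d e → rel d' e' → rel (d * d') (e * e')
  inv : ∀ d e, rel d e → e ≠ 0 → rel d⁻¹ e⁻¹
  con : ∀ a : O, rel (algebraMap k D (a : k)) (algebraMap 𝔽 E (ρ a))
  relx : rel x X
  rely : rel y Y
  scale : ∀ d : D, d ≠ 0 → ∃ c : k, c ≠ 0 ∧ ∃ e : E, e ≠ 0 ∧ rel (algebraMap k D c * d) e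

/-- A place of `k` at which `q` has value one, with values in the fixed field of the automorphism `σ`
of `𝔽`. -/
structure SPlace (k : Type) {𝔽 : Type} [Field k] [Field 𝔽] (σ : 𝔽 ≃+* 𝔽) (q : kˣ) where
  O : ValuationSubring k
  ρ : O →+* 𝔽
  fix : ∀ a : O, σ (ρ a) = ρ a
  loc : ∀ a : O, ρ a ≠ 0 → IsUnit a
  hq : (q : k) ∈ O
  one : ρ ⟨(q : k), hq⟩ = 1

/-- The parameter `a` is a unit at the place, its value is `-r²` with `σ r = -r`, and is not `±1`. -/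
structure GoodPar {k 𝔽 : Type} [Field k] [Field 𝔽] {σ : 𝔽 ≃+* 𝔽} {q : kˣ} (R : SPlace k σ q)
    (a : kˣ) (r : 𝔽) : Prop where
  two : (2 : 𝔽) ≠ 0
  r0 : r ≠ 0
  anti : σ r = -r
  mem : ∃ ha : (a : k) ∈ R.O, R.ρ ⟨(a : k), ha⟩ = -r ^ 2
  ne1 : -r ^ 2 ≠ 1
  ne2 : -r ^ 2 ≠ -1

/-! ### Commutative part: reachable pairs -/

/-- the coefficients of `P` are fixed by `σ` -/
def FixP {𝔽 : Type} [Field 𝔽] (σ : 𝔽 ≃+* 𝔽) (P : 𝔽[X]) : Prop := ∀ i, σ (P.coeff i) = P.coeff i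

/-- The pairs obtained from `(X0, Y0)` by the classical elementary maps with coefficients fixed by `σ`. -/
inductive Reach {𝔽 E : Type} [Field 𝔽] [Field E] [Algebra 𝔽 E] (σ : 𝔽 ≃+* 𝔽) (X0 Y0 : E) : E → E → Prop
  | base : Reach σ X0 Y0 X0 Y0
  | stepX (X Y : E) (P Q : 𝔽[X]) : P ≠ 0 → Q ≠ 0 → FixP σ P → FixP σ Q → Reach σ X0 Y0 X Y →
      Reach σ X0 Y0 (aeval Y P / aeval Y Q * X) Y
  | stepY (X Y : E) (P Q : 𝔽[X]) : P ≠ 0 → Q ≠ 0 → FixP σ P → FixP σ Q → Reach σ X0 Y0 X Y →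
      Reach σ X0 Y0 X (aeval X P / aeval X Q * Y)
  | inv (X Y : E) : Reach σ X0 Y0 X Y → Reach σ X0 Y0 X⁻¹ Y⁻¹

/-- Algebraic independence over `𝔽`. -/
def Ind (𝔽 : Type) {E : Type} [Field 𝔽] [Field E] [Algebra 𝔽 E] (X Y : E) : Prop :=
  AlgebraicIndependent 𝔽 ![X, Y]

/-- The classical quintic with parameter `a` (value at `q = 1`). -/
def IsQuintC {E : Type} [Field E] (a x y X Y : E) : Prop :=
  ∃ W : E, W = 1 + a * x ^ 2 + a * y ^ 2 ∧ W ^ 2 + a * (1 - a) ^ 2 * x ^ 2 * y ^ 2 ≠ 0 ∧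
    (W ^ 2 + a * (1 - a) ^ 2 * x ^ 2 * y ^ 2) * X =
      x * (a * W ^ 2 - a * (1 - a) ^ 2 * x ^ 2 * y ^ 2 + (1 - a ^ 2) * W * y ^ 2) ∧
    (W ^ 2 + a * (1 - a) ^ 2 * x ^ 2 * y ^ 2) * (a * Y) =
      y * (W ^ 2 - a ^ 2 * (1 - a) ^ 2 * x ^ 2 * y ^ 2 - a * (1 - a ^ 2) * W * x ^ 2)

end QE
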