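import Pool.Agent.Lib.QE.CSt

/-!
Project QD (MP_794704_al), module `StGa 𝔽`: the two versions of the degree agree (product formula).
-/

namespace QE

variable {𝔽 : Type} [Field 𝔽]

open Polynomial

namespace GaAux

section
variable {M : Type} [Field M] [Algebra 𝔽 M] (Pl : Places 𝔽 M)

theorem tot_eq (e : (Blk 𝔽) →₀ ℤ) (f : (Blk 𝔽) → ℤ) : tot e f = ∑ b ∈ e.support, e b * f b := rfl

theorem finsum_ord (f : M) (hf : f ≠ 0) (r : ℤ) : ∑ᶠ p, r * Pl.ord p f = 0 := by
  have h1 := mul_finsum (fun p => Pl.ord p f) r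
  rw [← h1, Pl.sum f hf, mul_zero]

theorem fin_ord (f : M) (hf : f ≠ 0) (r : ℤ) : (Function.support fun p => r * Pl.ord p f).Finite := by
  refine (Pl.fin f hf).subset fun p hp => ?_
  intro h
  apply hp
  change r * Pl.ord p f = 0
  rw [h, mul_zero]

theorem us_zero (b : ℤ × ℤ) : us b (0, 0) = 0 := by
  unfold us
  simp

theorem not_ray_zero (b : ℤ × ℤ) : ¬ ray b (0, 0) := by
  unfold ray
  simp

theorem fin_us4 (X Y : M) (hX : X ≠ 0) (hY : Y ≠ 0) (e : (Blk 𝔽) →₀ ℤ) :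
    (Function.support fun p => tot e (us4 Pl p X Y)).Finite := by
  refine ((Pl.fin X hX).union (Pl.fin Y hY)).subset fun p hp => ?_
  by_contra hcon
  rw [Set.mem_union, not_or] at hcon
  have h1 : Pl.ord p X = 0 := by
    by_contra h
    exact hcon.1 h
  have h2 : Pl.ord p Y = 0 := by
    by_contra h
    exact hcon.2 h
  apply hp
  change tot e (us4 Pl p X Y) = 0
  rw [tot_eq]
  refine Finset.sum_eq_zero fun b _ => ?_
  have h3 : ow Pl p X Y = (0, 0) := by
    unfold ow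
    rw [h1, h2]
  unfold us4 mm
  rw [h3, us_zero, if_neg (not_ray_zero b.1)]
  simp

theorem gl (hI : StInd 𝔽) (hP : StGaP 𝔽) (X Y : M) (e : (Blk 𝔽) →₀ ℤ) (hi : Ind 𝔽 X Y) (ht : TOk e)
    (hb : Bal e) : D4x Pl e X Y = D4 Pl e X Y := by
  obtain ⟨hi2, -, hX, -, hc, -⟩ := hI M X Y hi
  obtain ⟨-, -, hY, -, -, -⟩ := hI M Y X hi2
  have hYs : ∀ t : 𝔽, Y - algebraMap 𝔽 M t ≠ 0 := by
    intro t h
    have h1 := hc 0 1 (by simp) t
    apply h1
    rw [zpow_zero, one_mul, zpow_one]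
    exact sub_eq_zero.mp h
  have hr : ∀ b : (Blk 𝔽), (fun p => e b * (if b.1.2 = 0 ∧ b.1.1 ≠ 0 then
        2 * |b.1.1| * Pl.ord p (Y - algebraMap 𝔽 M (sb b)) else 0)) =
      fun p => (e b * (if b.1.2 = 0 ∧ b.1.1 ≠ 0 then 2 * |b.1.1| else 0)) *
        Pl.ord p (Y - algebraMap 𝔽 M (sb b)) := by
    intro b
    funext p
    split_ifs
    · ring
    · ring
  unfold D4x D4
  have h0 : ∀ p, tot e (xs Pl p X Y) = (tot e (us4 Pl p X Y) +
      ∑ b ∈ e.support, (e b * (if b.1.2 = 0 ∧ b.1.1 ≠ 0 then 2 * |b.1.1| else 0)) *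
        Pl.ord p (Y - algebraMap 𝔽 M (sb b))) +
      tot e (fun b => if 0 < b.1.2 then |b.1.1| else -|b.1.1|) * Pl.ord p Y := by
    intro p
    rw [hP M Pl X Y e hi ht hb p]
    congr 2
    rw [tot_eq]
    refine Finset.sum_congr rfl fun b _ => ?_
    exact congrFun (hr b) p
  have hfs : ∀ b ∈ e.support, (Function.support fun p =>
      (e b * (if b.1.2 = 0 ∧ b.1.1 ≠ 0 then 2 * |b.1.1| else 0)) *
        Pl.ord p (Y - algebraMap 𝔽 M (sb b))).Finite := fun b _ =>
    fin_ord Pl _ (hYs _) _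
  have hfA : (Function.support fun p => ∑ b ∈ e.support,
      (e b * (if b.1.2 = 0 ∧ b.1.1 ≠ 0 then 2 * |b.1.1| else 0)) *
        Pl.ord p (Y - algebraMap 𝔽 M (sb b))).Finite := by
    refine (Set.Finite.biUnion e.support.finite_toSet hfs).subset ?_
    intro p hp
    by_contra hcon
    apply hp
    refine Finset.sum_eq_zero fun b hb' => ?_
    by_contra h
    apply hcon
    rw [Set.mem_iUnion₂]
    exact ⟨b, hb', h⟩
  have hfU := fin_us4 Pl X Y hX hY e
  simp only [h0]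
  rw [finsum_add_distrib ?_ (fin_ord Pl Y hY _), finsum_add_distrib hfU hfA, finsum_ord Pl Y hY,
    finsum_sum_comm _ _ hfs]
  · rw [Finset.sum_eq_zero fun b _ => finsum_ord Pl _ (hYs _) _]
    ring
  · refine (hfU.union hfA).subset ?_
    exact Function.support_add _ _

end

end GaAux

/-- G2. The two versions of the degree agree. -/
theorem stGa (hP : StGaP 𝔽) (hI : StInd 𝔽) : StGa 𝔽 := by
  intro M _ _ Pl X Y e hi ht hb
  exact GaAux.gl Pl hI hP X Y e hi ht hb

end QE
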